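import Mathlib

open MeasureTheory ProbabilityTheory Set Filter Topology
open scoped ENNReal NNReal

namespace Pool.Agent.Work.MP_8495a2_pr

/-- The parameter space of quadruples `(x, s, y, t)` with `s < t`. -/
abbrev Up : Type := {p : ℝ × ℝ × ℝ × ℝ // p.2.1 < p.2.2.2}

/-- The value `l (x, s; y, t)` for `s < t` (and `0` otherwise). -/
noncomputable def ev (l : Up → ℝ) (x s y t : ℝ) : ℝ :=
  if h : s < t then l ⟨(x, s, y, t), h⟩ else 0

/-- Weights of the paths from time `x` on line `0` to time `y` on line `n`: the path runs on line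
`i` during `[t i, t (i+1)]` and collects the increment of `f i`. -/
def lpSet (f : ℕ → ℝ → ℝ) (n : ℕ) (x y : ℝ) : Set ℝ :=
  {v | ∃ t : ℕ → ℝ, t 0 = x ∧ t (n + 1) = y ∧ (∀ i ≤ n, t i ≤ t (i + 1)) ∧
    v = ∑ i ∈ Finset.range (n + 1), (f i (t (i + 1)) - f i (t i))}

/-- Last passage value across the lines `f 0, …, f n` from time `x` to time `y`. -/
noncomputable def lp (f : ℕ → ℝ → ℝ) (n : ℕ) (x y : ℝ) : ℝ := sSup (lpSet f n x y)

/-- Last passage value `f[(x, k) → (y, l)]` across the lines `k, k - 1, …, l`. -/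
noncomputable def lastPassage (f : ℤ → ℝ → ℝ) (x : ℝ) (k : ℤ) (y : ℝ) (l : ℤ) : ℝ :=
  lp (fun i => f (k - i)) (k - l).toNat x y

/-- A family of independent two-sided standard Brownian motions. -/
structure IsBMFamily {ι Ω : Type*} [MeasurableSpace Ω] (P : Measure Ω) (B : ι → ℝ → Ω → ℝ) :
    Prop where
  meas : ∀ i t, Measurable (B i t)
  cont : ∀ i ω, Continuous fun t => B i t ω
  zero : ∀ i ω, B i 0 ω = 0
  gauss : ∀ i s t, s ≤ t → P.map (fun ω => B i t ω - B i s ω) = gaussianReal 0 (t - s).toNNReal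
  incr : ∀ i, HasIndepIncrements (B i) P
  indep : iIndepFun (fun i ω t => B i t ω) P

/-- Rescaled last passage percolation: with `(x, s)_n = (s + 2 x / n^(1/3), -⌊s n⌋)` one has
`f[(x,s)_n → (y,t)_n] = 2 (t-s) √n + 2 (y-x) n^(1/6) + n^(-1/6) rescaled n f (x,s;y,t)`. -/
noncomputable def rescaled (n : ℕ) (f : ℤ → ℝ → ℝ) (u : Up) : ℝ :=
  (n : ℝ) ^ (1 / 6 : ℝ) *
    (lastPassage f (u.1.2.1 + 2 * u.1.1 / (n : ℝ) ^ (1 / 3 : ℝ)) (-⌊u.1.2.1 * n⌋)
        (u.1.2.2.2 + 2 * u.1.2.2.1 / (n : ℝ) ^ (1 / 3 : ℝ)) (-⌊u.1.2.2.2 * n⌋) -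
      2 * (u.1.2.2.2 - u.1.2.1) * √n - 2 * (u.1.2.2.1 - u.1.1) * (n : ℝ) ^ (1 / 6 : ℝ))

/-- `L` is a random continuous function coupled with Brownian last passage percolations `B n`
whose rescalings converge to `L` in probability, uniformly on compact sets. -/
structure IsCoupledLimit {Ω : Type*} [MeasurableSpace Ω] (P : Measure Ω)
    (B : ℕ → ℤ → ℝ → Ω → ℝ) (L : Ω → Up → ℝ) : Prop where
  prob : IsProbabilityMeasure P
  bm : ∀ n, IsBMFamily P (B n)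
  meas : Measurable L
  cont : ∀ ω, Continuous (L ω)
  conv : ∀ K : Set Up, IsCompact K → ∀ ε : ℝ, 0 < ε →
    Tendsto (fun n => P {ω | ∃ u ∈ K, ε ≤ |rescaled n (fun i t => B n i t ω) u - L ω u|})
      atTop (𝓝 0)

/-- The directed landscape: a random continuous function on `Up` with the law of the scaling
limit of Brownian last passage percolation. -/
def IsDirectedLandscape {Ω : Type*} [MeasurableSpace Ω] (P : Measure Ω) (L : Ω → Up → ℝ) : Prop :=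
  Measurable L ∧ (∀ ω, Continuous (L ω)) ∧
    ∃ (Ω' : Type) (_ : MeasurableSpace Ω') (P' : Measure Ω') (B : ℕ → ℤ → ℝ → Ω' → ℝ)
      (L' : Ω' → Up → ℝ), IsCoupledLimit P' B L' ∧ P.map L = P'.map L'

/-- Continuous paths on `[0, 1]` from `(0, 0)` to `(0, 1)`. -/
def IsPath (γ : ℝ → ℝ) : Prop := ContinuousOn γ (Icc 0 1) ∧ γ 0 = 0 ∧ γ 1 = 0

/-- Length of a path on `[0, 1]`: the infimum over partitions `0 = τ 0 < … < τ (k+1) = 1`. -/
noncomputable def pathLength (l : Up → ℝ) (γ : ℝ → ℝ) : EReal :=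
  ⨅ (k : ℕ) (τ : ℕ → ℝ) (_ : τ 0 = 0 ∧ τ (k + 1) = 1 ∧ ∀ i ≤ k, τ i < τ (i + 1)),
    ((∑ i ∈ Finset.range (k + 1), ev l (γ (τ i)) (τ i) (γ (τ (i + 1))) (τ (i + 1)) : ℝ) : EReal)

/-- Geodesics from `(0, 0)` to `(0, 1)`: paths of maximal length. -/
def IsGeodesic (l : Up → ℝ) (π : ℝ → ℝ) : Prop :=
  IsPath π ∧ ∀ γ, IsPath γ → pathLength l γ ≤ pathLength l π

/-- The weight function `W t = l (0, 0; π t, t)` for `t > 0`, `W 0 = 0`. -/
noncomputable def weight (l : Up → ℝ) (π : ℝ → ℝ) (t : ℝ) : ℝ := ev l 0 0 (π t) t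

/-- The gauge `h r = r^(1/3) log^(2/3) (2 / r)`. -/
noncomputable def gauge (r : ℝ) : ℝ := r ^ (1 / 3 : ℝ) * Real.log (2 / r) ^ (2 / 3 : ℝ)

/-- The quantity `M ε`. -/
noncomputable def modulus (l : Up → ℝ) (π : ℝ → ℝ) (ε : ℝ) : ℝ≥0∞ :=
  ⨆ (s : ℝ) (t : ℝ) (_ : s ∈ Icc (0 : ℝ) 1 ∧ t ∈ Icc (0 : ℝ) 1 ∧ 0 < |t - s| ∧ |t - s| < ε),
    ENNReal.ofReal (|weight l π t - weight l π s| / gauge |t - s|)

end Pool.Agent.Work.MP_8495a2_pr
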