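import Pool.Agent.Work.MP_8495a2_pr.Defs

-- merged part: Pool.Agent.Work.MP_8495a2_pr.Basic
section
open MeasureTheory ProbabilityTheory Set Filter Topology
open scoped ENNReal NNReal

namespace Pool.Agent.Work.MP_8495a2_pr

/-! ### Deterministic last passage helpers -/

/-- Locally bounded families of functions. -/
def LB (f : ℕ → ℝ → ℝ) : Prop := ∀ i x y, ∃ C, ∀ t ∈ Icc x y, |f i t| ≤ C

/-- Shift of the line index. -/
def sh (a : ℕ) (f : ℕ → ℝ → ℝ) : ℕ → ℝ → ℝ := fun i => f (a + i)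

/-- Drift `θ` added to line `0`. -/
def drift (θ : ℝ) (f : ℕ → ℝ → ℝ) : ℕ → ℝ → ℝ := fun i t => f i t + if i = 0 then θ * t else 0

/-- The sample paths at `ω`. -/
def path {ι Ω : Type*} (B : ι → ℝ → Ω → ℝ) (ω : Ω) : ι → ℝ → ℝ := fun i t => B i t ω

/-- Step functions with jumps `a i b` at the integer times `b + 1`. -/
noncomputable def stepF (a : ℕ → ℕ → ℝ) : ℕ → ℝ → ℝ :=
  fun i t => ∑ b ∈ Finset.range ⌊t⌋₊, a i b

/-- Increments over the grid `x0 + ε ℕ`. -/
def grid (f : ℕ → ℝ → ℝ) (x0 ε : ℝ) : ℕ → ℕ → ℝ :=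
  fun i b => f i (x0 + (b + 1) * ε) - f i (x0 + b * ε)

/-- Extension by zero of a finite array. -/
def ext (N J : ℕ) (z : Fin N × Fin J → ℝ) : ℕ → ℕ → ℝ :=
  fun i b => if h : i < N ∧ b < J then z (⟨i, h.1⟩, ⟨b, h.2⟩) else 0

/-! ### The Bernoulli model -/

/-- The law on `Bool` with odds `exp a : exp (-a)`. -/
noncomputable def stepM (a : ℝ) : Measure Bool :=
  ENNReal.ofReal (Real.exp a / (Real.exp a + Real.exp (-a))) • Measure.dirac true +
    ENNReal.ofReal (Real.exp (-a) / (Real.exp a + Real.exp (-a))) • Measure.dirac false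

instance stepM_prob (a : ℝ) : IsProbabilityMeasure (stepM a) := by
  constructor
  have h1 := Real.exp_pos a
  have h2 := Real.exp_pos (-a)
  simp only [stepM, Measure.coe_add, Measure.coe_smul, Pi.add_apply, Pi.smul_apply, measure_univ,
    smul_eq_mul, mul_one]
  rw [← ENNReal.ofReal_add (by positivity) (by positivity), ← add_div, div_self (by positivity),
    ENNReal.ofReal_one]

/-- `m` independent columns of `n + 1` independent bits; row `0` is tilted by `a`. -/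
noncomputable def arrM (m n : ℕ) (a : ℝ) : Measure (Fin m → Fin (n + 1) → Bool) :=
  Measure.pi fun _ => Measure.pi fun k => stepM (if k = 0 then a else 0)

instance arrM_prob (m n : ℕ) (a : ℝ) : IsProbabilityMeasure (arrM m n a) := by
  unfold arrM; infer_instance

/-- The geometric law `(1 - ρ) ρ ^ j` with `ρ = exp (-2 a)` (a probability for `a > 0`). -/
noncomputable def geoM (a : ℝ) : Measure ℕ :=
  Measure.sum fun j => ENNReal.ofReal ((1 - Real.exp (-2 * a)) * Real.exp (-2 * a) ^ j) •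
    Measure.dirac j

/-- Signs. -/
def sgn (b : Bool) : ℝ := if b then 1 else -1

/-- The array of signs: row `k`, column `i`. -/
def walkA (m n : ℕ) (ω : Fin m → Fin (n + 1) → Bool) : ℕ → ℕ → ℝ :=
  fun k i => if h : i < m ∧ k < n + 1 then sgn (ω ⟨i, h.1⟩ ⟨k, h.2⟩) else 0

/-- The array of bits: column `i`, row `k`. -/
def bitA (m n : ℕ) (ω : Fin m → Fin (n + 1) → Bool) : ℕ → ℕ → ℕ :=
  fun i k => if h : i < m ∧ k < n + 1 then (ω ⟨i, h.1⟩ ⟨k, h.2⟩).toNat else 0

/-- Extension by zero of the vertical boundary. -/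
def extJ (n : ℕ) (J : Fin n → ℕ) : ℕ → ℕ := fun l => if h : l < n then J ⟨l, h⟩ else 0

/-- The Bernoulli growth model with vertical boundary gaps `J`: column `i`, row `k`. -/
def sjG (J : ℕ → ℕ) (ξ : ℕ → ℕ → ℕ) : ℕ → ℕ → ℕ
  | 0, k => ∑ l ∈ Finset.range k, J l
  | i + 1, 0 => sjG J ξ i 0 + ξ i 0
  | i + 1, k + 1 => max (sjG J ξ i (k + 1) + ξ i (k + 1)) (sjG J ξ (i + 1) k)

/-- Last passage value of the `n + 1` sign walks over `m` steps. -/
noncomputable def Xd (m n : ℕ) (ω : Fin m → Fin (n + 1) → Bool) : ℝ :=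
  lp (stepF (walkA m n ω)) n 0 m

/-- The exponential moment of the stationary model. -/
noncomputable def Phi (m n : ℕ) (a' a : ℝ) : ℝ :=
  (Real.cosh a / Real.cosh a') ^ m * ((1 - Real.exp (-2 * a)) / (1 - Real.exp (-2 * a'))) ^ n

/-- Its Brownian limit (logarithm). -/
noncomputable def In (n : ℕ) (T θ' θ : ℝ) : ℝ := T * (θ ^ 2 - θ' ^ 2) / 2 + n * Real.log (θ / θ')

/-- Block sums of the sign walks: `J` blocks of `M` steps, scaled by `σ`. -/
noncomputable def blockS (J M n : ℕ) (σ : ℝ) (ω : Fin (J * M) → Fin (n + 1) → Bool) :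
    Fin (n + 1) × Fin J → ℝ :=
  fun w => σ * ∑ i ∈ Finset.range M, walkA (J * M) n ω w.1 (w.2 * M + i)

/-- Rescaled line-to-point profile (`n = c ^ 6`), line `0` is kept as an independent boundary. -/
noncomputable def Hs {Ω : Type*} (B : ℕ → ℝ → Ω → ℝ) (n : ℕ) (c x : ℝ) (ω : Ω) : ℝ :=
  c * (lp (sh 1 (path B ω)) n (2 * x / c ^ 2) 1 - 2 * c ^ 3 + 2 * x * c)

/-! ### Properties of the law of the limit -/

/-- The past of time `t`. -/
@[reducible] def mP (t : ℝ) : MeasurableSpace (Up → ℝ) :=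
  MeasurableSpace.comap (fun (l : Up → ℝ) (u : {u : Up // u.1.2.2.2 ≤ t}) => l u)
    MeasurableSpace.pi

/-- The future of time `t`. -/
@[reducible] def mF (t : ℝ) : MeasurableSpace (Up → ℝ) :=
  MeasurableSpace.comap (fun (l : Up → ℝ) (u : {u : Up // t ≤ u.1.2.1}) => l u)
    MeasurableSpace.pi

/-- Gain of the straight line at position `ρ` over its two halves. -/
noncomputable def Xi (l : Up → ℝ) (s u t ρ : ℝ) : ℝ := ev l ρ s ρ t - ev l ρ s ρ u - ev l ρ u ρ t

/-- The approximate composition property. -/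
def QuadAt (l : Up → ℝ) (x s u y t R ε : ℝ) : Prop :=
  (∃ z : ℚ, |(z : ℝ)| ≤ R ∧ ev l x s y t ≤ ev l x s z u + ev l z u y t + ε) ∨
    ev l x s y t ≤ ev l x s R u + ev l R u y t + Xi l s u t R + ε ∨
    ev l x s y t ≤ ev l x s (-R) u + ev l (-R) u y t + Xi l s u t (-R) + ε

/-- What is used about the law of the directed landscape. -/
structure Ax (μ : Measure (Up → ℝ)) : Prop where
  prob : IsProbabilityMeasure μ
  tri : ∀ x s z u y t : ℝ, s < u → u < t →
    ∀ᵐ l ∂μ, ev l x s z u + ev l z u y t ≤ ev l x s y t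
  quad : ∀ (x s u y t : ℝ) (R : ℕ) (ε : ℝ), s < u → u < t → |x| ≤ R → |y| ≤ R → 0 < ε →
    ∀ᵐ l ∂μ, QuadAt l x s u y t R ε
  cut : ∀ t : ℝ, Indep (mP t) (mF t) μ
  stat : ∀ (κ : Type) [Fintype κ] (x y : κ → ℝ) (s s' r : ℚ), 0 < r →
    μ.map (fun l k => ev l (x k) s (y k) (s + r)) = μ.map (fun l k => ev l (x k) s' (y k) (s' + r))
  one : ∀ x s y t : ℝ, s < t → μ.map (fun l => ev l x s y t) =
    μ.map (fun l => (t - s) ^ (1 / 3 : ℝ) * ev l 0 0 0 1 - (x - y) ^ 2 / (t - s))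
  expm : ∫⁻ l, ENNReal.ofReal (Real.exp (ev l 0 0 0 1)) ∂μ < ∞
  lowb : ∀ k : ℕ, 1 ≤ k →
    μ {l | ∀ x : ℚ, 0 ≤ x → (x : ℝ) ≤ 12 * k → ev l x 0 0 1 < -62 * k ^ 2} ≤
      ENNReal.ofReal (20 * Real.exp (-k))
  pos : 0 < μ {l | 1 / 2 ≤ ev l 0 0 0 1}

/-- Usable one-point bounds. -/
structure Tails (μ : Measure (Up → ℝ)) (C : ℝ) (α : ℕ) : Prop where
  one_le : 1 ≤ C
  alpha : 1 ≤ α
  up : ∀ x s y t σ z : ℝ, s < t → 0 < σ → t - s ≤ σ ^ 3 → 0 ≤ z →
    μ {l | σ * z ≤ ev l x s y t + (x - y) ^ 2 / (t - s)} ≤ ENNReal.ofReal (C * Real.exp (-z))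
  low : ∀ x s y t σ : ℝ, s < t → 0 < σ → t - s ≤ σ ^ 3 →
    MemLp (fun l => max (-(ev l x s y t + (x - y) ^ 2 / (t - s))) 0) 2 μ ∧
      ∫ l, (max (-(ev l x s y t + (x - y) ^ 2 / (t - s))) 0) ^ 2 ∂μ ≤ C ^ 2 * σ ^ 2
  pos : ∀ x s σ : ℝ, 0 < σ → (1 / 2 : ℝ≥0∞) ^ α ≤ μ {l | σ / 2 ≤ ev l x s x (s + σ ^ 3)}

/-- Cube root of `2 ^ (-j)`. -/
noncomputable def sig (j : ℕ) : ℝ := ((1 / 2 : ℝ) ^ j) ^ (1 / 3 : ℝ)

/-- Uniform upper bound on dyadic strips at the point `(x, y)`. -/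
def UBat (l : Up → ℝ) (K x y : ℝ) : Prop :=
  ∀ j i : ℕ, i < 2 ^ j → ev l x (i / 2 ^ j) y ((i + 1) / 2 ^ j) ≤
    -((x - y) ^ 2 * 2 ^ j / 6) + K * (1 + j) * sig j * (1 + |x| + |y|)

/-- The reverse triangle inequality everywhere. -/
def Tri (l : Up → ℝ) : Prop :=
  ∀ x s z u y t : ℝ, s < u → u < t → ev l x s z u + ev l z u y t ≤ ev l x s y t

/-- Existence of midpoints on dyadic strips. -/
def Mid (l : Up → ℝ) : Prop :=
  ∀ j i : ℕ, i < 2 ^ j → ∀ x y : ℝ, ∃ z : ℝ, ev l x (i / 2 ^ j) y ((i + 1) / 2 ^ j) ≤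
    ev l x (i / 2 ^ j) z ((2 * i + 1) / 2 ^ (j + 1)) +
      ev l z ((2 * i + 1) / 2 ^ (j + 1)) y ((i + 1) / 2 ^ j)

/-! ### Capped chains -/

/-- Forward step: jumps of at most `W` sites, weights capped at `c`. -/
noncomputable def Tf {N : ℕ} (W : ℕ) (c : ℝ) (S : Fin (N + 1) → Fin (N + 1) → ℝ)
    (F : Fin (N + 1) → ℝ) : Fin (N + 1) → ℝ := fun y =>
  (Finset.univ.filter fun x : Fin (N + 1) => Nat.dist x y ≤ W).sup'
    ⟨y, by simp [Nat.dist_self]⟩ fun x => F x + min (S x y) c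

/-- Backward step. -/
noncomputable def Tb {N : ℕ} (W : ℕ) (c : ℝ) (S : Fin (N + 1) → Fin (N + 1) → ℝ)
    (G : Fin (N + 1) → ℝ) : Fin (N + 1) → ℝ := fun x =>
  (Finset.univ.filter fun y : Fin (N + 1) => Nat.dist x y ≤ W).sup'
    ⟨x, by simp [Nat.dist_self]⟩ fun y => min (S x y) c + G y

/-- Gluing of a forward and a backward profile. -/
noncomputable def md {N : ℕ} (F G : Fin (N + 1) → ℝ) : ℝ :=
  Finset.univ.sup' Finset.univ_nonempty fun x => F x + G x

/-- Law of the forward profile after `i` independent strips of law `ν`. -/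
noncomputable def muF {N : ℕ} (ν : Measure (Fin (N + 1) → Fin (N + 1) → ℝ)) (W : ℕ) (c : ℝ) :
    ℕ → Measure (Fin (N + 1) → ℝ)
  | 0 => Measure.dirac 0
  | i + 1 => ((muF ν W c i).prod ν).map fun p => Tf W c p.2 p.1

/-- Law of the backward profile after `j` independent strips of law `ν`. -/
noncomputable def muB {N : ℕ} (ν : Measure (Fin (N + 1) → Fin (N + 1) → ℝ)) (W : ℕ) (c : ℝ) :
    ℕ → Measure (Fin (N + 1) → ℝ)
  | 0 => Measure.dirac 0
  | j + 1 => ((muB ν W c j).prod ν).map fun p => Tb W c p.2 p.1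

/-- Mean value of the best chain through `i` strips capped at `c1` and `j` strips capped
at `c2`. -/
noncomputable def ee {N : ℕ} (ν : Measure (Fin (N + 1) → Fin (N + 1) → ℝ)) (W : ℕ) (c1 c2 : ℝ)
    (i j : ℕ) : ℝ :=
  ∫ p, md p.1 p.2 ∂((muF ν W c1 i).prod (muB ν W c2 j))

/-- The strip `[s, s + r]` of `l` on the sites `pos`. -/
noncomputable def strip {N : ℕ} (pos : Fin (N + 1) → ℝ) (r : ℝ) (l : Up → ℝ) (s : ℝ) :
    Fin (N + 1) → Fin (N + 1) → ℝ := fun a b => ev l (pos a) s (pos b) (s + r)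

/-- Forward profile of `l` started at time `s`. -/
noncomputable def fwd {N : ℕ} (pos : Fin (N + 1) → ℝ) (r : ℝ) (W : ℕ) (c : ℝ) (l : Up → ℝ)
    (s : ℝ) : ℕ → Fin (N + 1) → ℝ
  | 0 => 0
  | i + 1 => Tf W c (strip pos r l (s + i * r)) (fwd pos r W c l s i)

/-- Backward profile of `l` ending at time `t`. -/
noncomputable def bwd {N : ℕ} (pos : Fin (N + 1) → ℝ) (r : ℝ) (W : ℕ) (c : ℝ) (l : Up → ℝ)
    (t : ℝ) : ℕ → Fin (N + 1) → ℝ
  | 0 => 0
  | j + 1 => Tb W c (strip pos r l (t - (j + 1) * r)) (bwd pos r W c l t j)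

/-- Value of the block of `i + j` strips starting at time `s`. -/
noncomputable def blk {N : ℕ} (pos : Fin (N + 1) → ℝ) (r : ℝ) (W : ℕ) (c1 c2 : ℝ) (i j : ℕ)
    (s : ℝ) (l : Up → ℝ) : ℝ :=
  md (fwd pos r W c1 l s i) (bwd pos r W c2 l (s + (i + j) * r) j)

end Pool.Agent.Work.MP_8495a2_pr
end

-- merged part: Pool.Agent.Work.MP_8495a2_pr.Chain
section
open MeasureTheory ProbabilityTheory Set Filter Topology
open scoped ENNReal NNReal

namespace Pool.Agent.Work.MP_8495a2_pr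

variable {N : ℕ}

theorem Chain_cTf (W : ℕ) (c : ℝ) : Continuous fun p : (Fin (N + 1) → ℝ) ×
    (Fin (N + 1) → Fin (N + 1) → ℝ) => Tf W c p.2 p.1 :=
  continuous_pi fun _ => Continuous.finset_sup'_apply _ fun _ _ => by fun_prop

theorem Chain_cTb (W : ℕ) (c : ℝ) : Continuous fun p : (Fin (N + 1) → ℝ) ×
    (Fin (N + 1) → Fin (N + 1) → ℝ) => Tb W c p.2 p.1 :=
  continuous_pi fun _ => Continuous.finset_sup'_apply _ fun _ _ => by fun_prop

theorem Chain_cmd : Continuous fun p : (Fin (N + 1) → ℝ) × (Fin (N + 1) → ℝ) => md p.1 p.2 :=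
  Continuous.finset_sup'_apply _ fun _ _ => by fun_prop

theorem measurable_Tf (W : ℕ) (c : ℝ) : Measurable fun p : (Fin (N + 1) → ℝ) ×
    (Fin (N + 1) → Fin (N + 1) → ℝ) => Tf W c p.2 p.1 := (Chain_cTf W c).measurable

theorem measurable_Tb (W : ℕ) (c : ℝ) : Measurable fun p : (Fin (N + 1) → ℝ) ×
    (Fin (N + 1) → Fin (N + 1) → ℝ) => Tb W c p.2 p.1 := (Chain_cTb W c).measurable

theorem measurable_md : Measurable fun p : (Fin (N + 1) → ℝ) × (Fin (N + 1) → ℝ) =>
    md p.1 p.2 := Chain_cmd.measurable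

instance muF_prob (ν : Measure (Fin (N + 1) → Fin (N + 1) → ℝ)) [IsProbabilityMeasure ν] (W : ℕ)
    (c : ℝ) (i : ℕ) : IsProbabilityMeasure (muF ν W c i) := by
  induction i with
  | zero => unfold muF; infer_instance
  | succ i ih => exact Measure.isProbabilityMeasure_map (measurable_Tf W c).aemeasurable

instance muB_prob (ν : Measure (Fin (N + 1) → Fin (N + 1) → ℝ)) [IsProbabilityMeasure ν] (W : ℕ)
    (c : ℝ) (j : ℕ) : IsProbabilityMeasure (muB ν W c j) := by
  induction j with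
  | zero => unfold muB; infer_instance
  | succ j ih => exact Measure.isProbabilityMeasure_map (measurable_Tb W c).aemeasurable

section Det

variable {W : ℕ} {c c1 : ℝ} (S : Fin (N + 1) → Fin (N + 1) → ℝ) (F G : Fin (N + 1) → ℝ)
  {x y : Fin (N + 1)}

theorem Chain_le_Tf (c : ℝ) (h : Nat.dist x y ≤ W) : F x + min (S x y) c ≤ Tf W c S F y :=
  Finset.le_sup' (fun x => F x + min (S x y) c) (Finset.mem_filter.2 ⟨Finset.mem_univ _, h⟩)

theorem Chain_le_Tb (c : ℝ) (h : Nat.dist x y ≤ W) : min (S x y) c + G y ≤ Tb W c S G x :=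
  Finset.le_sup' (fun y => min (S x y) c + G y) (Finset.mem_filter.2 ⟨Finset.mem_univ _, h⟩)

theorem Chain_ex_Tf (W : ℕ) (c : ℝ) (y : Fin (N + 1)) :
    ∃ x : Fin (N + 1), Nat.dist x y ≤ W ∧ Tf W c S F y = F x + min (S x y) c := by
  obtain ⟨x, h1, h2⟩ := Finset.exists_mem_eq_sup' (s := Finset.univ.filter fun x : Fin (N + 1) =>
    Nat.dist x y ≤ W) ⟨y, by simp [Nat.dist_self]⟩ fun x => F x + min (S x y) c
  exact ⟨x, (Finset.mem_filter.1 h1).2, h2⟩

theorem Chain_ex_Tb (W : ℕ) (c : ℝ) (x : Fin (N + 1)) :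
    ∃ y : Fin (N + 1), Tb W c S G x = min (S x y) c + G y := by
  obtain ⟨y, -, h2⟩ := Finset.exists_mem_eq_sup' (s := Finset.univ.filter fun y : Fin (N + 1) =>
    Nat.dist x y ≤ W) ⟨x, by simp [Nat.dist_self]⟩ fun y => min (S x y) c + G y
  exact ⟨y, h2⟩

theorem Chain_le_md (x : Fin (N + 1)) : F x + G x ≤ md F G :=
  Finset.le_sup' (fun x => F x + G x) (Finset.mem_univ x)

theorem Chain_ex_md : ∃ x, md F G = F x + G x := by
  obtain ⟨x, -, h⟩ := Finset.exists_mem_eq_sup' Finset.univ_nonempty fun x => F x + G x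
  exact ⟨x, h⟩

theorem Chain_abs (x : Fin (N + 1)) : -‖F‖ ≤ F x ∧ F x ≤ ‖F‖ := abs_le.1 (norm_le_pi_norm F x)

theorem Chain_norm_md : ‖md F G‖ ≤ ‖F‖ + ‖G‖ := by
  obtain ⟨x, h⟩ := Chain_ex_md F G
  rw [h]
  exact norm_add_le_of_le (norm_le_pi_norm F x) (norm_le_pi_norm G x)

theorem Chain_diag (h : c1 ≤ c) (y : Fin (N + 1)) : -∑ z, |min (S z z) c1| ≤ min (S y y) c :=
  (neg_le_neg (Finset.single_le_sum (f := fun z => |min (S z z) c1|) (fun _ _ => abs_nonneg _)
    (Finset.mem_univ y))).trans ((neg_abs_le _).trans (min_le_min_left _ h))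

theorem Chain_norm_Tf (W : ℕ) (h : c1 ≤ c) :
    ‖Tf W c S F‖ ≤ ‖F‖ + (|c| + ∑ z, |min (S z z) c1|) := by
  have h0 : 0 ≤ ∑ z, |min (S z z) c1| := Finset.sum_nonneg fun _ _ => abs_nonneg _
  refine (pi_norm_le_iff_of_nonneg (by positivity)).2 fun y => abs_le.2 ⟨?_, ?_⟩
  · have h1 := Chain_le_Tf S F c (W := W) (x := y) (y := y) (by simp [Nat.dist_self])
    linarith only [h1, h, Chain_diag S h y, (Chain_abs F y).1, abs_nonneg c]
  · obtain ⟨x, -, h1⟩ := Chain_ex_Tf S F W c y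
    linarith [(Chain_abs F x).2, min_le_right (S x y) c, le_abs_self c]

theorem Chain_norm_Tb (W : ℕ) (h : c1 ≤ c) :
    ‖Tb W c S G‖ ≤ ‖G‖ + (|c| + ∑ z, |min (S z z) c1|) := by
  have h0 : 0 ≤ ∑ z, |min (S z z) c1| := Finset.sum_nonneg fun _ _ => abs_nonneg _
  refine (pi_norm_le_iff_of_nonneg (by positivity)).2 fun x => abs_le.2 ⟨?_, ?_⟩
  · have h1 := Chain_le_Tb S G c (W := W) (x := x) (y := x) (by simp [Nat.dist_self])
    linarith only [h1, h, Chain_diag S h x, (Chain_abs G x).1, abs_nonneg c]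
  · obtain ⟨y, h1⟩ := Chain_ex_Tb S G W c x
    linarith [(Chain_abs G y).2, min_le_right (S x y) c, le_abs_self c]

/-- Gluing with a free jump of at most `w` sites. -/
noncomputable def Chain_mw (w : ℕ) (p : (Fin (N + 1) → ℝ) × (Fin (N + 1) → ℝ)) : ℝ :=
  md (Tf w 0 0 p.1) p.2

theorem Chain_le_mw (h : Nat.dist x y ≤ W) : F x + G y ≤ Chain_mw W (F, G) := by
  have h1 := Chain_le_Tf 0 F 0 h
  have h2 := Chain_le_md (Tf W 0 0 F) G y
  simp only [Pi.zero_apply, min_self] at h1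
  exact le_trans (by linarith only [h1]) h2

theorem Chain_ex_mw (W : ℕ) :
    ∃ x y : Fin (N + 1), Nat.dist x y ≤ W ∧ Chain_mw W (F, G) = F x + G y := by
  obtain ⟨y, h1⟩ := Chain_ex_md (Tf W 0 0 F) G
  obtain ⟨x, h2, h3⟩ := Chain_ex_Tf 0 F W 0 y
  refine ⟨x, y, h2, h1.trans ?_⟩
  rw [h3]
  simp

theorem Chain_norm_mw (W : ℕ) : ‖Chain_mw W (F, G)‖ ≤ ‖F‖ + ‖G‖ := by
  obtain ⟨x, y, -, h⟩ := Chain_ex_mw F G W
  rw [h]
  exact norm_add_le_of_le (norm_le_pi_norm F x) (norm_le_pi_norm G y)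

theorem Chain_mw_zero : Chain_mw 0 (F, G) ≤ md F G := by
  obtain ⟨x, y, h1, h2⟩ := Chain_ex_mw F G 0
  obtain rfl : x = y := Fin.ext (Nat.eq_of_dist_eq_zero (Nat.le_zero.1 h1))
  exact h2.trans_le (Chain_le_md F G x)

theorem Chain_cmw (w : ℕ) : Continuous (Chain_mw (N := N) w) :=
  Chain_cmd.comp (((Chain_cTf w 0).comp (continuous_fst.prodMk continuous_const)).prodMk
    continuous_snd)

theorem Chain_mid {w g : ℕ} (h : Nat.dist x y ≤ w + g) :
    ∃ z : Fin (N + 1), Nat.dist x z ≤ g ∧ Nat.dist z y ≤ w := by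
  have h1 := x.2
  have h2 := y.2
  unfold Nat.dist at h ⊢
  rcases le_total (x : ℕ) y with e | e
  · exact ⟨⟨min (x + g) y, by omega⟩, by simp only; omega, by simp only; omega⟩
  · exact ⟨⟨max (x - g) y, by omega⟩, by simp only; omega, by simp only; omega⟩

end Det

theorem Chain_fub {P Q : Type} [MeasurableSpace P] [MeasurableSpace Q] {lam : Measure P}
    {ν : Measure Q} [SFinite lam] [SFinite ν] {f : P × Q → ℝ} (hf : Integrable f (lam.prod ν))
    {h : P → ℝ} (hh : Integrable h lam)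
    (H : ∀ p, Integrable (fun S => f (p, S)) ν → h p ≤ ∫ S, f (p, S) ∂ν) :
    ∫ p, h p ∂lam ≤ ∫ q, f q ∂(lam.prod ν) := by
  rw [integral_prod f hf]
  exact integral_mono_ae hh hf.integral_prod_left (hf.prod_right_ae.mono H)

theorem Chain_mpR {A B Q : Type} [MeasurableSpace A] [MeasurableSpace B] [MeasurableSpace Q]
    (μ : Measure A) (μ' : Measure B) (ν : Measure Q) [SFinite μ] [SFinite μ'] [SFinite ν]
    {T : B × Q → B} (hT : Measurable T) :
    MeasurePreserving (fun q : (A × B) × Q => (q.1.1, T (q.1.2, q.2))) ((μ.prod μ').prod ν)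
      (μ.prod ((μ'.prod ν).map T)) :=
  ((MeasurePreserving.id μ).prod (hT.measurePreserving _)).comp (measurePreserving_prodAssoc μ μ' ν)

theorem Chain_mpL {A B Q : Type} [MeasurableSpace A] [MeasurableSpace B] [MeasurableSpace Q]
    (μ : Measure A) (μ' : Measure B) (ν : Measure Q) [SFinite μ] [SFinite μ'] [SFinite ν]
    {T : A × Q → A} (hT : Measurable T) :
    MeasurePreserving (fun q : (A × B) × Q => (T (q.1.1, q.2), q.1.2)) ((μ.prod μ').prod ν)
      (((μ.prod ν).map T).prod μ') :=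
  Measure.measurePreserving_swap.comp ((Chain_mpR μ' μ ν hT).comp
    (Measure.measurePreserving_swap.prod (MeasurePreserving.id ν)))

theorem Chain_int {A B : Type} [MeasurableSpace A] [MeasurableSpace B] {μ : Measure A}
    {ν : Measure B} {T : A → B} (hT : MeasurePreserving T μ ν) {f : B → ℝ} (hf : Integrable f ν) :
    ∫ y, f y ∂ν = ∫ x, f (T x) ∂μ := by
  rw [← integral_map hT.measurable.aemeasurable (hT.map_eq ▸ hf.aestronglyMeasurable), hT.map_eq]

theorem Chain_sum (e : ℕ → ℕ → ℝ) (b N0 : ℕ) (hN0 : 1 ≤ N0) {p0 a C : ℝ} (hp : 0 ≤ p0)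
    (hC : ∀ i j i' j', i ≤ N0 + b → j ≤ N0 + b → i' ≤ N0 + b → j' ≤ N0 + b → e i j - e i' j' ≤ C)
    (H : ∀ i j, p0 * a - p0 * (e (i + b) j - e i j) ≤ e i (j + 1) - e (i + 1) j) :
    N0 * p0 * a ≤ C * (2 + p0 * b) := by
  have h3 : ∀ j ≤ N0 + b, ∀ k ≤ b, ∑ i ∈ Finset.range N0, (e (i + k) j - e i j) ≤ k * C := by
    intro j hj k
    induction k with
    | zero => simp
    | succ k ih =>
      intro hk
      have h1 := Finset.sum_range_sub (fun i => e (i + k) j) N0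
      have h2 := hC (N0 + k) j (0 + k) j (by omega) hj (by omega) hj
      have h4 : ∑ i ∈ Finset.range N0, (e (i + (k + 1)) j - e i j) =
          ∑ i ∈ Finset.range N0, (e (i + 1 + k) j - e (i + k) j) +
            ∑ i ∈ Finset.range N0, (e (i + k) j - e i j) := by
        rw [← Finset.sum_add_distrib]
        refine Finset.sum_congr rfl fun i _ => ?_
        rw [show i + (k + 1) = i + 1 + k by omega]
        ring
      have h5 := ih (by omega)
      push_cast
      linarith only [h1, h2, h4, h5]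
  have h1 : ∑ i ∈ Finset.range N0, ∑ j ∈ Finset.range N0, (e i (j + 1) - e i j) ≤ N0 * C := by
    refine (Finset.sum_le_card_nsmul _ _ C fun i hi => ?_).trans_eq (by simp)
    have := Finset.mem_range.1 hi
    rw [Finset.sum_range_sub (e i)]
    exact hC _ _ _ _ (by omega) (by omega) (by omega) (by omega)
  have h2 : ∑ j ∈ Finset.range N0, ∑ i ∈ Finset.range N0,
      (e i j - e (i + 1) j + p0 * (e (i + b) j - e i j)) ≤ N0 * (C + p0 * (b * C)) := by
    refine (Finset.sum_le_card_nsmul _ _ (C + p0 * (b * C)) fun j hj => ?_).trans_eq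
      (by rw [Finset.card_range, nsmul_eq_mul])
    have := Finset.mem_range.1 hj
    rw [Finset.sum_add_distrib, Finset.sum_range_sub' (e · j), ← Finset.mul_sum]
    exact add_le_add (hC _ _ _ _ (by omega) (by omega) (by omega) (by omega))
      (mul_le_mul_of_nonneg_left (h3 j (by omega) b le_rfl) hp)
  rw [Finset.sum_comm] at h2
  have h4 : ∑ i ∈ Finset.range N0, ∑ j ∈ Finset.range N0, p0 * a ≤ _ :=
    le_trans ?_ (add_le_add h1 h2)
  · have h5 : (0 : ℝ) < N0 := by exact_mod_cast hN0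
    simp only [Finset.sum_const, Finset.card_range, nsmul_eq_mul] at h4
    exact le_of_mul_le_mul_left (by linarith only [h4]) h5
  · simp only [← Finset.sum_add_distrib]
    exact Finset.sum_le_sum fun i _ => Finset.sum_le_sum fun j _ => by linarith only [H, H i j]

section Prob

variable (ν : Measure (Fin (N + 1) → Fin (N + 1) → ℝ)) [IsProbabilityMeasure ν] (W : ℕ)
  {c c1 c2 : ℝ}

theorem Chain_intF (hc : c1 ≤ c) (h : ∀ x, Integrable (fun S => min (S x x) c1) ν) (i : ℕ) :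
    Integrable (fun F => ‖F‖) (muF ν W c i) := by
  induction i with
  | zero => exact integrable_dirac enorm_lt_top
  | succ i ih =>
    refine (integrable_map_measure continuous_norm.aestronglyMeasurable
      (measurable_Tf W c).aemeasurable).2 ?_
    refine ((ih.comp_fst ν).add (((integrable_const |c|).add
      (integrable_finsetSum Finset.univ fun z _ => (h z).abs)).comp_snd _)).mono'
      (continuous_norm.comp (Chain_cTf W c)).aestronglyMeasurable
      (Eventually.of_forall fun p => ?_)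
    exact (norm_norm _).trans_le (Chain_norm_Tf p.2 p.1 W hc)

theorem Chain_intB (hc : c1 ≤ c) (h : ∀ x, Integrable (fun S => min (S x x) c1) ν) (i : ℕ) :
    Integrable (fun F => ‖F‖) (muB ν W c i) := by
  induction i with
  | zero => exact integrable_dirac enorm_lt_top
  | succ i ih =>
    refine (integrable_map_measure continuous_norm.aestronglyMeasurable
      (measurable_Tb W c).aemeasurable).2 ?_
    refine ((ih.comp_fst ν).add (((integrable_const |c|).add
      (integrable_finsetSum Finset.univ fun z _ => (h z).abs)).comp_snd _)).mono'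
      (continuous_norm.comp (Chain_cTb W c)).aestronglyMeasurable
      (Eventually.of_forall fun p => ?_)
    exact (norm_norm _).trans_le (Chain_norm_Tb p.2 p.1 W hc)

theorem Chain_intP (hc : c1 ≤ c2) (h : ∀ x, Integrable (fun S => min (S x x) c1) ν) (i j : ℕ)
    {φ : (Fin (N + 1) → ℝ) × (Fin (N + 1) → ℝ) → ℝ} (hφ : Continuous φ)
    (hb : ∀ F G, ‖φ (F, G)‖ ≤ ‖F‖ + ‖G‖) :
    Integrable φ ((muF ν W c1 i).prod (muB ν W c2 j)) :=
  (((Chain_intF ν W le_rfl h i).comp_fst _).add ((Chain_intB ν W hc h j).comp_snd _)).mono'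
    hφ.aestronglyMeasurable (Eventually.of_forall fun p => hb p.1 p.2)

theorem Chain_step1 (hc : c1 ≤ c2) {g : ℕ} (hg : g ≤ W) {κ : ℝ}
    (h2 : ∀ x y : Fin (N + 1), Nat.dist x y ≤ g →
      Integrable (fun S => min (S x y) c1) ν ∧ -κ ≤ ∫ S, min (S x y) c1 ∂ν) (w i j : ℕ) :
    ∫ p, Chain_mw (w + g) p ∂((muF ν W c1 i).prod (muB ν W c2 j)) - κ ≤
      ∫ p, Chain_mw w p ∂((muF ν W c1 (i + 1)).prod (muB ν W c2 j)) := by
  have h := fun x => (h2 x x (by simp [Nat.dist_self])).1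
  have hT := Chain_mpL (muF ν W c1 i) (muB ν W c2 j) ν (measurable_Tf W c1)
  have i1 := Chain_intP ν W hc h (i + 1) j (Chain_cmw w) fun F G => Chain_norm_mw F G w
  have i2 := Chain_intP ν W hc h i j (Chain_cmw (w + g)) fun F G => Chain_norm_mw F G _
  refine le_trans (le_of_eq ?_) ((Chain_fub (hT.integrable_comp_of_integrable i1)
    (i2.sub (integrable_const κ)) fun p hp => ?_).trans_eq (Chain_int hT i1).symm)
  · simp only [Pi.sub_apply]
    rw [integral_sub i2 (integrable_const κ)]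
    simp
  · obtain ⟨x, y, h3, h4⟩ := Chain_ex_mw p.1 p.2 (w + g)
    obtain ⟨z, h5, h6⟩ := Chain_mid h3
    obtain ⟨h7, h8⟩ := h2 x z h5
    refine le_trans ?_ (integral_mono ((integrable_const (p.1 x + p.2 y)).add h7) hp fun S => ?_)
    · simp only [Pi.add_apply, Pi.sub_apply]
      rw [integral_add (integrable_const _) h7, integral_const, probReal_univ, one_smul, ← h4]
      linarith only [h8]
    · have h9 := Chain_le_Tf S p.1 c1 (h5.trans hg)
      refine le_trans ?_ (Chain_le_mw (Tf W c1 S p.1) p.2 h6)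
      simp only [Pi.add_apply]
      linarith only [h9]

theorem Chain_step2 (hc : c1 ≤ c2) {p0 : ℝ} (hp : 0 ≤ p0) (h1 : ∀ x, p0 ≤ ν.real {S | c2 ≤ S x x})
    (h : ∀ x, Integrable (fun S => min (S x x) c1) ν) (i j : ℕ) :
    p0 * (c2 - c1) - p0 * (∫ p, Chain_mw W p ∂((muF ν W c1 i).prod (muB ν W c2 j)) -
      ee ν W c1 c2 i j) ≤ ee ν W c1 c2 i (j + 1) - ee ν W c1 c2 (i + 1) j := by
  have hL := Chain_mpL (muF ν W c1 i) (muB ν W c2 j) ν (measurable_Tf W c1)
  have hR := Chain_mpR (muF ν W c1 i) (muB ν W c2 j) ν (measurable_Tb W c2)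
  have i0 := fun i j => Chain_intP ν W hc h i j Chain_cmd Chain_norm_md
  have i1 := hL.integrable_comp_of_integrable (i0 (i + 1) j)
  have i2 := hR.integrable_comp_of_integrable (i0 i (j + 1))
  have i3 := Chain_intP ν W hc h i j (Chain_cmw W) fun F G => Chain_norm_mw F G _
  have i4 : Integrable (fun p => Chain_mw W p - md p.1 p.2) _ := i3.sub (i0 i j)
  refine le_trans (le_of_eq ?_) ((Chain_fub (i2.sub i1)
    (((integrable_const (c2 - c1)).sub i4).const_mul p0) fun p hp' => ?_).trans_eq ?_)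
  · rw [integral_const_mul]
    simp only [Pi.sub_apply]
    rw [integral_sub (integrable_const _) i4, integral_sub i3 (i0 i j), integral_const,
      probReal_univ, one_smul, ee, mul_sub p0 (c2 - c1)]
  · obtain ⟨x, hx⟩ := Chain_ex_md p.1 p.2
    have hE : MeasurableSet {S : Fin (N + 1) → Fin (N + 1) → ℝ | c2 ≤ S x x} :=
      measurableSet_le measurable_const (by fun_prop)
    simp only [Pi.sub_apply, Function.comp_apply] at hp' ⊢
    generalize ht : c2 - c1 - (Chain_mw W p - md p.1 p.2) = t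
    refine le_trans ?_ (integral_mono ((integrable_const (max t 0)).indicator hE) hp' fun S => ?_)
    · rw [integral_indicator_const _ hE, smul_eq_mul]
      exact (mul_le_mul_of_nonneg_left (le_max_left t 0) hp).trans
        (mul_le_mul_of_nonneg_right (h1 x) (le_max_right t 0))
    · obtain ⟨y, h2⟩ := Chain_ex_md (Tf W c1 S p.1) p.2
      obtain ⟨z, h3, h4⟩ := Chain_ex_Tf S p.1 W c1 y
      have h5 := Chain_le_md p.1 (Tb W c2 S p.2) z
      have h6 := Chain_le_Tb S p.2 c2 h3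
      have h7 := min_le_min_left (S z y) hc
      have h0 : 0 ≤ md p.1 (Tb W c2 S p.2) - md (Tf W c1 S p.1) p.2 := by linarith only [h2, h4, h5, h6, h7]
      by_cases hS : S ∈ {S : Fin (N + 1) → Fin (N + 1) → ℝ | c2 ≤ S x x}
      · rw [indicator_of_mem hS]
        refine max_le ?_ h0
        have h8 := Chain_le_md p.1 (Tb W c2 S p.2) x
        have h9 := Chain_le_Tb S p.2 c2 (W := W) (x := x) (y := x) (by simp [Nat.dist_self])
        have h10 : p.1 z + p.2 y ≤ Chain_mw W p := Chain_le_mw p.1 p.2 h3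
        rw [min_eq_right hS] at h9
        linarith only [hx, ht, h2, h4, h8, h9, h10, min_le_right (S z y) c1]
      · rwa [indicator_of_notMem hS]
  · simp only [Pi.sub_apply]
    rw [integral_sub i2 i1]
    exact congrArg₂ _ (Chain_int hR (i0 i (j + 1))).symm (Chain_int hL (i0 (i + 1) j)).symm

end Prob

/-- The first moment deficit created by the caps. -/
theorem chain_deficit (ν : Measure (Fin (N + 1) → Fin (N + 1) → ℝ)) [IsProbabilityMeasure ν]
    (g b N0 : ℕ) (hb : 1 ≤ b) (hN0 : 1 ≤ N0) {c1 c2 p0 κ C0 D : ℝ} (hc : c1 ≤ c2) (hp : 0 ≤ p0)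
    (h1 : ∀ x, p0 ≤ ν.real {S | c2 ≤ S x x})
    (h2 : ∀ x y : Fin (N + 1), Nat.dist x y ≤ g →
      Integrable (fun S => min (S x y) c1) ν ∧ -κ ≤ ∫ S, min (S x y) c1 ∂ν)
    (h3 : ∀ i j, i ≤ N0 + b → j ≤ N0 + b → ee ν (b * g) c1 c2 i j ≤ C0)
    (hD : (C0 + D) * (2 + p0 * b) < N0 * p0 * (c2 - c1 - b * κ)) :
    ∃ i j, i ≤ N0 + b ∧ j ≤ N0 + b ∧ ee ν (b * g) c1 c2 i j ≤ -D := by
  by_contra hn
  have h := fun x => (h2 x x (by simp [Nat.dist_self])).1
  refine hD.not_ge (Chain_sum (ee ν (b * g) c1 c2) b N0 hN0 hp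
    (fun i j i' j' a1 a2 a3 a4 => ?_) fun i j => ?_)
  · have := not_le.1 fun e => hn ⟨i', j', a3, a4, e⟩
    linarith only [this, h3, a1, a2, h3 i j a1 a2]
  have key : ∀ k i : ℕ,
      ∫ p, Chain_mw (k * g) p ∂((muF ν (b * g) c1 i).prod (muB ν (b * g) c2 j)) - k * κ ≤
        ee ν (b * g) c1 c2 (i + k) j := by
    intro k
    induction k with
    | zero =>
      intro i
      rw [Nat.cast_zero, zero_mul, zero_mul, sub_zero]
      exact integral_mono
        (Chain_intP ν _ hc h i j (Chain_cmw 0) fun F G => Chain_norm_mw F G _)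
        (Chain_intP ν _ hc h i j Chain_cmd Chain_norm_md) fun p => Chain_mw_zero p.1 p.2
    | succ k ih =>
      intro i
      have a1 := Chain_step1 ν (b * g) hc (Nat.le_mul_of_pos_left g hb) h2 (k * g) i j
      have a2 := ih (i + 1)
      rw [show i + 1 + k = i + (k + 1) by omega] at a2
      rw [Nat.succ_mul]
      push_cast
      linarith only [a1, a2]
  have a1 := Chain_step2 ν (b * g) hc hp h1 h i j
  have a2 := mul_le_mul_of_nonneg_left (key b i) hp
  linarith only [a1, a2]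

end Pool.Agent.Work.MP_8495a2_pr
end

-- merged part: Pool.Agent.Work.MP_8495a2_pr.Ev
section
open MeasureTheory ProbabilityTheory Set Filter Topology
open scoped ENNReal NNReal

namespace Pool.Agent.Work.MP_8495a2_pr

theorem ev_of_lt (l : Up → ℝ) {x s y t : ℝ} (h : s < t) : ev l x s y t = l ⟨(x, s, y, t), h⟩ := dif_pos h

theorem measurable_ev (x s y t : ℝ) : Measurable fun l : Up → ℝ => ev l x s y t := by
  by_cases h : s < t
  · simp only [ev_of_lt _ h]
    exact measurable_pi_apply _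
  · simp only [ev, dif_neg h]
    exact measurable_const

theorem mP_le (t : ℝ) : mP t ≤ (MeasurableSpace.pi : MeasurableSpace (Up → ℝ)) :=
  Measurable.comap_le (measurable_pi_lambda _ fun _ => measurable_pi_apply _)

theorem mF_le (t : ℝ) : mF t ≤ (MeasurableSpace.pi : MeasurableSpace (Up → ℝ)) :=
  Measurable.comap_le (measurable_pi_lambda _ fun _ => measurable_pi_apply _)

theorem measurable_ev_mP (x s y : ℝ) {t u : ℝ} (h : t ≤ u) :
    Measurable[mP u] fun l : Up → ℝ => ev l x s y t := by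
  by_cases hs : s < t
  · simp only [ev_of_lt _ hs]
    have hm : Measurable fun g : {v : Up // v.1.2.2.2 ≤ u} → ℝ => g ⟨⟨(x, s, y, t), hs⟩, h⟩ :=
      measurable_pi_apply _
    exact hm.comp (comap_measurable _)
  · simp only [ev, dif_neg hs]
    exact measurable_const

theorem measurable_ev_mF (x y t : ℝ) {s u : ℝ} (h : u ≤ s) :
    Measurable[mF u] fun l : Up → ℝ => ev l x s y t := by
  by_cases hs : s < t
  · simp only [ev_of_lt _ hs]
    have hm : Measurable fun g : {v : Up // u ≤ v.1.2.1} → ℝ => g ⟨⟨(x, s, y, t), hs⟩, h⟩ :=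
      measurable_pi_apply _
    exact hm.comp (comap_measurable _)
  · simp only [ev, dif_neg hs]
    exact measurable_const

theorem tendsto_ev {l : Up → ℝ} (hl : Continuous l) {α : Type*} {F : Filter α}
    {x s y t : α → ℝ} {x0 s0 y0 t0 : ℝ} (h : s0 < t0) (hx : Tendsto x F (𝓝 x0))
    (hs : Tendsto s F (𝓝 s0)) (hy : Tendsto y F (𝓝 y0)) (ht : Tendsto t F (𝓝 t0)) :
    Tendsto (fun a => ev l (x a) (s a) (y a) (t a)) F (𝓝 (ev l x0 s0 y0 t0)) := by
  have h1 : ContinuousOn (fun p : ℝ × ℝ × ℝ × ℝ => ev l p.1 p.2.1 p.2.2.1 p.2.2.2)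
      {p | p.2.1 < p.2.2.2} := by
    rw [continuousOn_iff_continuous_domRestrict]
    exact hl.congr fun u => (ev_of_lt l u.2).symm
  have h2 : IsOpen {p : ℝ × ℝ × ℝ × ℝ | p.2.1 < p.2.2.2} := isOpen_lt (by fun_prop) (by fun_prop)
  exact (h1.continuousAt (x := (x0, s0, y0, t0)) (h2.mem_nhds h)).tendsto.comp
    (hx.prodMk_nhds (hs.prodMk_nhds (hy.prodMk_nhds ht)))

theorem continuous_ev {l : Up → ℝ} (hl : Continuous l) (s t : ℝ) :
    Continuous fun p : ℝ × ℝ => ev l p.1 s p.2 t := by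
  by_cases h : s < t
  · exact continuous_iff_continuousAt.2 fun p => tendsto_ev hl h continuous_fst.continuousAt
      tendsto_const_nhds continuous_snd.continuousAt tendsto_const_nhds
  · simp only [ev, dif_neg h]
    exact continuous_const

/-- The segment of quadruples with fixed times and bounded positions is compact. -/
theorem isCompact_box (R s t : ℝ) :
    IsCompact {u : Up | u.1.2.1 = s ∧ u.1.2.2.2 = t ∧ |u.1.1| ≤ R ∧ |u.1.2.2.1| ≤ R} := by
  by_cases h : s < t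
  · have h1 : Continuous fun p : ℝ × ℝ => (⟨(p.1, s, p.2, t), h⟩ : Up) :=
      Continuous.subtype_mk (by fun_prop) _
    convert ((isCompact_Icc (a := -R) (b := R)).prod (isCompact_Icc (a := -R) (b := R))).image h1
      using 1
    ext ⟨⟨x, s', y, t'⟩, hu⟩
    constructor
    · rintro ⟨rfl, rfl, h2, h3⟩
      exact ⟨(x, y), ⟨abs_le.1 h2, abs_le.1 h3⟩, rfl⟩
    · rintro ⟨p, hp, e⟩
      rw [← e]
      exact ⟨rfl, rfl, abs_le.2 hp.1, abs_le.2 hp.2⟩
  · convert isCompact_empty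
    exact eq_empty_of_forall_notMem fun u hu => h (hu.1 ▸ hu.2.1 ▸ u.2)

/-- Freezing: finitely many events of one field, each paired with a likely independent event. -/
theorem freeze {Ω : Type*} {m1 m2 m : MeasurableSpace Ω} {μ : Measure Ω} [IsProbabilityMeasure μ]
    (h1 : m1 ≤ m) (h2 : m2 ≤ m) (h : Indep m1 m2 μ) {κ : Type*} [Fintype κ] (A B : κ → Set Ω)
    (hA : ∀ k, MeasurableSet[m1] (A k)) (hB : ∀ k, MeasurableSet[m2] (B k)) {p : ℝ≥0∞}
    (hp : ∀ k, p ≤ μ (B k)) : p * μ (⋃ k, A k) ≤ μ (⋃ k, A k ∩ B k) := by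
  classical
  have key : ∀ (S : Finset κ) (A : κ → Set Ω), (∀ k, MeasurableSet[m1] (A k)) →
      p * μ (⋃ k ∈ S, A k) ≤ μ (⋃ k ∈ S, A k ∩ B k) := by
    intro S
    induction S using Finset.induction_on with
    | empty => simp
    | insert i S _ ih =>
      intro A hA
      have e1 : μ (⋃ k ∈ insert i S, A k) ≤ μ (A i) + μ (⋃ k ∈ S, A k \ A i) := by
        refine (measure_mono fun ω hω => ?_).trans (measure_union_le _ _)
        rw [Finset.set_biUnion_insert] at hω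
        by_cases hi : ω ∈ A i
        · exact Or.inl hi
        · obtain ⟨k, hk, hω⟩ := mem_iUnion₂.1 (hω.resolve_left hi)
          exact Or.inr (mem_iUnion₂.2 ⟨k, hk, hω, hi⟩)
      have e2 : μ (A i ∩ B i) + μ (⋃ k ∈ S, (A k \ A i) ∩ B k) ≤
          μ (⋃ k ∈ insert i S, A k ∩ B k) := by
        rw [← measure_union' (disjoint_left.2 fun ω h3 h4 => by
          obtain ⟨k, -, h5⟩ := mem_iUnion₂.1 h4
          exact h5.1.2 h3.1) ((h1 _ (hA i)).inter (h2 _ (hB i))), Finset.set_biUnion_insert]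
        exact measure_mono (union_subset_union_right _
          (iUnion₂_mono fun k _ => inter_subset_inter_left _ sdiff_subset))
      have e3 : p * μ (A i) ≤ μ (A i ∩ B i) := by
        rw [(Indep_iff _ _ _).1 h _ _ (hA i) (hB i), mul_comm]
        exact mul_le_mul_right (hp i) _
      calc p * μ (⋃ k ∈ insert i S, A k) ≤ p * (μ (A i) + μ (⋃ k ∈ S, A k \ A i)) :=
            mul_le_mul_right e1 _
        _ ≤ μ (A i ∩ B i) + μ (⋃ k ∈ S, (A k \ A i) ∩ B k) := by
            rw [mul_add]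
            exact add_le_add e3 (ih _ fun k => (hA k).diff (hA i))
        _ ≤ _ := e2
  simpa using key Finset.univ A hA

/-- Events that hold eventually along a sequence. -/
theorem measure_eventually_le {Ω : Type*} [MeasurableSpace Ω] {μ : Measure Ω} {E : Set Ω}
    {A : ℕ → Set Ω} {b : ℝ≥0∞} (h : ∀ᵐ ω ∂μ, ω ∈ E → ∀ᶠ k in atTop, ω ∈ A k)
    (hb : ∃ᶠ k in atTop, μ (A k) ≤ b) : μ E ≤ b := by
  have h1 : μ E ≤ μ (⋃ m, ⋂ j ≥ m, A j) := measure_mono_ae (h.mono fun ω hω hE => by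
    obtain ⟨m, hm⟩ := eventually_atTop.1 (hω hE)
    exact mem_iUnion.2 ⟨m, mem_iInter₂.2 hm⟩)
  have h2 : Monotone fun m => ⋂ j ≥ m, A j := fun m m' hm =>
    biInter_subset_biInter_left fun j hj => hm.trans hj
  rw [h2.measure_iUnion] at h1
  refine h1.trans (iSup_le fun m => ?_)
  obtain ⟨j, hj, hb'⟩ := frequently_atTop.1 hb m
  exact (measure_mono (biInter_subset_of_mem hj)).trans hb'

/-- Almost surely convergent subsequences of the coupling. -/
theorem IsCoupledLimit.subseq {Ω : Type*} [MeasurableSpace Ω] {P : Measure Ω}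
    {B : ℕ → ℤ → ℝ → Ω → ℝ} {L : Ω → Up → ℝ} (h : IsCoupledLimit P B L) {g : ℕ → ℕ}
    (hg : Tendsto g atTop atTop) :
    ∃ φ : ℕ → ℕ, StrictMono φ ∧ ∀ᵐ ω ∂P, ∀ K : Set Up, IsCompact K →
      TendstoUniformlyOn (fun k u => rescaled (g (φ k)) (fun i t => B (g (φ k)) i t ω) u) (L ω)
        atTop K := by
  have : LocallyCompactSpace Up := IsOpen.locallyCompactSpace
    (s := {p : ℝ × ℝ × ℝ × ℝ | p.2.1 < p.2.2.2}) (isOpen_lt (by fun_prop) (by fun_prop))
  let K := CompactExhaustion.choice Up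
  obtain ⟨φ, hφ, h1⟩ := extraction_forall_of_eventually (P := fun m k => P {ω | ∃ u ∈ K m,
      1 / ((m : ℝ) + 1) ≤ |rescaled (g k) (fun i t => B (g k) i t ω) u - L ω u|} ≤ 2⁻¹ ^ m)
    fun m => ((h.conv (K m) (K.isCompact m) _ Nat.one_div_pos_of_nat).comp hg).eventually
      (ge_mem_nhds (ENNReal.pow_pos (by simp) m))
  refine ⟨φ, hφ, (ae_eventually_notMem (ne_top_of_le_ne_top ?_
    (ENNReal.tsum_le_tsum h1))).mono fun ω hω K' hK' => ?_⟩
  · rw [ENNReal.tsum_geometric]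
    simp
  obtain ⟨m, hm⟩ := K.exists_superset_of_isCompact hK'
  refine Metric.tendstoUniformlyOn_iff.2 fun ε hε => ?_
  filter_upwards [hω, eventually_ge_atTop m,
    (tendsto_one_div_add_atTop_nhds_zero_nat (𝕜 := ℝ)).eventually (gt_mem_nhds hε)] with k h2 h3 h4 u hu
  rw [dist_comm, Real.dist_eq]
  exact (not_le.1 fun h5 => h2 ⟨u, K.subset h3 (hm hu), h5⟩).trans h4

end Pool.Agent.Work.MP_8495a2_pr
end

-- merged part: Pool.Agent.Work.MP_8495a2_pr.Blk
section
open MeasureTheory ProbabilityTheory Set Filter Topology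
open scoped ENNReal NNReal

namespace Pool.Agent.Work.MP_8495a2_pr

variable {μ : Measure (Up → ℝ)} {N : ℕ} (pos : Fin (N + 1) → ℝ) (W : ℕ) (c1 c2 : ℝ)

theorem measurable_strip (r s : ℝ) : Measurable fun l => strip pos r l s := by
  exact measurable_pi_lambda _ fun _ => measurable_pi_lambda _ fun _ => measurable_ev _ _ _ _

theorem Blk_sF (r : ℝ) {s u : ℝ} (h : u ≤ s) : Measurable[mF u] fun l => strip pos r l s :=
  @measurable_pi_lambda _ _ _ (mF u) _ _ fun _ => @measurable_pi_lambda _ _ _ (mF u) _ _ fun _ =>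
    measurable_ev_mF _ _ _ h

theorem Blk_sP {r s u : ℝ} (h : s + r ≤ u) : Measurable[mP u] fun l => strip pos r l s :=
  @measurable_pi_lambda _ _ _ (mP u) _ _ fun _ => @measurable_pi_lambda _ _ _ (mP u) _ _ fun _ =>
    measurable_ev_mP _ _ _ h

theorem Blk_fwd {m : MeasurableSpace (Up → ℝ)} {r s : ℝ} {i : ℕ}
    (h : ∀ k < i, Measurable[m] fun l => strip pos r l (s + k * r)) :
    Measurable[m] fun l => fwd pos r W c1 l s i := by
  induction i with
  | zero => exact measurable_const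
  | succ i ih =>
    exact (measurable_Tf W c1).comp ((ih fun k hk => h k (by omega)).prodMk (h i (by omega)))

theorem Blk_bwd {m : MeasurableSpace (Up → ℝ)} {r t : ℝ} {j : ℕ}
    (h : ∀ k < j, Measurable[m] fun l => strip pos r l (t - (k + 1) * r)) :
    Measurable[m] fun l => bwd pos r W c1 l t j := by
  induction j with
  | zero => exact measurable_const
  | succ j ih =>
    exact ((measurable_Tb W c1).comp ((ih fun k hk => h k (by omega)).prodMk (h j (by omega))) :)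

theorem Blk_lt {r : ℝ} (hr : 0 < r) {k i : ℕ} (h : k < i) : (k + 1) * r ≤ i * r :=
  mul_le_mul_of_nonneg_right (by exact_mod_cast h) hr.le

theorem Blk_nn {r : ℝ} (hr : 0 < r) (k : ℕ) : 0 ≤ k * r := by positivity

theorem Blk_fP {r : ℝ} (hr : 0 < r) {s u : ℝ} {i : ℕ} (h : s + i * r ≤ u) :
    Measurable[mP u] fun l => fwd pos r W c1 l s i :=
  Blk_fwd pos W c1 fun _ hk => Blk_sP pos (by linarith only [h, hr, hk, Blk_lt hr hk])

theorem Blk_bF {r : ℝ} (hr : 0 < r) {t u : ℝ} {j : ℕ} (h : u ≤ t - j * r) :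
    Measurable[mF u] fun l => bwd pos r W c1 l t j :=
  Blk_bwd pos W c1 fun _ hk => Blk_sF pos r (by linarith only [h, hr, hk, Blk_lt hr hk])

theorem measurable_blk_mF {r : ℝ} (hr : 0 < r) (i j : ℕ) {s u : ℝ} (h : u ≤ s) :
    Measurable[mF u] (blk pos r W c1 c2 i j s) := by
  exact measurable_md.comp ((Blk_fwd pos W c1 fun k _ => Blk_sF pos r
    (by linarith only [h, hr, Blk_nn hr k])).prodMk (Blk_bF pos W c2 hr (by linarith [Blk_nn hr i])))

theorem measurable_blk_mP {r : ℝ} (hr : 0 < r) (i j : ℕ) {s u : ℝ} (h : s + (i + j) * r ≤ u) :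
    Measurable[mP u] (blk pos r W c1 c2 i j s) := by
  exact measurable_md.comp ((Blk_fP pos W c1 hr (by linarith [Blk_nn hr j])).prodMk
    (Blk_bwd pos W c2 fun k _ => Blk_sP pos (by linarith only [h, hr, Blk_nn hr k])))

theorem Blk_pair {Ω : Type} {m1 m2 m : MeasurableSpace Ω} {μ : Measure Ω}
    [IsProbabilityMeasure μ] (h : Indep m1 m2 μ) (h1 : m1 ≤ m) (h2 : m2 ≤ m)
    {α β γ : Type} [MeasurableSpace α] [MeasurableSpace β] [MeasurableSpace γ] {f : Ω → α}
    {g : Ω → β} (hf : Measurable[m1] f) (hg : Measurable[m2] g) {T : α × β → γ}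
    (hT : Measurable T) :
    μ.map (fun l => T (f l, g l)) = ((μ.map f).prod (μ.map g)).map T := by
  have hf' := hf.mono h1 le_rfl
  have hg' := hg.mono h2 le_rfl
  rw [← IndepFun.map_prod_eq_prod_map_map hf'.aemeasurable hg'.aemeasurable
    ((IndepFun_iff_Indep f g μ).2 (indep_of_indep_of_le h hf.comap_le hg.comap_le)),
    Measure.map_map hT (hf'.prodMk hg')]
  rfl

theorem Blk_law (h : Ax μ) {r : ℚ} (hr : 0 < r) {s : ℝ} (q : ℚ) (e : s = q) :
    (μ.map fun l => strip pos r l s) = μ.map fun l => strip pos r l 0 := by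
  have hc : Measurable (Function.curry : (Fin (N + 1) × Fin (N + 1) → ℝ) → _) :=
    measurable_pi_lambda _ fun _ => measurable_pi_lambda _ fun _ => measurable_pi_apply _
  have h1 := congrArg (Measure.map Function.curry)
    (h.stat (Fin (N + 1) × Fin (N + 1)) (fun k => pos k.1) (fun k => pos k.2) q 0 r hr)
  rw [Measure.map_map hc (measurable_pi_lambda _ fun _ => measurable_ev _ _ _ _),
    Measure.map_map hc (measurable_pi_lambda _ fun _ => measurable_ev _ _ _ _), Rat.cast_zero,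
    ← e] at h1
  exact h1

theorem Blk_muF (h : Ax μ) (s : ℚ) {r : ℚ} (hr : 0 < r) (i : ℕ) :
    (μ.map fun l => fwd pos r W c1 l s i) = muF (μ.map fun l => strip pos r l 0) W c1 i := by
  have := h.prob
  induction i with
  | zero => exact (Measure.map_const μ _).trans (by rw [measure_univ, one_smul]; rfl)
  | succ i ih =>
    rw [muF, ← ih, ← Blk_law pos h hr (s := s + i * r) (s + i * r) (by push_cast; rfl)]
    exact Blk_pair (h.cut _) (mP_le _) (mF_le _) (Blk_fP pos W c1 (Rat.cast_pos.2 hr) le_rfl)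
      (Blk_sF pos r le_rfl) (measurable_Tf W c1)

theorem Blk_muB (h : Ax μ) {t : ℝ} (q : ℚ) (e : t = q) {r : ℚ} (hr : 0 < r) (j : ℕ) :
    (μ.map fun l => bwd pos r W c1 l t j) = muB (μ.map fun l => strip pos r l 0) W c1 j := by
  have := h.prob
  induction j with
  | zero => exact (Measure.map_const μ _).trans (by rw [measure_univ, one_smul]; rfl)
  | succ j ih =>
    rw [muB, ← ih, ← Blk_law pos h hr (s := t - (j + 1) * r) (q - (j + 1) * r)
      (by rw [e]; push_cast; rfl)]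
    exact Blk_pair (h.cut (t - j * r)).symm (mF_le _) (mP_le _)
      (Blk_bF pos W c1 (Rat.cast_pos.2 hr) le_rfl) (Blk_sP pos (by linarith)) (measurable_Tb W c1)

theorem Ax.map_blk (h : Ax μ) (s r : ℚ) (hr : 0 < r) (i j : ℕ) :
    μ.map (blk pos r W c1 c2 i j s) =
      ((muF (μ.map fun l => strip pos r l 0) W c1 i).prod
        (muB (μ.map fun l => strip pos r l 0) W c2 j)).map fun p => md p.1 p.2 := by
  have := h.prob
  rw [← Blk_muF pos W c1 h s hr, ← Blk_muB pos W c2 h (t := s + (i + j) * r) (s + (i + j) * r)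
    (by push_cast; rfl) hr]
  exact Blk_pair (h.cut (s + i * r)) (mP_le _) (mF_le _)
    (Blk_fP pos W c1 (Rat.cast_pos.2 hr) le_rfl)
    (Blk_bF pos W c2 (Rat.cast_pos.2 hr) (by linarith)) measurable_md

theorem Blk_le_Tf {c : ℝ} (S : Fin (N + 1) → Fin (N + 1) → ℝ) (F : Fin (N + 1) → ℝ)
    {x y : Fin (N + 1)} (h : Nat.dist x y ≤ W) : F x + min (S x y) c ≤ Tf W c S F y :=
  Finset.le_sup' (fun x => F x + min (S x y) c) (Finset.mem_filter.2 ⟨Finset.mem_univ x, h⟩)

theorem Blk_le_Tb {c : ℝ} (S : Fin (N + 1) → Fin (N + 1) → ℝ) (G : Fin (N + 1) → ℝ)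
    {x y : Fin (N + 1)} (h : Nat.dist x y ≤ W) : min (S x y) c + G y ≤ Tb W c S G x :=
  Finset.le_sup' (fun y => min (S x y) c + G y) (Finset.mem_filter.2 ⟨Finset.mem_univ y, h⟩)

theorem Blk_Tf (c : ℝ) (S : Fin (N + 1) → Fin (N + 1) → ℝ) (F : Fin (N + 1) → ℝ)
    (y : Fin (N + 1)) : ∃ x, Tf W c S F y = F x + min (S x y) c :=
  (Finset.exists_mem_eq_sup' _ _).imp fun _ h => h.2

theorem Blk_Tb (c : ℝ) (S : Fin (N + 1) → Fin (N + 1) → ℝ) (G : Fin (N + 1) → ℝ)
    (x : Fin (N + 1)) : ∃ y, Tb W c S G x = min (S x y) c + G y :=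
  (Finset.exists_mem_eq_sup' _ _).imp fun _ h => h.2

theorem Blk_md (F G : Fin (N + 1) → ℝ) : ∃ x, md F G = F x + G x :=
  (Finset.exists_mem_eq_sup' _ _).imp fun _ h => h.2

theorem Blk_fge (r s : ℝ) (l : Up → ℝ) (a : ℕ → Fin (N + 1)) {i : ℕ}
    (ha : ∀ k < i, Nat.dist (a k) (a (k + 1)) ≤ W) :
    ∑ k ∈ Finset.range i, min (strip pos r l (s + k * r) (a k) (a (k + 1))) c1 ≤
      fwd pos r W c1 l s i (a i) := by
  induction i with
  | zero => exact le_rfl
  | succ i ih =>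
    rw [Finset.sum_range_succ]
    exact (add_le_add (ih fun k hk => ha k (by omega)) le_rfl).trans
      (Blk_le_Tf W _ _ (ha i (by omega)))

theorem Blk_bge (r t : ℝ) (hc : c1 ≤ c2) (l : Up → ℝ) {j : ℕ} (a : ℕ → Fin (N + 1)) (τ : ℕ → ℝ)
    (hτ : ∀ k : ℕ, τ k = t - (j - k) * r) (ha : ∀ k < j, Nat.dist (a k) (a (k + 1)) ≤ W) :
    ∑ k ∈ Finset.range j, min (strip pos r l (τ k) (a k) (a (k + 1))) c1 ≤
      bwd pos r W c2 l t j (a 0) := by
  induction j generalizing a τ with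
  | zero => exact le_rfl
  | succ j ih =>
    rw [Finset.sum_range_succ', add_comm, hτ 0, Nat.cast_zero, sub_zero, Nat.cast_succ]
    exact (add_le_add (min_le_min le_rfl hc) (ih (fun k => a (k + 1)) (fun k => τ (k + 1))
      (fun k => by rw [hτ]; push_cast; ring) fun k hk => ha _ (by omega))).trans
      (Blk_le_Tb W _ _ (ha 0 (by omega)))

/-- Every admissible chain bounds the block value from below. -/
theorem chain_le_blk (r : ℝ) (hc : c1 ≤ c2) (i j : ℕ) (s : ℝ) (l : Up → ℝ) (a : ℕ → Fin (N + 1))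
    (ha : ∀ k < i + j, Nat.dist (a k) (a (k + 1)) ≤ W) :
    ∑ k ∈ Finset.range (i + j), min (ev l (pos (a k)) (s + k * r) (pos (a (k + 1)))
      (s + k * r + r)) c1 ≤ blk pos r W c1 c2 i j s l := by
  rw [Finset.sum_range_add]
  exact (add_le_add (Blk_fge pos W c1 r s l a fun k hk => ha k (by omega))
    (Blk_bge pos W c1 c2 r (s + (i + j) * r) hc l (fun k => a (i + k))
      (fun k => s + (i + k : ℕ) * r) (fun k => by push_cast; ring)
      fun k hk => ha _ (by omega))).trans (Finset.le_sup' (fun x => fwd pos r W c1 l s i x +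
        bwd pos r W c2 l (s + (i + j) * r) j x) (Finset.mem_univ (a i)))

theorem blk_le_cap (r : ℝ) (hc : c1 ≤ c2) (i j : ℕ) (s : ℝ) (l : Up → ℝ) :
    blk pos r W c1 c2 i j s l ≤ (i + j) * c2 := by
  have h1 : ∀ (i : ℕ) y, fwd pos r W c1 l s i y ≤ i * c2 := fun i => by
    induction i with
    | zero => exact fun y => by simp [fwd]
    | succ i ih =>
      intro y
      obtain ⟨x, e⟩ := Blk_Tf W c1 (strip pos r l (s + i * r)) (fwd pos r W c1 l s i) y
      rw [fwd, e, Nat.cast_succ, add_one_mul]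
      exact add_le_add (ih x) ((min_le_right _ _).trans hc)
  have h2 : ∀ t (j : ℕ) x, bwd pos r W c2 l t j x ≤ j * c2 := fun t j => by
    induction j with
    | zero => exact fun y => by simp [bwd]
    | succ j ih =>
      intro x
      obtain ⟨y, e⟩ := Blk_Tb W c2 (strip pos r l (t - (j + 1) * r)) (bwd pos r W c2 l t j) x
      rw [bwd, e, Nat.cast_succ, add_one_mul _ c2, add_comm]
      exact add_le_add (ih y) (min_le_right _ _)
  rw [add_mul _ _ c2]
  exact Finset.sup'_le Finset.univ_nonempty _ fun x _ => add_le_add (h1 i x) (h2 _ j x)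

/-- `v` is at most the value from `(x, k)` to `(y, n)` -/
def Blk_G (E : ℕ → Fin (N + 1) → ℕ → Fin (N + 1) → ℝ) (k : ℕ) (x : Fin (N + 1)) (n : ℕ)
    (y : Fin (N + 1)) (v : ℝ) : Prop := (k = n ∧ x = y ∧ v = 0) ∨ (k < n ∧ v ≤ E k x n y)

theorem Blk_G.trans {E : ℕ → Fin (N + 1) → ℕ → Fin (N + 1) → ℝ}
    (hE : ∀ k x m z n y, k < m → m < n → E k x m z + E m z n y ≤ E k x n y) {k m n : ℕ}
    {x z y : Fin (N + 1)} {v w : ℝ} (h1 : Blk_G E k x m z v) (h2 : Blk_G E m z n y w) :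
    Blk_G E k x n y (v + w) := by
  rcases h1 with ⟨rfl, rfl, rfl⟩ | ⟨a, b⟩
  · rwa [zero_add]
  rcases h2 with ⟨rfl, rfl, rfl⟩ | ⟨c, d⟩
  · exact Or.inr ⟨a, by rwa [add_zero]⟩
  · exact Or.inr ⟨a.trans c, (add_le_add b d).trans (hE _ _ _ _ _ _ a c)⟩

theorem Ax.blk_le_ev (h : Ax μ) {r : ℝ} (hr : 0 < r) {i j : ℕ} (hij : 1 ≤ i + j) (s : ℝ) :
    ∀ᵐ l ∂μ, ∃ k : Fin (N + 1) × Fin (N + 1),
      blk pos r W c1 c2 i j s l ≤ ev l (pos k.1) s (pos k.2) (s + (i + j) * r) := by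
  have h1 : ∀ᵐ l ∂μ, ∀ (k : ℕ) x (m : ℕ) z (n : ℕ) y, k < m → m < n →
      ev l (pos x) (s + k * r) (pos z) (s + m * r) + ev l (pos z) (s + m * r) (pos y) (s + n * r) ≤
        ev l (pos x) (s + k * r) (pos y) (s + n * r) := by
    simp only [ae_all_iff]
    exact fun k x m z n y a b => h.tri _ _ _ _ _ _ (by linarith only [hr, a, Blk_lt hr a])
      (by linarith only [hr, b, Blk_lt hr b])
  filter_upwards [h1] with l hl
  let G := Blk_G fun k x n y => ev l (pos x) (s + k * r) (pos y) (s + n * r)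
  have h2 : ∀ (k : ℕ) x y c, G k x (k + 1) y (min (strip pos r l (s + k * r) x y) c) :=
    fun k x y c => Or.inr ⟨k.lt_succ_self, (min_le_left _ _).trans_eq (by
      simp only [Nat.cast_succ, add_one_mul, ← add_assoc]
      rfl)⟩
  have h3 : ∀ (i : ℕ) y, ∃ x, G 0 x i y (fwd pos r W c1 l s i y) := fun i => by
    induction i with
    | zero => exact fun y => ⟨y, Or.inl ⟨rfl, rfl, rfl⟩⟩
    | succ i ih =>
      intro y
      obtain ⟨z, e⟩ := Blk_Tf W c1 (strip pos r l (s + i * r)) (fwd pos r W c1 l s i) y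
      rw [fwd, e]
      exact (ih z).imp fun x hx => hx.trans hl (h2 i z y c1)
  have h4 : ∀ (n j i : ℕ), i + j = n → ∀ x, ∃ y, G i x n y (bwd pos r W c2 l (s + n * r) j x) :=
    fun n j => by
    induction j with
    | zero => exact fun i e x => ⟨x, Or.inl ⟨e, rfl, rfl⟩⟩
    | succ j ih =>
      intro i e x
      have e1 : s + n * r - (j + 1) * r = s + i * r := by
        rw [← e]
        push_cast
        ring
      obtain ⟨z, e2⟩ := Blk_Tb W c2 (strip pos r l (s + i * r)) (bwd pos r W c2 l (s + n * r) j) x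
      rw [bwd, e1, e2]
      exact (ih (i + 1) (by omega) z).imp fun y hy => (h2 i x z c2).trans hl hy
  obtain ⟨z, e⟩ := Blk_md (fwd pos r W c1 l s i) (bwd pos r W c2 l (s + (i + j : ℕ) * r) j)
  obtain ⟨x, hx⟩ := h3 i z
  obtain ⟨y, hy⟩ := h4 _ j i rfl z
  have h5 := ((hx.trans hl hy).resolve_left fun a => by omega).2
  rw [← e] at h5
  simp only [Nat.cast_add, Nat.cast_zero, zero_mul, add_zero] at h5
  exact ⟨(x, y), h5⟩

theorem blk_zero (r s : ℝ) (l : Up → ℝ) : blk pos r W c1 c2 0 0 s l = 0 := by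
  obtain ⟨x, e⟩ := Blk_md (0 : Fin (N + 1) → ℝ) 0
  exact e.trans (add_zero 0)

end Pool.Agent.Work.MP_8495a2_pr
end

-- merged part: Pool.Agent.Work.MP_8495a2_pr.Box
section
open MeasureTheory ProbabilityTheory Set Filter Topology
open scoped ENNReal NNReal

namespace Pool.Agent.Work.MP_8495a2_pr

variable {μ : Measure (Up → ℝ)} {C : ℝ} {α : ℕ}

theorem Tails.half (h : Ax μ) (hT : Tails μ C α) (x s y t σ : ℝ) (hst : s < t) (hσ : 0 < σ)
    (h3 : t - s ≤ σ ^ 3) :
    (1 / 2 : ℝ≥0∞) ≤ μ {l | -(2 * C * σ) - (x - y) ^ 2 / (t - s) ≤ ev l x s y t} := by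
  have := h.prob
  obtain ⟨h1, h2⟩ := hT.low x s y t σ hst hσ h3
  have hC : 0 < C := zero_lt_one.trans_le hT.one_le
  have h4 := mul_meas_ge_le_integral_of_nonneg (μ := μ)
    (f := fun l => (max (-(ev l x s y t + (x - y) ^ 2 / (t - s))) 0) ^ 2)
    (Eventually.of_forall fun l => sq_nonneg _) h1.integrable_sq ((2 * C * σ) ^ 2)
  have h5 : μ.real {l | (2 * C * σ) ^ 2 ≤
      (max (-(ev l x s y t + (x - y) ^ 2 / (t - s))) 0) ^ 2} ≤ 1 / 4 := by
    refine le_of_mul_le_mul_left (h4.trans (h2.trans (le_of_eq ?_))) (by positivity)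
    ring
  have h6 : μ.real univ ≤ μ.real ({l | -(2 * C * σ) - (x - y) ^ 2 / (t - s) ≤ ev l x s y t} ∪
      {l | (2 * C * σ) ^ 2 ≤ (max (-(ev l x s y t + (x - y) ^ 2 / (t - s))) 0) ^ 2}) := by
    refine measureReal_mono fun l _ => ?_
    by_cases hl : -(2 * C * σ) - (x - y) ^ 2 / (t - s) ≤ ev l x s y t
    · exact Or.inl hl
    · right
      rw [mem_ofPred_eq]
      refine pow_le_pow_left₀ (by positivity) (le_max_of_le_left ?_) 2
      linarith only [hl, not_le.1 hl]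
  have h7 := h6.trans (measureReal_union_le _ _)
  rw [probReal_univ] at h7
  have h8 : (1 / 2 : ℝ≥0∞) = ENNReal.ofReal (1 / 2) := by
    rw [ENNReal.ofReal_div_of_pos two_pos]; simp
  rw [h8, ENNReal.ofReal_le_iff_le_toReal (measure_ne_top _ _), ← measureReal_def]
  linarith only [h5, h7]

lemma box_pieces (h : Ax μ) (hT : Tails μ C α) (x s σ : ℝ) (hσ : 0 < σ) (p : ℕ) :
    ((1 / 2 : ℝ≥0∞) ^ α) ^ (p + 1) ≤
      μ {l | ((p : ℝ) + 1) * σ / 2 ≤ ev l x s x (s + (p + 1) * σ ^ 3)} := by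
  induction p with
  | zero => simpa using hT.pos x s σ hσ
  | succ p ih =>
    have h1 := (Indep_iff _ _ _).1 (h.cut (s + (p + 1) * σ ^ 3))
      {l | ((p : ℝ) + 1) * σ / 2 ≤ ev l x s x (s + (p + 1) * σ ^ 3)}
      {l | σ / 2 ≤ ev l x (s + (p + 1) * σ ^ 3) x (s + (p + 1) * σ ^ 3 + σ ^ 3)}
      (measurable_ev_mP x s x le_rfl measurableSet_Ici)
      (measurable_ev_mF x x _ le_rfl measurableSet_Ici)
    have h2 := mul_le_mul' ih (hT.pos x (s + (p + 1) * σ ^ 3) σ hσ)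
    rw [← h1, ← pow_succ] at h2
    refine h2.trans (measure_mono_ae ?_)
    have e : s + (((p + 1 : ℕ) : ℝ) + 1) * σ ^ 3 = s + (p + 1) * σ ^ 3 + σ ^ 3 := by
      push_cast; ring
    rw [e]
    filter_upwards [h.tri x s x (s + (p + 1) * σ ^ 3) x (s + (p + 1) * σ ^ 3 + σ ^ 3)
      (lt_add_of_pos_right _ (by positivity)) (lt_add_of_pos_right _ (by positivity))] with l hl
    rintro ⟨a1, a2⟩
    have b1 : ((p : ℝ) + 1) * σ / 2 ≤ ev l x s x (s + (p + 1) * σ ^ 3) := a1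
    have b2 : σ / 2 ≤ ev l x (s + (p + 1) * σ ^ 3) x (s + (p + 1) * σ ^ 3 + σ ^ 3) := a2
    change (((p + 1 : ℕ) : ℝ) + 1) * σ / 2 ≤ _
    push_cast
    linarith only [hl, b1, b2]

/-- Concatenation of `j ^ 6` independent favourable pieces. -/
theorem Tails.high (h : Ax μ) (hT : Tails μ C α) (x s ρ : ℝ) (hρ : 0 < ρ) {j : ℕ} (hj : 1 ≤ j) :
    ((1 / 2 : ℝ≥0∞) ^ α) ^ (j ^ 6) ≤ μ {l | (j : ℝ) ^ 4 * ρ / 2 ≤ ev l x s x (s + ρ ^ 3)} := by
  have hj' : (0 : ℝ) < j := by exact_mod_cast hj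
  obtain ⟨p, hp⟩ : ∃ p, j ^ 6 = p + 1 := Nat.exists_eq_succ_of_ne_zero (by positivity)
  have h1 := box_pieces h hT x s (ρ / j ^ 2) (by positivity) p
  have e : (p : ℝ) + 1 = (j : ℝ) ^ 6 := by exact_mod_cast hp.symm
  have e1 : (j : ℝ) ^ 6 * (ρ / j ^ 2) = j ^ 4 * ρ := by field_simp
  have e2 : (j : ℝ) ^ 6 * (ρ / j ^ 2) ^ 3 = ρ ^ 3 := by field_simp
  rwa [e, e1, e2, ← hp] at h1

/-- Stepping back and forward in time bounds the maximum over a box. -/
theorem Tails.box (h : Ax μ) (hT : Tails μ C α) {κ : Type} [Fintype κ] (x y : κ → ℝ)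
    (x0 y0 s t σ w v : ℝ) (hst : s < t) (hσ : 0 < σ) (hx : ∀ k, |x k - x0| ≤ w)
    (hy : ∀ k, |y k - y0| ≤ w) :
    μ {l | ∃ k, v ≤ ev l (x k) s (y k) t} ≤
      4 * μ {l | v - 2 * (2 * C * σ + w ^ 2 / σ ^ 3) ≤ ev l x0 (s - σ ^ 3) y0 (t + σ ^ 3)} := by
  have := h.prob
  have h0 : 0 < σ ^ 3 := by positivity
  have hs : s - σ ^ 3 < s := sub_lt_self _ h0
  have ht : t < t + σ ^ 3 := lt_add_of_pos_right _ h0
  have e1 : s - (s - σ ^ 3) = σ ^ 3 := by ring
  have e2 : t + σ ^ 3 - t = σ ^ 3 := by ring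
  have f1 := freeze (mF_le s) (mP_le s) (h.cut s).symm
    (fun k => {l | v ≤ ev l (x k) s (y k) t})
    (fun k => {l | -(2 * C * σ) - (x0 - x k) ^ 2 / (s - (s - σ ^ 3)) ≤ ev l x0 (s - σ ^ 3) (x k) s})
    (fun k => measurable_ev_mF _ _ _ le_rfl measurableSet_Ici)
    (fun k => measurable_ev_mP _ _ _ le_rfl measurableSet_Ici)
    (fun k => hT.half h x0 (s - σ ^ 3) (x k) s σ hs hσ e1.le)
  have f2 := freeze (mP_le t) (mF_le t) (h.cut t)
    (fun k => {l | v ≤ ev l (x k) s (y k) t} ∩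
      {l | -(2 * C * σ) - (x0 - x k) ^ 2 / (s - (s - σ ^ 3)) ≤ ev l x0 (s - σ ^ 3) (x k) s})
    (fun k => {l | -(2 * C * σ) - (y k - y0) ^ 2 / (t + σ ^ 3 - t) ≤ ev l (y k) t y0 (t + σ ^ 3)})
    (fun k => MeasurableSet.inter (measurable_ev_mP _ _ _ le_rfl measurableSet_Ici)
      (measurable_ev_mP _ _ _ hst.le measurableSet_Ici))
    (fun k => measurable_ev_mF _ _ _ le_rfl measurableSet_Ici)
    (fun k => hT.half h (y k) t y0 (t + σ ^ 3) σ ht hσ e2.le)
  have f3 := (mul_le_mul_right f1 (1 / 2)).trans f2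
  have e3 : ∀ a : ℝ≥0∞, a = 4 * (1 / 2 * (1 / 2 * a)) := fun a => by
    have : (4 : ℝ≥0∞) = 2 * 2 := by norm_num
    have e : (2 : ℝ≥0∞) * (1 / 2) = 1 := ENNReal.mul_div_cancel two_ne_zero ENNReal.ofNat_ne_top
    calc a = (2 * (1 / 2)) * (2 * (1 / 2)) * a := by rw [e, one_mul, one_mul]
      _ = _ := by rw [this]; ring
  rw [ofPred_exists, e3 (μ _)]
  refine mul_le_mul_right (f3.trans (measure_mono_ae ?_)) 4
  filter_upwards [ae_all_iff.2 fun k => h.tri x0 (s - σ ^ 3) (x k) s (y k) t hs hst,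
    ae_all_iff.2 fun k => h.tri x0 (s - σ ^ 3) (y k) t y0 (t + σ ^ 3) (hs.trans hst) ht]
    with l a1 a2 hl
  obtain ⟨k, ⟨b1, b2⟩, b3⟩ := mem_iUnion.1 hl
  have c1 : v ≤ ev l (x k) s (y k) t := b1
  have c2 : -(2 * C * σ) - (x0 - x k) ^ 2 / (s - (s - σ ^ 3)) ≤
    ev l x0 (s - σ ^ 3) (x k) s := b2
  have c3 : -(2 * C * σ) - (y k - y0) ^ 2 / (t + σ ^ 3 - t) ≤ ev l (y k) t y0 (t + σ ^ 3) := b3
  rw [e1] at c2
  rw [e2] at c3
  have d1 : (x0 - x k) ^ 2 / σ ^ 3 ≤ w ^ 2 / σ ^ 3 := by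
    refine div_le_div_of_nonneg_right ?_ h0.le
    rw [← sq_abs, abs_sub_comm]
    exact pow_le_pow_left₀ (abs_nonneg _) (hx k) 2
  have d2 : (y k - y0) ^ 2 / σ ^ 3 ≤ w ^ 2 / σ ^ 3 := by
    refine div_le_div_of_nonneg_right ?_ h0.le
    rw [← sq_abs]
    exact pow_le_pow_left₀ (abs_nonneg _) (hy k) 2
  change v - 2 * (2 * C * σ + w ^ 2 / σ ^ 3) ≤ ev l x0 (s - σ ^ 3) y0 (t + σ ^ 3)
  linarith only [c1, c2, c3, d1, d2, a1, a2, a1 k, a2 k]

/-- Mean of the maximum over a bounded box, uniformly in the finite set and in the times. -/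
theorem Tails.mean_le (h : Ax μ) (hT : Tails μ C α) (R : ℝ) : ∃ C0 : ℝ, 0 ≤ C0 ∧
    ∀ (κ : Type) [Fintype κ] (x y : κ → ℝ) (s t : ℝ) (g : (Up → ℝ) → ℝ), s < t → t - s ≤ 1 →
      (∀ k, |x k| ≤ R) → (∀ k, |y k| ≤ R) → Integrable g μ →
      (∀ᵐ l ∂μ, ∃ k, g l ≤ ev l (x k) s (y k) t) → ∫ l, g l ∂μ ≤ C0 := by
  have := h.prob
  have hC : 0 < C := zero_lt_one.trans_le hT.one_le
  have hI : IntegrableOn (fun r : ℝ => 4 * C * Real.exp (-(1 / 2) * r)) (Ioi 0) :=
    (exp_neg_integrableOn_Ioi 0 (by norm_num)).const_mul _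
  refine ⟨2 * (2 * C + R ^ 2) + ∫ r in Ioi (0 : ℝ), 4 * C * Real.exp (-(1 / 2) * r),
    add_nonneg (by positivity) (integral_nonneg fun r => by positivity), ?_⟩
  intro κ _ x y s t g hst h1 hx hy hg ha
  have hf : Integrable (fun l => max (g l - 2 * (2 * C + R ^ 2)) 0) μ :=
    (hg.sub (integrable_const _)).pos_part
  have h2 : ∫ l, g l ∂μ ≤ ∫ l, (2 * (2 * C + R ^ 2) + max (g l - 2 * (2 * C + R ^ 2)) 0) ∂μ :=
    integral_mono hg ((integrable_const _).add hf) fun l => by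
      linarith [le_max_left (g l - 2 * (2 * C + R ^ 2)) 0]
  rw [integral_add (integrable_const _) hf, integral_const, probReal_univ, one_smul,
    hf.integral_eq_integral_meas_le (Eventually.of_forall fun l => le_max_right _ _)] at h2
  refine h2.trans (add_le_add_right (integral_mono_of_nonneg
    (Eventually.of_forall fun r => measureReal_nonneg) hI ?_) _)
  filter_upwards [ae_restrict_mem measurableSet_Ioi] with r hr
  have hr' : 0 < r := hr
  have b1 := hT.box h x y 0 0 s t 1 R (2 * (2 * C + R ^ 2) + r) hst one_pos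
    (fun k => by simpa using hx k) (fun k => by simpa using hy k)
  have b2 := hT.up 0 (s - 1 ^ 3) 0 (t + 1 ^ 3) 2 (r / 2) (by linarith) two_pos (by linarith)
    (by positivity)
  have b3 : μ {l | r ≤ max (g l - 2 * (2 * C + R ^ 2)) 0} ≤
      μ {l | ∃ k, 2 * (2 * C + R ^ 2) + r ≤ ev l (x k) s (y k) t} := by
    refine measure_mono_ae ?_
    filter_upwards [ha] with l ⟨k, hk⟩ hl
    refine ⟨k, ?_⟩
    rcases le_max_iff.1 hl with c | c <;> linarith only [hk, c, hr']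
  have b4 : μ {l | 2 * (2 * C + R ^ 2) + r - 2 * (2 * C * 1 + R ^ 2 / 1 ^ 3) ≤
      ev l 0 (s - 1 ^ 3) 0 (t + 1 ^ 3)} ≤ ENNReal.ofReal (C * Real.exp (-(r / 2))) := by
    refine le_trans (measure_mono fun l hl => ?_) b2
    simp only [mem_ofPred_eq] at hl ⊢
    rw [sub_self, zero_pow two_ne_zero, zero_div]
    linarith only [hl]
  have b5 := b3.trans (b1.trans (mul_le_mul_right b4 4))
  rw [← ENNReal.ofReal_ofNat, ← ENNReal.ofReal_mul (by norm_num)] at b5
  refine (ENNReal.toReal_le_of_le_ofReal (by positivity) b5).trans (le_of_eq ?_)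
  rw [mul_assoc]
  congr 3
  ring

end Pool.Agent.Work.MP_8495a2_pr
end

-- merged part: Pool.Agent.Work.MP_8495a2_pr.Cheb
section
open MeasureTheory ProbabilityTheory Set Filter Topology
open scoped ENNReal NNReal

namespace Pool.Agent.Work.MP_8495a2_pr

variable {μ : Measure (Up → ℝ)} {C : ℝ} {α : ℕ} {N : ℕ} (pos : Fin (N + 1) → ℝ) (W : ℕ)
  {c1 c2 : ℝ}

theorem Cheb_meas {r : ℝ} (hr : 0 < r) (i j : ℕ) (s : ℝ) :
    Measurable (blk pos r W c1 c2 i j s) :=
  (measurable_blk_mF pos W c1 c2 hr i j (le_refl s)).mono (mF_le s) le_rfl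

theorem Tails.blk_sq (h : Ax μ) (hT : Tails μ C α) {ρ : ℝ} (hρ : 0 < ρ) (h0 : 0 ≤ c1)
    (hc : c1 ≤ c2) (i j : ℕ) (s : ℝ) :
    MemLp (blk pos (ρ ^ 3) W c1 c2 i j s) 2 μ ∧
      ∫ l, blk pos (ρ ^ 3) W c1 c2 i j s l ^ 2 ∂μ ≤
        ((i + j : ℕ) : ℝ) ^ 2 * (c2 ^ 2 + C ^ 2 * ρ ^ 2) := by
  have := h.prob
  have hr : 0 < ρ ^ 3 := pow_pos hρ 3
  have hm := (Cheb_meas pos W (c1 := c1) (c2 := c2) hr i j s).aestronglyMeasurable (μ := μ)
  obtain ⟨Y, hY⟩ : ∃ Y : ℕ → (Up → ℝ) → ℝ, ∀ k l, Y k l =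
      max (-(ev l (pos 0) (s + k * ρ ^ 3) (pos 0) (s + k * ρ ^ 3 + ρ ^ 3))) 0 :=
    ⟨_, fun _ _ => rfl⟩
  have hY1 : ∀ k, Integrable (fun l => Y k l ^ 2) μ ∧ ∫ l, Y k l ^ 2 ∂μ ≤ C ^ 2 * ρ ^ 2 := by
    intro k
    have h1 := hT.low (pos 0) (s + k * ρ ^ 3) (pos 0) (s + k * ρ ^ 3 + ρ ^ 3) ρ (by linarith) hρ
      (by linarith)
    simp only [sub_self, ne_eq, OfNat.ofNat_ne_zero, not_false_eq_true, zero_pow, zero_div,
      add_zero, ← hY] at h1
    exact ⟨h1.1.integrable_sq, h1.2⟩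
  have hb : ∀ l, blk pos (ρ ^ 3) W c1 c2 i j s l ^ 2 ≤ ((i + j : ℕ) : ℝ) ^ 2 * c2 ^ 2 +
      ((i + j : ℕ) : ℝ) * ∑ k ∈ Finset.range (i + j), Y k l ^ 2 := by
    intro l
    have h1 := chain_le_blk pos W c1 c2 (ρ ^ 3) hc i j s l (fun _ => 0) fun k _ => by
      simp [Nat.dist_self]
    have h2 := blk_le_cap pos W c1 c2 (ρ ^ 3) hc i j s l
    have h3 : -∑ k ∈ Finset.range (i + j), Y k l ≤ blk pos (ρ ^ 3) W c1 c2 i j s l := by
      refine le_trans ?_ h1
      rw [← Finset.sum_neg_distrib]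
      refine Finset.sum_le_sum fun k _ => ?_
      rw [hY]
      exact le_min (neg_le.2 (le_max_left _ _)) ((neg_nonpos.2 (le_max_right _ _)).trans h0)
    have h4 := sq_sum_le_card_mul_sum_sq (s := Finset.range (i + j)) (f := fun k => Y k l)
    rw [Finset.card_range] at h4
    have h5 : 0 ≤ ∑ k ∈ Finset.range (i + j), Y k l :=
      Finset.sum_nonneg fun k _ => by rw [hY]; exact le_max_right _ _
    have h6 : 0 ≤ ((i + j : ℕ) : ℝ) * c2 := mul_nonneg (Nat.cast_nonneg _) (h0.trans hc)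
    rw [← Nat.cast_add] at h2
    rw [← mul_pow]
    rcases le_total 0 (blk pos (ρ ^ 3) W c1 c2 i j s l) with h7 | h7
    · linarith only [h4, h7, h2, pow_le_pow_left₀ h7 h2 2, sq_nonneg (∑ k ∈ Finset.range (i + j), Y k l), sq_nonneg (∑ k ∈ Finset.range (i + j), Y k l)]
    · have h8 := pow_le_pow_left₀ (neg_nonneg.2 h7) (neg_le.1 h3) 2
      rw [neg_sq] at h8
      linarith only [h4, h8, sq_nonneg (((i + j : ℕ) : ℝ) * c2), sq_nonneg (↑(i + j) * c2)]
  have hs : Integrable (fun l => ∑ k ∈ Finset.range (i + j), Y k l ^ 2) μ :=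
    integrable_finsetSum _ fun k _ => (hY1 k).1
  have hg : Integrable (fun l => ((i + j : ℕ) : ℝ) ^ 2 * c2 ^ 2 +
      ((i + j : ℕ) : ℝ) * ∑ k ∈ Finset.range (i + j), Y k l ^ 2) μ :=
    (integrable_const _).add (hs.const_mul _)
  have hi : Integrable (fun l => blk pos (ρ ^ 3) W c1 c2 i j s l ^ 2) μ :=
    hg.mono' (hm.pow 2) (ae_of_all _ fun l => by
      rw [Real.norm_of_nonneg (sq_nonneg _)]
      exact hb l)
  refine ⟨(memLp_two_iff_integrable_sq hm).2 hi, (integral_mono hi hg hb).trans ?_⟩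
  rw [integral_add (integrable_const _) (hs.const_mul _), integral_const, integral_const_mul,
    integral_finsetSum _ fun k _ => (hY1 k).1, probReal_univ, one_smul]
  have h1 := Finset.sum_le_card_nsmul (Finset.range (i + j)) (fun k => ∫ l, Y k l ^ 2 ∂μ)
    (C ^ 2 * ρ ^ 2) fun k _ => (hY1 k).2
  rw [Finset.card_range, nsmul_eq_mul] at h1
  have h2 := mul_le_mul_of_nonneg_left h1 (Nat.cast_nonneg (α := ℝ) (i + j))
  linarith only [h2]

/-- Chebyshev's inequality for consecutive blocks. -/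
theorem Tails.blk_cheb (h : Ax μ) (hT : Tails μ C α) (ρ s : ℚ) (hρ : 0 < ρ) (h0 : 0 ≤ c1)
    (hc : c1 ≤ c2) (i j q : ℕ) {D M : ℝ} (hD : 0 < D) (hq : 1 ≤ q) (hM : 2 * M ≤ q * D)
    (he : ee (μ.map fun l => strip pos ((ρ : ℝ) ^ 3) l 0) W c1 c2 i j ≤ -D) :
    μ {l | -M ≤ ∑ β ∈ Finset.range q,
        blk pos ((ρ : ℝ) ^ 3) W c1 c2 i j (s + β * ((i + j) * (ρ : ℝ) ^ 3)) l} ≤
      ENNReal.ofReal (4 * (((i + j : ℕ) : ℝ) ^ 2 * (c2 ^ 2 + C ^ 2 * ρ ^ 2)) / (q * D ^ 2)) := by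
  have := h.prob
  have hρ' : (0 : ℝ) < ρ := by exact_mod_cast hρ
  have hr : (0 : ℝ) < (ρ : ℝ) ^ 3 := pow_pos hρ' 3
  obtain ⟨X, hX⟩ : ∃ X : ℕ → (Up → ℝ) → ℝ, ∀ β, X β =
      blk pos ((ρ : ℝ) ^ 3) W c1 c2 i j (s + β * ((i + j) * (ρ : ℝ) ^ 3)) := ⟨_, fun _ => rfl⟩
  simp only [← hX]
  obtain ⟨V, hV⟩ : ∃ V : ℝ, V = ((i + j : ℕ) : ℝ) ^ 2 * (c2 ^ 2 + C ^ 2 * ρ ^ 2) := ⟨_, rfl⟩
  rw [← hV]
  have h1 : ∀ β, MemLp (X β) 2 μ ∧ ∫ l, X β l ^ 2 ∂μ ≤ V := fun β => by
    rw [hX, hV]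
    exact hT.blk_sq pos W h hρ' h0 hc i j _
  have h2 : ∀ β, ∫ l, X β l ∂μ ≤ -D := fun β => by
    have h3 := h.map_blk pos W c1 c2 (s + β * ((i + j) * ρ ^ 3)) (ρ ^ 3) (pow_pos hρ 3) i j
    push_cast at h3
    rw [← hX] at h3
    have h4 : ∫ l, X β l ∂μ = ∫ y, y ∂(μ.map (X β)) :=
      (integral_map (h1 β).1.1.aemeasurable aestronglyMeasurable_id).symm
    rw [h4, h3]
    exact (integral_map measurable_md.aemeasurable aestronglyMeasurable_id).trans_le he
  have h3 : ∀ β β', β < β' → IndepFun (X β) (X β') μ := fun β β' hβ => by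
    rw [IndepFun_iff_Indep, hX, hX]
    refine indep_of_indep_of_le (h.cut (s + β' * ((i + j) * (ρ : ℝ) ^ 3)))
      (measurable_blk_mP pos W c1 c2 hr i j ?_).comap_le
      (measurable_blk_mF pos W c1 c2 hr i j le_rfl).comap_le
    have h4 : (β : ℝ) + 1 ≤ β' := by exact_mod_cast hβ
    have h5 : (0 : ℝ) ≤ (i + j) * (ρ : ℝ) ^ 3 := by positivity
    linarith only [h4, h5, mul_nonneg_of_nonpos_of_nonpos (Mathlib.Tactic.Linarith.sub_nonpos_of_le h4) (Mathlib.Tactic.Linarith.sub_nonpos_of_le h5)]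
  have h4 := IndepFun.variance_sum (μ := μ) (X := X) (s := Finset.range q) (fun β _ => (h1 β).1)
    fun β _ β' _ hne => (lt_or_gt_of_ne hne).elim (h3 β β') fun hlt => (h3 β' β hlt).symm
  have h5 : variance (∑ β ∈ Finset.range q, X β) μ ≤ q * V := by
    rw [h4]
    have h6 := Finset.sum_le_card_nsmul (Finset.range q) (fun β => variance (X β) μ) V
      fun β _ => (variance_le_expectation_sq (h1 β).1.1).trans (h1 β).2
    rwa [Finset.card_range, nsmul_eq_mul] at h6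
  have h6 : ∫ l, (∑ β ∈ Finset.range q, X β) l ∂μ ≤ q * -D := by
    simp only [Finset.sum_apply]
    rw [integral_finsetSum _ fun β _ => (h1 β).1.integrable one_le_two]
    have h7 := Finset.sum_le_card_nsmul (Finset.range q) (fun β => ∫ l, X β l ∂μ) (-D)
      fun β _ => h2 β
    rwa [Finset.card_range, nsmul_eq_mul] at h7
  have hq' : (0 : ℝ) < q := by exact_mod_cast hq
  have h7 := meas_ge_le_variance_div_sq (μ := μ)
    (memLp_finsetSum' (Finset.range q) fun β _ => (h1 β).1) (c := q * D / 2) (by positivity)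
  refine (measure_mono fun l hl => ?_).trans (h7.trans (ENNReal.ofReal_le_ofReal ?_))
  · have h8 : -M ≤ ∑ β ∈ Finset.range q, X β l := hl
    refine Set.mem_ofPred_eq.mpr (le_trans ?_ (le_abs_self _))
    rw [Finset.sum_apply]
    linarith only [hM, h6, h8]
  · refine (div_le_div_of_nonneg_right h5 (by positivity)).trans (le_of_eq ?_)
    field_simp
    ring

end Pool.Agent.Work.MP_8495a2_pr
end

-- merged part: Pool.Agent.Work.MP_8495a2_pr.Par
section
open MeasureTheory ProbabilityTheory Set Filter Topology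
open scoped ENNReal NNReal

namespace Pool.Agent.Work.MP_8495a2_pr

/-- The inverse probability scale `v = 2 ^ (α j ^ 6)`. -/
def vv (α j : ℕ) : ℕ := 2 ^ (α * j ^ 6)

/-- The length scale `ρ = 1 / (2 v ^ 4)`. -/
def rho (α j : ℕ) : ℚ := (1 / 2) ^ (4 * (α * j ^ 6) + 1)

/-- The lattice of mesh `R / n` in `[-R, R]`. -/
noncomputable def latt (R n : ℕ) : Fin (2 * n + 1) → ℝ := fun a => (((a : ℕ) : ℝ) - n) * R / n

/-- Number of sites in a window of width `2 ρ ^ 2`. -/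
noncomputable def gg (R n : ℕ) (ρ : ℝ) : ℕ := ⌈2 * ρ ^ 2 * n / R⌉₊

/-- The sum of `v ^ 3` consecutive blocks started at time `1 / 4`. -/
noncomputable def blkSum (α j B R n i i' : ℕ) (l : Up → ℝ) : ℝ :=
  ∑ β ∈ Finset.range (vv α j ^ 3),
    blk (latt R n) ((rho α j : ℝ) ^ 3) (B * j ^ 3 * gg R n (rho α j))
      ((j : ℝ) ^ 4 * rho α j / 4) ((j : ℝ) ^ 4 * rho α j / 2) i i'
      (1 / 4 + β * ((i + i') * (rho α j : ℝ) ^ 3)) l

theorem vv_pos (α j : ℕ) : 0 < vv α j := by unfold vv; positivity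

theorem rho_pos (α j : ℕ) : (0 : ℝ) < rho α j := by unfold rho; push_cast; positivity

theorem rho_cast (α j : ℕ) : (rho α j : ℝ) = (1 / 2) ^ (4 * (α * j ^ 6) + 1) := by
  unfold rho; push_cast; rfl

theorem rho_eq (α j : ℕ) : (rho α j : ℝ) = 1 / (2 * (vv α j : ℝ) ^ 4) := by
  rw [rho_cast]; unfold vv; push_cast
  rw [← pow_mul, one_div, inv_pow, one_div, pow_succ, mul_comm _ 4, mul_comm _ (2 : ℝ)]

theorem abs_latt_le (R n : ℕ) (a : Fin (2 * n + 1)) : |latt R n a| ≤ R := by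
  unfold latt
  rcases Nat.eq_zero_or_pos n with h | h
  · subst h; simp
  have hn : (0 : ℝ) < n := by exact_mod_cast h
  have ha : ((a : ℕ) : ℝ) ≤ 2 * n := by exact_mod_cast Nat.lt_succ_iff.mp a.2
  have h0 : (0 : ℝ) ≤ ((a : ℕ) : ℝ) := by positivity
  rw [abs_div, abs_mul, abs_of_pos hn, abs_of_nonneg (by positivity : (0 : ℝ) ≤ R),
    div_le_iff₀ hn, mul_comm]
  exact mul_le_mul_of_nonneg_left (abs_le.2 ⟨by linarith only [], by linarith⟩) (by positivity)

end Pool.Agent.Work.MP_8495a2_pr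
end

-- merged part: Pool.Agent.Work.MP_8495a2_pr.UB
section
open MeasureTheory ProbabilityTheory Set Filter Topology
open scoped ENNReal NNReal

namespace Pool.Agent.Work.MP_8495a2_pr

variable {μ : Measure (Up → ℝ)} {C : ℝ} {α : ℕ}

theorem sig_pos (j : ℕ) : 0 < sig j := Real.rpow_pos_of_pos (by positivity) _

theorem sig_cube (j : ℕ) : sig j ^ 3 = (1 / 2 : ℝ) ^ j := by
  rw [sig, one_div (3 : ℝ)]
  exact_mod_cast Real.rpow_inv_natCast_pow (by positivity) three_ne_zero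

theorem sig_le (j : ℕ) : sig j ≤ (4 / 5 : ℝ) ^ j := by
  refine (pow_le_pow_iff_left₀ (sig_pos j).le (by positivity) three_ne_zero).1 ?_
  rw [sig_cube, ← pow_mul, mul_comm, pow_mul]
  exact pow_le_pow_left₀ (by norm_num) (by norm_num) j

theorem sig_three_mul (j : ℕ) : sig (3 * j) = (1 / 2 : ℝ) ^ j :=
  (pow_left_inj₀ (sig_pos _).le (by positivity) three_ne_zero).1
    (by rw [sig_cube, ← pow_mul, mul_comm])

theorem UB_cnt {Ω ι : Type} [MeasurableSpace Ω] {P : Measure Ω} [Countable ι] (A : ι → Set Ω)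
    {b : ℝ≥0∞} (h : ∀ F : Finset ι, P {l | ∃ k : F, l ∈ A k} ≤ b) : P {l | ∃ k, l ∈ A k} ≤ b := by
  have h1 : {l | ∃ k, l ∈ A k} = ⋃ F : Finset ι, {l | ∃ k : F, l ∈ A k} := by
    ext l
    simp only [mem_ofPred_eq, mem_iUnion]
    exact ⟨fun ⟨k, hk⟩ => ⟨{k}, ⟨k, Finset.mem_singleton_self k⟩, hk⟩, fun ⟨_, k, hk⟩ => ⟨k, hk⟩⟩
  have h2 : Monotone fun F : Finset ι => {l | ∃ k : F, l ∈ A k} :=
    fun F G hFG l ⟨k, hk⟩ => ⟨⟨k, hFG k.2⟩, hk⟩
  rw [h1, h2.directed_le.measure_iUnion]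
  exact iSup_le h

/-- The bad event of one cell. -/
def UB_cell (C x0 y0 s σ w z : ℝ) : Set (Up → ℝ) :=
  {l | ∃ x y : ℚ, |x - x0| ≤ w ∧ |y - y0| ≤ w ∧
    2 * (2 * C * σ + w ^ 2 / σ ^ 3) + (2 * σ * z - (x0 - y0) ^ 2 / (3 * σ ^ 3)) ≤
      ev l x s y (s + σ ^ 3)}

theorem UB_cell_le (h : Ax μ) (hT : Tails μ C α) (x0 y0 s w : ℝ) {σ z : ℝ} (hσ : 0 < σ)
    (hz : 0 ≤ z) : μ (UB_cell C x0 y0 s σ w z) ≤ 4 * ENNReal.ofReal (C * Real.exp (-z)) := by
  have h3 : 0 < σ ^ 3 := by positivity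
  have h1 := UB_cnt (P := μ) (ι := {p : ℚ × ℚ // |p.1 - x0| ≤ w ∧ |p.2 - y0| ≤ w})
    (fun p => {l | 2 * (2 * C * σ + w ^ 2 / σ ^ 3) +
      (2 * σ * z - (x0 - y0) ^ 2 / (3 * σ ^ 3)) ≤ ev l p.1.1 s p.1.2 (s + σ ^ 3)})
    (b := 4 * ENNReal.ofReal (C * Real.exp (-z))) fun F => by
      refine (hT.box h (κ := F) (fun k => k.1.1.1) (fun k => k.1.1.2) x0 y0 s (s + σ ^ 3) σ w _
        (by linarith) hσ (fun k => k.1.2.1) fun k => k.1.2.2).trans ?_
      refine mul_le_mul_right (le_trans (measure_mono fun l hl => ?_) (hT.up x0 (s - σ ^ 3) y0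
        (s + σ ^ 3 + σ ^ 3) (2 * σ) z (by linarith) (by linarith) (by linarith only [h3]) hz)) _
      rw [mem_ofPred_eq] at hl ⊢
      rw [show s + σ ^ 3 + σ ^ 3 - (s - σ ^ 3) = 3 * σ ^ 3 by ring]
      linarith only [hl]
  refine le_trans (measure_mono ?_) h1
  exact fun l ⟨x, y, hx, hy, hl⟩ => ⟨⟨(x, y), hx, hy⟩, hl⟩

theorem UB_grid {M : ℕ} (hM : 0 < M) {x : ℝ} (hx : |x| ≤ M) :
    ∃ a < 3 * M ^ 2, |x - ((a : ℕ) / M - M : ℝ)| ≤ 1 / M := by
  have h0 : (0 : ℝ) < M := by exact_mod_cast hM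
  obtain ⟨h1, h2⟩ := abs_le.1 hx
  have h3 : 0 ≤ (x + M) * M := mul_nonneg (by linarith only [h1]) h0.le
  refine ⟨⌊(x + M) * M⌋₊, (Nat.floor_lt h3).2 (by push_cast; linarith only [h2, h0, mul_nonneg_of_nonpos_of_nonpos (Mathlib.Tactic.Linarith.sub_nonpos_of_le (Mathlib.Tactic.Linarith.natCast_nonneg ℝ M)) (Mathlib.Tactic.Linarith.sub_nonpos_of_le h2), mul_pos_of_neg_of_neg (Mathlib.Tactic.Linarith.sub_neg_of_lt h0) (Mathlib.Tactic.Linarith.sub_neg_of_lt h0)]), ?_⟩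
  have h4 := Nat.floor_le h3
  have h5 := Nat.lt_floor_add_one ((x + M) * M)
  rw [show x - (⌊(x + M) * M⌋₊ / M - M) = ((x + M) * M - ⌊(x + M) * M⌋₊) / M by field_simp; ring,
    abs_div, abs_of_pos h0]
  exact div_le_div_of_nonneg_right (abs_le.2 ⟨by linarith, by linarith⟩) h0.le

/-- The bad event of order `n`. -/
def UB_bad (C : ℝ) (n : ℕ) : Set (Up → ℝ) :=
  ⋃ p ∈ Finset.range (n + 1) ×ˢ Finset.range (2 ^ n) ×ˢ Finset.range (3 * (2 ^ n) ^ 2) ×ˢ
      Finset.range (3 * (2 ^ n) ^ 2),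
    UB_cell C (p.2.2.1 / (2 ^ n : ℕ) - (2 ^ n : ℕ)) (p.2.2.2 / (2 ^ n : ℕ) - (2 ^ n : ℕ))
      (p.2.1 / 2 ^ p.1) (sig p.1) (1 / (2 ^ n : ℕ)) (7 * n)

theorem UB_bad_le (h : Ax μ) (hT : Tails μ C α) (n : ℕ) :
    μ (UB_bad C n) ≤ ENNReal.ofReal (36 * C * (1 / 2) ^ n) := by
  refine (measure_biUnion_finset_le _ _).trans ((Finset.sum_le_card_nsmul _ _ _ fun p _ =>
    UB_cell_le h hT _ _ _ _ (sig_pos _) (by positivity)).trans ?_)
  have hC := hT.one_le
  rw [nsmul_eq_mul, ← ENNReal.ofReal_natCast, ← ENNReal.ofReal_ofNat 4,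
    ← ENNReal.ofReal_mul (by norm_num), ← ENNReal.ofReal_mul (Nat.cast_nonneg _)]
  refine ENNReal.ofReal_le_ofReal ?_
  simp only [Finset.card_product, Finset.card_range]
  have h1 : (n + 1 : ℝ) ≤ 2 ^ n := by exact_mod_cast Nat.lt_two_pow_self
  have h2 : Real.exp (-(7 * n)) ≤ ((1 / 2) ^ n) ^ 7 := by
    rw [← pow_mul, show -(7 * n : ℝ) = (n * 7 : ℕ) * -1 by push_cast; ring, Real.exp_nat_mul]
    exact pow_le_pow_left₀ (Real.exp_pos _).le (Real.exp_neg_one_lt_d9.le.trans (by norm_num)) _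
  have h3 : (2 : ℝ) ^ n * (1 / 2) ^ n = 1 := by rw [← mul_pow]; norm_num
  push_cast
  calc _ ≤ (2 : ℝ) ^ n * (2 ^ n * (3 * (2 ^ n) ^ 2 * (3 * (2 ^ n) ^ 2))) *
        (4 * (C * ((1 / 2) ^ n) ^ 7)) := by gcongr
    _ = 36 * C * (1 / 2) ^ n * (2 ^ n * (1 / 2) ^ n) ^ 6 := by ring
    _ = _ := by rw [h3, one_pow, mul_one]

theorem UB_arith {C σ w q x y x0 y0 z : ℝ} (hσ : 0 < σ) (h1 : σ ≤ 1) (hw : w ≤ σ ^ 3)
    (hq : σ ^ 3 * q = 1) (hx : |x - x0| ≤ w) (hy : |y - y0| ≤ w) :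
    2 * (2 * C * σ + w ^ 2 / σ ^ 3) + (2 * σ * z - (x0 - y0) ^ 2 / (3 * σ ^ 3)) ≤
      -((x - y) ^ 2 * q / 6) + (4 * C + 4 + 2 * z) * σ := by
  have h3 : 0 < σ ^ 3 := by positivity
  have h0 : 0 ≤ w := (abs_nonneg _).trans hx
  have h4 : σ ^ 3 ≤ σ := pow_le_of_le_one hσ.le h1 three_ne_zero
  have h5 : w ^ 2 / σ ^ 3 ≤ σ := by
    rw [div_le_iff₀ h3]
    linarith only [hw, h3, h0, h4, mul_nonneg_of_nonpos_of_nonpos (Mathlib.Tactic.Linarith.sub_nonpos_of_le hw) (le_of_lt (Mathlib.Tactic.Linarith.sub_neg_of_lt h3)), mul_nonneg_of_nonpos_of_nonpos (Mathlib.Tactic.Linarith.sub_nonpos_of_le hw) (Mathlib.Tactic.Linarith.sub_nonpos_of_le h0), mul_nonneg_of_nonpos_of_nonpos (le_of_lt (Mathlib.Tactic.Linarith.sub_neg_of_lt h3)) (Mathlib.Tactic.Linarith.sub_nonpos_of_le h4)]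
  have h6 : (x - y) ^ 2 ≤ 2 * (x0 - y0) ^ 2 + 8 * w ^ 2 := by
    have a := sq_le_sq' (abs_le.1 hx).1 (abs_le.1 hx).2
    have b := sq_le_sq' (abs_le.1 hy).1 (abs_le.1 hy).2
    linarith only [a, b, sq_nonneg (x0 - y0 - (x - x0 - (y - y0))), sq_nonneg (x - x0 + (y - y0)), sq_nonneg (x - x0 + (y - y0)), sq_nonneg (x0 - y0 - (x - x0 - (y - y0)))]
  have h7 := div_le_div_of_nonneg_right h6 h3.le
  rw [eq_inv_of_mul_eq_one_right hq, ← div_eq_mul_inv, mul_comm 3, ← div_div]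
  rw [add_div, mul_div_assoc, mul_div_assoc] at h7
  linarith only [hσ, h5, h7]

theorem Tails.ub_rat (h : Ax μ) (hT : Tails μ C α) :
    ∀ᵐ l ∂μ, ∃ K : ℕ, ∀ x y : ℚ, UBat l K x y := by
  have hs : ∑' n, μ (UB_bad C n) ≠ ∞ :=
    ne_top_of_le_ne_top (summable_geometric_two.mul_left (36 * C)).tsum_ofReal_ne_top
      (ENNReal.tsum_le_tsum (UB_bad_le h hT))
  filter_upwards [ae_eventually_notMem hs] with l hl
  obtain ⟨N, hN⟩ := eventually_atTop.1 hl
  refine ⟨⌈4 * C⌉₊ + 32 + 14 * N, fun x y j i hi => ?_⟩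
  obtain ⟨n, hn⟩ : ∃ n, n = N + j + ⌈|(x : ℝ)|⌉₊ + ⌈|(y : ℝ)|⌉₊ := ⟨_, rfl⟩
  have h1 : n < 2 ^ n := Nat.lt_two_pow_self
  have h2 : 2 ^ j ≤ 2 ^ n := Nat.pow_le_pow_right two_pos (by omega)
  obtain ⟨a, ha, hx⟩ := UB_grid (M := 2 ^ n) (by positivity) (x := x) (Nat.ceil_le.1 (by omega))
  obtain ⟨b, hb, hy⟩ := UB_grid (M := 2 ^ n) (by positivity) (x := y) (Nat.ceil_le.1 (by omega))
  have h3 := hN n (by omega)
  by_contra k
  refine h3 (mem_biUnion (x := (j, i, a, b)) ?_ ⟨x, y, hx, hy, ?_⟩)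
  · simp only [Finset.mem_coe, Finset.mem_product, Finset.mem_range]
    omega
  have hσ := sig_pos j
  have h4 : ((i : ℝ) + 1) / 2 ^ j = i / 2 ^ j + sig j ^ 3 := by
    rw [sig_cube, add_div, one_div_pow]
  rw [h4, not_le] at k
  refine le_trans ((UB_arith (q := 2 ^ j) hσ ((sig_le j).trans (pow_le_one₀ (by norm_num)
    (by norm_num))) ?_ ?_ hx hy).trans ?_) k.le
  · rw [sig_cube, one_div_pow]
    exact one_div_le_one_div_of_le (by positivity) (by exact_mod_cast h2)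
  · rw [sig_cube, ← mul_pow]
    norm_num
  · rw [mul_right_comm _ (sig j)]
    refine add_le_add_right (mul_le_mul_of_nonneg_right ?_ hσ.le) _
    have e1 := Nat.le_ceil (4 * C)
    have e2 := Nat.ceil_lt_add_one (abs_nonneg (x : ℝ))
    have e3 := Nat.ceil_lt_add_one (abs_nonneg (y : ℝ))
    have e4 := abs_nonneg (x : ℝ)
    have e5 := abs_nonneg (y : ℝ)
    have e6 : (0 : ℝ) ≤ j := Nat.cast_nonneg _
    have e7 : (0 : ℝ) ≤ N := Nat.cast_nonneg _
    have e8 : (0 : ℝ) ≤ ⌈4 * C⌉₊ := Nat.cast_nonneg _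
    rw [hn, mul_assoc]
    push_cast
    have e9 : 1 + (j + |(x : ℝ)| + |(y : ℝ)|) ≤ (1 + j) * (1 + |(x : ℝ)| + |(y : ℝ)|) := by
      linarith only [e6, e4, e5, mul_nonneg e6 e4, mul_nonneg e6 e5]
    refine le_trans ?_ (mul_le_mul_of_nonneg_left e9 (by positivity))
    linarith only [e1, e2, e3, e4, e5, e8, e7, e6, mul_nonneg (add_nonneg e8 e7) (add_nonneg (add_nonneg e6 e4) e5),
      mul_nonneg e7 (add_nonneg (add_nonneg e6 e4) e5)]

theorem ub_of_rat {l : Up → ℝ} (hl : Continuous l) {K : ℝ} (h : ∀ x y : ℚ, UBat l K x y)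
    (x y : ℝ) : UBat l K x y := fun j i hi =>
  Rat.denseRange_cast.induction_on₂ (p := fun x y : ℝ => ev l x (i / 2 ^ j) y ((i + 1) / 2 ^ j) ≤
    -((x - y) ^ 2 * 2 ^ j / 6) + K * (1 + j) * sig j * (1 + |x| + |y|))
    (isClosed_le (continuous_ev hl _ _) (by fun_prop)) (fun x y => h x y j i hi) x y

end Pool.Agent.Work.MP_8495a2_pr
end

-- merged part: Pool.Agent.Work.MP_8495a2_pr.MidPt
section
open MeasureTheory ProbabilityTheory Set Filter Topology
open scoped ENNReal NNReal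

namespace Pool.Agent.Work.MP_8495a2_pr

variable {Ω : Type*} [MeasurableSpace Ω] {P : Measure Ω} {L : Ω → Up → ℝ} {C : ℝ} {α : ℕ}

lemma midpt_seq (x : ℝ) : ∃ u : ℕ → ℚ, Tendsto (fun n => (u n : ℝ)) atTop (𝓝 x) :=
  let ⟨u, _, _, h⟩ := Real.exists_seq_rat_strictMono_tendsto x
  ⟨u, h⟩

lemma midpt_tri {l : Up → ℝ} (hl : Continuous l)
    (h : ∀ x s z u y t : ℚ, (s : ℝ) < u → (u : ℝ) < t → ev l x s z u + ev l z u y t ≤ ev l x s y t) :
    Tri l := by
  intro x s z u y t h1 h2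
  obtain ⟨x', hx⟩ := midpt_seq x
  obtain ⟨s', hs⟩ := midpt_seq s
  obtain ⟨z', hz⟩ := midpt_seq z
  obtain ⟨u', hu⟩ := midpt_seq u
  obtain ⟨y', hy⟩ := midpt_seq y
  obtain ⟨t', ht⟩ := midpt_seq t
  refine le_of_tendsto_of_tendsto ((tendsto_ev hl h1 hx hs hz hu).add (tendsto_ev hl h2 hz hu hy ht))
    (tendsto_ev hl (h1.trans h2) hx hs hy ht) ?_
  filter_upwards [hs.eventually_lt hu h1, hu.eventually_lt ht h2] with n a1 a2
  exact h _ _ _ _ _ _ a1 a2

theorem ae_tri (hm : Measurable L) (hc : ∀ ω, Continuous (L ω)) (h : Ax (P.map L)) :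
    ∀ᵐ ω ∂P, Tri (L ω) := by
  have h1 : ∀ᵐ l ∂(P.map L), ∀ x s z u y t : ℚ, (s : ℝ) < u → (u : ℝ) < t →
      ev l x s z u + ev l z u y t ≤ ev l x s y t := by
    simp only [ae_all_iff]
    exact fun x s z u y t a1 a2 => h.tri _ _ _ _ _ _ a1 a2
  filter_upwards [ae_of_ae_map hm.aemeasurable h1] with ω hω
  exact midpt_tri (hc ω) hω

theorem ae_ub (hm : Measurable L) (hc : ∀ ω, Continuous (L ω)) (h : Ax (P.map L))
    (hT : Tails (P.map L) C α) : ∀ᵐ ω ∂P, ∃ K : ℕ, ∀ x y : ℝ, UBat (L ω) K x y := by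
  filter_upwards [ae_of_ae_map hm.aemeasurable (hT.ub_rat h)] with ω hω
  obtain ⟨K, hK⟩ := hω
  exact ⟨K, ub_of_rat (hc ω) hK⟩

lemma midpt_up {μ : Measure (Up → ℝ)} (hT : Tails μ C α) {s t z : ℝ} (x : ℝ) (h1 : s < t)
    (h3 : t - s ≤ 1) (hz : 1 ≤ z) : μ {l | z ≤ ev l x s x t} ≤ ENNReal.ofReal (C ^ 2 / z) := by
  have h2 := hT.up x s x t 1 z h1 one_pos (by simpa using h3) (by linarith)
  simp only [one_mul, sub_self, ne_eq, OfNat.ofNat_ne_zero, not_false_eq_true, zero_pow, zero_div,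
    add_zero] at h2
  refine h2.trans (ENNReal.ofReal_le_ofReal ?_)
  have h4 := hT.one_le
  have h5 : Real.exp (-z) ≤ z⁻¹ := by
    rw [Real.exp_neg]
    exact inv_anti₀ (by linarith) (by linarith [Real.add_one_le_exp z])
  rw [div_eq_mul_inv]
  exact mul_le_mul (by linarith only [h4, mul_nonneg_of_nonpos_of_nonpos (Mathlib.Tactic.Linarith.sub_nonpos_of_le h4) (Mathlib.Tactic.Linarith.sub_nonpos_of_le h4)]) h5 (Real.exp_pos _).le (by positivity)

lemma midpt_low {μ : Measure (Up → ℝ)} (h : Ax μ) (hT : Tails μ C α) {s t z : ℝ} (x : ℝ) (h1 : s < t)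
    (h3 : t - s ≤ 1) (hz : 1 ≤ z) : μ {l | z ≤ -ev l x s x t} ≤ ENNReal.ofReal (C ^ 2 / z) := by
  have := h.prob
  obtain ⟨h2, h4⟩ := hT.low x s x t 1 h1 one_pos (by simpa using h3)
  simp only [sub_self, ne_eq, OfNat.ofNat_ne_zero, not_false_eq_true, zero_pow, zero_div,
    add_zero, one_pow, mul_one] at h2 h4
  have h5 := (mul_meas_ge_le_integral_of_nonneg (ae_of_all _ fun l => sq_nonneg _) h2.integrable_sq
    z).trans h4
  refine le_trans (measure_mono (t := {l | z ≤ max (-ev l x s x t) 0 ^ 2}) fun l hl => ?_) ?_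
  · have h6 : z ≤ max (-ev l x s x t) 0 := le_max_of_le_left hl
    show z ≤ _
    linarith only [hz, h6, mul_nonneg_of_nonpos_of_nonpos (Mathlib.Tactic.Linarith.sub_nonpos_of_le hz) (Mathlib.Tactic.Linarith.sub_nonpos_of_le hz), mul_nonneg_of_nonpos_of_nonpos (Mathlib.Tactic.Linarith.sub_nonpos_of_le hz) (Mathlib.Tactic.Linarith.sub_nonpos_of_le h6), mul_nonneg_of_nonpos_of_nonpos (Mathlib.Tactic.Linarith.sub_nonpos_of_le h6) (Mathlib.Tactic.Linarith.sub_nonpos_of_le h6)]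
  · rw [ENNReal.le_ofReal_iff_toReal_le (measure_ne_top _ _) (by positivity),
      le_div_iff₀ (by linarith), mul_comm]
    exact h5

lemma midpt_Xi {μ : Measure (Up → ℝ)} (h : Ax μ) (hT : Tails μ C α) {s u t z : ℝ} (ρ : ℝ)
    (h1 : s < u) (h2 : u < t) (h3 : t - s ≤ 1) (hz : 1 ≤ z) :
    μ {l | 3 * z < Xi l s u t ρ} ≤ ENNReal.ofReal (3 * (C ^ 2 / z)) := by
  have a1 := midpt_up hT ρ (h1.trans h2) h3 hz
  have a2 := midpt_low h hT ρ h1 (by linarith) hz
  have a3 := midpt_low h hT ρ h2 (by linarith) hz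
  have a4 : 0 ≤ C ^ 2 / z := by positivity
  rw [show 3 * (C ^ 2 / z) = C ^ 2 / z + C ^ 2 / z + C ^ 2 / z by ring,
    ENNReal.ofReal_add (by positivity) a4, ENNReal.ofReal_add a4 a4]
  refine le_trans (measure_mono fun l hl => ?_) ((measure_union_le _ _).trans
    (add_le_add ((measure_union_le _ _).trans (add_le_add a1 a2)) a3))
  simp only [Set.mem_ofPred_eq, Set.mem_union, Xi] at hl ⊢
  by_contra h4
  simp only [not_or, not_le] at h4
  linarith only [hl, h4, h4.1.1, h4.1.2, h4.2]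

theorem Tails.ae_Xi {μ : Measure (Up → ℝ)} (h : Ax μ) (hT : Tails μ C α) {s u t : ℝ}
    (h1 : s < u) (h2 : u < t) (h3 : t - s ≤ 1) :
    ∀ᵐ l ∂μ, ∃ᶠ R : ℕ in atTop, Xi l s u t R ≤ R ∧ Xi l s u t (-R) ≤ R := by
  rw [ae_iff]
  have a1 : Tendsto (fun N : ℕ => ENNReal.ofReal (18 * C ^ 2 / N)) atTop (𝓝 0) := by
    simpa using ENNReal.tendsto_ofReal (tendsto_const_div_atTop_nhds_zero_nat (18 * C ^ 2))
  refine le_antisymm (ge_of_tendsto a1 ?_) zero_le
  filter_upwards [eventually_ge_atTop 3] with N hN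
  refine measure_eventually_le
    (A := fun R : ℕ => {l | ¬ (Xi l s u t R ≤ R ∧ Xi l s u t (-R) ≤ R)})
    (ae_of_all _ fun l hl => not_frequently.1 hl) (Eventually.frequently ?_)
  filter_upwards [eventually_ge_atTop N] with R hR
  have b1 : (3 : ℝ) ≤ N := by exact_mod_cast hN
  have b2 : (N : ℝ) ≤ R := by exact_mod_cast hR
  have b3 : (1 : ℝ) ≤ R / 3 := by linarith only [b1, b2]
  have b4 := add_le_add (midpt_Xi h hT R h1 h2 h3 b3) (midpt_Xi h hT (-R) h1 h2 h3 b3)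
  rw [← ENNReal.ofReal_add (by positivity) (by positivity)] at b4
  refine le_trans (measure_mono fun l hl => ?_) (((measure_union_le _ _).trans b4).trans
    (ENNReal.ofReal_le_ofReal ?_))
  · simp only [Set.mem_ofPred_eq, Set.mem_union, not_and_or, not_le] at hl ⊢
    rwa [mul_div_cancel₀ _ (three_ne_zero)]
  · rw [show 3 * (C ^ 2 / ((R : ℝ) / 3)) + 3 * (C ^ 2 / ((R : ℝ) / 3)) = 18 * C ^ 2 / R by ring]
    exact div_le_div_of_nonneg_left (by positivity) (by linarith only [h1, h2, h3, b1]) b2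

lemma midpt_far {x ρ M R : ℝ} (hx : |x| ≤ M) (hρ : |ρ| = R) (h : M ≤ R) : (R - M) ^ 2 ≤ (x - ρ) ^ 2 := by
  rw [← sq_abs (x - ρ), abs_sub_comm]
  exact pow_le_pow_left₀ (by linarith) (by linarith [abs_sub_abs_le_abs_sub ρ x]) 2

lemma midpt_det {l : Up → ℝ} (hl : Continuous l) {s u t A : ℝ} (h1 : s < u) (h2 : u < t) (hA : 0 ≤ A)
    (hu1 : ∀ x y, ev l x s y u ≤ -((x - y) ^ 2 / 6) + A * (1 + |x| + |y|))
    (hu2 : ∀ x y, ev l x u y t ≤ -((x - y) ^ 2 / 6) + A * (1 + |x| + |y|))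
    (hX : ∃ᶠ R : ℕ in atTop, Xi l s u t R ≤ R ∧ Xi l s u t (-R) ≤ R)
    (hQ : ∀ (x y : ℚ) (R m : ℕ), |(x : ℝ)| ≤ R → |(y : ℝ)| ≤ R →
      QuadAt l x s u y t R (1 / ((m : ℝ) + 1))) (x y : ℝ) :
    ∃ z, ev l x s y t ≤ ev l x s z u + ev l z u y t := by
  obtain ⟨x', hx⟩ := midpt_seq x
  obtain ⟨y', hy⟩ := midpt_seq y
  have he := tendsto_ev hl (h1.trans h2) hx (tendsto_const_nhds (x := s)) hy (tendsto_const_nhds (x := t))
  obtain ⟨M, hM⟩ : ∃ M : ℝ, M = |x| + |y| + 1 := ⟨_, rfl⟩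
  have hM0 : 1 ≤ M := by linarith only [hM, abs_nonneg x, abs_nonneg y]
  obtain ⟨B, hB⟩ : ∃ B : ℝ, B = 2 * A * (1 + 2 * M) + M + 2 + |ev l x s y t| := ⟨_, rfl⟩
  have hB0 : 2 ≤ B := by
    have := mul_nonneg hA (show 0 ≤ 1 + 2 * M by linarith)
    linarith [abs_nonneg (ev l x s y t)]
  obtain ⟨R, ⟨hR1, hR2⟩, hR⟩ := (hX.and_eventually
    (tendsto_natCast_atTop_atTop.eventually_ge_atTop (M + 3 * (2 * A + 1 + B)))).exists
  have hMR : M ≤ R := by linarith only [hA, hB0, hR]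
  have hbig : -((R - M) ^ 2 / 3) + 2 * A * (1 + M + R) + R + 1 < ev l x s y t - 1 := by
    have b1 := mul_le_mul_of_nonneg_left (show 3 * (2 * A + 1 + B) ≤ R - M by linarith)
      (show 0 ≤ R - M by linarith only [hA, hB0, hR])
    have b2 := mul_lt_mul_of_pos_left (show 1 < R - M by linarith only [hA, hB0, hR]) (show 0 < B by linarith)
    linarith only [hB, b1, b2, neg_abs_le (ev l x s y t)]
  have hno : ∀ (a b ρ ε : ℝ), |a| ≤ M → |b| ≤ M → |ρ| = R → ε ≤ 1 → Xi l s u t ρ ≤ R →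
      ev l a s ρ u + ev l ρ u b t + Xi l s u t ρ + ε < ev l x s y t - 1 := by
    intro a b ρ ε ha hb hρ hε hXi
    have c1 := hu1 a ρ
    have c2 := hu2 ρ b
    have c3 := midpt_far ha hρ hMR
    have c4 := midpt_far hb hρ hMR
    rw [sub_sq_comm b ρ] at c4
    have c5 := mul_le_mul_of_nonneg_left ha hA
    have c6 := mul_le_mul_of_nonneg_left hb hA
    rw [hρ] at c1 c2
    linarith only [hbig, hε, hXi, c1, c2, c3, c4, c5, c6]
  have hev : ∀ᶠ n : ℕ in atTop, ∃ z : ℝ, z ∈ Icc (-(R : ℝ)) R ∧ ev l (x' n) s (y' n) t ≤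
      ev l (x' n) s z u + ev l z u (y' n) t + 1 / ((n : ℝ) + 1) := by
    filter_upwards [hx.abs.eventually_le_const (show |x| < M by linarith only [hM, abs_nonneg y]),
      hy.abs.eventually_le_const (show |y| < M by linarith only [hM, abs_nonneg x]),
      he.eventually_const_le (show ev l x s y t - 1 < ev l x s y t by linarith only [])] with n a1 a2 a3
    have a4 : 1 / ((n : ℝ) + 1) ≤ 1 := by
      rw [div_le_one (by positivity)]
      linarith only [Nat.cast_nonneg (α := ℝ) n]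
    rcases hQ (x' n) (y' n) R n (a1.trans hMR) (a2.trans hMR) with ⟨z, b1, b2⟩ | b | b
    · exact ⟨z, abs_le.1 b1, b2⟩
    · linarith only [a3, b, hno, a1, a2, a4, hR1, hno _ _ R _ a1 a2 (Nat.abs_cast R) a4 hR1]
    · linarith only [a3, b, hno, a1, a2, a4, hR2, hno _ _ (-R) _ a1 a2 (by rw [abs_neg, Nat.abs_cast]) a4 hR2]
  obtain ⟨z, hz⟩ := hev.choice
  obtain ⟨a, -, φ, hφ, ha⟩ := isCompact_Icc.tendsto_subseq' (hz.mono fun n hn => hn.1).frequently
  have hφ' := hφ.tendsto_atTop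
  have hlim := ((tendsto_ev hl h1 (hx.comp hφ') (tendsto_const_nhds (x := s)) ha
    (tendsto_const_nhds (x := u))).add (tendsto_ev hl h2 ha (tendsto_const_nhds (x := u)) (hy.comp hφ')
      (tendsto_const_nhds (x := t)))).add (tendsto_one_div_add_atTop_nhds_zero_nat.comp hφ')
  rw [add_zero] at hlim
  exact ⟨a, le_of_tendsto_of_tendsto (he.comp hφ') hlim ((hφ'.eventually hz).mono fun n hn => hn.2)⟩

lemma midpt_lt (j i : ℕ) : (i : ℝ) / 2 ^ j < (2 * i + 1) / 2 ^ (j + 1) ∧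
    (2 * (i : ℝ) + 1) / 2 ^ (j + 1) < (i + 1) / 2 ^ j ∧ ((i : ℝ) + 1) / 2 ^ j - i / 2 ^ j ≤ 1 := by
  have h : (1 : ℝ) ≤ 2 ^ j := one_le_pow₀ one_le_two
  refine ⟨?_, ?_, ?_⟩
  · rw [div_lt_div_iff₀ (by positivity) (by positivity), pow_succ]
    linarith
  · rw [div_lt_div_iff₀ (by positivity) (by positivity), pow_succ]
    linarith
  · rw [← sub_div, div_le_one (by positivity)]
    linarith

theorem ae_mid (hm : Measurable L) (hc : ∀ ω, Continuous (L ω)) (h : Ax (P.map L))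
    (hT : Tails (P.map L) C α) : ∀ᵐ ω ∂P, Mid (L ω) := by
  have h1 : ∀ᵐ l ∂(P.map L), ∀ j i : ℕ, ∃ᶠ R : ℕ in atTop,
      Xi l (i / 2 ^ j) ((2 * i + 1) / 2 ^ (j + 1)) ((i + 1) / 2 ^ j) R ≤ R ∧
        Xi l (i / 2 ^ j) ((2 * i + 1) / 2 ^ (j + 1)) ((i + 1) / 2 ^ j) (-R) ≤ R := by
    simp only [ae_all_iff]
    exact fun j i => hT.ae_Xi h (midpt_lt j i).1 (midpt_lt j i).2.1 (midpt_lt j i).2.2
  have h2 : ∀ᵐ l ∂(P.map L), ∀ (j i : ℕ) (x y : ℚ) (R m : ℕ), |(x : ℝ)| ≤ R → |(y : ℝ)| ≤ R →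
      QuadAt l x (i / 2 ^ j) ((2 * i + 1) / 2 ^ (j + 1)) y ((i + 1) / 2 ^ j) R (1 / ((m : ℝ) + 1)) := by
    simp only [ae_all_iff]
    exact fun j i x y R m a1 a2 =>
      h.quad _ _ _ _ _ R _ (midpt_lt j i).1 (midpt_lt j i).2.1 a1 a2 (by positivity)
  filter_upwards [ae_of_ae_map hm.aemeasurable h1, ae_of_ae_map hm.aemeasurable h2,
    ae_ub hm hc h hT] with ω a1 a2 a3
  obtain ⟨K, hK⟩ := a3
  intro j i hi
  have hp : (1 : ℝ) ≤ 2 ^ (j + 1) := one_le_pow₀ one_le_two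
  refine midpt_det (A := K * (1 + ((j + 1 : ℕ) : ℝ)) * sig (j + 1)) (hc ω) (midpt_lt j i).1
    (midpt_lt j i).2.1 (mul_nonneg (by positivity) (sig_pos _).le) (fun x y => ?_) (fun x y => ?_)
    (a1 j i) (a2 j i)
  · have b1 := hK x y (j + 1) (2 * i) (by rw [pow_succ]; omega)
    have b2 : ((2 * i : ℕ) : ℝ) / 2 ^ (j + 1) = i / 2 ^ j := by
      push_cast
      field_simp
      ring
    have b3 := mul_le_mul_of_nonneg_left hp (sq_nonneg (x - y))
    rw [b2, Nat.cast_mul, Nat.cast_ofNat] at b1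
    linarith only [b1, b3]
  · have b1 := hK x y (j + 1) (2 * i + 1) (by rw [pow_succ]; omega)
    have b2 : (((2 * i + 1 : ℕ) : ℝ) + 1) / 2 ^ (j + 1) = (i + 1) / 2 ^ j := by
      push_cast
      field_simp
      ring
    have b3 := mul_le_mul_of_nonneg_left hp (sq_nonneg (x - y))
    rw [b2, Nat.cast_add (2 * i), Nat.cast_mul, Nat.cast_ofNat, Nat.cast_one] at b1
    linarith only [b1, b3]

end Pool.Agent.Work.MP_8495a2_pr
end

-- merged part: Pool.Agent.Work.MP_8495a2_pr.Lp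
section
open MeasureTheory ProbabilityTheory Set Filter Topology
open scoped ENNReal NNReal

namespace Pool.Agent.Work.MP_8495a2_pr

variable {f g : ℕ → ℝ → ℝ} {n : ℕ} {x y z c : ℝ}

theorem LB.of_continuous (h : ∀ i, Continuous (f i)) : LB f := by
  exact fun i _ _ => isCompact_Icc.exists_bound_of_continuousOn (h i).continuousOn

theorem LB.sh (h : LB f) (a : ℕ) : LB (sh a f) := by
  exact fun i => h (a + i)

theorem LB.drift (h : LB f) (θ : ℝ) : LB (drift θ f) := by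
  intro i x y
  obtain ⟨C, hC⟩ := h i x y
  refine ⟨C + |θ| * max |x| |y|, fun t ht => (abs_add_le _ _).trans (add_le_add (hC t ht) ?_)⟩
  split_ifs
  · rw [abs_mul]
    exact mul_le_mul_of_nonneg_left (abs_le_max_abs_abs ht.1 ht.2) (abs_nonneg θ)
  · rw [abs_zero]
    positivity

theorem LB.stepF (a : ℕ → ℕ → ℝ) : LB (stepF a) := by
  exact fun i x y => ⟨∑ b ∈ Finset.range ⌊y⌋₊, |a i b|, fun t ht =>
    (Finset.abs_sum_le_sum_abs _ _).trans (Finset.sum_le_sum_of_subset_of_nonneg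
      (Finset.range_mono (Nat.floor_mono ht.2)) fun _ _ _ => abs_nonneg _)⟩

theorem Lp_mono {t : ℕ → ℝ} (h : ∀ i ≤ n, t i ≤ t (i + 1)) {i j : ℕ} (hij : i ≤ j)
    (hj : j ≤ n + 1) : t i ≤ t j := by
  induction j, hij using Nat.le_induction with
  | base => exact le_rfl
  | succ j _ ih => exact (ih (by omega)).trans (h j (by omega))

theorem Lp_Icc {t : ℕ → ℝ} (h : ∀ i ≤ n, t i ≤ t (i + 1)) {i : ℕ} (hi : i ≤ n + 1) :
    t i ∈ Icc (t 0) (t (n + 1)) := ⟨Lp_mono h i.zero_le hi, Lp_mono h hi le_rfl⟩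

theorem Lp_le {v : ℝ} (hv : v ∈ lpSet f n x y) : x ≤ y := by
  obtain ⟨t, rfl, rfl, h, -⟩ := hv
  exact Lp_mono h (Nat.zero_le _) le_rfl

theorem Lp_zero {v : ℝ} : v ∈ lpSet f 0 x y ↔ x ≤ y ∧ v = f 0 y - f 0 x := by
  constructor
  · rintro ⟨t, rfl, rfl, h, rfl⟩
    exact ⟨h 0 le_rfl, Finset.sum_range_one _⟩
  · rintro ⟨h, rfl⟩
    refine ⟨fun i => if i = 0 then x else y, rfl, rfl, fun i hi => ?_, by simp⟩
    obtain rfl : i = 0 := by omega
    exact h

theorem Lp_succ {v : ℝ} : v ∈ lpSet f (n + 1) x y ↔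
    ∃ z ≤ y, ∃ w ∈ lpSet f n x z, v = w + (f (n + 1) y - f (n + 1) z) := by
  constructor
  · rintro ⟨t, rfl, rfl, h, rfl⟩
    exact ⟨_, h _ le_rfl, _, ⟨t, rfl, rfl, fun i hi => h i (by omega), rfl⟩,
      Finset.sum_range_succ _ _⟩
  · rintro ⟨_, hz, _, ⟨t, rfl, rfl, h, rfl⟩, rfl⟩
    have e : ∀ i ≤ n + 1, Function.update t (n + 1 + 1) y i = t i := fun i hi =>
      Function.update_of_ne (by omega) _ _
    refine ⟨Function.update t (n + 1 + 1) y, e 0 (by omega), Function.update_self _ _ _,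
      fun i hi => ?_, ?_⟩
    · rcases hi.eq_or_lt with rfl | hi
      · rwa [e _ le_rfl, Function.update_self]
      · rw [e i hi.le, e _ hi]
        exact h i (by omega)
    · rw [Finset.sum_range_succ _ (n + 1), e _ le_rfl, Function.update_self]
      refine congrArg (· + _) (Finset.sum_congr rfl fun i hi => ?_)
      rw [e i (Finset.mem_range.1 hi).le, e _ (Finset.mem_range.1 hi)]

theorem Lp_first {v : ℝ} : v ∈ lpSet f (n + 1) x y ↔
    ∃ z, x ≤ z ∧ ∃ w ∈ lpSet (sh 1 f) n z y, v = f 0 z - f 0 x + w := by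
  constructor
  · rintro ⟨t, rfl, rfl, h, rfl⟩
    refine ⟨_, h 0 (Nat.zero_le _), _,
      ⟨fun i => t (i + 1), rfl, rfl, fun i hi => h _ (by omega), rfl⟩, ?_⟩
    rw [Finset.sum_range_succ', add_comm]
    simp only [sh, Nat.add_comm 1]
  · rintro ⟨_, hz, _, ⟨t, rfl, rfl, h, rfl⟩, rfl⟩
    refine ⟨fun i => Nat.casesOn i x t, rfl, rfl, fun i hi => ?_, ?_⟩
    · rcases i with _ | i
      · exact hz
      · exact h i (by omega)
    · rw [Finset.sum_range_succ' _ (n + 1), add_comm]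
      simp only [sh, Nat.add_comm 1]
      rfl

theorem Lp_ext {w : ℝ} (hw : w ∈ lpSet f n x z) (hzy : z ≤ y) :
    w + (f n y - f n z) ∈ lpSet f n x y := by
  rcases n with _ | n
  · obtain ⟨h, rfl⟩ := Lp_zero.1 hw
    exact Lp_zero.2 ⟨h.trans hzy, by ring⟩
  · obtain ⟨u, h, v, hv, rfl⟩ := Lp_succ.1 hw
    exact Lp_succ.2 ⟨u, h.trans hzy, v, hv, by ring⟩

theorem Lp_comp {a b : ℕ} {v w : ℝ} (hv : v ∈ lpSet f a x z) (hw : w ∈ lpSet (sh a f) b z y) :
    v + w ∈ lpSet f (a + b) x y := by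
  induction b generalizing w y with
  | zero =>
    obtain ⟨h, rfl⟩ := Lp_zero.1 hw
    exact Lp_ext hv h
  | succ b ih =>
    obtain ⟨u, h, w', hw', rfl⟩ := Lp_succ.1 hw
    exact Lp_succ.2 ⟨u, h, _, ih hw', (add_assoc _ _ _).symm⟩

theorem Lp_split {a b : ℕ} {u : ℝ} (hu : u ∈ lpSet f (a + b) x y) :
    ∃ z, ∃ v ∈ lpSet f a x z, ∃ w ∈ lpSet (sh a f) b z y, u = v + w := by
  induction b generalizing u y with
  | zero => exact ⟨y, u, hu, _, Lp_zero.2 ⟨le_rfl, rfl⟩, by ring⟩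
  | succ b ih =>
    obtain ⟨s, h, _, hw, rfl⟩ := Lp_succ.1 hu
    obtain ⟨z, v, hv, w, hw', rfl⟩ := ih hw
    exact ⟨z, v, hv, _, Lp_succ.2 ⟨s, h, w, hw', rfl⟩, add_assoc _ _ _⟩

theorem lpSet_nonempty (f : ℕ → ℝ → ℝ) (n : ℕ) (hxy : x ≤ y) : (lpSet f n x y).Nonempty := by
  induction n with
  | zero => exact ⟨_, Lp_zero.2 ⟨hxy, rfl⟩⟩
  | succ n ih => exact ⟨_, Lp_succ.2 ⟨y, le_rfl, _, ih.choose_spec, rfl⟩⟩

theorem lpSet_eq_empty (f : ℕ → ℝ → ℝ) (n : ℕ) (hxy : y < x) : lpSet f n x y = ∅ := by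
  exact eq_empty_of_forall_notMem fun _ hv => (Lp_le hv).not_gt hxy

theorem lpSet_bddAbove (hf : LB f) (n : ℕ) (x y : ℝ) : BddAbove (lpSet f n x y) := by
  choose C hC using fun i => hf i x y
  refine ⟨∑ i ∈ Finset.range (n + 1), 2 * C i, ?_⟩
  rintro _ ⟨t, rfl, rfl, h, rfl⟩
  refine Finset.sum_le_sum fun i hi => ?_
  have h1 := abs_le.1 (hC i _ (Lp_Icc h (Finset.mem_range.1 hi).le))
  have h2 := abs_le.1 (hC i _ (Lp_Icc h (Finset.mem_range.1 hi)))
  linarith [h1.1, h2.2]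

theorem le_lp (hf : LB f) {v : ℝ} (hv : v ∈ lpSet f n x y) : v ≤ lp f n x y := by
  exact le_csSup (lpSet_bddAbove hf n x y) hv

theorem lp_le (hxy : x ≤ y) (h : ∀ v ∈ lpSet f n x y, v ≤ c) : lp f n x y ≤ c := by
  exact csSup_le (lpSet_nonempty f n hxy) h

theorem exists_lt_of_lt_lp (hxy : x ≤ y) (h : c < lp f n x y) : ∃ v ∈ lpSet f n x y, c < v := by
  exact exists_lt_of_lt_csSup (lpSet_nonempty f n hxy) h

theorem lp_zero (hxy : x ≤ y) : lp f 0 x y = f 0 y - f 0 x := by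
  rw [lp, show lpSet f 0 x y = {f 0 y - f 0 x} from Set.ext fun _ => Lp_zero.trans (and_iff_right hxy),
    csSup_singleton]

theorem Lp_add {m : ℕ} {x' y' : ℝ} (hxy : x ≤ y) (hxy' : x' ≤ y')
    (h : ∀ v ∈ lpSet f n x y, ∀ w ∈ lpSet g m x' y', v + w ≤ c) :
    lp f n x y + lp g m x' y' ≤ c :=
  le_sub_iff_add_le.1 (lp_le hxy fun v hv => le_sub_comm.1
    (lp_le hxy' fun w hw => le_sub_iff_add_le'.2 (h v hv w hw)))

theorem lp_comp (hf : LB f) (a b : ℕ) (hxz : x ≤ z) (hzy : z ≤ y) :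
    lp f a x z + lp (sh a f) b z y ≤ lp f (a + b) x y := by
  exact Lp_add hxz hzy fun _ hv _ hw => le_lp hf (Lp_comp hv hw)

theorem lp_split (hf : LB f) (a b : ℕ) (hxy : x ≤ y) (h : c < lp f (a + b) x y) :
    ∃ z ∈ Icc x y, c < lp f a x z + lp (sh a f) b z y := by
  obtain ⟨_, hu, h1⟩ := exists_lt_of_lt_lp hxy h
  obtain ⟨z, v, hv, w, hw, rfl⟩ := Lp_split hu
  exact ⟨z, ⟨Lp_le hv, Lp_le hw⟩, h1.trans_le (add_le_add (le_lp hf hv) (le_lp (hf.sh a) hw))⟩

theorem lp_first_le (hf : LB f) (hxz : x ≤ z) (hzy : z ≤ y) :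
    f 0 z - f 0 x + lp (sh 1 f) n z y ≤ lp f (n + 1) x y := by
  exact le_sub_iff_add_le'.1 (lp_le hzy fun w hw =>
    le_sub_iff_add_le'.2 (le_lp hf (Lp_first.2 ⟨z, hxz, w, hw, rfl⟩)))

theorem lp_first_split (hf : LB f) (hxy : x ≤ y) (h : c < lp f (n + 1) x y) :
    ∃ z ∈ Icc x y, c < f 0 z - f 0 x + lp (sh 1 f) n z y := by
  obtain ⟨_, hu, h1⟩ := exists_lt_of_lt_lp hxy h
  obtain ⟨z, hz, w, hw, rfl⟩ := Lp_first.1 hu
  exact ⟨z, ⟨hz, Lp_le hw⟩, h1.trans_le (add_le_add le_rfl (le_lp (hf.sh 1) hw))⟩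

theorem lp_last_le (hf : LB f) (hxz : x ≤ z) (hzy : z ≤ y) :
    lp f n x z + (f (n + 1) y - f (n + 1) z) ≤ lp f (n + 1) x y := by
  exact le_sub_iff_add_le.1 (lp_le hxz fun w hw =>
    le_sub_iff_add_le.2 (le_lp hf (Lp_succ.2 ⟨z, hzy, w, hw, rfl⟩)))

theorem lp_extend_le (hf : LB f) (hxz : x ≤ z) (hzy : z ≤ y) :
    lp f n x z + (f n y - f n z) ≤ lp f n x y := by
  exact le_sub_iff_add_le.1 (lp_le hxz fun w hw =>
    le_sub_iff_add_le.2 (le_lp hf (Lp_ext hw hzy)))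

theorem lp_last_split (hf : LB f) (hxy : x ≤ y) (h : c < lp f (n + 1) x y) :
    ∃ z ∈ Icc x y, c < lp f n x z + (f (n + 1) y - f (n + 1) z) := by
  obtain ⟨_, hu, h1⟩ := exists_lt_of_lt_lp hxy h
  obtain ⟨z, hz, w, hw, rfl⟩ := Lp_succ.1 hu
  exact ⟨z, ⟨Lp_le hw, hz⟩, h1.trans_le (add_le_add (le_lp hf hw) le_rfl)⟩

theorem lp_compare (hg : LB g) (hxy : x ≤ y) {φ : ℝ → ℝ} (hφ : MonotoneOn φ (Icc x y))
    {x' y' η : ℝ} (hx : φ x = x') (hy : φ y = y')
    (h : ∀ i ≤ n, ∀ t ∈ Icc x y, |(f i t - f i x) - (g i (φ t) - g i x')| ≤ η) :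
    lp f n x y ≤ lp g n x' y' + 2 * (n + 1) * η := by
  subst hx hy
  refine lp_le hxy ?_
  rintro _ ⟨t, rfl, rfl, ht, rfl⟩
  refine le_trans ?_ (add_le_add (le_lp hg ⟨fun i => φ (t i), rfl, rfl, fun i hi =>
    hφ (Lp_Icc ht (by omega)) (Lp_Icc ht (by omega)) (ht i hi), rfl⟩) le_rfl)
  have e : 2 * (n + 1) * η = ∑ _ ∈ Finset.range (n + 1), 2 * η := by
    rw [Finset.sum_const, Finset.card_range, nsmul_eq_mul]
    push_cast
    ring
  rw [e, ← Finset.sum_add_distrib]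
  refine Finset.sum_le_sum fun i hi => ?_
  have hi := Finset.mem_range.1 hi
  have h1 := abs_le.1 (h i (by omega) _ (Lp_Icc ht hi.le))
  have h2 := abs_le.1 (h i (by omega) _ (Lp_Icc ht hi))
  linarith only [h1, h2, h1.1, h2.2]

theorem lp_congr (h : ∀ i ≤ n, ∀ s ∈ Icc x y, ∀ t ∈ Icc x y, f i t - f i s = g i t - g i s) :
    lp f n x y = lp g n x y := by
  refine congrArg sSup (Set.ext fun v => exists_congr fun t => and_congr_right fun h1 =>
    and_congr_right fun h2 => and_congr_right fun ht => ?_)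
  subst h1 h2
  rw [Finset.sum_congr rfl fun i hi => h i (Nat.lt_succ_iff.1 (Finset.mem_range.1 hi)) _
    (Lp_Icc ht (Finset.mem_range.1 hi).le) _ (Lp_Icc ht (Finset.mem_range.1 hi))]

theorem lp_smul (hc : 0 ≤ c) : lp (fun i t => c * f i t) n x y = c * lp f n x y := by
  refine Eq.trans (congrArg sSup (Set.ext fun v => ?_)) (Real.sSup_smul_of_nonneg hc _)
  simp only [lpSet, mem_ofPred_eq, ← mul_sub, ← Finset.mul_sum]
  constructor
  · rintro ⟨t, h1, h2, h3, rfl⟩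
    exact ⟨_, ⟨t, h1, h2, h3, rfl⟩, rfl⟩
  · rintro ⟨_, ⟨t, h1, h2, h3, rfl⟩, rfl⟩
    exact ⟨t, h1, h2, h3, rfl⟩

theorem lp_add_common (hf : LB f) (hxy : x ≤ y) (e : ℝ → ℝ) :
    lp (fun i t => f i t + e t) n x y = lp f n x y + (e y - e x) := by
  refine Eq.trans (congrArg sSup (Set.ext fun v => ?_)) ((OrderIso.addRight (e y - e x)).map_csSup'
    (lpSet_nonempty f n hxy) (lpSet_bddAbove hf n x y)).symm
  have key : ∀ t : ℕ → ℝ, ∑ i ∈ Finset.range (n + 1),
      (f i (t (i + 1)) + e (t (i + 1)) - (f i (t i) + e (t i))) =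
      ∑ i ∈ Finset.range (n + 1), (f i (t (i + 1)) - f i (t i)) + (e (t (n + 1)) - e (t 0)) := by
    intro t
    rw [← Finset.sum_range_sub fun i => e (t i), ← Finset.sum_add_distrib]
    exact Finset.sum_congr rfl fun i _ => by ring
  constructor
  · rintro ⟨t, rfl, rfl, h3, rfl⟩
    exact ⟨_, ⟨t, rfl, rfl, h3, rfl⟩, (key t).symm⟩
  · rintro ⟨_, ⟨t, rfl, rfl, h3, rfl⟩, rfl⟩
    exact ⟨t, rfl, rfl, h3, (key t).symm⟩

theorem lp_affine (x0 : ℝ) {T : ℝ} (hT : 0 < T) :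
    lp (fun i t => f i (x0 + T * t)) n x y = lp f n (x0 + T * x) (x0 + T * y) := by
  refine congrArg sSup (Set.ext fun v => ⟨?_, ?_⟩)
  · rintro ⟨t, rfl, rfl, h3, rfl⟩
    exact ⟨fun i => x0 + T * t i, rfl, rfl, fun i hi =>
      add_le_add le_rfl (mul_le_mul_of_nonneg_left (h3 i hi) hT.le), rfl⟩
  · rintro ⟨t, h1, h2, h3, rfl⟩
    refine ⟨fun i => (t i - x0) / T, ?_, ?_, fun i hi =>
      div_le_div_of_nonneg_right (sub_le_sub_right (h3 i hi) _) hT.le, ?_⟩
    · simp only [h1, add_sub_cancel_left, mul_div_cancel_left₀ _ hT.ne']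
    · simp only [h2, add_sub_cancel_left, mul_div_cancel_left₀ _ hT.ne']
    · simp only [mul_div_cancel₀ _ hT.ne', add_sub_cancel]

theorem lp_quad (hf : LB f) {x' y' : ℝ} (hxy : x ≤ y) (hxy' : x' ≤ y') :
    lp f n x y + lp f n x' y' ≤ lp f n (min x x') (min y y') + lp f n (max x x') (max y y') := by
  refine Lp_add hxy hxy' ?_
  rintro _ ⟨t, rfl, rfl, h, rfl⟩ _ ⟨s, rfl, rfl, h', rfl⟩
  refine le_trans (le_of_eq ?_) (add_le_add
    (le_lp hf ⟨fun i => min (t i) (s i), rfl, rfl, fun i hi => min_le_min (h i hi) (h' i hi), rfl⟩)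
    (le_lp hf ⟨fun i => max (t i) (s i), rfl, rfl, fun i hi => max_le_max (h i hi) (h' i hi), rfl⟩))
  rw [← Finset.sum_add_distrib, ← Finset.sum_add_distrib]
  refine Finset.sum_congr rfl fun i _ => ?_
  linarith only [fn_min_add_fn_max (f i) (t i) (s i), fn_min_add_fn_max (f i) (t (i + 1)) (s (i + 1))]

theorem lp_drift_mono (hf : LB f) (hxy : x ≤ y) {θ θ' : ℝ} (h : θ ≤ θ') :
    lp (drift θ f) n x y ≤ lp (drift θ' f) n x y := by
  refine lp_le hxy ?_
  rintro _ ⟨t, rfl, rfl, ht, rfl⟩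
  refine le_trans (Finset.sum_le_sum fun i hi => ?_) (le_lp (hf.drift θ') ⟨t, rfl, rfl, ht, rfl⟩)
  have h1 := mul_le_mul_of_nonneg_right h
    (sub_nonneg.2 (ht i (Nat.lt_succ_iff.1 (Finset.mem_range.1 hi))))
  unfold drift
  split_ifs <;> linarith only [h1]

theorem sh_one_drift (θ : ℝ) (f : ℕ → ℝ → ℝ) : sh 1 (drift θ f) = sh 1 f := by
  funext i t
  simp [sh, drift]

end Pool.Agent.Work.MP_8495a2_pr
end

-- merged part: Pool.Agent.Work.MP_8495a2_pr.LimTri
section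
open MeasureTheory ProbabilityTheory Set Filter Topology
open scoped ENNReal NNReal

namespace Pool.Agent.Work.MP_8495a2_pr

section Det

variable {f : ℤ → ℝ → ℝ} {n : ℕ}

lemma lt_LB (hf : ∀ i, Continuous (f i)) (k : ℤ) : LB fun i : ℕ => f (k - i) :=
  LB.of_continuous fun _ => hf _

lemma lt_sh (f : ℤ → ℝ → ℝ) {k m : ℤ} (h : m ≤ k) :
    sh (k - m).toNat (fun i : ℕ => f (k - i)) = fun i : ℕ => f (m - i) := by
  funext i
  have : k - (((k - m).toNat + i : ℕ) : ℤ) = m - i := by omega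
  exact congrArg f this

lemma lt_nat {k m l : ℤ} (h1 : m ≤ k) (h2 : l ≤ m) :
    (k - l).toNat = (k - m).toNat + (m - l).toNat := by omega

/-- The rescaled position. -/
noncomputable def ltP (n : ℕ) (s x : ℝ) : ℝ := s + 2 * x / (n : ℝ) ^ (1 / 3 : ℝ)

lemma lt_ev (f : ℤ → ℝ → ℝ) (n : ℕ) (x y : ℝ) {s t : ℝ} (h : s < t) :
    ev (rescaled n f) x s y t = (n : ℝ) ^ (1 / 6 : ℝ) *
      (lastPassage f (ltP n s x) (-⌊s * n⌋) (ltP n t y) (-⌊t * n⌋) -
        2 * (t - s) * √n - 2 * (y - x) * (n : ℝ) ^ (1 / 6 : ℝ)) := by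
  rw [ev_of_lt _ h]
  rfl

lemma lt_floor (n : ℕ) {s t : ℝ} (h : s < t) : -⌊t * n⌋ ≤ -⌊s * n⌋ :=
  neg_le_neg (Int.floor_mono (mul_le_mul_of_nonneg_right h.le (Nat.cast_nonneg n)))

lemma ltP_mono (n : ℕ) {s t x y : ℝ} (h : s ≤ t) (h' : x ≤ y) : ltP n s x ≤ ltP n t y := by
  unfold ltP
  gcongr

lemma ltP_monotone (n : ℕ) (s : ℝ) : Monotone (ltP n s) := fun _ _ h => ltP_mono n le_rfl h

lemma lt_tri (hf : ∀ i, Continuous (f i)) {x s z u y t : ℝ} (h1 : s < u) (h2 : u < t)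
    (h3 : ltP n s x ≤ ltP n u z) (h4 : ltP n u z ≤ ltP n t y) :
    ev (rescaled n f) x s z u + ev (rescaled n f) z u y t ≤ ev (rescaled n f) x s y t := by
  rw [lt_ev f n x z h1, lt_ev f n z y h2, lt_ev f n x y (h1.trans h2), ← mul_add]
  refine mul_le_mul_of_nonneg_left ?_ (by positivity)
  have h := lp_comp (lt_LB hf (-⌊s * n⌋)) (-⌊s * n⌋ - -⌊u * n⌋).toNat
    (-⌊u * n⌋ - -⌊t * n⌋).toNat h3 h4
  rw [lt_sh f (lt_floor n h1), ← lt_nat (lt_floor n h1) (lt_floor n h2)] at h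
  unfold lastPassage
  linarith only [h]

lemma lt_split (hf : ∀ i, Continuous (f i)) (hn : 0 < n) {x s u y t δ : ℝ} (h1 : s < u)
    (h2 : u < t) (h3 : ltP n s x ≤ ltP n t y) (hδ : 0 < δ) :
    ∃ z, ltP n s x ≤ ltP n u z ∧ ltP n u z ≤ ltP n t y ∧
      ev (rescaled n f) x s y t ≤ ev (rescaled n f) x s z u + ev (rescaled n f) z u y t + δ := by
  have hn' : (0 : ℝ) < n := by exact_mod_cast hn
  have c1 : 0 < (n : ℝ) ^ (1 / 6 : ℝ) := by positivity
  have c2 : 0 < (n : ℝ) ^ (1 / 3 : ℝ) := by positivity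
  obtain ⟨w, hw, h⟩ := lp_split (lt_LB hf (-⌊s * n⌋)) (-⌊s * n⌋ - -⌊u * n⌋).toNat
    (-⌊u * n⌋ - -⌊t * n⌋).toNat h3 (sub_lt_self _ (div_pos hδ c1))
  rw [lt_sh f (lt_floor n h1), ← lt_nat (lt_floor n h1) (lt_floor n h2)] at h
  have e : ltP n u ((w - u) * (n : ℝ) ^ (1 / 3 : ℝ) / 2) = w := by
    unfold ltP
    field_simp
    ring
  refine ⟨(w - u) * (n : ℝ) ^ (1 / 3 : ℝ) / 2, by rw [e]; exact hw.1, by rw [e]; exact hw.2, ?_⟩
  rw [lt_ev f n x _ h1, lt_ev f n _ y h2, lt_ev f n x y (h1.trans h2), e, ← mul_add,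
    ← mul_div_cancel₀ δ c1.ne', ← mul_add]
  refine mul_le_mul_of_nonneg_left ?_ c1.le
  unfold lastPassage
  linarith only [h]

lemma lt_quad (hf : ∀ i, Continuous (f i)) {x x' s y y' t : ℝ} (h1 : s < t)
    (h3 : ltP n s x ≤ ltP n t y) (h4 : ltP n s x' ≤ ltP n t y') :
    ev (rescaled n f) x s y t + ev (rescaled n f) x' s y' t ≤
      ev (rescaled n f) (min x x') s (min y y') t + ev (rescaled n f) (max x x') s (max y y') t := by
  rw [lt_ev f n _ _ h1, lt_ev f n _ _ h1, lt_ev f n _ _ h1, lt_ev f n _ _ h1, ← mul_add, ← mul_add]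
  refine mul_le_mul_of_nonneg_left ?_ (by positivity)
  have h := lp_quad (n := (-⌊s * n⌋ - -⌊t * n⌋).toNat) (lt_LB hf (-⌊s * n⌋)) h3 h4
  rw [← (ltP_monotone n s).map_min, ← (ltP_monotone n t).map_min, ← (ltP_monotone n s).map_max,
    ← (ltP_monotone n t).map_max] at h
  have e : (min y y' - min x x') * (n : ℝ) ^ (1 / 6 : ℝ) +
      (max y y' - max x x') * (n : ℝ) ^ (1 / 6 : ℝ) =
      (y - x) * (n : ℝ) ^ (1 / 6 : ℝ) + (y' - x') * (n : ℝ) ^ (1 / 6 : ℝ) := by
    rw [← add_mul, ← add_mul]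
    congr 1
    linarith only [min_add_max x x', min_add_max y y']
  unfold lastPassage
  linarith only [h, e]

lemma lt_disc (hf : ∀ i, Continuous (f i)) (hn : 0 < n) {x s u y t R δ : ℝ} (h1 : s < u)
    (h2 : u < t) (hx : |x| ≤ R) (hy : |y| ≤ R) (h3 : ltP n s x ≤ ltP n t y) (hδ : 0 < δ) :
    (∃ z, |z| ≤ R ∧
      ev (rescaled n f) x s y t ≤ ev (rescaled n f) x s z u + ev (rescaled n f) z u y t + δ) ∨
    ev (rescaled n f) x s y t ≤ ev (rescaled n f) x s R u + ev (rescaled n f) R u y t +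
      Xi (rescaled n f) s u t R + δ ∨
    ev (rescaled n f) x s y t ≤ ev (rescaled n f) x s (-R) u + ev (rescaled n f) (-R) u y t +
      Xi (rescaled n f) s u t (-R) + δ := by
  obtain ⟨z, a1, a2, a3⟩ := lt_split hf hn h1 h2 h3 hδ
  obtain ⟨x1, x2⟩ := abs_le.1 hx
  obtain ⟨y1, y2⟩ := abs_le.1 hy
  by_cases hz : |z| ≤ R
  · exact Or.inl ⟨z, hz, a3⟩
  right
  unfold Xi
  rcases lt_abs.1 (not_le.1 hz) with b | b
  · left
    have q1 := lt_quad hf h1 a1 (ltP_mono n h1.le (le_refl R))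
    have q2 := lt_quad hf h2 a2 (ltP_mono n h2.le (le_refl R))
    rw [min_eq_left x2, min_eq_right b.le, max_eq_right x2, max_eq_left b.le] at q1
    rw [min_eq_left y2, min_eq_right b.le, max_eq_right y2, max_eq_left b.le] at q2
    have q3 := lt_tri hf h1 h2 (ltP_mono n h1.le b.le) (a2.trans (ltP_mono n le_rfl y2))
    linarith only [a3, q1, q2, q3]
  · right
    have b' : z ≤ -R := by linarith
    have q1 := lt_quad hf h1 a1 (ltP_mono n h1.le (le_refl (-R)))
    have q2 := lt_quad hf h2 a2 (ltP_mono n h2.le (le_refl (-R)))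
    rw [min_eq_right x1, min_eq_left b', max_eq_left x1, max_eq_right b'] at q1
    rw [min_eq_right y1, min_eq_left b', max_eq_left y1, max_eq_right b'] at q2
    have q3 := lt_tri hf h1 h2 ((ltP_mono n le_rfl x1).trans a1) (ltP_mono n h2.le b')
    linarith only [a3, q1, q2, q3]

lemma lt_event (x y : ℝ) {s t : ℝ} (h : s < t) : ∀ᶠ n : ℕ in atTop, ltP n s x ≤ ltP n t y := by
  have h0 : Tendsto (fun n : ℕ => (n : ℝ) ^ (1 / 3 : ℝ)) atTop atTop :=
    (tendsto_rpow_atTop (by norm_num)).comp tendsto_natCast_atTop_atTop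
  have h1 : ∀ s x : ℝ, Tendsto (fun n : ℕ => ltP n s x) atTop (𝓝 s) := fun s x => by
    have := (tendsto_const_nhds (x := 2 * x)).div_atTop h0
    simpa [ltP] using this.const_add s
  exact ((h1 s x).eventually_lt (h1 t y) h).mono fun _ h => h.le

lemma lt_rat {h : ℝ → ℝ} (hh : Continuous h) {R : ℕ} {z δ : ℝ} (hz : |z| ≤ R) (hδ : 0 < δ) :
    ∃ q : ℚ, |(q : ℝ)| ≤ R ∧ h z ≤ h q + δ := by
  obtain ⟨z1, z2⟩ := abs_le.1 hz
  rcases z2.eq_or_lt with e | e
  · exact ⟨R, by simp, by rw [e]; simpa using hδ.le⟩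
  obtain ⟨r, hr, h1⟩ := Metric.continuous_iff.1 hh z δ hδ
  obtain ⟨q, q1, q2⟩ := exists_rat_btwn (lt_min e (lt_add_of_pos_right z hr))
  obtain ⟨q3, q4⟩ := lt_min_iff.1 q2
  refine ⟨q, abs_le.2 ⟨by linarith, q3.le⟩, ?_⟩
  have := h1 q (by rw [Real.dist_eq, abs_lt]; constructor <;> linarith only [q1, q4])
  rw [Real.dist_eq, abs_lt] at this
  linarith

lemma lt_unif {F : ℕ → Up → ℝ} {l : Up → ℝ}
    (h : ∀ K : Set Up, IsCompact K → TendstoUniformlyOn F l atTop K) (R : ℝ) {s t η : ℝ}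
    (hst : s < t) (hη : 0 < η) : ∀ᶠ k in atTop, ∀ x y, |x| ≤ R → |y| ≤ R →
      ev l x s y t - η ≤ ev (F k) x s y t ∧ ev (F k) x s y t ≤ ev l x s y t + η := by
  filter_upwards [Metric.tendstoUniformlyOn_iff.1 (h _ (isCompact_box R s t)) η hη] with k hk
  intro x y hx hy
  have := hk ⟨(x, s, y, t), hst⟩ ⟨rfl, rfl, hx, hy⟩
  rw [Real.dist_eq, abs_lt] at this
  rw [ev_of_lt _ hst, ev_of_lt _ hst]
  constructor <;> linarith only [hst, this]

lemma lt_point {F : ℕ → Up → ℝ} {l : Up → ℝ}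
    (h : ∀ K : Set Up, IsCompact K → TendstoUniformlyOn F l atTop K) (x y : ℝ) {s t : ℝ}
    (hst : s < t) : Tendsto (fun k => ev (F k) x s y t) atTop (𝓝 (ev l x s y t)) := by
  simp only [ev_of_lt _ hst]
  exact (h _ isCompact_singleton).tendsto_at (mem_singleton _)

end Det

variable {Ω : Type*} [MeasurableSpace Ω] {P : Measure Ω} {B : ℕ → ℤ → ℝ → Ω → ℝ}
  {L : Ω → Up → ℝ}

theorem IsCoupledLimit.tri (h : IsCoupledLimit P B L) (x s z u y t : ℝ) (h1 : s < u)
    (h2 : u < t) : ∀ᵐ l ∂(P.map L), ev l x s z u + ev l z u y t ≤ ev l x s y t := by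
  refine (ae_map_iff h.meas.aemeasurable (measurableSet_le
    ((measurable_ev x s z u).add (measurable_ev z u y t)) (measurable_ev x s y t))).2 ?_
  obtain ⟨φ, hφ, ha⟩ := h.subseq (g := id) tendsto_id
  filter_upwards [ha] with ω hω
  refine le_of_tendsto_of_tendsto ((lt_point hω x z h1).add (lt_point hω z y h2))
    (lt_point hω x y (h1.trans h2)) ?_
  filter_upwards [hφ.tendsto_atTop.eventually (lt_event x z h1),
    hφ.tendsto_atTop.eventually (lt_event z y h2)] with k a1 a2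
  exact lt_tri (fun i => (h.bm _).cont i ω) h1 h2 a1 a2

theorem IsCoupledLimit.quad (h : IsCoupledLimit P B L) (x s u y t : ℝ) (R : ℕ) (ε : ℝ)
    (h1 : s < u) (h2 : u < t) (hx : |x| ≤ R) (hy : |y| ≤ R) (hε : 0 < ε) :
    ∀ᵐ l ∂(P.map L), QuadAt l x s u y t R ε := by
  have hX : ∀ ρ : ℝ, Measurable fun l : Up → ℝ => Xi l s u t ρ := fun ρ =>
    ((measurable_ev ρ s ρ t).sub (measurable_ev ρ s ρ u)).sub (measurable_ev ρ u ρ t)
  have hm : ∀ z : ℝ, Measurable fun l : Up → ℝ => ev l x s z u + ev l z u y t := fun z =>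
    (measurable_ev x s z u).add (measurable_ev z u y t)
  have hM : MeasurableSet {l : Up → ℝ | QuadAt l x s u y t R ε} := by
    refine MeasurableSet.union ?_ (MeasurableSet.union
      (measurableSet_le (measurable_ev x s y t) (((hm R).add (hX R)).add_const ε))
      (measurableSet_le (measurable_ev x s y t) (((hm (-R)).add (hX (-R))).add_const ε)))
    have : MeasurableSet (⋃ z : ℚ, {l : Up → ℝ | |(z : ℝ)| ≤ R} ∩
        {l | ev l x s y t ≤ ev l x s z u + ev l z u y t + ε}) :=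
      MeasurableSet.iUnion fun z => (MeasurableSet.const _).inter
        (measurableSet_le (measurable_ev x s y t) ((hm z).add_const ε))
    convert this using 1
    ext l
    rw [mem_iUnion]
    rfl
  rw [ae_map_iff h.meas.aemeasurable hM]
  obtain ⟨φ, hφ, ha⟩ := h.subseq (g := id) tendsto_id
  filter_upwards [ha] with ω hω
  have hη : 0 < ε / 10 := by positivity
  obtain ⟨k, a0, a1, b1, b2, b3⟩ := ((hφ.tendsto_atTop.eventually (eventually_gt_atTop 0)).and
    ((hφ.tendsto_atTop.eventually (lt_event x y (h1.trans h2))).and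
      ((lt_unif hω R h1 hη).and ((lt_unif hω R h2 hη).and
        (lt_unif hω R (h1.trans h2) hη))))).exists
  have hR : |(R : ℝ)| ≤ R := by simp
  have hR' : |-(R : ℝ)| ≤ R := by simp
  have c0 := (b3 x y hx hy).1
  rcases lt_disc (fun i => (h.bm (φ k)).cont i ω) a0 h1 h2 hx hy a1 hη with ⟨z, hz, c⟩ | c | c
  · have hc : Continuous fun z : ℝ => ev (L ω) x s z u + ev (L ω) z u y t :=
      ((continuous_ev (h.cont ω) s u).comp (continuous_const.prodMk continuous_id)).add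
        ((continuous_ev (h.cont ω) u t).comp (continuous_id.prodMk continuous_const))
    obtain ⟨q, q1, q2⟩ := lt_rat hc hz hη
    refine Or.inl ⟨q, q1, ?_⟩
    have c1 := (b1 x z hx hz).2
    have c2 := (b2 z y hz hy).2
    simp only [id] at c0 c1 c2
    linarith only [hε, c0, c, q2, c1, c2]
  · refine Or.inr (Or.inl ?_)
    have c1 := (b1 x _ hx hR).2
    have c2 := (b2 _ y hR hy).2
    have c3 := (b3 _ _ hR hR).2
    have c4 := (b1 _ _ hR hR).1
    have c5 := (b2 _ _ hR hR).1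
    simp only [id] at c0 c1 c2 c3 c4 c5
    unfold Xi at c ⊢
    linarith only [hε, c0, c, c1, c2, c3, c4, c5]
  · refine Or.inr (Or.inr ?_)
    have c1 := (b1 x _ hx hR').2
    have c2 := (b2 _ y hR' hy).2
    have c3 := (b3 _ _ hR' hR').2
    have c4 := (b1 _ _ hR' hR').1
    have c5 := (b2 _ _ hR' hR').1
    simp only [id] at c0 c1 c2 c3 c4 c5
    unfold Xi at c ⊢
    linarith only [hε, c0, c, c1, c2, c3, c4, c5]

end Pool.Agent.Work.MP_8495a2_pr
end

-- merged part: Pool.Agent.Work.MP_8495a2_pr.Grid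
section
open MeasureTheory ProbabilityTheory Set Filter Topology
open scoped ENNReal NNReal

namespace Pool.Agent.Work.MP_8495a2_pr

variable {f : ℕ → ℝ → ℝ} {n : ℕ}

theorem grid_unif (hf : ∀ i, Continuous (f i)) (n : ℕ) (a b : ℝ) {η : ℝ} (hη : 0 < η) :
    ∃ δ > 0, ∀ i ≤ n, ∀ s ∈ Icc a b, ∀ t ∈ Icc a b, |s - t| ≤ δ → |f i s - f i t| ≤ η := by
  have hF : Continuous fun (t : ℝ) (i : Fin (n + 1)) => f i t := continuous_pi fun i => hf i
  have hU := (isCompact_Icc (a := a) (b := b)).uniformContinuousOn_of_continuous hF.continuousOn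
  obtain ⟨δ, hδ, h⟩ := Metric.uniformContinuousOn_iff_le.1 hU η hη
  refine ⟨δ, hδ, fun i hi s hs t ht hst => ?_⟩
  have h1 := h s hs t ht (by rwa [Real.dist_eq])
  have h2 := dist_le_pi_dist (fun i : Fin (n + 1) => f i s) (fun i : Fin (n + 1) => f i t)
    ⟨i, Nat.lt_succ_of_le hi⟩
  rw [Real.dist_eq] at h2
  exact h2.trans h1

theorem grid_near (hf : LB f) {a b x y x' y' δ η : ℝ} (hxy : x ≤ y) (hxy' : x' ≤ y')
    (hx : |x - x'| ≤ δ) (hy : |y - y'| ≤ δ) (hax : a ≤ x) (hyb : y ≤ b) (hax' : a ≤ x')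
    (hyb' : y' ≤ b)
    (hu : ∀ i ≤ n, ∀ s ∈ Icc a b, ∀ t ∈ Icc a b, |s - t| ≤ δ → |f i s - f i t| ≤ η) :
    lp f n x y ≤ lp f n x' y' + 2 * (n + 1) * (2 * η) := by
  have hxI : x ∈ Icc a b := ⟨hax, hxy.trans hyb⟩
  have hxI' : x' ∈ Icc a b := ⟨hax', hxy'.trans hyb'⟩
  have hyI' : y' ∈ Icc a b := ⟨hax'.trans hxy', hyb'⟩
  have hδ : 0 ≤ δ := (abs_nonneg _).trans hx
  have hη : 0 ≤ η := (abs_nonneg _).trans (hu n le_rfl x hxI x hxI (by simpa using hδ))
  rcases hxy.eq_or_lt with rfl | hlt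
  · have h1 : lp f n x x ≤ lp f n x' x' + 2 * (n + 1) * 0 := by
      refine lp_compare hf le_rfl (φ := fun _ => x') monotoneOn_const rfl rfl ?_
      intro i _ t ht
      obtain rfl : t = x := le_antisymm ht.2 ht.1
      simp
    have h2 := lp_extend_le (n := n) hf (le_refl x') hxy'
    have h3 := abs_le.1 (hu n le_rfl x hxI x' hxI' hx)
    have h4 := abs_le.1 (hu n le_rfl x hxI y' hyI' hy)
    have h5 : (0 : ℝ) ≤ n * η := by positivity
    linarith only [hη, h1, h2, h3, h4, h5, h3.1, h3.2, h4.1, h4.2]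
  · set φ : ℝ → ℝ := fun t => if t ≤ x then x' else if y ≤ t then y' else max x' (min t y')
      with hφ
    have hφI : ∀ t, x' ≤ φ t ∧ φ t ≤ y' := by
      intro t
      simp only [hφ]
      split_ifs
      · exact ⟨le_rfl, hxy'⟩
      · exact ⟨hxy', le_rfl⟩
      · exact ⟨le_max_left _ _, max_le hxy' (min_le_right _ _)⟩
    refine lp_compare hf hxy (φ := φ) ?_ (by simp [hφ]) (by simp [hφ, not_le.2 hlt]) ?_
    · intro s _ t _ hst
      by_cases h1 : s ≤ x
      · have : φ s = x' := by simp [hφ, h1]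
        rw [this]; exact (hφI t).1
      · by_cases h2 : y ≤ t
        · have : φ t = y' := by
            have : ¬ t ≤ x := fun h => h1 (hst.trans h)
            simp [hφ, this, h2]
          rw [this]; exact (hφI s).2
        · have h3 : ¬ t ≤ x := fun h => h1 (hst.trans h)
          have h4 : ¬ y ≤ s := fun h => h2 (h.trans hst)
          simp only [hφ, h1, h2, h3, h4, if_false]
          exact max_le_max le_rfl (min_le_min hst le_rfl)
    · intro i hi t ht
      have hx1 := abs_le.1 hx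
      have hy1 := abs_le.1 hy
      have hd : |t - φ t| ≤ δ := by
        simp only [hφ]
        split_ifs with h1 h2
        · obtain rfl : t = x := le_antisymm h1 ht.1
          exact hx
        · obtain rfl : t = y := le_antisymm ht.2 h2
          exact hy
        · rw [abs_le]
          have := ht.1
          have := ht.2
          rcases le_total t y' with h3 | h3
          · rw [min_eq_left h3]
            rcases le_total x' t with h4 | h4
            · rw [max_eq_right h4]; constructor <;> linarith only [hδ]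
            · rw [max_eq_left h4]; constructor <;> linarith only [hx1, h1, h4, hx1.1, hx1.2]
          · rw [min_eq_right h3, max_eq_right hxy']
            constructor <;> linarith only [hy1, h2, h3, hy1.1, hy1.2]
      have h1 := abs_le.1 (hu i hi t ⟨hax.trans ht.1, ht.2.trans hyb⟩ (φ t)
        ⟨hax'.trans (hφI t).1, (hφI t).2.trans hyb'⟩ hd)
      have h2 := abs_le.1 (hu i hi x hxI x' hxI' hx)
      rw [abs_le]
      constructor <;> linarith only [h1, h2, h1.1, h1.2, h2.1, h2.2]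

theorem lp_continuousOn (hf : ∀ i, Continuous (f i)) (n : ℕ) :
    ContinuousOn (fun p : ℝ × ℝ => lp f n p.1 p.2) {p | p.1 ≤ p.2} := by
  rw [Metric.continuousOn_iff]
  intro p hp ε hε
  have hn : (0 : ℝ) < n + 1 := by positivity
  obtain ⟨δ, hδ, hu⟩ := grid_unif hf n (p.1 - 1) (p.2 + 1) (η := ε / (8 * (n + 1)))
    (by positivity)
  refine ⟨min δ 1, lt_min hδ one_pos, fun q hq hd => ?_⟩
  have hL := LB.of_continuous hf
  rw [Prod.dist_eq, Real.dist_eq, Real.dist_eq] at hd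
  have hd1 : |q.1 - p.1| < min δ 1 := (le_max_left _ _).trans_lt hd
  have hd2 : |q.2 - p.2| < min δ 1 := (le_max_right _ _).trans_lt hd
  have e1 := abs_lt.1 (hd1.trans_le (min_le_right _ _))
  have e2 := abs_lt.1 (hd2.trans_le (min_le_right _ _))
  have d1 : |q.1 - p.1| ≤ δ := hd1.le.trans (min_le_left _ _)
  have d2 : |q.2 - p.2| ≤ δ := hd2.le.trans (min_le_left _ _)
  have h1 := grid_near hL hq hp d1 d2 (by linarith [e1.1]) (by linarith [e2.2])
    (by linarith) (by linarith) hu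
  have h2 := grid_near hL hp hq (by rwa [abs_sub_comm]) (by rwa [abs_sub_comm])
    (by linarith only []) (by linarith only []) (by linarith only [e1, e1.1]) (by linarith only [e2, e2.2]) hu
  have h3 : 2 * ((n : ℝ) + 1) * (2 * (ε / (8 * (n + 1)))) = ε / 2 := by field_simp; ring
  rw [h3] at h1 h2
  rw [Real.dist_eq, abs_lt]
  constructor <;> linarith only [hε, h2, h1]

theorem stepF_grid (f : ℕ → ℝ → ℝ) (x0 ε : ℝ) (i : ℕ) (t : ℝ) :
    stepF (grid f x0 ε) i t = f i (x0 + ε * (⌊t⌋₊ : ℕ)) - f i x0 := by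
  unfold stepF grid
  induction ⌊t⌋₊ with
  | zero => simp
  | succ m ih =>
    rw [Finset.sum_range_succ, ih, mul_comm ε (m : ℝ), mul_comm ε]
    push_cast
    ring

theorem lp_grid_tendsto (hf : ∀ i, Continuous (f i)) (n : ℕ) {x0 x y : ℝ} (h0 : x0 ≤ x)
    (hxy : x ≤ y) {ε : ℕ → ℝ} (hε : ∀ J, 0 < ε J) (hε0 : Tendsto ε atTop (𝓝 0)) :
    Tendsto (fun J => lp (stepF (grid f x0 (ε J))) n (⌊(x - x0) / ε J⌋₊ : ℕ)
      (⌊(y - x0) / ε J⌋₊ : ℕ)) atTop (𝓝 (lp f n x y)) := by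
  rw [Metric.tendsto_nhds]
  intro r hr
  have hn : (0 : ℝ) < n + 1 := by positivity
  obtain ⟨δ, hδ, hu⟩ := grid_unif hf n x0 y (η := r / (12 * (n + 1))) (by positivity)
  have hL := LB.of_continuous hf
  filter_upwards [hε0.eventually (Iic_mem_nhds hδ)] with J hJ
  have he := hε J
  set e := ε J with he_def
  have hJ' : e ≤ δ := hJ
  set p : ℕ := ⌊(x - x0) / e⌋₊ with hp
  set q : ℕ := ⌊(y - x0) / e⌋₊ with hq
  have hpq : (p : ℝ) ≤ q := by
    exact_mod_cast Nat.floor_mono (div_le_div_of_nonneg_right (by linarith only [hxy]) he.le)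
  have key : ∀ z, x0 ≤ z → x0 + e * (⌊(z - x0) / e⌋₊ : ℕ) ≤ z ∧
      z ≤ x0 + e * (⌊(z - x0) / e⌋₊ : ℕ) + e := by
    intro z hz
    have h1 := Nat.floor_le (div_nonneg (sub_nonneg.2 hz) he.le)
    have h2 := (Nat.lt_floor_add_one ((z - x0) / e)).le
    rw [le_div_iff₀ he] at h1
    rw [div_le_iff₀ he] at h2
    constructor <;> linarith only [h1, h2]
  have kp := key x h0
  have kq := key y (h0.trans hxy)
  rw [← hp] at kp
  rw [← hq] at kq
  have hp0 : 0 ≤ e * (p : ℝ) := by positivity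
  have hpq' : x0 + e * p ≤ x0 + e * q := by linarith only [he, hpq, mul_nonneg_of_nonpos_of_nonpos (le_of_lt (Mathlib.Tactic.Linarith.sub_neg_of_lt he)) (Mathlib.Tactic.Linarith.sub_nonpos_of_le hpq)]
  have dx : |x0 + e * p - x| ≤ δ := by rw [abs_le]; constructor <;> linarith only [hJ, kp, hδ, kp.1, kp.2]
  have dy : |x0 + e * q - y| ≤ δ := by rw [abs_le]; constructor <;> linarith only [hJ, kq, hδ, kq.1, kq.2]
  have h1 := grid_near hL hpq' hxy dx dy (by linarith only [hp0]) kq.1 h0 le_rfl hu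
  have h2 := grid_near hL hxy hpq' (by rwa [abs_sub_comm]) (by rwa [abs_sub_comm]) h0 le_rfl
    (by linarith only [hp0]) kq.1 hu
  rw [← lp_affine x0 he] at h1 h2
  have hLa : LB fun i t => f i (x0 + e * t) :=
    LB.of_continuous fun i => (hf i).comp (by fun_prop)
  have hc : ∀ i ≤ n, ∀ t ∈ Icc (p : ℝ) q,
      |(stepF (grid f x0 e) i t - stepF (grid f x0 e) i p) -
        (f i (x0 + e * t) - f i (x0 + e * p))| ≤ r / (12 * (n + 1)) := by
    intro i hi t ht
    rw [stepF_grid, stepF_grid, Nat.floor_natCast]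
    have ht0 : 0 ≤ t := (Nat.cast_nonneg p).trans ht.1
    have g1 := Nat.floor_le ht0
    have g2 := (Nat.lt_floor_add_one t).le
    have g3 : 0 ≤ e * (⌊t⌋₊ : ℕ) := by positivity
    have g4 : e * (⌊t⌋₊ : ℕ) ≤ e * t := by linarith only [he, g1, mul_nonneg_of_nonpos_of_nonpos (le_of_lt (Mathlib.Tactic.Linarith.sub_neg_of_lt he)) (Mathlib.Tactic.Linarith.sub_nonpos_of_le g1)]
    have g5 : e * t ≤ e * q := by linarith only [he, ht, ht.2, mul_nonneg_of_nonpos_of_nonpos (le_of_lt (Mathlib.Tactic.Linarith.sub_neg_of_lt he)) (Mathlib.Tactic.Linarith.sub_nonpos_of_le ht.right)]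
    have g6 : e * t ≤ e * (⌊t⌋₊ : ℕ) + e := by linarith only [he, g2, mul_nonneg_of_nonpos_of_nonpos (le_of_lt (Mathlib.Tactic.Linarith.sub_neg_of_lt he)) (Mathlib.Tactic.Linarith.sub_nonpos_of_le g2)]
    have := hu i hi (x0 + e * (⌊t⌋₊ : ℕ)) ⟨by linarith only [g3], by linarith only [kq, g4, g5, kq.1]⟩ (x0 + e * t)
      ⟨by linarith only [g3, g4], by linarith only [kq, g5, kq.1]⟩ (by rw [abs_le]; constructor <;> linarith only [hJ, g6, hδ, g4])
    convert this using 2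
    ring
  have h3 := lp_compare (f := stepF (grid f x0 e)) hLa hpq (φ := id) monotoneOn_id rfl rfl hc
  have h4 := lp_compare (f := fun i t => f i (x0 + e * t)) (LB.stepF (grid f x0 e)) hpq
    (φ := id) monotoneOn_id rfl rfl (η := r / (12 * (n + 1))) (fun i hi t ht => by
      rw [abs_sub_comm]; exact hc i hi t ht)
  have e1 : 2 * ((n : ℝ) + 1) * (2 * (r / (12 * (n + 1)))) = r / 3 := by field_simp; ring
  have e2 : 2 * ((n : ℝ) + 1) * (r / (12 * (n + 1))) = r / 6 := by field_simp; ring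
  rw [e1] at h1 h2
  rw [e2] at h3 h4
  simp only [id] at h3 h4
  rw [Real.dist_eq, abs_lt]
  constructor <;> linarith only [hr, h2, h4, h1, h3]

theorem sh_stepF (a : ℕ) (A : ℕ → ℕ → ℝ) : sh a (stepF A) = stepF (fun i => A (a + i)) := rfl

theorem sh_grid (a : ℕ) (f : ℕ → ℝ → ℝ) (x0 ε : ℝ) :
    (fun i => grid f x0 ε (a + i)) = grid (sh a f) x0 ε := rfl

theorem lp_stepF_ext (A : ℕ → ℕ → ℝ) {N J a p q : ℕ} (hN : a + n < N) (hq : q ≤ J) :
    lp (sh a (stepF A)) n p q = lp (sh a (stepF (ext N J fun w => A w.1 w.2))) n p q := by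
  have key : ∀ i ≤ n, ∀ t ∈ Icc (p : ℝ) q,
      sh a (stepF A) i t = sh a (stepF (ext N J fun w => A w.1 w.2)) i t := by
    intro i hi t ht
    unfold sh stepF
    refine Finset.sum_congr rfl fun b hb => ?_
    have h1 : ⌊t⌋₊ ≤ q := Nat.floor_le_of_le ht.2
    have h2 := Finset.mem_range.1 hb
    have h3 : a + i < N ∧ b < J := ⟨by omega, by omega⟩
    simp [ext, h3]
  exact lp_congr fun i hi s hs t ht => by rw [key i hi s hs, key i hi t ht]

theorem continuous_lp_ext (N J a n p q : ℕ) :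
    Continuous fun z : Fin N × Fin J → ℝ => lp (sh a (stepF (ext N J z))) n p q := by
  by_cases hpq : (p : ℝ) ≤ q
  · refine (LipschitzWith.of_le_add_mul' (2 * (n + 1) * (2 * q)) fun z z' => ?_).continuous
    have h1 : ∀ i b, |ext N J z i b - ext N J z' i b| ≤ dist z z' := by
      intro i b
      unfold ext
      split_ifs with h
      · rw [← Real.dist_eq]; exact dist_le_pi_dist z z' _
      · simp
    have h2 : ∀ i, ∀ t : ℝ, t ≤ q →
        |sh a (stepF (ext N J z)) i t - sh a (stepF (ext N J z')) i t| ≤ q * dist z z' := by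
      intro i t ht
      unfold sh stepF
      rw [← Finset.sum_sub_distrib]
      refine (Finset.abs_sum_le_sum_abs _ _).trans ?_
      refine (Finset.sum_le_sum fun b _ => h1 (a + i) b).trans ?_
      rw [Finset.sum_const, Finset.card_range, nsmul_eq_mul]
      exact mul_le_mul_of_nonneg_right (by exact_mod_cast Nat.floor_le_of_le ht) dist_nonneg
    have h3 := lp_compare (f := sh a (stepF (ext N J z))) (n := n)
      ((LB.stepF (ext N J z')).sh a) hpq (φ := id) monotoneOn_id rfl rfl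
      (η := 2 * q * dist z z') (fun i _ t ht => by
        have g1 := abs_le.1 (h2 i t ht.2)
        have g2 := abs_le.1 (h2 i p hpq)
        simp only [id]
        rw [abs_le]
        constructor <;> linarith only [g1, g2, g1.1, g1.2, g2.1, g2.2])
    simp only [id] at h3
    linarith
  · have : ∀ z : Fin N × Fin J → ℝ, lp (sh a (stepF (ext N J z))) n p q = 0 := fun z => by
      rw [lp, lpSet_eq_empty _ _ (not_le.1 hpq), Real.sSup_empty]
    simp only [this]
    exact continuous_const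

theorem measurable_lp {Ω : Type*} {m : MeasurableSpace Ω} {X : ℕ → ℝ → Ω → ℝ}
    (hm : ∀ i ≤ n, ∀ t, Measurable (X i t)) (hc : ∀ i ω, Continuous fun t => X i t ω) (x y : ℝ) :
    Measurable fun ω => lp (path X ω) n x y := by
  by_cases hxy : x ≤ y
  · set ε : ℕ → ℝ := fun J => 1 / ((J : ℝ) + 1) with hε
    refine measurable_of_tendsto_metrizable
      (f := fun J ω => lp (stepF (grid (path X ω) x (ε J))) n (⌊(x - x) / ε J⌋₊ : ℕ)
        (⌊(y - x) / ε J⌋₊ : ℕ)) (fun J => ?_) (tendsto_pi_nhds.2 fun ω => ?_)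
    · generalize ⌊(x - x) / ε J⌋₊ = p
      generalize ⌊(y - x) / ε J⌋₊ = q
      have h0 : ∀ g : ℕ → ℝ → ℝ, sh 0 g = g := fun g => by funext i; simp [sh]
      have h1 : ∀ ω, lp (stepF (grid (path X ω) x (ε J))) n p q =
          lp (sh 0 (stepF (ext (n + 1) q fun w => grid (path X ω) x (ε J) w.1 w.2))) n p q :=
        fun ω => by rw [← lp_stepF_ext _ (by omega) le_rfl, h0]
      simp only [h1]
      refine (continuous_lp_ext (n + 1) q 0 n p q).measurable.comp
        (measurable_pi_lambda _ fun w => ?_)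
      have hw : (w.1 : ℕ) ≤ n := Nat.lt_succ_iff.1 w.1.2
      exact (hm _ hw _).sub (hm _ hw _)
    · exact lp_grid_tendsto (f := path X ω) (fun i => hc i ω) n le_rfl hxy
        (fun J => by simp only [hε]; positivity) tendsto_one_div_add_atTop_nhds_zero_nat
  · have : ∀ ω, lp (path X ω) n x y = 0 := fun ω => by
      rw [lp, lpSet_eq_empty _ _ (not_le.1 hxy), Real.sSup_empty]
    simp only [this]
    exact measurable_const

theorem grid_sum_blocks (a : ℕ → ℝ) (M B : ℕ) :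
    ∑ b ∈ Finset.range B, ∑ i ∈ Finset.range M, a (b * M + i) =
      ∑ i ∈ Finset.range (B * M), a i := by
  induction B with
  | zero => simp
  | succ B ih => rw [Finset.sum_range_succ, ih, add_mul, one_mul, Finset.sum_range_add]

/-- Coarse graining of the step walks: `J` blocks of `M ≥ 1` steps. -/
theorem lp_block_compare (A : ℕ → ℕ → ℝ) {J M : ℕ} (hM : 1 ≤ M) {η : ℝ}
    (h : ∀ k ≤ n, ∀ b < J, ∀ j ≤ M, |∑ i ∈ Finset.range j, A k (b * M + i)| ≤ η) (hη : 0 ≤ η) :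
    |lp (stepF A) n 0 ((J * M : ℕ) : ℝ) -
      lp (stepF fun k b => ∑ i ∈ Finset.range M, A k (b * M + i)) n 0 J| ≤ 2 * (n + 1) * η := by
  have h1 : lp (stepF A) n 0 ((J * M : ℕ) : ℝ) ≤
      lp (stepF fun k b => ∑ i ∈ Finset.range M, A k (b * M + i)) n 0 J + 2 * (n + 1) * η := by
    refine lp_compare (LB.stepF _) (Nat.cast_nonneg _) (φ := fun t => ((⌊t⌋₊ / M : ℕ) : ℝ))
      (fun s _ t _ hst => ?_) (by simp) ?_ fun i hi t ht => ?_
    · exact Nat.cast_le.2 (Nat.div_le_div_right (Nat.floor_mono hst))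
    · simp only [Nat.floor_natCast]
      rw [Nat.mul_div_cancel _ hM]
    · have h2 : ⌊t⌋₊ ≤ J * M := Nat.floor_le_of_le ht.2
      simp only [stepF, Nat.floor_zero, Nat.floor_natCast, Finset.range_zero, Finset.sum_empty,
        sub_zero]
      generalize ⌊t⌋₊ = m at h2
      rw [grid_sum_blocks (A i)]
      have h3 : m = m / M * M + m % M := (Nat.div_add_mod' m M).symm
      have h4 : ∑ b ∈ Finset.range m, A i b = ∑ b ∈ Finset.range (m / M * M), A i b +
          ∑ b ∈ Finset.range (m % M), A i (m / M * M + b) := by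
        rw [← Finset.sum_range_add, ← h3]
      rw [h4, add_sub_cancel_left]
      rcases h2.eq_or_lt with rfl | h5
      · simpa using hη
      · exact h i hi _ ((Nat.div_lt_iff_lt_mul hM).2 h5) _ (Nat.mod_lt _ hM).le
  have h2 : lp (stepF fun k b => ∑ i ∈ Finset.range M, A k (b * M + i)) n 0 J ≤
      lp (stepF A) n 0 ((J * M : ℕ) : ℝ) + 2 * (n + 1) * η := by
    refine lp_compare (LB.stepF _) (Nat.cast_nonneg _) (φ := fun t => ((⌊t⌋₊ * M : ℕ) : ℝ))
      (fun s _ t _ hst => ?_) (by simp) ?_ fun i hi t ht => ?_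
    · exact Nat.cast_le.2 (Nat.mul_le_mul_right M (Nat.floor_mono hst))
    · simp only [Nat.floor_natCast]
    · simp only [stepF, Nat.floor_zero, Nat.floor_natCast, Finset.range_zero, Finset.sum_empty,
        sub_zero]
      rw [grid_sum_blocks (A i)]
      simpa using hη
  rw [abs_le]
  constructor <;> linarith only [h2, h1]

end Pool.Agent.Work.MP_8495a2_pr
end

-- merged part: Pool.Agent.Work.MP_8495a2_pr.BM
section
open MeasureTheory ProbabilityTheory Set Filter Topology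
open scoped ENNReal NNReal

namespace Pool.Agent.Work.MP_8495a2_pr

variable {ι Ω Ω' : Type*} [MeasurableSpace Ω] [MeasurableSpace Ω'] {P : Measure Ω}
  {P' : Measure Ω'}

theorem IsBMFamily.reindex {ι' : Type*} {B : ι → ℝ → Ω → ℝ} (hB : IsBMFamily P B) {g : ι' → ι}
    (hg : Function.Injective g) : IsBMFamily P (fun i => B (g i)) :=
  ⟨fun i => hB.meas (g i), fun i => hB.cont (g i), fun i => hB.zero (g i), fun i => hB.gauss (g i),
    fun i => hB.incr (g i), hB.indep.precomp hg⟩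

theorem IsBMFamily.affine {B : ι → ℝ → Ω → ℝ} (hB : IsBMFamily P B) (x0 : ℝ) {T : ℝ}
    (hT : 0 < T) : IsBMFamily P (fun i t ω => (√T)⁻¹ * (B i (x0 + T * t) ω - B i x0 ω)) := by
  have e : ∀ i s t ω, (√T)⁻¹ * (B i (x0 + T * t) ω - B i x0 ω) -
      (√T)⁻¹ * (B i (x0 + T * s) ω - B i x0 ω) =
      (√T)⁻¹ * (B i (x0 + T * t) ω - B i (x0 + T * s) ω) := fun _ _ _ _ => by ring
  refine ⟨fun i t => ((hB.meas i _).sub (hB.meas i _)).const_mul _, fun i ω => ?_,
    fun i ω => by simp, fun i s t hst => ?_, fun i m t ht => ?_, ?_⟩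
  · exact continuous_const.mul (((hB.cont i ω).comp (f := fun t => x0 + T * t)
      (by fun_prop)).sub continuous_const)
  · have h1 := hB.gauss i (x0 + T * s) (x0 + T * t) (by gcongr)
    have h2 := Measure.map_map (μ := P) (measurable_const_mul (√T)⁻¹)
      ((hB.meas i (x0 + T * t)).fun_sub (hB.meas i (x0 + T * s)))
    simp only [e]
    refine h2.symm.trans ?_
    rw [h1, gaussianReal_map_const_mul, mul_zero]
    congr 1
    ext
    have h3 : 0 ≤ x0 + T * t - (x0 + T * s) := sub_nonneg.2 (by gcongr)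
    rw [NNReal.coe_mul, NNReal.coe_mk, Real.coe_toNNReal _ h3, Real.coe_toNNReal _ (sub_nonneg.2 hst),
      inv_pow, Real.sq_sqrt hT.le]
    field_simp
    ring
  · simp only [e]
    exact (hB.incr i m (fun k => x0 + T * t k) fun a b hab => by
      have := ht hab
      dsimp only
      gcongr).comp (fun _ x => (√T)⁻¹ * x) fun _ => measurable_const_mul _
  · exact hB.indep.comp (fun _ (f : ℝ → ℝ) t => (√T)⁻¹ * (f (x0 + T * t) - f x0)) fun _ => by
      fun_prop

theorem IsBMFamily.grid_law [IsProbabilityMeasure P] {B : ℕ → ℝ → Ω → ℝ} (hB : IsBMFamily P B)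
    (N J : ℕ) (x0 : ℝ) {ε : ℝ} (hε : 0 ≤ ε) :
    P.map (fun ω (w : Fin N × Fin J) => grid (path B ω) x0 ε w.1 w.2) =
      Measure.pi fun _ => gaussianReal 0 ε.toNNReal := by
  have hm : ∀ i b : ℕ, Measurable fun ω => grid (path B ω) x0 ε i b := fun i b =>
    (hB.meas i _).sub (hB.meas i _)
  have h1 : iIndepFun (fun (p : ℕ × ℕ) ω => grid (path B ω) x0 ε p.1 p.2) P := by
    refine iIndepFun_uncurry' (X := fun i b ω => grid (path B ω) x0 ε i b) hm ?_ fun i => ?_
    · exact hB.indep.comp (fun _ (f : ℝ → ℝ) (b : ℕ) => f (x0 + (b + 1) * ε) - f (x0 + b * ε))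
        fun _ => by fun_prop
    · have := (hB.incr i).nat (t := fun b : ℕ => x0 + b * ε) fun a b hab => by
        dsimp only
        gcongr
      simp only [Nat.cast_succ] at this
      exact this
  have h2 := h1.precomp (g := fun w : Fin N × Fin J => ((w.1 : ℕ), (w.2 : ℕ)))
    (Fin.val_injective.prodMap Fin.val_injective)
  refine ((iIndepFun_iff_map_fun_eq_pi_map fun w => (hm _ _).aemeasurable).1 h2).trans ?_
  congr 1
  funext w
  have h3 := hB.gauss w.1 (x0 + (w.2 : ℕ) * ε) (x0 + ((w.2 : ℕ) + 1) * ε) (by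
    rw [add_mul, one_mul]
    linarith)
  rw [show x0 + (((w.2 : ℕ) : ℝ) + 1) * ε - (x0 + (w.2 : ℕ) * ε) = ε by ring] at h3
  exact h3

theorem BM_lim {E : Type*} [MetricSpace E] [MeasurableSpace E] [BorelSpace E]
    [IsProbabilityMeasure P] {X : ℕ → Ω → E} {X0 : Ω → E} (hX : ∀ k, Measurable (X k))
    (hX0 : Measurable X0) (h1 : ∀ᵐ ω ∂P, Tendsto (fun k => X k ω) atTop (𝓝 (X0 ω)))
    (f : BoundedContinuousFunction E ℝ) :
    Tendsto (fun k => ∫ x, f x ∂(P.map (X k))) atTop (𝓝 (∫ x, f x ∂(P.map X0))) := by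
  have hf : Measurable f := f.continuous.measurable
  simp only [fun k => integral_map (μ := P) (hX k).aemeasurable hf.aestronglyMeasurable,
    integral_map (μ := P) hX0.aemeasurable hf.aestronglyMeasurable]
  refine tendsto_integral_of_dominated_convergence (fun _ => ‖f‖)
    (fun k => (hf.comp (hX k)).aestronglyMeasurable) (integrable_const _)
    (fun k => Eventually.of_forall fun ω => f.norm_coe_le_norm _) ?_
  filter_upwards [h1] with ω h using (f.continuous.tendsto _).comp h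

/-- Almost sure limits of identically distributed sequences are identically distributed. -/
theorem map_eq_of_ae_tendsto {E : Type*} [MetricSpace E] [MeasurableSpace E] [BorelSpace E]
    [IsProbabilityMeasure P] [IsProbabilityMeasure P'] {X : ℕ → Ω → E} {Y : ℕ → Ω' → E}
    {X0 : Ω → E} {Y0 : Ω' → E} (hX : ∀ k, Measurable (X k)) (hY : ∀ k, Measurable (Y k))
    (hX0 : Measurable X0) (hY0 : Measurable Y0) (h : ∀ᶠ k in atTop, P.map (X k) = P'.map (Y k))
    (h1 : ∀ᵐ ω ∂P, Tendsto (fun k => X k ω) atTop (𝓝 (X0 ω)))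
    (h2 : ∀ᵐ ω ∂P', Tendsto (fun k => Y k ω) atTop (𝓝 (Y0 ω))) : P.map X0 = P'.map Y0 := by
  refine ext_of_forall_integral_eq_of_IsFiniteMeasure fun f => ?_
  refine tendsto_nhds_unique_of_eventuallyEq (BM_lim hX hX0 h1 f) (BM_lim hY hY0 h2 f) ?_
  filter_upwards [h] with k hk
  rw [hk]

/-- Almost sure limits of independent pairs are independent. -/
theorem indepFun_of_ae_tendsto {E F : Type*} [MetricSpace E] [MeasurableSpace E] [BorelSpace E]
    [SecondCountableTopology E] [MetricSpace F] [MeasurableSpace F] [BorelSpace F]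
    [SecondCountableTopology F] [IsProbabilityMeasure P] {X : ℕ → Ω → E} {Y : ℕ → Ω → F}
    {X0 : Ω → E} {Y0 : Ω → F} (hX : ∀ k, Measurable (X k)) (hY : ∀ k, Measurable (Y k))
    (hX0 : Measurable X0) (hY0 : Measurable Y0) (h : ∀ᶠ k in atTop, IndepFun (X k) (Y k) P)
    (h1 : ∀ᵐ ω ∂P, Tendsto (fun k => X k ω) atTop (𝓝 (X0 ω)))
    (h2 : ∀ᵐ ω ∂P, Tendsto (fun k => Y k ω) atTop (𝓝 (Y0 ω))) : IndepFun X0 Y0 P := by
  rw [indepFun_iff_map_prod_eq_prod_map_map hX0.aemeasurable hY0.aemeasurable,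
    Measure.map_prod_map _ _ hX0 hY0]
  refine map_eq_of_ae_tendsto (X := fun k ω => (X k ω, Y k ω))
    (Y := fun k => Prod.map (X k) (Y k)) (fun k => (hX k).prodMk (hY k))
    (fun k => (hX k).prodMap (hY k)) (hX0.prodMk hY0) (hX0.prodMap hY0) ?_ ?_ ?_
  · filter_upwards [h] with k hk
    rw [(indepFun_iff_map_prod_eq_prod_map_map (hX k).aemeasurable (hY k).aemeasurable).1 hk,
      Measure.map_prod_map _ _ (hX k) (hY k)]
  · filter_upwards [h1, h2] with ω a b using a.prodMk_nhds b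
  · filter_upwards [Measure.quasiMeasurePreserving_fst.ae h1,
      Measure.quasiMeasurePreserving_snd.ae h2] with ω a b using a.prodMk_nhds b

/-- The grid approximants. -/
noncomputable def BM_F {κ : Type*} [Fintype κ] (a n : κ → ℕ) (x y : κ → ℝ) (x0 : ℝ) (J : ℕ)
    (z : Fin ((Finset.univ.sup fun k => a k + n k) + 1) ×
      Fin (Finset.univ.sup fun k => ⌊(y k - x0) / (1 / (J + 1))⌋₊) → ℝ) (k : κ) : ℝ :=
  if x k ≤ y k then lp (sh (a k) (stepF (ext _ _ z))) (n k) (⌊(x k - x0) / (1 / (J + 1))⌋₊ : ℕ)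
    (⌊(y k - x0) / (1 / (J + 1))⌋₊ : ℕ) else 0

theorem BM_F_cont {κ : Type*} [Fintype κ] (a n : κ → ℕ) (x y : κ → ℝ) (x0 : ℝ) (J : ℕ) :
    Continuous (BM_F a n x y x0 J) := by
  refine continuous_pi fun k => ?_
  unfold BM_F
  split_ifs
  exacts [continuous_lp_ext _ _ _ _ _ _, continuous_const]

theorem BM_F_lim {κ : Type*} [Fintype κ] (a n : κ → ℕ) (x y : κ → ℝ) {x0 : ℝ} (h0 : ∀ k, x0 ≤ x k)
    {f : ℕ → ℝ → ℝ} (hf : ∀ i, Continuous (f i)) :
    Tendsto (fun J : ℕ => BM_F a n x y x0 J fun w => grid f x0 (1 / (J + 1)) w.1 w.2) atTop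
      (𝓝 fun k => lp (sh (a k) f) (n k) (x k) (y k)) := by
  refine tendsto_pi_nhds.2 fun k => ?_
  unfold BM_F
  split_ifs with h
  · refine (lp_grid_tendsto (f := sh (a k) f) (fun i => hf _) (n k) (h0 k) h
      (ε := fun J : ℕ => 1 / (J + 1)) (fun J => Nat.one_div_pos_of_nat)
      tendsto_one_div_add_atTop_nhds_zero_nat).congr fun J => ?_
    rw [← sh_grid, ← sh_stepF]
    exact lp_stepF_ext _ (Nat.lt_succ_of_le (Finset.le_sup (f := fun k => a k + n k)
      (Finset.mem_univ k))) (Finset.le_sup (f := fun k => ⌊(y k - x0) / (1 / (J + 1))⌋₊)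
      (Finset.mem_univ k))
  · rw [lp, lpSet_eq_empty _ _ (not_le.1 h), Real.sSup_empty]
    exact tendsto_const_nhds

theorem BM_grid {B : ℕ → ℝ → Ω → ℝ} (hB : IsBMFamily P B) (N J : ℕ) (x0 ε : ℝ) :
    Measurable fun ω (w : Fin N × Fin J) => grid (path B ω) x0 ε w.1 w.2 :=
  measurable_pi_lambda _ fun _ => (hB.meas _ _).sub (hB.meas _ _)

/-- The joint law of finitely many last passage values does not depend on the Brownian family. -/
theorem lp_law_eq [IsProbabilityMeasure P] [IsProbabilityMeasure P'] {B : ℕ → ℝ → Ω → ℝ}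
    {B' : ℕ → ℝ → Ω' → ℝ} (hB : IsBMFamily P B) (hB' : IsBMFamily P' B') {κ : Type*} [Fintype κ]
    (a n : κ → ℕ) (x y : κ → ℝ) :
    P.map (fun ω k => lp (sh (a k) (path B ω)) (n k) (x k) (y k)) =
      P'.map (fun ω k => lp (sh (a k) (path B' ω)) (n k) (x k) (y k)) := by
  obtain ⟨x0, hx0⟩ := Finite.bddBelow_range x
  have h0 : ∀ k, x0 ≤ x k := fun k => hx0 ⟨k, rfl⟩
  refine map_eq_of_ae_tendsto
    (X := fun J => BM_F a n x y x0 J ∘ fun ω w => grid (path B ω) x0 (1 / (J + 1)) w.1 w.2)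
    (Y := fun J => BM_F a n x y x0 J ∘ fun ω w => grid (path B' ω) x0 (1 / (J + 1)) w.1 w.2)
    (fun J => (BM_F_cont a n x y x0 J).measurable.comp (BM_grid hB _ _ _ _))
    (fun J => (BM_F_cont a n x y x0 J).measurable.comp (BM_grid hB' _ _ _ _))
    (measurable_pi_lambda _ fun k => measurable_lp (X := fun i => B (a k + i))
      (fun i _ => hB.meas _) (fun i => hB.cont _) _ _)
    (measurable_pi_lambda _ fun k => measurable_lp (X := fun i => B' (a k + i))
      (fun i _ => hB'.meas _) (fun i => hB'.cont _) _ _)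
    (Eventually.of_forall fun J => ?_)
    (Eventually.of_forall fun ω => BM_F_lim a n x y h0 fun i => hB.cont i ω)
    (Eventually.of_forall fun ω => BM_F_lim a n x y h0 fun i => hB'.cont i ω)
  have hε : (0 : ℝ) ≤ 1 / (J + 1) := by positivity
  rw [← Measure.map_map (BM_F_cont a n x y x0 J).measurable (BM_grid hB _ _ _ _),
    ← Measure.map_map (BM_F_cont a n x y x0 J).measurable (BM_grid hB' _ _ _ _),
    hB.grid_law _ _ x0 hε, hB'.grid_law _ _ x0 hε]

/-- Brownian scaling of one last passage value. -/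
theorem lp_law_scale [IsProbabilityMeasure P] [IsProbabilityMeasure P'] {B : ℕ → ℝ → Ω → ℝ}
    {B' : ℕ → ℝ → Ω' → ℝ} (hB : IsBMFamily P B) (hB' : IsBMFamily P' B') (n : ℕ) {x y : ℝ}
    (hxy : x < y) :
    P.map (fun ω => lp (path B ω) n x y) = P'.map (fun ω => √(y - x) * lp (path B' ω) n 0 1) :=
  by
  have hT : 0 < y - x := sub_pos.2 hxy
  have hA := hB.affine x hT
  have h1 := lp_law_eq hA hB' (κ := Unit) (fun _ => 0) (fun _ => n) (fun _ => 0) fun _ => 1
  have hφ : Measurable fun v : Unit → ℝ => √(y - x) * v () := by fun_prop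
  have h2 := congrArg (Measure.map fun v : Unit → ℝ => √(y - x) * v ()) h1
  have e0 : ∀ f, sh 0 f = f := fun f => funext fun i => congrArg f (zero_add i)
  simp only [e0] at h2
  rw [Measure.map_map hφ (measurable_pi_lambda _ fun _ =>
      measurable_lp (fun i _ => hA.meas i) hA.cont _ _),
    Measure.map_map hφ (measurable_pi_lambda _ fun _ =>
      measurable_lp (fun i _ => hB'.meas i) hB'.cont _ _)] at h2
  refine Eq.trans (congrArg (fun g => P.map g) (funext fun ω => ?_)) h2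
  have h3 := lp_affine (f := path B ω) (n := n) (x := 0) (y := 1) x hT
  rw [mul_zero, add_zero, mul_one, add_sub_cancel] at h3
  have hs : √(y - x) ≠ 0 := (Real.sqrt_pos.2 hT).ne'
  show _ = √(y - x) * lp _ n 0 1
  rw [← h3, ← lp_smul (Real.sqrt_nonneg _)]
  refine lp_congr fun i _ s _ t _ => ?_
  simp only [path, mul_inv_cancel_left₀ hs]
  ring

end Pool.Agent.Work.MP_8495a2_pr
end

-- merged part: Pool.Agent.Work.MP_8495a2_pr.LimCut
section
open MeasureTheory ProbabilityTheory Set Filter Topology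
open scoped ENNReal NNReal

namespace Pool.Agent.Work.MP_8495a2_pr

variable {Ω : Type*} [MeasurableSpace Ω] {P : Measure Ω} {B : ℕ → ℤ → ℝ → Ω → ℝ}
  {L : Ω → Up → ℝ}

lemma limcut_meas {Ω : Type*} {m : MeasurableSpace Ω} {D : ℤ → ℝ → Ω → ℝ} (n : ℕ) (u : Up)
    (hm : ∀ i, -⌊u.1.2.2.2 * n⌋ ≤ i → i ≤ -⌊u.1.2.1 * n⌋ → ∀ t, Measurable (D i t))
    (hc : ∀ i ω, Continuous fun t => D i t ω) :
    Measurable fun ω => rescaled n (fun i t => D i t ω) u := by
  have h1 : ⌊u.1.2.1 * n⌋ ≤ ⌊u.1.2.2.2 * n⌋ :=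
    Int.floor_le_floor (mul_le_mul_of_nonneg_right u.2.le (Nat.cast_nonneg n))
  refine Measurable.const_mul (Measurable.sub_const (Measurable.sub_const ?_ _) _) _
  exact measurable_lp (X := fun (i : ℕ) => D (-⌊u.1.2.1 * n⌋ - i))
    (fun i hi => hm _ (by omega) (by omega)) (fun i => hc _) _ _

lemma limcut_meas' {D : ℤ → ℝ → Ω → ℝ} (hD : IsBMFamily P D) (n : ℕ) (u : Up) :
    Measurable fun ω => rescaled n (fun i t => D i t ω) u :=
  limcut_meas n u (fun i _ _ => hD.meas i) hD.cont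

lemma limcut_indep {D : ℤ → ℝ → Ω → ℝ} (hD : IsBMFamily P D) (n : ℕ) (c : ℤ) {α β : Type*}
    (u : α → Up) (v : β → Up) (hu : ∀ a, ⌊(u a).1.2.2.2 * n⌋ < c) (hv : ∀ b, c ≤ ⌊(v b).1.2.1 * n⌋) :
    IndepFun (fun ω a => rescaled n (fun i t => D i t ω) (u a))
      (fun ω b => rescaled n (fun i t => D i t ω) (v b)) P := by
  have hS : ∀ (S : Set ℤ) (i : ℤ), i ∈ S → ∀ t, Measurable[⨆ i ∈ S,
      MeasurableSpace.comap (fun ω t => D i t ω) MeasurableSpace.pi] (D i t) := by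
    intro S i hi t
    have h1 : Measurable[MeasurableSpace.comap (fun ω t => D i t ω) MeasurableSpace.pi] (D i t) :=
      (measurable_pi_apply t).comp (comap_measurable fun ω t => D i t ω)
    exact h1.mono (le_iSup₂_of_le i hi le_rfl) le_rfl
  have h1 := indep_iSup_of_disjoint
    (fun i => (measurable_pi_lambda (fun ω t => D i t ω) (hD.meas i)).comap_le) hD.indep.iIndep
    (S := Ioi (-c)) (T := Iic (-c)) (Set.disjoint_left.2 fun i (h1 : -c < i) (h2 : i ≤ -c) => by omega)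
  rw [IndepFun_iff_Indep]
  refine indep_of_indep_of_le_right (indep_of_indep_of_le_left h1 ?_) ?_
  · refine Measurable.comap_le (@measurable_pi_lambda _ _ _ (_) _ _ fun a => ?_)
    refine limcut_meas n (u a) (fun i h2 _ => hS _ i ?_) hD.cont
    have h3 := hu a
    show -c < i
    omega
  · refine Measurable.comap_le (@measurable_pi_lambda _ _ _ (_) _ _ fun b => ?_)
    refine limcut_meas n (v b) (fun i _ h2 => hS _ i ?_) hD.cont
    have h3 := hv b
    show i ≤ -c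
    omega

lemma limcut_vec (h : IsCoupledLimit P B L) {g : ℕ → ℕ} (hg : Tendsto g atTop atTop) :
    ∃ φ : ℕ → ℕ, StrictMono φ ∧ ∀ᵐ ω ∂P, ∀ u : Up,
      Tendsto (fun k => rescaled (g (φ k)) (fun i t => B (g (φ k)) i t ω) u) atTop (𝓝 (L ω u)) := by
  obtain ⟨φ, h1, h2⟩ := h.subseq hg
  exact ⟨φ, h1, h2.mono fun ω hω u => (hω {u} isCompact_singleton).tendsto_at (mem_singleton u)⟩

lemma limcut_L (h : IsCoupledLimit P B L) {α : Type*} (u : α → Up) :
    Measurable fun ω a => L ω (u a) :=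
  measurable_pi_lambda _ fun a => (measurable_pi_apply (u a)).comp h.meas

lemma limcut_lt (h : IsCoupledLimit P B L) (t : ℝ) {α β : Type} [Fintype α] [Fintype β]
    (u : α → Up) (v : β → Up) (hu : ∀ a, (u a).1.2.2.2 < t) (hv : ∀ b, t ≤ (v b).1.2.1) :
    IndepFun (fun ω a => L ω (u a)) (fun ω b => L ω (v b)) P := by
  haveI := h.prob
  obtain ⟨φ, h1, h2⟩ := limcut_vec h tendsto_id
  have h3 : ∀ᶠ n : ℕ in atTop, ∀ a, ⌊(u a).1.2.2.2 * n⌋ < ⌊t * n⌋ := by
    refine eventually_all.2 fun a => ?_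
    have h4 := (tendsto_natCast_atTop_atTop (R := ℝ)).const_mul_atTop (sub_pos.2 (hu a))
    filter_upwards [h4.eventually_ge_atTop 1] with n hn
    have h5 : ⌊(u a).1.2.2.2 * n + 1⌋ ≤ ⌊t * n⌋ := Int.floor_le_floor (by linarith only [hn])
    rw [Int.floor_add_one] at h5
    omega
  refine indepFun_of_ae_tendsto
    (X := fun k ω a => rescaled (φ k) (fun i t => B (φ k) i t ω) (u a))
    (Y := fun k ω b => rescaled (φ k) (fun i t => B (φ k) i t ω) (v b))
    (fun k => measurable_pi_lambda _ fun a => limcut_meas' (h.bm _) _ _)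
    (fun k => measurable_pi_lambda _ fun a => limcut_meas' (h.bm _) _ _)
    (limcut_L h u) (limcut_L h v) ?_ (h2.mono fun ω hω => tendsto_pi_nhds.2 fun a => hω _)
    (h2.mono fun ω hω => tendsto_pi_nhds.2 fun a => hω _)
  filter_upwards [h1.tendsto_atTop.eventually h3] with k hk
  exact limcut_indep (h.bm _) _ _ u v hk fun b =>
    Int.floor_le_floor (mul_le_mul_of_nonneg_right (hv b) (Nat.cast_nonneg _))

lemma limcut_le (h : IsCoupledLimit P B L) (t : ℝ) {α β : Type} [Fintype α] [Fintype β]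
    (u : α → Up) (v : β → Up) (hu : ∀ a, (u a).1.2.2.2 ≤ t) (hv : ∀ b, t ≤ (v b).1.2.1) :
    IndepFun (fun ω a => L ω (u a)) (fun ω b => L ω (v b)) P := by
  haveI := h.prob
  have h0 : ∀ k : ℕ, (0 : ℝ) < 1 / ((k : ℝ) + 1) / 2 ∧ (1 : ℝ) / ((k : ℝ) + 1) / 2 < 1 := fun k => by
    have h1 : (1 : ℝ) / ((k : ℝ) + 1) ≤ 1 :=
      div_le_one_of_le₀ (le_add_of_nonneg_left (Nat.cast_nonneg k)) (by positivity)
    exact ⟨by positivity, by linarith only [h1]⟩
  let w : ℕ → α → Up := fun k a => ⟨((u a).1.1, (u a).1.2.1, (u a).1.2.2.1,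
    (u a).1.2.2.2 - 1 / ((k : ℝ) + 1) / 2 * ((u a).1.2.2.2 - (u a).1.2.1)), by
      have h1 := mul_lt_mul_of_pos_right (h0 k).2 (sub_pos.2 (u a).2)
      show (u a).1.2.1 < _
      linarith only [h1]⟩
  have hw : ∀ a, Tendsto (fun k => w k a) atTop (𝓝 (u a)) := by
    intro a
    refine tendsto_subtype_rng.2 (tendsto_const_nhds.prodMk_nhds (tendsto_const_nhds.prodMk_nhds
      (tendsto_const_nhds.prodMk_nhds ?_)))
    have h1 := (((tendsto_one_div_add_atTop_nhds_zero_nat (𝕜 := ℝ)).div_const 2).mul_const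
      ((u a).1.2.2.2 - (u a).1.2.1)).const_sub (u a).1.2.2.2
    simpa only [zero_div, zero_mul, sub_zero] using h1
  refine indepFun_of_ae_tendsto (X := fun k ω a => L ω (w k a)) (Y := fun _ ω b => L ω (v b))
    (fun k => limcut_L h _) (fun k => limcut_L h _) (limcut_L h u) (limcut_L h v)
    (Eventually.of_forall fun k => limcut_lt h t _ v (fun a => ?_) hv)
    (Eventually.of_forall fun ω => tendsto_pi_nhds.2 fun a => ((h.cont ω).tendsto _).comp (hw a))
    (Eventually.of_forall fun ω => tendsto_const_nhds)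
  have h1 := mul_pos (h0 k).1 (sub_pos.2 (u a).2)
  have h2 := hu a
  show (u a).1.2.2.2 - _ < t
  linarith only [h1, h2]

theorem IsCoupledLimit.cut (h : IsCoupledLimit P B L) (t : ℝ) : Indep (mP t) (mF t) (P.map L) := by
  haveI := h.prob
  have h1 : IndepFun (fun ω (u : {u : Up // u.1.2.2.2 ≤ t}) => L ω u)
      (fun ω (u : {u : Up // t ≤ u.1.2.1}) => L ω u) P :=
    IndepFun.process_indepFun_process
      (X := fun (u : {u : Up // u.1.2.2.2 ≤ t}) ω => L ω u)
      (Y := fun (u : {u : Up // t ≤ u.1.2.1}) ω => L ω u)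
      (fun u => (measurable_pi_apply u.1).comp h.meas)
      (fun u => (measurable_pi_apply u.1).comp h.meas)
      fun I J => limcut_le h t (fun a : I => a.1.1) (fun b : J => b.1.1) (fun a => a.1.2)
        fun b => b.1.2
  rw [Indep_iff]
  intro s1 s2 hs1 hs2
  rw [Measure.map_apply h.meas ((mP_le t _ hs1).inter (mF_le t _ hs2)),
    Measure.map_apply h.meas (mP_le t _ hs1), Measure.map_apply h.meas (mF_le t _ hs2)]
  obtain ⟨A, hA, rfl⟩ := hs1
  obtain ⟨C, hC, rfl⟩ := hs2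
  exact indepFun_iff_measure_inter_preimage_eq_mul.1 h1 A C hA hC

lemma limcut_rep {D : ℤ → ℝ → Ω → ℝ} (hD : IsBMFamily P D) (n : ℕ) {s r : ℝ} (hr : s < s + r)
    {a ρ : ℤ} (ha : s * n = a) (hρ : r * n = ρ) :
    ∃ E : ℕ → ℝ → Ω → ℝ, IsBMFamily P E ∧ ∀ ω x y,
      rescaled n (fun i t => D i t ω) ⟨(x, s, y, s + r), hr⟩ = (n : ℝ) ^ (1 / 6 : ℝ) *
        (lp (sh 0 (path E ω)) ρ.toNat (2 * x / (n : ℝ) ^ (1 / 3 : ℝ))
          (r + 2 * y / (n : ℝ) ^ (1 / 3 : ℝ)) - 2 * r * √n - 2 * (y - x) * (n : ℝ) ^ (1 / 6 : ℝ)) := by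
  have hi : Function.Injective fun i : ℕ => -a - (i : ℤ) := fun i j hij => by
    simp only at hij
    omega
  refine ⟨_, (hD.reindex hi).affine s one_pos, fun ω x y => ?_⟩
  have e1 : ⌊s * n⌋ = a := by rw [ha, Int.floor_intCast]
  have e2 : ⌊(s + r) * n⌋ = a + ρ := by rw [add_mul, ha, hρ, ← Int.cast_add, Int.floor_intCast]
  have e3 : -a - -(a + ρ) = ρ := by ring
  simp only [rescaled, lastPassage, e1, e2, e3, add_sub_cancel_left]
  refine congrArg (fun z => (n : ℝ) ^ (1 / 6 : ℝ) *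
    (z - 2 * r * √n - 2 * (y - x) * (n : ℝ) ^ (1 / 6 : ℝ))) ?_
  have e4 := lp_affine (f := fun (i : ℕ) t => D (-a - i) t ω) (n := ρ.toNat)
    (x := 2 * x / (n : ℝ) ^ (1 / 3 : ℝ)) (y := r + 2 * y / (n : ℝ) ^ (1 / 3 : ℝ)) s one_pos
  rw [one_mul, one_mul, ← add_assoc] at e4
  refine e4.symm.trans (lp_congr fun i _ p _ q _ => ?_)
  simp only [sh, path, Real.sqrt_one, inv_one, one_mul, zero_add]
  ring

lemma limcut_den (q : ℚ) {n : ℕ} (h : q.den ∣ n) : ∃ a : ℤ, (q : ℝ) * n = a := by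
  obtain ⟨c, rfl⟩ := h
  refine ⟨q.num * c, ?_⟩
  have h1 : (q : ℝ) * q.den = q.num := by exact_mod_cast Rat.mul_den_eq_num q
  push_cast
  rw [← mul_assoc, h1]

theorem IsCoupledLimit.stat (h : IsCoupledLimit P B L) (κ : Type) [Fintype κ] (x y : κ → ℝ)
    (s s' r : ℚ) (hr : 0 < r) :
    (P.map L).map (fun l k => ev l (x k) s (y k) (s + r)) =
      (P.map L).map (fun l k => ev l (x k) s' (y k) (s' + r)) := by
  haveI := h.prob
  have hr' : (0 : ℝ) < r := by exact_mod_cast hr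
  have h1 : (s : ℝ) < s + r := by linarith
  have h2 : (s' : ℝ) < s' + r := by linarith
  have hd : 0 < s.den * s'.den * r.den := mul_pos (mul_pos s.pos s'.pos) r.pos
  obtain ⟨φ, -, h4⟩ := limcut_vec h (g := fun k => k * (s.den * s'.den * r.den))
    (tendsto_id.atTop_mul_const' hd)
  rw [Measure.map_map (measurable_pi_lambda _ fun k => measurable_ev _ _ _ _) h.meas,
    Measure.map_map (measurable_pi_lambda _ fun k => measurable_ev _ _ _ _) h.meas]
  simp only [Function.comp_def, ev_of_lt _ h1, ev_of_lt _ h2]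
  refine map_eq_of_ae_tendsto
    (X := fun j ω k => rescaled (φ j * (s.den * s'.den * r.den))
      (fun i t => B (φ j * (s.den * s'.den * r.den)) i t ω) ⟨(x k, s, y k, s + r), h1⟩)
    (Y := fun j ω k => rescaled (φ j * (s.den * s'.den * r.den))
      (fun i t => B (φ j * (s.den * s'.den * r.den)) i t ω) ⟨(x k, s', y k, s' + r), h2⟩)
    (fun k => measurable_pi_lambda _ fun a => limcut_meas' (h.bm _) _ _)
    (fun k => measurable_pi_lambda _ fun a => limcut_meas' (h.bm _) _ _)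
    (limcut_L h _) (limcut_L h _) (Eventually.of_forall fun j => ?_)
    (h4.mono fun ω hω => tendsto_pi_nhds.2 fun a => hω _)
    (h4.mono fun ω hω => tendsto_pi_nhds.2 fun a => hω _)
  generalize hn : φ j * (s.den * s'.den * r.den) = n
  obtain ⟨a, ha⟩ := limcut_den s (n := n) ⟨φ j * (s'.den * r.den), by rw [← hn]; ring⟩
  obtain ⟨a', ha'⟩ := limcut_den s' (n := n) ⟨φ j * (s.den * r.den), by rw [← hn]; ring⟩
  obtain ⟨ρ, hρ⟩ := limcut_den r (n := n) ⟨φ j * (s.den * s'.den), by rw [← hn]; ring⟩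
  obtain ⟨E, hE, e⟩ := limcut_rep (h.bm n) n h1 ha hρ
  obtain ⟨E', hE', e'⟩ := limcut_rep (h.bm n) n h2 ha' hρ
  have hΨ : Measurable fun (v : κ → ℝ) (k : κ) => (n : ℝ) ^ (1 / 6 : ℝ) *
      (v k - 2 * r * √n - 2 * (y k - x k) * (n : ℝ) ^ (1 / 6 : ℝ)) := by fun_prop
  have hm : ∀ {E : ℕ → ℝ → Ω → ℝ}, IsBMFamily P E → Measurable fun ω (k : κ) =>
      lp (sh 0 (path E ω)) ρ.toNat (2 * x k / (n : ℝ) ^ (1 / 3 : ℝ))
        (r + 2 * y k / (n : ℝ) ^ (1 / 3 : ℝ)) := by
    intro E hE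
    exact measurable_pi_lambda _ fun k => measurable_lp (X := fun i => E (0 + i))
      (fun i _ => hE.meas _) (fun i => hE.cont _) _ _
  have h5 := lp_law_eq hE hE' (fun _ : κ => 0) (fun _ => ρ.toNat)
    (fun k => 2 * x k / (n : ℝ) ^ (1 / 3 : ℝ)) fun k => r + 2 * y k / (n : ℝ) ^ (1 / 3 : ℝ)
  simp only [e, e']
  refine (Measure.map_map hΨ (hm hE)).symm.trans (Eq.trans ?_ (Measure.map_map hΨ (hm hE')))
  rw [h5]

end Pool.Agent.Work.MP_8495a2_pr
end

-- merged part: Pool.Agent.Work.MP_8495a2_pr.Ville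
section
open MeasureTheory ProbabilityTheory Set Filter Topology
open scoped ENNReal NNReal

namespace Pool.Agent.Work.MP_8495a2_pr

lemma ville_sum_succ {m : ℕ} (x : Fin (m + 1) → ℝ) (j : ℕ) :
    ∑ i ∈ Finset.univ.filter (fun i : Fin (m + 1) => i.val < j + 1), x i =
      x 0 + ∑ i ∈ Finset.univ.filter (fun i : Fin m => i.val < j), x i.succ := by
  rw [Finset.sum_filter, Finset.sum_filter, Fin.sum_univ_succ]
  simp

lemma ville_sum_range {m j : ℕ} (hj : j ≤ m) (g : ℕ → ℝ) :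
    ∑ i ∈ Finset.univ.filter (fun i : Fin m => i.val < j), g i.val =
      ∑ i ∈ Finset.range j, g i := by
  rw [Finset.sum_filter, Fin.sum_univ_eq_sum_range (fun i => if i < j then g i else 0) m,
    ← Finset.sum_filter]
  congr 1
  ext i
  simp only [Finset.mem_filter, Finset.mem_range]
  omega

lemma ville_meas {Ω : Type*} [MeasurableSpace Ω] {m : ℕ} (X : Fin m → Ω → ℝ)
    (hm : ∀ i, Measurable (X i)) {y : Ω → ℝ} (hy : Measurable y) :
    MeasurableSet
      {ω | ∃ j ≤ m, y ω ≤ ∑ i ∈ Finset.univ.filter (fun i : Fin m => i.val < j), X i ω} := by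
  have : {ω | ∃ j ≤ m, y ω ≤ ∑ i ∈ Finset.univ.filter (fun i : Fin m => i.val < j), X i ω} =
      ⋃ j : ℕ, ⋃ _ : j ≤ m,
        {ω | y ω ≤ ∑ i ∈ Finset.univ.filter (fun i : Fin m => i.val < j), X i ω} := by
    ext ω; simp
  rw [this]
  exact MeasurableSet.iUnion fun j => MeasurableSet.iUnion fun _ =>
    measurableSet_le hy (Finset.measurable_sum _ fun i _ => hm i)

lemma ville_triv {Ω : Type*} [MeasurableSpace Ω] (P : Measure Ω) [IsProbabilityMeasure P]
    (S : Set Ω) {y : ℝ} (hy : y ≤ 0) : P S ≤ ENNReal.ofReal (Real.exp (-y)) :=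
  prob_le_one.trans (ENNReal.one_le_ofReal.2 (Real.one_le_exp (by linarith)))

lemma ville_pi (m : ℕ) : ∀ (μ : Fin m → Measure ℝ) [∀ i, IsProbabilityMeasure (μ i)],
    (∀ i, ∫⁻ x, ENNReal.ofReal (Real.exp x) ∂μ i ≤ 1) → ∀ y : ℝ,
    Measure.pi μ {x | ∃ j ≤ m, y ≤ ∑ i ∈ Finset.univ.filter (fun i : Fin m => i.val < j), x i} ≤
      ENNReal.ofReal (Real.exp (-y)) := by
  induction m with
  | zero =>
    intro μ _ _ y
    by_cases hy : y ≤ 0
    · exact ville_triv _ _ hy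
    · have : {x : Fin 0 → ℝ | ∃ j ≤ 0,
          y ≤ ∑ i ∈ Finset.univ.filter (fun i : Fin 0 => i.val < j), x i} = ∅ := by
        ext x; simp [hy]
      rw [this, measure_empty]
      exact bot_le
  | succ m ih =>
    intro μ _ h y
    by_cases hy : y ≤ 0
    · exact ville_triv _ _ hy
    set T : Set (ℝ × (Fin m → ℝ)) := {p | ∃ j ≤ m,
      y - p.1 ≤ ∑ i ∈ Finset.univ.filter (fun i : Fin m => i.val < j), p.2 i} with hT
    have hTm : MeasurableSet T :=
      ville_meas (fun i (p : ℝ × (Fin m → ℝ)) => p.2 i) (fun i => by fun_prop) (by fun_prop)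
    have hsub : {x : Fin (m + 1) → ℝ | ∃ j ≤ m + 1,
        y ≤ ∑ i ∈ Finset.univ.filter (fun i : Fin (m + 1) => i.val < j), x i} ⊆
        MeasurableEquiv.piFinSuccAbove (fun _ => ℝ) 0 ⁻¹' T := by
      rintro x ⟨j, hj, hx⟩
      cases j with
      | zero => simp at hx; exact absurd hx hy
      | succ j =>
        rw [ville_sum_succ] at hx
        refine ⟨j, by omega, ?_⟩
        have e1 : (MeasurableEquiv.piFinSuccAbove (fun _ => ℝ) 0 x).1 = x 0 := rfl
        have e2 : ∀ i, (MeasurableEquiv.piFinSuccAbove (fun _ => ℝ) 0 x).2 i = x i.succ :=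
          fun i => rfl
        simp only [e1, e2]
        linarith only [hx]
    refine (measure_mono hsub).trans ?_
    rw [(measurePreserving_piFinSuccAbove μ 0).measure_preimage hTm.nullMeasurableSet,
      Measure.prod_apply hTm]
    calc _ ≤ ∫⁻ x, ENNReal.ofReal (Real.exp (-y)) * ENNReal.ofReal (Real.exp x) ∂μ 0 := by
          refine lintegral_mono fun x => ?_
          refine (ih (fun j => μ ((0 : Fin (m + 1)).succAbove j)) (fun j => h _) (y - x)).trans ?_
          rw [← ENNReal.ofReal_mul (Real.exp_pos _).le, ← Real.exp_add]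
          exact le_of_eq (by congr 2; ring)
      _ = ENNReal.ofReal (Real.exp (-y)) * ∫⁻ x, ENNReal.ofReal (Real.exp x) ∂μ 0 :=
          lintegral_const_mul _ (by fun_prop)
      _ ≤ ENNReal.ofReal (Real.exp (-y)) * 1 := by gcongr; exact h 0
      _ = _ := mul_one _

theorem ville {Ω : Type*} [MeasurableSpace Ω] {P : Measure Ω} [IsProbabilityMeasure P] {m : ℕ}
    (X : Fin m → Ω → ℝ) (hm : ∀ i, Measurable (X i)) (hi : iIndepFun X P)
    (h : ∀ i, ∫⁻ ω, ENNReal.ofReal (Real.exp (X i ω)) ∂P ≤ 1) (y : ℝ) :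
    P {ω | ∃ j ≤ m, y ≤ ∑ i ∈ Finset.univ.filter (fun i : Fin m => i.val < j), X i ω} ≤
      ENNReal.ofReal (Real.exp (-y)) := by
  have hp : ∀ i, IsProbabilityMeasure (P.map (X i)) := fun i =>
    Measure.isProbabilityMeasure_map (hm i).aemeasurable
  have h1 := ville_pi m (fun i => P.map (X i)) (fun i => by
    rw [lintegral_map (by fun_prop) (hm i)]; exact h i) y
  rw [← (iIndepFun_iff_map_fun_eq_pi_map fun i => (hm i).aemeasurable).1 hi,
    Measure.map_apply (measurable_pi_lambda _ hm)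
      (ville_meas (fun i (x : Fin m → ℝ) => x i) (fun i => measurable_pi_apply i)
        measurable_const)] at h1
  exact h1

lemma ville_gauss {v : ℝ} (hv : 0 ≤ v) (a : ℝ) :
    ∫⁻ x, ENNReal.ofReal (Real.exp (a * x - a ^ 2 * v / 2)) ∂gaussianReal 0 v.toNNReal = 1 := by
  have h1 : ∀ x, Real.exp (a * x - a ^ 2 * v / 2) =
      Real.exp (a * x) * Real.exp (-(a ^ 2 * v / 2)) := fun x => by
    rw [← Real.exp_add, sub_eq_add_neg]
  simp only [h1]
  rw [← ofReal_integral_eq_lintegral_ofReal ((integrable_exp_mul_gaussianReal a).mul_const _)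
    (Eventually.of_forall fun x => by positivity), integral_mul_const]
  have h2 := congrFun (mgf_fun_id_gaussianReal (μ := 0) (v := v.toNNReal)) a
  simp only [mgf] at h2
  rw [h2, ← Real.exp_add, Real.coe_toNNReal _ hv,
    show 0 * a + v * a ^ 2 / 2 + -(a ^ 2 * v / 2) = 0 by ring, Real.exp_zero, ENNReal.ofReal_one]

lemma ville_grid {ι Ω : Type*} [MeasurableSpace Ω] {P : Measure Ω} [IsProbabilityMeasure P]
    {B : ι → ℝ → Ω → ℝ} (hB : IsBMFamily P B) (i : ι) {γ : ℝ} (hγ : 0 < γ) {d : ℝ} (hd : 0 ≤ d)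
    (m : ℕ) (y : ℝ) :
    P {ω | ∃ j ≤ m, y < B i (j * d) ω - γ * (j * d)} ≤
      ENNReal.ofReal (Real.exp (-(2 * γ * y))) := by
  have hmono : Monotone fun k : Fin (m + 1) => (k.val : ℝ) * d := fun a b hab =>
    mul_le_mul_of_nonneg_right (Nat.cast_le.2 hab) hd
  have hi := (hB.incr i m _ hmono).comp (fun _ x => 2 * γ * x - (2 * γ) ^ 2 * d / 2)
    (fun _ => by fun_prop)
  have hme : ∀ k : Fin m, Measurable fun ω =>
      B i ((k.succ.val : ℝ) * d) ω - B i ((k.castSucc.val : ℝ) * d) ω := fun k =>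
    (hB.meas i _).sub (hB.meas i _)
  refine le_trans (measure_mono ?_) (ville _ (fun k => ?_) hi (fun k => ?_) (2 * γ * y))
  · rintro ω ⟨j, hj, hω⟩
    refine ⟨j, hj, ?_⟩
    have e := ville_sum_range hj fun k => 2 * γ * (B i (((k + 1 : ℕ) : ℝ) * d) ω -
      B i ((k : ℝ) * d) ω) - (2 * γ) ^ 2 * d / 2
    have e2 := Finset.sum_range_sub (fun k : ℕ => B i ((k : ℝ) * d) ω) j
    simp only [Function.comp_apply, Fin.val_succ, Fin.val_castSucc]
    rw [e, Finset.sum_sub_distrib, ← Finset.mul_sum, e2]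
    simp only [Nat.cast_zero, zero_mul, hB.zero, sub_zero, Finset.sum_const, Finset.card_range,
      nsmul_eq_mul]
    linarith only [hγ, hω, mul_pos_of_neg_of_neg (Mathlib.Tactic.Linarith.sub_neg_of_lt hγ) (Mathlib.Tactic.Linarith.sub_neg_of_lt hω)]
  · exact Measurable.comp (by fun_prop) (hme k)
  · have hle : (k.castSucc.val : ℝ) * d ≤ (k.succ.val : ℝ) * d :=
      hmono (Fin.castSucc_lt_succ (i := k)).le
    have hg := hB.gauss i _ _ hle
    have e : (k.succ.val : ℝ) * d - (k.castSucc.val : ℝ) * d = d := by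
      simp only [Fin.val_succ, Fin.val_castSucc]; push_cast; ring
    rw [e] at hg
    have h3 := ville_gauss hd (2 * γ)
    rw [← hg, lintegral_map (by fun_prop) (hme k)] at h3
    exact h3.le

theorem ville_BM {ι Ω : Type*} [MeasurableSpace Ω] {P : Measure Ω} [IsProbabilityMeasure P]
    {B : ι → ℝ → Ω → ℝ} (hB : IsBMFamily P B) (i : ι) {γ : ℝ} (hγ : 0 < γ) (T y : ℝ) :
    P {ω | ∃ t ∈ Icc (0 : ℝ) T, y < B i t ω - γ * t} ≤ ENNReal.ofReal (Real.exp (-(2 * γ * y))) := by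
  by_cases hT : T < 0
  · have : {ω | ∃ t ∈ Icc (0 : ℝ) T, y < B i t ω - γ * t} = ∅ := by
      ext ω; simp [Icc_eq_empty_of_lt hT]
    rw [this, measure_empty]
    exact bot_le
  have hT0 : 0 ≤ T := not_lt.1 hT
  set A : ℕ → Set Ω := fun m => {ω | ∃ j ≤ m + 1,
    y < B i (j * (T / (m + 1 : ℕ))) ω - γ * (j * (T / (m + 1 : ℕ)))} with hA
  have hmono : Monotone fun m0 : ℕ => ⋂ m ≥ m0, A m := fun a b hab =>
    biInter_subset_biInter_left fun m hm => le_trans hab hm
  have hsub : {ω | ∃ t ∈ Icc (0 : ℝ) T, y < B i t ω - γ * t} ⊆ ⋃ m0 : ℕ, ⋂ m ≥ m0, A m := by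
    rintro ω ⟨t, ht, hω⟩
    have hc : Continuous fun s => B i s ω - γ * s := (hB.cont i ω).sub (by fun_prop)
    have hcl : ∀ m : ℕ, ∃ j ≤ m + 1, |(j : ℝ) * (T / (m + 1 : ℕ)) - t| ≤ T / (m + 1 : ℕ) := by
      intro m
      rcases hT0.eq_or_lt with h0 | h0
      · have : t = 0 := le_antisymm (h0 ▸ ht.2) ht.1
        exact ⟨0, by omega, by simp [this, ← h0]⟩
      · have hm : (0 : ℝ) < (m + 1 : ℕ) := by positivity
        have hd : 0 < T / (m + 1 : ℕ) := div_pos h0 hm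
        have h1 : 0 ≤ t / (T / (m + 1 : ℕ)) := div_nonneg ht.1 hd.le
        have h2 := Nat.floor_le h1
        have h3 := Nat.lt_floor_add_one (t / (T / (m + 1 : ℕ)))
        rw [le_div_iff₀ hd] at h2
        rw [div_lt_iff₀ hd] at h3
        refine ⟨⌊t / (T / (m + 1 : ℕ))⌋₊, Nat.floor_le_of_le ?_, abs_le.2 ⟨by linarith only [h3], by linarith only [hd, h2]⟩⟩
        rw [div_le_iff₀ hd, mul_div_cancel₀ _ hm.ne']
        exact ht.2
    choose j hj hjt using hcl
    have h0 : Tendsto (fun m : ℕ => T / ((m + 1 : ℕ) : ℝ)) atTop (𝓝 0) :=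
      (tendsto_const_div_atTop_nhds_zero_nat T).comp (tendsto_add_atTop_nat 1)
    have hlim : Tendsto (fun m : ℕ => (j m : ℝ) * (T / (m + 1 : ℕ))) atTop (𝓝 t) := by
      rw [tendsto_iff_dist_tendsto_zero]
      exact squeeze_zero (fun _ => dist_nonneg) (fun m => by rw [Real.dist_eq]; exact hjt m) h0
    obtain ⟨m0, hm0⟩ := eventually_atTop.1 (((hc.tendsto t).comp hlim).eventually (lt_mem_nhds hω))
    exact mem_iUnion.2 ⟨m0, mem_iInter₂.2 fun m hm => ⟨j m, hj m, hm0 m hm⟩⟩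
  refine (measure_mono hsub).trans ?_
  rw [hmono.measure_iUnion]
  refine iSup_le fun m0 => (measure_mono (biInter_subset_of_mem (le_refl m0))).trans ?_
  exact ville_grid hB i hγ (by positivity) (m0 + 1) y

lemma ville_step (a u c : ℝ) (h : (a + u) ^ 2 / 2 ≤ c) :
    ∫⁻ x, ENNReal.ofReal (Real.exp (u * sgn x - c)) ∂stepM a ≤ 1 := by
  have h1 := Real.exp_pos a
  have h2 := Real.exp_pos (-a)
  rw [stepM, lintegral_add_measure, lintegral_smul_measure, lintegral_smul_measure,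
    lintegral_dirac, lintegral_dirac, smul_eq_mul, smul_eq_mul,
    ← ENNReal.ofReal_mul (by positivity), ← ENNReal.ofReal_mul (by positivity),
    ← ENNReal.ofReal_add (by positivity) (by positivity), ENNReal.ofReal_le_one]
  have h3 := Real.cosh_le_exp_half_sq (a + u)
  have h4 := Real.one_le_cosh a
  rw [Real.cosh_eq] at h3 h4
  have h5 : Real.exp ((a + u) ^ 2 / 2) * Real.exp (-c) ≤ 1 := by
    rw [← Real.exp_add]
    exact Real.exp_le_one_iff.2 (by linarith only [h])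
  have e1 : Real.exp a * Real.exp (u * sgn true - c) = Real.exp (a + u) * Real.exp (-c) := by
    rw [← Real.exp_add, ← Real.exp_add]; congr 1; simp [sgn]; ring
  have e2 : Real.exp (-a) * Real.exp (u * sgn false - c) =
      Real.exp (-(a + u)) * Real.exp (-c) := by
    rw [← Real.exp_add, ← Real.exp_add]; congr 1; simp [sgn]; ring
  rw [div_mul_eq_mul_div, div_mul_eq_mul_div, e1, e2, ← add_div, div_le_one (by positivity)]
  linarith only [h4, h5, h3, Real.exp_pos (-c), mul_nonneg_of_nonpos_of_nonpos (Mathlib.Tactic.Linarith.sub_nonpos_of_le h3) (le_of_lt (Mathlib.Tactic.Linarith.sub_neg_of_lt (Real.exp_pos (-c))))]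

lemma ville_block (J M n : ℕ) (θ σ ε lam η : ℝ) (hσ : 0 ≤ σ) (hε : M * σ ^ 2 ≤ ε) (hl : 0 < lam)
    {k b : ℕ} (hk : k < n + 1) (hb : b < J) {s : ℝ} (hs : |s| = 1) :
    arrM (J * M) n (θ * σ) {ω | ∃ j ≤ M,
        η < s * ∑ i ∈ Finset.range j, σ * walkA (J * M) n ω k (b * M + i)} ≤
      ENNReal.ofReal (Real.exp (-(lam * η) + (|θ| + lam) ^ 2 * ε / 2)) := by
  have hlt : ∀ i : Fin M, b * M + i.val < J * M := fun i =>
    calc b * M + i.val < b * M + M := by have := i.2; omega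
      _ = (b + 1) * M := by ring
      _ ≤ J * M := Nat.mul_le_mul_right _ hb
  set g : Fin M → Fin (J * M) := fun i => ⟨b * M + i.val, hlt i⟩ with hg
  have hginj : Function.Injective g := fun i i' h => by
    have := congrArg Fin.val h
    simp only [hg] at this
    exact Fin.ext (by omega)
  set c : ℝ := (|θ| + lam) ^ 2 * σ ^ 2 / 2 with hc
  set F : (Fin (n + 1) → Bool) → ℝ := fun x => s * lam * σ * sgn (x ⟨k, hk⟩) - c with hF
  have hFm : Measurable F := measurable_of_finite _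
  have hi : iIndepFun (fun (i : Fin M) (ω : Fin (J * M) → Fin (n + 1) → Bool) => F (ω (g i)))
      (arrM (J * M) n (θ * σ)) :=
    (iIndepFun_pi (μ := fun _ : Fin (J * M) =>
      Measure.pi fun k : Fin (n + 1) => stepM (if k = 0 then θ * σ else 0))
      (X := fun _ => F) fun _ => hFm.aemeasurable).precomp hginj
  have hv := ville _ (fun i => measurable_of_finite _) hi (fun i => ?_)
    (lam * η - (|θ| + lam) ^ 2 * ε / 2)
  · refine le_trans (measure_mono ?_) (hv.trans (le_of_eq (by congr 2; ring)))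
    rintro ω ⟨j, hj, hω⟩
    refine ⟨j, hj, ?_⟩
    have e := ville_sum_range hj fun i => s * lam * σ * walkA (J * M) n ω k (b * M + i) - c
    have e2 : ∀ i : Fin M, F (ω (g i)) =
        s * lam * σ * walkA (J * M) n ω k (b * M + i.val) - c := fun i => by
      simp only [hF, walkA, hg]
      rw [dif_pos ⟨hlt i, hk⟩]
    simp only [e2]
    rw [e, Finset.sum_sub_distrib, ← Finset.mul_sum]
    rw [← Finset.mul_sum] at hω
    simp only [Finset.sum_const, Finset.card_range, nsmul_eq_mul]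
    have h1 : (j : ℝ) * c ≤ (|θ| + lam) ^ 2 * ε / 2 := by
      have h2 : (j : ℝ) * σ ^ 2 ≤ ε :=
        (mul_le_mul_of_nonneg_right (Nat.cast_le.2 hj) (sq_nonneg σ)).trans hε
      have := mul_le_mul_of_nonneg_left h2 (sq_nonneg (|θ| + lam))
      rw [hc]; linarith only [this]
    have h3 := mul_lt_mul_of_pos_left hω hl
    linarith only [h1, h3]
  · have hp : MeasurePreserving (fun ω : Fin (J * M) → Fin (n + 1) → Bool => ω (g i) ⟨k, hk⟩)
        (arrM (J * M) n (θ * σ))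
        (stepM (if (⟨k, hk⟩ : Fin (n + 1)) = 0 then θ * σ else 0)) :=
      (measurePreserving_eval (fun k : Fin (n + 1) => stepM (if k = 0 then θ * σ else 0))
        ⟨k, hk⟩).comp (measurePreserving_eval (fun _ : Fin (J * M) =>
          Measure.pi fun k : Fin (n + 1) => stepM (if k = 0 then θ * σ else 0)) (g i))
    have h1 := hp.lintegral_comp (f := fun x => ENNReal.ofReal
      (Real.exp (s * lam * σ * sgn x - c))) (measurable_of_finite _)
    refine h1.le.trans (ville_step _ _ _ ?_)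
    rw [hc, ← mul_pow]
    have h2 : |(if (⟨k, hk⟩ : Fin (n + 1)) = 0 then θ * σ else 0)| ≤ |θ| * σ := by
      split_ifs
      · rw [abs_mul, abs_of_nonneg hσ]
      · rw [abs_zero]; positivity
    have h3 : |s * lam * σ| = lam * σ := by
      rw [abs_mul, abs_mul, hs, one_mul, abs_of_pos hl, abs_of_nonneg hσ]
    have h4 := (abs_add_le _ (s * lam * σ)).trans (add_le_add h2 h3.le)
    rw [← add_mul] at h4
    have h5 := sq_le_sq' (abs_le.1 h4).1 (abs_le.1 h4).2
    linarith only [hk, h5]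

/-- Oscillation of the sign walks inside the blocks. -/
theorem osc_walk (J M n : ℕ) (θ σ ε lam η : ℝ) (hσ : 0 ≤ σ) (hε : M * σ ^ 2 ≤ ε) (hl : 0 < lam) :
    arrM (J * M) n (θ * σ) {ω | ∃ k ≤ n, ∃ b < J, ∃ j ≤ M,
        η < |∑ i ∈ Finset.range j, σ * walkA (J * M) n ω k (b * M + i)|} ≤
      ENNReal.ofReal (2 * (n + 1) * J * Real.exp (-(lam * η) + (|θ| + lam) ^ 2 * ε / 2)) := by
  set E : ℝ → ℕ → ℕ → Set (Fin (J * M) → Fin (n + 1) → Bool) := fun s k b => {ω | ∃ j ≤ M,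
    η < s * ∑ i ∈ Finset.range j, σ * walkA (J * M) n ω k (b * M + i)} with hE
  set q := Real.exp (-(lam * η) + (|θ| + lam) ^ 2 * ε / 2) with hq
  have hq0 : 0 ≤ q := (Real.exp_pos _).le
  have hsub : {ω | ∃ k ≤ n, ∃ b < J, ∃ j ≤ M,
      η < |∑ i ∈ Finset.range j, σ * walkA (J * M) n ω k (b * M + i)|} ⊆
      ⋃ k ∈ Finset.range (n + 1), ⋃ b ∈ Finset.range J, (E 1 k b ∪ E (-1) k b) := by
    rintro ω ⟨k, hk, b, hb, j, hj, hω⟩
    refine mem_iUnion₂.2 ⟨k, Finset.mem_range.2 (by omega),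
      mem_iUnion₂.2 ⟨b, Finset.mem_range.2 hb, ?_⟩⟩
    rcases lt_abs.1 hω with h | h
    · exact Or.inl ⟨j, hj, by rwa [one_mul]⟩
    · exact Or.inr ⟨j, hj, by rwa [neg_one_mul]⟩
  refine (measure_mono hsub).trans ((measure_biUnion_finset_le _ _).trans ?_)
  calc _ ≤ ∑ _k ∈ Finset.range (n + 1), ∑ _b ∈ Finset.range J, ENNReal.ofReal (q + q) := by
        refine Finset.sum_le_sum fun k hk => (measure_biUnion_finset_le _ _).trans ?_
        refine Finset.sum_le_sum fun b hb => (measure_union_le _ _).trans ?_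
        rw [ENNReal.ofReal_add hq0 hq0]
        exact add_le_add
          (ville_block J M n θ σ ε lam η hσ hε hl (Finset.mem_range.1 hk) (Finset.mem_range.1 hb)
            abs_one)
          (ville_block J M n θ σ ε lam η hσ hε hl (Finset.mem_range.1 hk) (Finset.mem_range.1 hb)
            (by simp))
    _ = _ := by
        simp only [Finset.sum_const, Finset.card_range, nsmul_eq_mul]
        rw [← ENNReal.ofReal_natCast, ← ENNReal.ofReal_natCast,
          ← ENNReal.ofReal_mul (by positivity), ← ENNReal.ofReal_mul (by positivity)]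
        congr 1
        push_cast
        ring

end Pool.Agent.Work.MP_8495a2_pr
end

-- merged part: Pool.Agent.Work.MP_8495a2_pr.Clt
section
open MeasureTheory ProbabilityTheory Set Filter Topology
open scoped ENNReal NNReal

namespace Pool.Agent.Work.MP_8495a2_pr

theorem Clt_pos {ε : ℝ} (hε : 0 < ε) : ∀ᶠ M : ℕ in atTop, 0 < √(ε / M) := by
  filter_upwards [eventually_gt_atTop 0] with M hM
  positivity

theorem Clt_slope {E : Type} [NormedAddCommGroup E] [NormedSpace ℝ E] {f : ℝ → E} {f' : E}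
    (h : HasDerivAt f f' 0) (h0 : f 0 = 0) {ε : ℝ} (hε : 0 < ε) :
    Tendsto (fun M : ℕ => (√(ε / M))⁻¹ • f √(ε / M)) atTop (𝓝 f') := by
  have h1 : Tendsto (fun M : ℕ => √(ε / M)) atTop (𝓝[≠] 0) := by
    refine tendsto_nhdsWithin_iff.2 ⟨?_, (Clt_pos hε).mono fun M hM => hM.ne'⟩
    simpa using (tendsto_const_div_atTop_nhds_zero_nat ε).sqrt
  simpa [Function.comp_def, h0] using (hasDerivAt_iff_tendsto_slope_zero.1 h).comp h1

theorem Clt_cosh (z : ℂ) {ε : ℝ} (hε : 0 < ε) :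
    Tendsto (fun M : ℕ => Complex.cosh (z * √(ε / M)) ^ M) atTop
      (𝓝 (Complex.exp (ε * z ^ 2 / 2))) := by
  have h1 : HasDerivAt (fun s : ℝ => Complex.sinh (z / 2 * s)) (z / 2) 0 := by
    have h2 : HasDerivAt (fun s : ℂ => Complex.sinh (z / 2 * s)) (z / 2) ((0 : ℝ) : ℂ) := by
      simpa using ((hasDerivAt_id (0 : ℂ)).const_mul (z / 2)).csinh
    exact h2.comp_ofReal
  have h2 := ((Clt_slope h1 (by simp) hε).pow 2).const_mul (2 * (ε : ℂ))
  have h3 : Tendsto (fun M : ℕ => (M : ℂ) * (2 * Complex.sinh (z / 2 * √(ε / M)) ^ 2)) atTop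
      (𝓝 (ε * z ^ 2 / 2)) := by
    rw [show (ε : ℂ) * z ^ 2 / 2 = 2 * ε * (z / 2) ^ 2 by ring]
    refine h2.congr' ?_
    filter_upwards [eventually_gt_atTop 0] with M hM
    have h4 : ((√(ε / M) : ℝ) : ℂ) ^ 2 = ε / M := by
      rw [← Complex.ofReal_pow, Real.sq_sqrt (by positivity)]
      push_cast
      rfl
    have h5 : (ε : ℂ) ≠ 0 := Complex.ofReal_ne_zero.2 hε.ne'
    have h6 : (M : ℂ) ≠ 0 := Nat.cast_ne_zero.2 hM.ne'
    rw [Complex.real_smul, mul_pow, Complex.ofReal_inv, inv_pow, h4]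
    field_simp
  refine (Complex.tendsto_one_add_pow_exp_of_tendsto h3).congr fun M => ?_
  congr 1
  rw [show z * (√(ε / M) : ℝ) = 2 * (z / 2 * (√(ε / M) : ℝ)) by ring, Complex.cosh_two_mul,
    Complex.cosh_sq]
  ring

theorem Clt_cosh' (x : ℝ) {ε : ℝ} (hε : 0 < ε) :
    Tendsto (fun M : ℕ => Real.cosh (x * √(ε / M)) ^ M) atTop
      (𝓝 (Real.exp (ε * x ^ 2 / 2))) := by
  refine tendsto_ofReal_iff.1 ?_
  push_cast
  exact Clt_cosh x hε

theorem Clt_exp (x : ℝ) {ε : ℝ} (hε : 0 < ε) :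
    Tendsto (fun M : ℕ => (√(ε / M))⁻¹ * (1 - Real.exp (-2 * (x * √(ε / M))))) atTop
      (𝓝 (2 * x)) := by
  have h1 : HasDerivAt (fun s : ℝ => 1 - Real.exp (-2 * (x * s))) (2 * x) 0 := by
    simpa using (((hasDerivAt_id (0 : ℝ)).const_mul x).const_mul (-2)).exp.const_sub 1
  exact Clt_slope h1 (by simp) hε

theorem Clt_step (a s : ℝ) :
    ∫ b, Complex.exp (s * sgn b * Complex.I) ∂(stepM a) =
      Complex.cosh (a + s * Complex.I) / Complex.cosh a := by
  have h1 := Real.exp_pos a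
  have h2 := Real.exp_pos (-a)
  have h3 : Complex.exp a + Complex.exp (-a) ≠ 0 := by
    have : ((Real.exp a + Real.exp (-a) : ℝ) : ℂ) ≠ 0 := Complex.ofReal_ne_zero.2 (by positivity)
    simpa using this
  rw [stepM, integral_add_measure
      ((Integrable.of_finite (μ := Measure.dirac true)).smul_measure ENNReal.ofReal_ne_top)
      ((Integrable.of_finite (μ := Measure.dirac false)).smul_measure ENNReal.ofReal_ne_top),
    integral_smul_measure, integral_smul_measure, integral_dirac, integral_dirac,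
    ENNReal.toReal_ofReal (by positivity), ENNReal.toReal_ofReal (by positivity),
    Complex.real_smul, Complex.real_smul, Complex.cosh, Complex.cosh, neg_add, Complex.exp_add,
    Complex.exp_add]
  simp only [sgn, if_true, Bool.false_eq_true, if_false]
  push_cast
  rw [mul_one, mul_neg_one, neg_mul]
  field_simp

theorem Clt_one (θ t : ℝ) {ε : ℝ} (hε : 0 < ε) :
    Tendsto (fun M : ℕ => (Complex.cosh ((θ * √(ε / M) : ℝ) + (t * √(ε / M) : ℝ) * Complex.I) /
      Complex.cosh (θ * √(ε / M) : ℝ)) ^ M) atTop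
      (𝓝 (Complex.exp (t * (θ * ε : ℝ) * Complex.I - ε * t ^ 2 / 2))) := by
  have h1 := (Clt_cosh (θ + t * Complex.I) hε).div (Clt_cosh θ hε) (Complex.exp_ne_zero _)
  rw [← Complex.exp_sub] at h1
  have h2 : (ε : ℂ) * (θ + t * Complex.I) ^ 2 / 2 - ε * θ ^ 2 / 2 =
      t * (θ * ε : ℝ) * Complex.I - ε * t ^ 2 / 2 := by
    push_cast
    linear_combination (ε * t ^ 2 / 2 : ℂ) * Complex.I_sq
  rw [h2] at h1
  refine h1.congr fun M => ?_
  simp only [Pi.div_apply]
  rw [div_pow]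
  push_cast
  congr 3
  ring

theorem Clt_char (J M n : ℕ) (σ a : ℝ) (t : EuclideanSpace ℝ (Fin (n + 1) × Fin J)) :
    charFun ((arrM (J * M) n a).map fun ω => WithLp.toLp 2 (blockS J M n σ ω)) t =
      ∏ w : Fin (n + 1) × Fin J,
        (Complex.cosh ((if w.1 = 0 then a else 0 : ℝ) + (t w * σ : ℝ) * Complex.I) /
          Complex.cosh (if w.1 = 0 then a else 0 : ℝ)) ^ M := by
  have h1 : ∀ ω : Fin (J * M) → Fin (n + 1) → Bool,
      inner ℝ (WithLp.toLp 2 (blockS J M n σ ω) : EuclideanSpace ℝ _) t =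
        ∑ c : Fin (J * M), ∑ k, t (k, (finProdFinEquiv.symm c).1) * σ * sgn (ω c k) := by
    intro ω
    rw [← finProdFinEquiv.sum_comp, Finset.sum_comm, PiLp.inner_apply, Fintype.sum_prod_type]
    refine Finset.sum_congr rfl fun k _ => ?_
    rw [Fintype.sum_prod_type]
    refine Finset.sum_congr rfl fun j _ => ?_
    simp only [Equiv.symm_apply_apply, ← Finset.mul_sum, blockS, RCLike.inner_apply, conj_trivial]
    rw [mul_assoc, Finset.sum_range]
    congr 2
    refine Finset.sum_congr rfl fun i _ => ?_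
    have h2 : (j : ℕ) * M + i = (finProdFinEquiv (j, i) : Fin (J * M)) := by
      rw [finProdFinEquiv_apply_val, add_comm, mul_comm]
    simp only [walkA, h2, Fin.is_lt, and_self, dif_pos, Fin.eta]
  rw [charFun_apply, integral_map (measurable_of_countable _).aemeasurable
    (Continuous.aestronglyMeasurable (by fun_prop))]
  simp only [h1, Complex.ofReal_sum, Finset.sum_mul, Complex.exp_sum]
  rw [arrM, integral_fintype_prod_eq_prod fun (c : Fin (J * M)) (v : Fin (n + 1) → Bool) =>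
    ∏ k, Complex.exp ((t (k, (finProdFinEquiv.symm c).1) * σ * sgn (v k) : ℝ) * Complex.I)]
  have h3 : ∀ j : Fin J, ∫ v : Fin (n + 1) → Bool,
      ∏ k, Complex.exp ((t (k, j) * σ * sgn (v k) : ℝ) * Complex.I)
        ∂(Measure.pi fun k => stepM (if k = 0 then a else 0)) =
      ∏ k : Fin (n + 1),
        Complex.cosh ((if k = 0 then a else 0 : ℝ) + (t (k, j) * σ : ℝ) * Complex.I) /
          Complex.cosh (if k = 0 then a else 0 : ℝ) := by
    intro j
    rw [integral_fintype_prod_eq_prod fun (k : Fin (n + 1)) (b : Bool) =>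
      Complex.exp ((t (k, j) * σ * sgn b : ℝ) * Complex.I)]
    refine Finset.prod_congr rfl fun k _ => ?_
    rw [← Clt_step]
    simp only [Complex.ofReal_mul]
  simp only [h3]
  rw [← finProdFinEquiv.prod_comp, Fintype.prod_prod_type, Fintype.prod_prod_type_right]
  refine Finset.prod_congr rfl fun j _ => ?_
  simp only [Equiv.symm_apply_apply, Finset.prod_const, Finset.card_univ, Fintype.card_fin,
    Finset.prod_pow]

/-- Central limit theorem for the block sums. -/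
theorem clt_blocks (J n : ℕ) (θ : ℝ) {ε : ℝ} (hε : 0 < ε) (ψ : (Fin (n + 1) × Fin J → ℝ) → ℝ)
    (hψ : Continuous ψ) {C : ℝ} (hC : ∀ z, |ψ z| ≤ C) :
    Tendsto (fun M : ℕ => ∫ ω, ψ (blockS J M n √(ε / M) ω) ∂(arrM (J * M) n (θ * √(ε / M))))
      atTop (𝓝 (∫ z, ψ (fun w => z w + if w.1 = 0 then θ * ε else 0)
        ∂(Measure.pi fun _ : Fin (n + 1) × Fin J => gaussianReal 0 ε.toNNReal))) := by
  let m : Fin (n + 1) × Fin J → ℝ := fun w => if w.1 = 0 then θ * ε else 0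
  let ν : Measure (Fin (n + 1) × Fin J → ℝ) := Measure.pi fun w => gaussianReal (m w) ε.toNNReal
  have hν : ν = (Measure.pi fun _ : Fin (n + 1) × Fin J => gaussianReal 0 ε.toNNReal).map
      fun z w => z w + m w := by
    rw [Measure.pi_map_pi (f := fun w x => x + m w) fun w => (measurable_add_const _).aemeasurable]
    simp only [gaussianReal_map_add_const, zero_add, ν]
  have hL : Measurable (WithLp.toLp 2 : (Fin (n + 1) × Fin J → ℝ) → EuclideanSpace ℝ _) :=
    (MeasurableEquiv.toLp 2 _).measurable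
  let μ₀ : ProbabilityMeasure (EuclideanSpace ℝ (Fin (n + 1) × Fin J)) :=
    ⟨ν.map (WithLp.toLp 2), Measure.isProbabilityMeasure_map hL.aemeasurable⟩
  let μ : ℕ → ProbabilityMeasure (EuclideanSpace ℝ (Fin (n + 1) × Fin J)) := fun M =>
    ⟨(arrM (J * M) n (θ * √(ε / M))).map fun ω => WithLp.toLp 2 (blockS J M n √(ε / M) ω),
      Measure.isProbabilityMeasure_map (measurable_of_countable _).aemeasurable⟩
  have h1 : Tendsto μ atTop (𝓝 μ₀) := by
    refine ProbabilityMeasure.tendsto_of_tendsto_charFun fun t => ?_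
    simp only [μ, μ₀, ν, ProbabilityMeasure.coe_mk, Clt_char, charFun_pi]
    refine tendsto_finsetProd _ fun w _ => ?_
    have h2 := Clt_one (if w.1 = 0 then θ else 0) (t w) hε
    rw [charFun_gaussianReal, Real.coe_toNNReal _ hε.le]
    simpa only [m, ite_mul, zero_mul] using h2
  have hc : Continuous fun x : EuclideanSpace ℝ (Fin (n + 1) × Fin J) => ψ x.ofLp :=
    hψ.comp (PiLp.continuous_ofLp 2 _)
  have h3 := ProbabilityMeasure.tendsto_iff_forall_integral_tendsto.1 h1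
    (BoundedContinuousFunction.ofNormedAddCommGroup _ hc C fun x => hC _)
  simp only [μ, μ₀, ProbabilityMeasure.coe_mk,
    BoundedContinuousFunction.coe_ofNormedAddCommGroup] at h3
  rw [integral_map hL.aemeasurable hc.aestronglyMeasurable, hν,
    integral_map (measurable_pi_lambda _ fun w => (measurable_pi_apply w).add_const _).aemeasurable
      hψ.aestronglyMeasurable] at h3
  refine h3.congr fun M => ?_
  rw [integral_map (measurable_of_countable _).aemeasurable hc.aestronglyMeasurable]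

theorem Phi_tendsto (n : ℕ) {T θ' θ : ℝ} (hT : 0 < T) (hθ' : 0 < θ') (hθ : 0 < θ) :
    Tendsto (fun m : ℕ => Phi m n (θ' * √(T / m)) (θ * √(T / m))) atTop
      (𝓝 (Real.exp (In n T θ' θ))) := by
  have h1 := (Clt_cosh' θ hT).div (Clt_cosh' θ' hT) (Real.exp_pos _).ne'
  have h2 := ((Clt_exp θ hT).div (Clt_exp θ' hT) (by positivity)).pow n
  have h3 : Real.exp (In n T θ' θ) =
      Real.exp (T * θ ^ 2 / 2) / Real.exp (T * θ' ^ 2 / 2) * (2 * θ / (2 * θ')) ^ n := by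
    rw [In, Real.exp_add, Real.exp_nat_mul, Real.exp_log (by positivity), ← Real.exp_sub,
      mul_div_mul_left _ _ two_ne_zero]
    congr 2
    ring
  rw [h3]
  refine (h1.mul h2).congr' ?_
  filter_upwards [Clt_pos hT] with m hm
  simp only [Phi, Pi.div_apply]
  rw [mul_div_mul_left _ _ (inv_ne_zero hm.ne'), div_pow (Real.cosh _)]

end Pool.Agent.Work.MP_8495a2_pr
end

-- merged part: Pool.Agent.Work.MP_8495a2_pr.Transfer
section
open MeasureTheory ProbabilityTheory Set Filter Topology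
open scoped ENNReal NNReal

namespace Pool.Agent.Work.MP_8495a2_pr

variable {Ω : Type*} [MeasurableSpace Ω] {P : Measure Ω} [IsProbabilityMeasure P]
  {B : ℕ → ℝ → Ω → ℝ}

omit [IsProbabilityMeasure P] in
theorem Tr_cont (hB : IsBMFamily P B) (θ : ℝ) (ω : Ω) (i : ℕ) :
    Continuous (drift θ (path B ω) i) := by
  refine (hB.cont i ω).add ?_
  split_ifs <;> fun_prop

theorem measurable_lp_drift (hB : IsBMFamily P B) (θ : ℝ) (n : ℕ) (x y : ℝ) :
    Measurable fun ω => lp (drift θ (path B ω)) n x y :=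
  measurable_lp (X := fun i t ω => B i t ω + if i = 0 then θ * t else 0)
    (fun i _ t => (hB.meas i t).add_const _) (fun i ω => Tr_cont hB θ ω i) x y

/-- The last passage value of a finite array of increments. -/
noncomputable def Tr_psi (n J : ℕ) (z : Fin (n + 1) × Fin J → ℝ) : ℝ :=
  lp (stepF (ext (n + 1) J z)) n 0 J

theorem Tr_sh0 (f : ℕ → ℝ → ℝ) : sh 0 f = f := by
  funext i
  simp [sh]

theorem Tr_psi_cont (n J : ℕ) : Continuous (Tr_psi n J) := by
  have h := continuous_lp_ext (n + 1) J 0 n 0 J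
  simp only [Tr_sh0, Nat.cast_zero] at h
  exact h

theorem Tr_ext (n J : ℕ) (A : ℕ → ℕ → ℝ) :
    lp (stepF A) n 0 J = Tr_psi n J fun w => A w.1 w.2 := by
  have h := lp_stepF_ext (n := n) A (N := n + 1) (J := J) (a := 0) (p := 0) (q := J) (by omega)
    le_rfl
  simp only [Tr_sh0, Nat.cast_zero] at h
  exact h

theorem Tr_block (J M n : ℕ) (hM : 1 ≤ M) {σ η : ℝ} (hσ : 0 ≤ σ) (hη : 0 ≤ η)
    (ω : Fin (J * M) → Fin (n + 1) → Bool)
    (h : ∀ k ≤ n, ∀ b < J, ∀ j ≤ M,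
      |∑ i ∈ Finset.range j, σ * walkA (J * M) n ω k (b * M + i)| ≤ η) :
    |σ * Xd (J * M) n ω - Tr_psi n J (blockS J M n σ ω)| ≤ 2 * (n + 1) * η := by
  have h1 := lp_block_compare (n := n) (fun k i => σ * walkA (J * M) n ω k i) hM h hη
  rw [Tr_ext n J] at h1
  have e1 : σ * Xd (J * M) n ω =
      lp (stepF fun k i => σ * walkA (J * M) n ω k i) n 0 ((J * M : ℕ) : ℝ) := by
    rw [Xd, ← lp_smul hσ]
    congr 1
    funext i t
    simp only [stepF, Finset.mul_sum]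
  have e2 : blockS J M n σ ω = fun w : Fin (n + 1) × Fin J =>
      ∑ i ∈ Finset.range M, σ * walkA (J * M) n ω w.1 (w.2 * M + i) := by
    funext w
    simp only [blockS, Finset.mul_sum]
  rw [e1, e2]
  exact h1

theorem Tr_int {α : Type*} [MeasurableSpace α] [MeasurableSingletonClass α] [Finite α]
    (μ : Measure α) [IsProbabilityMeasure μ] (u v : α → ℝ) (E : Set α) {a b : ℝ} (ha : 0 ≤ a)
    (h1 : ∀ ω ∉ E, |u ω - v ω| ≤ a) (h2 : ∀ ω, |u ω - v ω| ≤ b) :
    |∫ ω, u ω ∂μ - ∫ ω, v ω ∂μ| ≤ a + b * μ.real E := by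
  have hE : MeasurableSet E := E.toFinite.measurableSet
  rw [← integral_sub Integrable.of_finite Integrable.of_finite]
  refine abs_integral_le_integral_abs.trans ((integral_mono (g := fun ω => a + E.indicator
    (fun _ => b) ω) Integrable.of_finite Integrable.of_finite fun ω => ?_).trans (le_of_eq ?_))
  · by_cases hω : ω ∈ E
    · simp only [indicator_of_mem hω]
      linarith [h2 ω]
    · simp only [indicator_of_notMem hω]
      linarith [h1 ω hω]
  · rw [integral_add Integrable.of_finite Integrable.of_finite, integral_const,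
      integral_indicator_const _ hE]
    simp [mul_comm]

theorem Tr_grid (θ ε : ℝ) (f : ℕ → ℝ → ℝ) (n J : ℕ) :
    lp (stepF (grid (drift θ f) 0 ε)) n 0 J =
      Tr_psi n J fun w => grid f 0 ε w.1 w.2 + if w.1 = 0 then θ * ε else 0 := by
  rw [Tr_ext]
  congr 1
  funext w
  simp only [grid, drift, Fin.val_eq_zero_iff]
  split_ifs <;> ring

theorem Tr_shift (n J : ℕ) (c : ℝ) :
    Continuous fun (z : Fin (n + 1) × Fin J → ℝ) (w : Fin (n + 1) × Fin J) =>
      z w + if w.1 = 0 then c else 0 :=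
  continuous_pi fun w => (continuous_apply w).add continuous_const

theorem Tr_gauss (hB : IsBMFamily P B) (n J : ℕ) (θ : ℝ) {ε : ℝ} (hε : 0 ≤ ε) {φ : ℝ → ℝ}
    (hφ : Continuous φ) :
    ∫ z, φ (Tr_psi n J fun w => z w + if w.1 = 0 then θ * ε else 0)
        ∂(Measure.pi fun _ : Fin (n + 1) × Fin J => gaussianReal 0 ε.toNNReal) =
      ∫ ω, φ (lp (stepF (grid (drift θ (path B ω)) 0 ε)) n 0 J) ∂P := by
  rw [← hB.grid_law (n + 1) J 0 hε]
  simp only [Tr_grid]
  exact integral_map (BM_grid hB _ _ _ _).aemeasurable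
    (hφ.comp ((Tr_psi_cont n J).comp (Tr_shift n J (θ * ε)))).aestronglyMeasurable

theorem Tr_lim (hB : IsBMFamily P B) (n : ℕ) (θ : ℝ) {T : ℝ} (hT : 0 < T) {φ : ℝ → ℝ}
    (hφ : Continuous φ) {C : ℝ} (hC : ∀ z, |φ z| ≤ C) :
    Tendsto (fun L : ℕ => ∫ ω, φ (lp (stepF (grid (drift θ (path B ω)) 0
      (T / (((L + 1) ^ 2 : ℕ) : ℝ)))) n 0 (((L + 1) ^ 2 : ℕ) : ℝ)) ∂P) atTop
      (𝓝 (∫ ω, φ (lp (drift θ (path B ω)) n 0 T) ∂P)) := by
  have hp : ∀ L : ℕ, (0 : ℝ) < (((L + 1) ^ 2 : ℕ) : ℝ) := fun L => by positivity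
  have h0 : Tendsto (fun L : ℕ => T / (((L + 1) ^ 2 : ℕ) : ℝ)) atTop (𝓝 0) :=
    tendsto_const_nhds.div_atTop (tendsto_natCast_atTop_atTop.comp
      (tendsto_atTop_mono (fun L => (Nat.le_succ L).trans (Nat.le_self_pow two_ne_zero _))
        tendsto_id))
  refine tendsto_integral_of_dominated_convergence (fun _ => C) (fun L => ?_) (integrable_const C)
    (fun L => ae_of_all _ fun ω => hC _) (ae_of_all _ fun ω => ?_)
  · simp only [Tr_grid]
    exact ((hφ.comp ((Tr_psi_cont n _).comp (Tr_shift n _ _))).measurable.comp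
      (BM_grid hB _ _ _ _)).aestronglyMeasurable
  · have h := lp_grid_tendsto (Tr_cont hB θ ω) n (x0 := 0) (x := 0) (y := T) le_rfl hT.le
      (fun L => div_pos hT (hp L)) h0
    refine (hφ.tendsto _).comp (h.congr fun L => ?_)
    rw [sub_zero, sub_zero, zero_div, Nat.floor_zero, Nat.cast_zero, div_div_cancel₀ hT.ne',
      Nat.floor_natCast]

theorem Tr_small (n : ℕ) (θ : ℝ) {T η : ℝ} (hT : 0 < T) (hη : 0 < η) :
    Tendsto (fun L : ℕ => 2 * ((n : ℝ) + 1) * (((L + 1) ^ 2 : ℕ) : ℝ) *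
      Real.exp (-(((L : ℝ) + 1) * η) +
        (|θ| + ((L : ℝ) + 1)) ^ 2 * (T / (((L + 1) ^ 2 : ℕ) : ℝ)) / 2)) atTop (𝓝 0) := by
  have h1 : Tendsto (fun L : ℕ => ((L : ℝ) + 1) * η) atTop atTop :=
    (tendsto_atTop_add_const_right _ 1 tendsto_natCast_atTop_atTop).atTop_mul_const hη
  have h2 := ((Real.tendsto_pow_mul_exp_neg_atTop_nhds_zero 2).comp h1).const_mul
    (2 * ((n : ℝ) + 1) * Real.exp ((|θ| + 1) ^ 2 * T / 2) / η ^ 2)
  rw [mul_zero] at h2
  refine squeeze_zero (fun L => by positivity) (fun L => ?_) h2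
  have hL : (0 : ℝ) < (L : ℝ) + 1 := by positivity
  have h3 : (|θ| + ((L : ℝ) + 1)) ^ 2 * (T / (((L + 1) ^ 2 : ℕ) : ℝ)) / 2 ≤
      (|θ| + 1) ^ 2 * T / 2 := by
    have h4 : |θ| + ((L : ℝ) + 1) ≤ (|θ| + 1) * ((L : ℝ) + 1) := by
      have := mul_nonneg (abs_nonneg θ) (Nat.cast_nonneg (α := ℝ) L)
      linarith
    have h5 := pow_le_pow_left₀ (by positivity) h4 2
    have h6 := mul_le_mul_of_nonneg_right h5 (by positivity : 0 ≤ T / ((L : ℝ) + 1) ^ 2)
    have h7 : ((|θ| + 1) * ((L : ℝ) + 1)) ^ 2 * (T / ((L : ℝ) + 1) ^ 2) = (|θ| + 1) ^ 2 * T := by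
      field_simp
    push_cast
    linarith only [h6, h7]
  have h8 := Real.exp_le_exp.2 (add_le_add (le_refl (-(((L : ℝ) + 1) * η))) h3)
  refine (mul_le_mul_of_nonneg_left h8 (by positivity)).trans (le_of_eq ?_)
  simp only [Function.comp, Real.exp_add]
  push_cast
  field_simp

/-- Invariance principle for the last passage value along a sequence of sizes. -/
theorem transfer (hB : IsBMFamily P B) (n : ℕ) (θ : ℝ) {T : ℝ} (hT : 0 < T) (φ : ℝ → ℝ)
    {K : ℝ≥0} (hφ : LipschitzWith K φ) {C : ℝ} (hC : ∀ z, |φ z| ≤ C) {η : ℝ} (hη : 0 < η) :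
    ∃ᶠ m : ℕ in atTop, |∫ ω, φ (√(T / m) * Xd m n ω) ∂(arrM m n (θ * √(T / m))) -
      ∫ ω, φ (lp (drift θ (path B ω)) n 0 T) ∂P| ≤ η := by
  have hC0 : 0 ≤ C := (abs_nonneg _).trans (hC 0)
  have hK : (0 : ℝ) ≤ K := K.2
  obtain ⟨η0, hη0, hKη⟩ : ∃ η0 : ℝ, 0 < η0 ∧ K * (2 * (n + 1) * η0) ≤ η / 4 := by
    refine ⟨η / (8 * (n + 1) * (K + 1)), by positivity, ?_⟩
    have e : (K : ℝ) * (2 * (n + 1) * (η / (8 * (n + 1) * (K + 1)))) = η / 4 * (K / (K + 1)) := by
      field_simp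
      ring
    rw [e]
    exact mul_le_of_le_one_right (by positivity) ((div_le_one (by positivity)).2 (by linarith only []))
  have h4 : 0 < η / 4 := by positivity
  have hA := Metric.tendsto_nhds.1 (Tr_lim hB n θ hT hφ.continuous hC) _ h4
  have hS := (Tr_small n θ hT hη0).const_mul (2 * C)
  rw [mul_zero] at hS
  obtain ⟨L, hL1, hL2⟩ := (hA.and (hS.eventually (gt_mem_nhds h4))).exists
  generalize hJ : (L + 1) ^ 2 = J at hL1 hL2
  have hJ0 : 0 < J := hJ ▸ by positivity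
  have hJ1 : (0 : ℝ) < J := Nat.cast_pos.2 hJ0
  have hε : 0 < T / J := div_pos hT hJ1
  have hD := Metric.tendsto_nhds.1 (clt_blocks J n θ hε (fun z => φ (Tr_psi n J z))
    (hφ.continuous.comp (Tr_psi_cont n J)) (fun z => hC _)) _ h4
  rw [Tr_gauss hB n J θ hε.le hφ.continuous] at hD
  refine frequently_atTop.2 fun a => ?_
  obtain ⟨M, hM1, hM2, hM3⟩ := (hD.and ((eventually_ge_atTop a).and (eventually_ge_atTop 1))).exists
  refine ⟨J * M, hM2.trans (Nat.le_mul_of_pos_left M hJ0), ?_⟩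
  have hM0 : (0 : ℝ) < M := Nat.cast_pos.2 hM3
  have e : T / ((J * M : ℕ) : ℝ) = T / J / M := by rw [Nat.cast_mul, div_div]
  rw [e]
  have hσ : 0 ≤ √(T / J / M) := Real.sqrt_nonneg _
  have ho := osc_walk J M n θ (√(T / J / M)) (T / J) ((L : ℝ) + 1) η0 hσ
    (by rw [Real.sq_sqrt (by positivity), mul_div_cancel₀ _ hM0.ne']) (by positivity)
  have hi := Tr_int (arrM (J * M) n (θ * √(T / J / M)))
    (fun ω => φ (√(T / J / M) * Xd (J * M) n ω))
    (fun ω => φ (Tr_psi n J (blockS J M n (√(T / J / M)) ω)))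
    {ω | ∃ k ≤ n, ∃ b < J, ∃ j ≤ M,
      η0 < |∑ i ∈ Finset.range j, √(T / J / M) * walkA (J * M) n ω k (b * M + i)|}
    (a := η / 4) (b := 2 * C) h4.le (fun ω hω => ?_) fun ω => ?_
  · have h5 := mul_le_mul_of_nonneg_left (ENNReal.toReal_le_of_le_ofReal (by positivity) ho)
      (by positivity : 0 ≤ 2 * C)
    rw [Real.dist_eq] at hL1 hM1
    rw [measureReal_def] at hi
    have h6 := abs_lt.1 hL1
    have h7 := abs_lt.1 hM1
    have h8 := abs_le.1 hi
    exact abs_le.2 ⟨by linarith only [hL2, h5, h6, h7, h8, h6.1, h7.1, h8.1], by linarith only [hL2, h5, h6, h7, h8, h6.2, h7.2, h8.2]⟩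
  · have h5 := Tr_block J M n hM3 hσ hη0.le ω fun k hk b hb j hj =>
      not_lt.1 fun h => hω ⟨k, hk, b, hb, j, hj, h⟩
    have h6 := hφ.dist_le_mul (√(T / J / M) * Xd (J * M) n ω)
      (Tr_psi n J (blockS J M n (√(T / J / M)) ω))
    rw [Real.dist_eq, Real.dist_eq] at h6
    exact h6.trans ((mul_le_mul_of_nonneg_left h5 hK).trans hKη)
  · exact (abs_sub _ _).trans ((add_le_add (hC _) (hC _)).trans (two_mul C).ge)

end Pool.Agent.Work.MP_8495a2_pr
end

-- merged part: Pool.Agent.Work.MP_8495a2_pr.Burke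
section
open MeasureTheory ProbabilityTheory Set Filter Topology
open scoped ENNReal NNReal

namespace Pool.Agent.Work.MP_8495a2_pr

/-- The weights of the geometric law. -/
noncomputable def geoW (a : ℝ) (j : ℕ) : ℝ≥0∞ :=
  ENNReal.ofReal ((1 - Real.exp (-2 * a)) * Real.exp (-2 * a) ^ j)

theorem lintegral_geoM (a : ℝ) (f : ℕ → ℝ≥0∞) : ∫⁻ j, f j ∂geoM a = ∑' j, geoW a j * f j := by
  unfold geoM
  rw [lintegral_sum_measure]
  refine tsum_congr fun j => ?_
  rw [lintegral_smul_measure, lintegral_dirac]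
  rfl

theorem geo_tsum {c r : ℝ} (hc : 0 ≤ c) (h0 : 0 ≤ r) (h1 : r < 1) :
    ∑' j : ℕ, ENNReal.ofReal (c * r ^ j) = ENNReal.ofReal (c / (1 - r)) := by
  rw [← ENNReal.ofReal_tsum_of_nonneg (fun j => by positivity)
    ((summable_geometric_of_lt_one h0 h1).mul_left c), tsum_mul_left,
    tsum_geometric_of_lt_one h0 h1, div_eq_mul_inv]

theorem exp_neg_two_lt_one {a : ℝ} (ha : 0 < a) : Real.exp (-2 * a) < 1 :=
  Real.exp_lt_one_iff.2 (by linarith)

theorem geoM_prob {a : ℝ} (ha : 0 < a) : IsProbabilityMeasure (geoM a) := by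
  constructor
  have h := lintegral_geoM a (fun _ => 1)
  rw [lintegral_one] at h
  rw [h]
  simp only [mul_one, geoW]
  have h1 := exp_neg_two_lt_one ha
  rw [geo_tsum (by linarith) (Real.exp_pos _).le h1, div_self (by linarith), ENNReal.ofReal_one]

instance geoM_sigmaFinite (a : ℝ) : SigmaFinite (geoM a) := by
  refine Measure.sigmaFinite_of_countable (S := range fun j : ℕ => ({j} : Set ℕ))
    (countable_range _) ?_ ?_
  · rintro s ⟨j, rfl⟩
    have h := lintegral_geoM a (indicator {j} 1)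
    rw [lintegral_indicator_one (measurableSet_singleton j)] at h
    rw [h, tsum_eq_single j]
    · simp [geoW]
    · intro i hi
      simp [hi]
  · ext x
    simp

theorem lintegral_stepM (a : ℝ) (f : Bool → ℝ≥0∞) : ∫⁻ b, f b ∂stepM a =
    ENNReal.ofReal (Real.exp a / (Real.exp a + Real.exp (-a))) * f true +
      ENNReal.ofReal (Real.exp (-a) / (Real.exp a + Real.exp (-a))) * f false := by
  unfold stepM
  rw [lintegral_add_measure, lintegral_smul_measure, lintegral_smul_measure, lintegral_dirac,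
    lintegral_dirac]
  rfl

theorem lintegral_pi_succ {α : Type*} [MeasurableSpace α] [Countable α]
    [MeasurableSingletonClass α] {n : ℕ} (μ : Fin (n + 1) → Measure α) [∀ i, SigmaFinite (μ i)]
    (F : (Fin (n + 1) → α) → ℝ≥0∞) :
    ∫⁻ x, F x ∂Measure.pi μ =
      ∫⁻ a, ∫⁻ y : Fin n → α, F (Fin.cons a y) ∂Measure.pi (fun i => μ i.succ) ∂μ 0 := by
  have h := (measurePreserving_piFinSuccAbove μ 0).symm
  rw [← h.lintegral_comp (measurable_of_countable F),
    lintegral_prod _ (measurable_of_countable _).aemeasurable]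
  refine lintegral_congr fun a => ?_
  simp only [Fin.succAbove_zero]
  refine lintegral_congr fun y => ?_
  congr 1
  simp [MeasurableEquiv.piFinSuccAbove_symm_apply, Fin.insertNthEquiv, Fin.insertNth_zero']

theorem lintegral_pi_zero {α : Type*} [MeasurableSpace α] (μ : Fin 0 → Measure α)
    [∀ i, SigmaFinite (μ i)] (F : (Fin 0 → α) → ℝ≥0∞) (x0 : Fin 0 → α) :
    ∫⁻ x, F x ∂Measure.pi μ = F x0 := by
  have h : F = fun _ => F x0 := funext fun x => by rw [Subsingleton.elim x x0]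
  rw [h, lintegral_const, Measure.pi_univ]
  simp

/-- The new gap of a cell. -/
def cellJ (J : ℕ) (I ξ : Bool) : ℕ := J + ξ.toNat - I.toNat

/-- The new horizontal bit of a cell. -/
def cellI (J : ℕ) (I ξ : Bool) : Bool := ξ || (I && decide (J = 0))

/-- The gaps after one column. -/
def colStep : (n : ℕ) → (Fin n → ℕ) → Bool → (Fin n → Bool) → (Fin n → ℕ)
  | 0, J, _, _ => J
  | n + 1, J, I, ξ => Fin.cons (cellJ (J 0) I (ξ 0))
      (colStep n (Fin.tail J) (cellI (J 0) I (ξ 0)) (Fin.tail ξ))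

theorem cell_abs (P Q h : ℝ≥0∞) (G : ℕ → ℝ≥0∞) (hh : h + h = 1) (hG : ∀ j, P * G (j + 1) = Q * G j)
    (K : ℕ → Bool → ℝ≥0∞) :
    P * ∑' j, G j * (h * K (cellJ j true true) (cellI j true true) +
        h * K (cellJ j true false) (cellI j true false)) +
      Q * ∑' j, G j * (h * K (cellJ j false true) (cellI j false true) +
        h * K (cellJ j false false) (cellI j false false)) =
      ∑' j, G j * (P * K j true + Q * K j false) := by
  obtain ⟨A, hA⟩ : ∃ A, A = ∑' j, G j * K j true := ⟨_, rfl⟩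
  obtain ⟨B, hB⟩ : ∃ B, B = ∑' j, G j * K j false := ⟨_, rfl⟩
  obtain ⟨A1, hA1⟩ : ∃ A1, A1 = ∑' j, G (j + 1) * K (j + 1) true := ⟨_, rfl⟩
  have e0 : A = G 0 * K 0 true + A1 := by
    rw [hA, hA1]
    exact tsum_eq_zero_add' ENNReal.summable
  have e1 : ∑' j, G j * (h * K (cellJ j true true) (cellI j true true) +
      h * K (cellJ j true false) (cellI j true false)) =
      h * A + h * (G 0 * K 0 true + ∑' j, G (j + 1) * K j false) := by
    have e : ∑' j, G j * K (cellJ j true false) (cellI j true false) =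
        G 0 * K 0 true + ∑' j, G (j + 1) * K j false := by
      rw [tsum_eq_zero_add' ENNReal.summable]
      simp [cellJ, cellI]
    rw [← e, hA, ← ENNReal.tsum_mul_left, ← ENNReal.tsum_mul_left, ← ENNReal.tsum_add]
    refine tsum_congr fun j => ?_
    have c1 : cellJ j true true = j := by simp [cellJ]
    have c2 : cellI j true true = true := by simp [cellI]
    rw [c1, c2]
    ring
  have e2 : ∑' j, G j * (h * K (cellJ j false true) (cellI j false true) +
      h * K (cellJ j false false) (cellI j false false)) =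
      h * (∑' j, G j * K (j + 1) true) + h * B := by
    rw [hB, ← ENNReal.tsum_mul_left, ← ENNReal.tsum_mul_left, ← ENNReal.tsum_add]
    refine tsum_congr fun j => ?_
    have c1 : cellJ j false true = j + 1 := by simp [cellJ]
    have c2 : cellI j false true = true := by simp [cellI]
    have c3 : cellJ j false false = j := by simp [cellJ]
    have c4 : cellI j false false = false := by simp [cellI]
    rw [c1, c2, c3, c4]
    ring
  have e3 : P * ∑' j, G (j + 1) * K j false = Q * B := by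
    rw [hB, ← ENNReal.tsum_mul_left, ← ENNReal.tsum_mul_left]
    refine tsum_congr fun j => ?_
    rw [← mul_assoc, hG, mul_assoc]
  have e4 : Q * ∑' j, G j * K (j + 1) true = P * A1 := by
    rw [hA1, ← ENNReal.tsum_mul_left, ← ENNReal.tsum_mul_left]
    refine tsum_congr fun j => ?_
    rw [← mul_assoc, ← hG, mul_assoc]
  have e5 : ∑' j, G j * (P * K j true + Q * K j false) = P * A + Q * B := by
    rw [hA, hB, ← ENNReal.tsum_mul_left, ← ENNReal.tsum_mul_left, ← ENNReal.tsum_add]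
    refine tsum_congr fun j => ?_
    ring
  rw [e1, e2, e5]
  calc P * (h * A + h * (G 0 * K 0 true + ∑' j, G (j + 1) * K j false)) +
        Q * (h * (∑' j, G j * K (j + 1) true) + h * B)
      = h * (P * A) + h * (P * (G 0 * K 0 true)) + h * (P * ∑' j, G (j + 1) * K j false) +
        h * (Q * ∑' j, G j * K (j + 1) true) + h * (Q * B) := by ring
    _ = h * (P * A) + h * (P * (G 0 * K 0 true + A1)) + h * (Q * B) + h * (Q * B) := by
        rw [e3, e4]; ring
    _ = (h + h) * (P * A + Q * B) := by rw [← e0]; ring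
    _ = P * A + Q * B := by rw [hh, one_mul]

theorem cell_inv {a : ℝ} (ha : 0 < a) (K : ℕ → Bool → ℝ≥0∞) :
    ∫⁻ I, ∫⁻ j, ∫⁻ ξ, K (cellJ j I ξ) (cellI j I ξ) ∂stepM 0 ∂geoM a ∂stepM a =
      ∫⁻ j, ∫⁻ I, K j I ∂stepM a ∂geoM a := by
  simp only [lintegral_stepM, lintegral_geoM, neg_zero]
  have h1 := exp_neg_two_lt_one ha
  have h2 := Real.exp_pos a
  have h3 := Real.exp_pos (-a)
  have h4 := Real.exp_pos (-2 * a)
  refine cell_abs _ _ _ _ ?_ ?_ K
  · rw [← ENNReal.ofReal_add (by positivity) (by positivity), ← add_div, div_self (by positivity),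
      ENNReal.ofReal_one]
  · intro j
    unfold geoW
    rw [← ENNReal.ofReal_mul (by positivity), ← ENNReal.ofReal_mul (by positivity)]
    congr 1
    have e : Real.exp (-a) = Real.exp a * Real.exp (-2 * a) := by
      rw [← Real.exp_add]; congr 1; ring
    rw [pow_succ]
    nth_rewrite 2 [e]
    ring

theorem col_inv {a : ℝ} (ha : 0 < a) : ∀ (n : ℕ) (H : (Fin n → ℕ) → ℝ≥0∞),
    ∫⁻ I, ∫⁻ J, ∫⁻ ξ, H (colStep n J I ξ) ∂(Measure.pi fun _ => stepM 0)
      ∂(Measure.pi fun _ => geoM a) ∂stepM a = ∫⁻ J, H J ∂(Measure.pi fun _ => geoM a)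
  | 0, H => by
    simp only [colStep, lintegral_const, measure_univ, mul_one]
  | n + 1, H => by
    set K : ℕ → Bool → ℝ≥0∞ := fun j b => ∫⁻ J, ∫⁻ ξ, H (Fin.cons j (colStep n J b ξ))
      ∂(Measure.pi fun _ => stepM 0) ∂(Measure.pi fun _ => geoM a) with hK
    have e1 : ∀ I, ∫⁻ J, ∫⁻ ξ, H (colStep (n + 1) J I ξ) ∂(Measure.pi fun _ => stepM 0)
        ∂(Measure.pi fun _ => geoM a) =
        ∫⁻ j, ∫⁻ ξ, K (cellJ j I ξ) (cellI j I ξ) ∂stepM 0 ∂geoM a := by
      intro I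
      rw [lintegral_pi_succ]
      refine lintegral_congr fun j => ?_
      simp only [lintegral_pi_succ (n := n) (fun _ => stepM 0)]
      rw [lintegral_lintegral_swap (measurable_of_countable _).aemeasurable]
      simp only [colStep, Fin.cons_zero, Fin.tail_cons, hK]
    simp only [e1]
    rw [cell_inv ha, lintegral_pi_succ]
    refine lintegral_congr fun j => ?_
    exact col_inv ha n fun J => H (Fin.cons j J)

theorem tilt (a a' : ℝ) (K : Bool → ℝ≥0∞) :
    ∫⁻ I, ENNReal.ofReal (Real.exp ((a - a') * (2 * (I.toNat : ℝ) - 1))) * K I ∂stepM a' =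
      ENNReal.ofReal (Real.cosh a / Real.cosh a') * ∫⁻ I, K I ∂stepM a := by
  simp only [lintegral_stepM, Real.cosh_eq]
  have h1 := Real.exp_pos a
  have h2 := Real.exp_pos (-a)
  have h3 := Real.exp_pos a'
  have h4 := Real.exp_pos (-a')
  rw [mul_add, ← mul_assoc, ← mul_assoc, ← mul_assoc, ← mul_assoc,
    ← ENNReal.ofReal_mul (by positivity), ← ENNReal.ofReal_mul (by positivity),
    ← ENNReal.ofReal_mul (by positivity), ← ENNReal.ofReal_mul (by positivity)]
  have e1 : Real.exp ((a - a') * (2 * ((true.toNat : ℕ) : ℝ) - 1)) = Real.exp a / Real.exp a' := by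
    rw [← Real.exp_sub]; congr 1; simp; ring
  have e2 : Real.exp ((a - a') * (2 * ((false.toNat : ℕ) : ℝ) - 1)) =
      Real.exp (-a) / Real.exp (-a') := by
    rw [← Real.exp_sub]; congr 1; simp; ring
  rw [e1, e2]
  congr 3 <;> field_simp

theorem col_rel : ∀ (n : ℕ) (J : Fin n → ℕ) (I : Bool) (ξ : Fin n → Bool) (g0 g1 : ℕ → ℕ),
    g1 0 = g0 0 + I.toNat → (∀ k : Fin n, g0 (k + 1) = g0 k + J k) →
    (∀ k : Fin n, g1 (k + 1) = max (g0 (k + 1) + (ξ k).toNat) (g1 k)) →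
    ∀ k : Fin n, g1 (k + 1) = g1 k + colStep n J I ξ k
  | 0, _, _, _, _, _, _, _, _ => fun k => k.elim0
  | n + 1, J, I, ξ, g0, g1, h0, h1, h2 => by
    have a1 := h1 0
    have a2 := h2 0
    simp only [Fin.coe_ofNat_eq_mod, Nat.zero_mod, zero_add] at a1 a2
    have b1 : g1 1 = g0 1 + (cellI (J 0) I (ξ 0)).toNat := by
      rw [a2, a1, h0]
      unfold cellI
      by_cases hJ : J 0 = 0 <;> cases I <;> cases ξ 0 <;> simp [hJ] <;> omega
    have b2 : g1 1 = g1 0 + cellJ (J 0) I (ξ 0) := by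
      rw [a2, a1, h0]
      unfold cellJ
      omega
    intro k
    refine Fin.cases ?_ (fun k => ?_) k
    · simpa [colStep] using b2
    · have := col_rel n (Fin.tail J) (cellI (J 0) I (ξ 0)) (Fin.tail ξ) (fun i => g0 (i + 1))
        (fun i => g1 (i + 1)) b1 (fun k => h1 k.succ) (fun k => h2 k.succ) k
      simpa [colStep] using this

theorem sjG_shift (J J' : ℕ → ℕ) (ξ ξ' : ℕ → ℕ → ℕ) (m n : ℕ)
    (hJ : ∀ k < n, sjG J ξ 1 (k + 1) = sjG J ξ 1 k + J' k)
    (hξ : ∀ i < m, ∀ k ≤ n, ξ' i k = ξ (i + 1) k) :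
    ∀ i ≤ m, ∀ k ≤ n, sjG J ξ (i + 1) k = ξ 0 0 + sjG J' ξ' i k := by
  intro i
  induction i with
  | zero =>
    intro _ k
    induction k with
    | zero => intro _; simp [sjG]
    | succ k ih =>
      intro hk
      rw [zero_add, hJ k (by omega)]
      have := ih (by omega)
      rw [zero_add] at this
      rw [this]
      simp only [sjG, Finset.sum_range_succ]
      ring
  | succ i ih =>
    intro hi k
    induction k with
    | zero =>
      intro hk
      rw [sjG, ih (by omega) 0 hk, sjG, hξ i (by omega) 0 hk]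
      ring
    | succ k ih2 =>
      intro hk
      rw [sjG, ih (by omega) (k + 1) hk, ih2 (by omega), sjG, hξ i (by omega) (k + 1) hk]
      omega

theorem sjG_cons (m n : ℕ) (J : Fin n → ℕ) (I : Bool) (ξ : Fin n → Bool)
    (ω : Fin m → Fin (n + 1) → Bool) :
    sjG (extJ n J) (bitA (m + 1) n (Fin.cons (Fin.cons I ξ) ω)) (m + 1) n =
      I.toNat + sjG (extJ n (colStep n J I ξ)) (bitA m n ω) m n := by
  set X := bitA (m + 1) n (Fin.cons (Fin.cons I ξ) ω) with hX
  have x0 : X 0 0 = I.toNat := by simp [hX, bitA]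
  have x1 : ∀ k : Fin n, X 0 (k + 1) = (ξ k).toNat := by
    intro k
    have hk : 0 < m + 1 ∧ (k : ℕ) + 1 < n + 1 := ⟨by omega, by have := k.2; omega⟩
    simp only [hX, bitA, dif_pos hk]
    rfl
  rw [← x0]
  refine sjG_shift _ _ _ _ m n ?_ ?_ m le_rfl n le_rfl
  · intro k hk
    have := col_rel n J I ξ (sjG (extJ n J) X 0) (sjG (extJ n J) X 1) (by simp [sjG, x0])
      (fun k => by simp [sjG, Finset.sum_range_succ, extJ])
      (fun k => by rw [← x1 k]; exact sjG.eq_3 _ _ 0 k) ⟨k, hk⟩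
    simpa [extJ, hk] using this
  · intro i hi k hk
    have h1 : i < m ∧ k < n + 1 := ⟨hi, by omega⟩
    have h2 : i + 1 < m + 1 ∧ k < n + 1 := ⟨by omega, by omega⟩
    simp only [hX, bitA, dif_pos h1, dif_pos h2]
    rfl

theorem geo_exp {a a' : ℝ} (ha : 0 < a) (ha' : 0 < a') :
    ∫⁻ j : ℕ, ENNReal.ofReal (Real.exp ((a - a') * (2 * (j : ℝ)))) ∂geoM a =
      ENNReal.ofReal ((1 - Real.exp (-2 * a)) / (1 - Real.exp (-2 * a'))) := by
  have h1 := exp_neg_two_lt_one ha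
  have h2 := exp_neg_two_lt_one ha'
  rw [lintegral_geoM, ← geo_tsum (by linarith) (Real.exp_pos _).le h2]
  refine tsum_congr fun j => ?_
  unfold geoW
  have h3 := Real.exp_pos (-2 * a)
  rw [← ENNReal.ofReal_mul (mul_nonneg (by linarith) (by positivity)), mul_assoc,
    ← Real.exp_nat_mul, ← Real.exp_nat_mul, ← Real.exp_add]
  congr 3
  ring

theorem geo_exp_pi {a a' : ℝ} (ha : 0 < a) (ha' : 0 < a') : ∀ n : ℕ,
    ∫⁻ J : Fin n → ℕ, ENNReal.ofReal (Real.exp ((a - a') * (2 * ((∑ l, J l : ℕ) : ℝ))))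
      ∂(Measure.pi fun _ => geoM a) =
      ENNReal.ofReal (((1 - Real.exp (-2 * a)) / (1 - Real.exp (-2 * a'))) ^ n)
  | 0 => by
    rw [lintegral_pi_zero _ _ Fin.elim0]
    simp
  | n + 1 => by
    have h1 := exp_neg_two_lt_one ha
    have h2 := exp_neg_two_lt_one ha'
    have h3 : 0 ≤ (1 - Real.exp (-2 * a)) / (1 - Real.exp (-2 * a')) :=
      div_nonneg (by linarith) (by linarith)
    rw [lintegral_pi_succ, pow_succ', ENNReal.ofReal_mul h3, ← geo_exp ha ha',
      ← geo_exp_pi ha ha' n, ← lintegral_mul_const _ (measurable_of_countable _)]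
    refine lintegral_congr fun j => ?_
    rw [← lintegral_const_mul _ (measurable_of_countable _)]
    refine lintegral_congr fun J => ?_
    rw [← ENNReal.ofReal_mul (Real.exp_pos _).le, ← Real.exp_add, Fin.sum_univ_succ]
    simp only [Fin.cons_zero, Fin.cons_succ]
    push_cast
    congr 2
    ring

theorem ejs_iter (n : ℕ) {a a' : ℝ} (ha : 0 < a) (ha' : 0 < a') : ∀ m : ℕ,
    ∫⁻ J : Fin n → ℕ, ∫⁻ ω, ENNReal.ofReal
        (Real.exp ((a - a') * (2 * (sjG (extJ n J) (bitA m n ω) m n : ℝ) - m)))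
      ∂(arrM m n a') ∂(Measure.pi fun _ => geoM a) = ENNReal.ofReal (Phi m n a' a)
  | 0 => by
    have e : ∀ (J : Fin n → ℕ) (ω : Fin 0 → Fin (n + 1) → Bool),
        sjG (extJ n J) (bitA 0 n ω) 0 n = ∑ l, J l := by
      intro J ω
      rw [sjG, Finset.sum_range]
      refine Finset.sum_congr rfl fun l _ => ?_
      simp [extJ]
    simp only [e, lintegral_const, measure_univ, mul_one, Nat.cast_zero, sub_zero]
    rw [geo_exp_pi ha ha']
    simp [Phi]
  | m + 1 => by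
    set H : (Fin n → ℕ) → ℝ≥0∞ := fun J => ∫⁻ ω, ENNReal.ofReal
        (Real.exp ((a - a') * (2 * (sjG (extJ n J) (bitA m n ω) m n : ℝ) - m)))
      ∂(arrM m n a') with hH
    have e1 : ∀ J : Fin n → ℕ, ∫⁻ ω, ENNReal.ofReal
        (Real.exp ((a - a') * (2 * (sjG (extJ n J) (bitA (m + 1) n ω) (m + 1) n : ℝ) -
          ((m + 1 : ℕ) : ℝ)))) ∂(arrM (m + 1) n a') =
        ∫⁻ I, ENNReal.ofReal (Real.exp ((a - a') * (2 * (I.toNat : ℝ) - 1))) *
          ∫⁻ ξ, H (colStep n J I ξ) ∂(Measure.pi fun _ => stepM 0) ∂stepM a' := by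
      intro J
      unfold arrM
      rw [lintegral_pi_succ, lintegral_pi_succ]
      simp only [if_true, Fin.succ_ne_zero, if_false]
      refine lintegral_congr fun I => ?_
      rw [← lintegral_const_mul _ (measurable_of_countable _)]
      refine lintegral_congr fun ξ => ?_
      rw [hH]
      unfold arrM
      simp only
      rw [← lintegral_const_mul _ (measurable_of_countable _)]
      refine lintegral_congr fun ω => ?_
      rw [sjG_cons, ← ENNReal.ofReal_mul (Real.exp_pos _).le, ← Real.exp_add]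
      push_cast
      congr 2
      ring
    simp only [e1]
    rw [lintegral_lintegral_swap (measurable_of_countable _).aemeasurable]
    simp only [lintegral_const_mul _ (measurable_of_countable _)]
    rw [tilt, col_inv ha, hH, ejs_iter n ha ha' m,
      ← ENNReal.ofReal_mul (div_pos (Real.cosh_pos a) (Real.cosh_pos a')).le]
    congr 1
    unfold Phi
    ring

/-- The exponential moment identity for the model with both boundaries. -/
theorem ejs (m n : ℕ) {a a' : ℝ} (ha : 0 < a) (ha' : 0 < a') :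
    ∫⁻ p : (Fin n → ℕ) × (Fin m → Fin (n + 1) → Bool), ENNReal.ofReal
        (Real.exp ((a - a') * (2 * (sjG (extJ n p.1) (bitA m n p.2) m n : ℝ) - m)))
      ∂((Measure.pi fun _ => geoM a).prod (arrM m n a')) = ENNReal.ofReal (Phi m n a' a) := by
  rw [lintegral_prod _ (measurable_of_countable _).aemeasurable]
  exact ejs_iter n ha ha' m

end Pool.Agent.Work.MP_8495a2_pr
end

-- merged part: Pool.Agent.Work.MP_8495a2_pr.Disc
section
open MeasureTheory ProbabilityTheory Set Filter Topology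
open scoped ENNReal NNReal

namespace Pool.Agent.Work.MP_8495a2_pr

theorem Disc_nat (A : ℕ → ℕ → ℝ) (k i : ℕ) :
    stepF A k ((i + 1 : ℕ) : ℝ) = stepF A k i + A k i := by
  simp only [stepF, Nat.floor_natCast, Finset.sum_range_succ]

theorem Disc_row (J : ℕ → ℕ) (ξ : ℕ → ℕ → ℕ) (i k : ℕ) : sjG J ξ i k ≤ sjG J ξ i (k + 1) := by
  cases i with
  | zero => simp only [sjG, Finset.sum_range_succ, Nat.le_add_right]
  | succ i => rw [sjG]; exact le_max_right _ _

theorem Disc_mono {J J' : ℕ → ℕ} {ξ ξ' : ℕ → ℕ → ℕ} (hJ : ∀ l, J l ≤ J' l)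
    (hξ : ∀ i k, ξ i k ≤ ξ' i k) (i k : ℕ) : sjG J ξ i k ≤ sjG J' ξ' i k := by
  induction i generalizing k with
  | zero => simp only [sjG]; exact Finset.sum_le_sum fun l _ => hJ l
  | succ i ih =>
    induction k with
    | zero => simp only [sjG]; exact Nat.add_le_add (ih 0) (hξ i 0)
    | succ k ih' =>
      rw [sjG, sjG]
      exact max_le_max (Nat.add_le_add (ih _) (hξ i _)) ih'

theorem Disc_zero (J J' : ℕ → ℕ) (ξ : ℕ → ℕ → ℕ) (i : ℕ) : sjG J ξ i 0 = sjG J' ξ i 0 := by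
  induction i with
  | zero => simp only [sjG, Finset.sum_range_zero]
  | succ i ih => rw [sjG, sjG, ih]

theorem Disc_max (J : ℕ → ℕ) {ξ ξ' : ℕ → ℕ → ℕ} (h : ∀ i k, ξ' i (k + 1) = ξ i (k + 1)) (i k : ℕ) :
    sjG J ξ i k ≤ max (sjG (fun _ => 0) ξ i k) (sjG J ξ' i k) := by
  induction i generalizing k with
  | zero => simp only [sjG]; exact le_max_right _ _
  | succ i ih =>
    induction k with
    | zero => exact (Disc_zero J _ ξ _).le.trans (le_max_left _ _)
    | succ k ih' =>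
      have := ih (k + 1)
      rw [sjG, sjG, sjG, h]
      omega

theorem Disc_lp {m n : ℕ} {A : ℕ → ℕ → ℝ} {ξ : ℕ → ℕ → ℕ}
    (h : ∀ i < m, ∀ k ≤ n, A k i = 2 * ξ i k - 1) (k : ℕ) (hk : k ≤ n) :
    ∀ i ≤ m, lp (stepF A) k 0 (i : ℕ) = 2 * (sjG (fun _ => 0) ξ i k : ℝ) - i := by
  have hL := LB.stepF A
  induction k with
  | zero =>
    intro i hi
    rw [lp_zero (Nat.cast_nonneg i)]
    induction i with
    | zero => simp [sjG]
    | succ i ih =>
      have := ih (Nat.le_of_succ_le hi)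
      rw [Disc_nat, sjG, h i hi 0 hk]
      push_cast
      linarith only [this]
  | succ k ih =>
    have ih := ih (Nat.le_of_succ_le hk)
    intro i hi
    refine le_antisymm (le_of_not_gt fun hc => ?_) ?_
    · obtain ⟨z, hz, h1⟩ := lp_last_split hL (Nat.cast_nonneg i) hc
      have hp : ⌊z⌋₊ ≤ i := Nat.floor_le_of_le hz.2
      have h2 := lp_compare (f := stepF A) (n := k) hL hz.1 (φ := fun t => (⌊t⌋₊ : ℝ))
        (fun s _ t _ hst => Nat.cast_le.2 (Nat.floor_mono hst)) (x' := 0) (η := 0) (by simp) rfl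
        fun j _ t _ => by simp [stepF]
      have h3 : stepF A (k + 1) z = stepF A (k + 1) (⌊z⌋₊ : ℕ) := by simp [stepF]
      have h4 : ∀ j, ⌊z⌋₊ ≤ j → j ≤ m → 2 * (sjG (fun _ => 0) ξ ⌊z⌋₊ k : ℝ) - (⌊z⌋₊ : ℕ) +
          (stepF A (k + 1) (j : ℕ) - stepF A (k + 1) (⌊z⌋₊ : ℕ)) ≤
          2 * (sjG (fun _ => 0) ξ j (k + 1) : ℝ) - j := by
        intro j hj
        induction j, hj using Nat.le_induction with
        | base =>
          intro _
          have := (Nat.cast_le (α := ℝ)).2 (Disc_row (fun _ => 0) ξ ⌊z⌋₊ k)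
          linarith only [this]
        | succ j _ ihj =>
          intro hj
          have h5 := ihj (Nat.le_of_succ_le hj)
          have h6 : sjG (fun _ => 0) ξ j (k + 1) + ξ j (k + 1) ≤
              sjG (fun _ => 0) ξ (j + 1) (k + 1) := by
            rw [sjG]; exact le_max_left _ _
          have h7 := (Nat.cast_le (α := ℝ)).2 h6
          rw [Disc_nat, h j hj _ hk]
          push_cast at h7 ⊢
          linarith only [h5, h7]
      have h5 := h4 i hp hi
      rw [ih _ (hp.trans hi)] at h2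
      rw [h3] at h1
      linarith only [h1, h2, h5]
    · have h0 : ∀ j ≤ m, 2 * (sjG (fun _ => 0) ξ j k : ℝ) - j ≤ lp (stepF A) (k + 1) 0 (j : ℕ) :=
        fun j hj => by
          have := lp_last_le (n := k) hL (Nat.cast_nonneg j) le_rfl
          rw [ih j hj] at this
          linarith only [this]
      induction i with
      | zero => simpa [sjG] using h0 0 hi
      | succ i ihi =>
        have h1 := ihi (Nat.le_of_succ_le hi)
        have h2 := lp_extend_le (n := k + 1) hL (Nat.cast_nonneg i)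
          (Nat.cast_le.2 (Nat.le_succ i))
        have h3 := h0 (i + 1) hi
        rw [Disc_nat, h i hi _ hk] at h2
        rw [sjG]
        rcases max_cases (sjG (fun _ => 0) ξ i (k + 1) + ξ i (k + 1))
          (sjG (fun _ => 0) ξ (i + 1) k) with e | e <;> rw [e.1]
        · push_cast at h2 ⊢
          linarith only [h1, h2]
        · exact h3

theorem Xd_eq (m n : ℕ) (ω : Fin m → Fin (n + 1) → Bool) :
    Xd m n ω = 2 * (sjG (fun _ => 0) (bitA m n ω) m n : ℝ) - m := by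
  refine Disc_lp (m := m) (n := n) (fun i hi k hk => ?_) n le_rfl m le_rfl
  have h : i < m ∧ k < n + 1 := ⟨hi, Nat.lt_succ_of_le hk⟩
  rw [walkA, bitA, dif_pos h, dif_pos h]
  cases ω ⟨i, h.1⟩ ⟨k, h.2⟩ <;> norm_num [sgn]

/-- Row `0` set to `false`. -/
def Disc_z (m n : ℕ) (ω : Fin m → Fin (n + 1) → Bool) : Fin m → Fin (n + 1) → Bool :=
  fun i k => if k = 0 then false else ω i k

/-- The value of the model with both boundaries. -/
noncomputable def Disc_X (m n : ℕ) (J : Fin n → ℕ) (ω : Fin m → Fin (n + 1) → Bool) : ℝ :=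
  2 * (sjG (extJ n J) (bitA m n ω) m n : ℝ) - m

theorem Disc_F1 (m n : ℕ) (J : Fin n → ℕ) (ω : Fin m → Fin (n + 1) → Bool) :
    Xd m n ω ≤ Disc_X m n J ω := by
  have := (Nat.cast_le (α := ℝ)).2 (Disc_mono (J := fun _ => 0) (J' := extJ n J)
    (ξ := bitA m n ω) (fun _ => Nat.zero_le _) (fun _ _ => le_rfl) m n)
  rw [Xd_eq, Disc_X]
  linarith only [this]

theorem Disc_F2 (m n : ℕ) (J : Fin n → ℕ) (ω : Fin m → Fin (n + 1) → Bool) :
    Disc_X m n J (Disc_z m n ω) ≤ Disc_X m n J ω := by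
  have := (Nat.cast_le (α := ℝ)).2 (Disc_mono (J := extJ n J) (ξ := bitA m n (Disc_z m n ω))
    (ξ' := bitA m n ω) (fun _ => le_rfl) (fun i k => by
      simp only [bitA, Disc_z]
      split_ifs <;> simp) m n)
  rw [Disc_X, Disc_X]
  linarith

theorem Disc_F3 (m n : ℕ) (J : Fin n → ℕ) (ω : Fin m → Fin (n + 1) → Bool) :
    Disc_X m n J ω ≤ Xd m n ω ∨ Disc_X m n J ω ≤ Disc_X m n J (Disc_z m n ω) := by
  have h := Disc_max (extJ n J) (ξ := bitA m n ω) (ξ' := bitA m n (Disc_z m n ω)) (fun i k => by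
    simp [bitA, Disc_z]) m n
  rw [Xd_eq, Disc_X, Disc_X]
  refine (le_max_iff.1 h).imp (fun h => ?_) fun h => ?_ <;>
    linarith only [h, (Nat.cast_le (α := ℝ)).2 h]

theorem Disc_law (m n : ℕ) (a b : ℝ) :
    (arrM m n a).map (Disc_z m n) = (arrM m n b).map (Disc_z m n) := by
  have key : ∀ c : ℝ, (arrM m n c).map (Disc_z m n) = Measure.pi fun _ : Fin m =>
      Measure.pi fun k : Fin (n + 1) => if k = 0 then Measure.dirac false else stepM 0 := by
    intro c
    have h1 : (Measure.pi fun k : Fin (n + 1) => stepM (if k = 0 then c else 0)).map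
        (fun (x : Fin (n + 1) → Bool) k => if k = 0 then false else x k) =
        Measure.pi fun k : Fin (n + 1) => if k = 0 then Measure.dirac false else stepM 0 := by
      rw [Measure.pi_map_pi (f := fun (k : Fin (n + 1)) (x : Bool) => if k = 0 then false else x)
        fun _ => (measurable_of_countable _).aemeasurable]
      congr 1
      funext k
      by_cases hk : k = 0
      · simp only [hk, if_true, Measure.map_const, measure_univ, one_smul]
      · simp only [hk, if_false, Measure.map_id']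
    rw [← h1]
    exact Measure.pi_map_pi
      (f := fun (_ : Fin m) (x : Fin (n + 1) → Bool) k => if k = 0 then false else x k)
      fun _ => (measurable_of_countable _).aemeasurable
  rw [key, key]

theorem Disc_pos (m n : ℕ) {a a' : ℝ} (ha : 0 < a) (ha' : 0 < a') : 0 < Phi m n a' a := by
  have h : ∀ c : ℝ, 0 < c → 0 < 1 - Real.exp (-2 * c) := fun c hc =>
    sub_pos.2 (Real.exp_lt_one_iff.2 (by linarith))
  exact mul_pos (pow_pos (div_pos (Real.cosh_pos _) (Real.cosh_pos _)) _)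
    (pow_pos (div_pos (h a ha) (h a' ha')) _)

theorem Disc_F4 (m n : ℕ) {a a'' : ℝ} (a' : ℝ) (ha'' : 0 < a'') (h : a'' < a) :
    ∫⁻ p : (Fin n → ℕ) × (Fin m → Fin (n + 1) → Bool),
      ENNReal.ofReal (Real.exp ((a - a'') * Disc_X m n p.1 (Disc_z m n p.2)))
        ∂((Measure.pi fun _ => geoM a).prod (arrM m n a')) ≤ ENNReal.ofReal (Phi m n a'' a) := by
  have key : ∀ c : ℝ, ∫⁻ p : (Fin n → ℕ) × (Fin m → Fin (n + 1) → Bool),
      ENNReal.ofReal (Real.exp ((a - a'') * Disc_X m n p.1 (Disc_z m n p.2)))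
        ∂((Measure.pi fun _ => geoM a).prod (arrM m n c)) =
      ∫⁻ J, ∫⁻ ω, ENNReal.ofReal (Real.exp ((a - a'') * Disc_X m n J ω))
        ∂((arrM m n c).map (Disc_z m n)) ∂(Measure.pi fun _ => geoM a) := fun c => by
    rw [lintegral_prod _ (measurable_of_countable _).aemeasurable]
    exact lintegral_congr fun J =>
      (lintegral_map (f := fun ω => ENNReal.ofReal (Real.exp ((a - a'') * Disc_X m n J ω)))
        (measurable_of_countable _) (measurable_of_countable (Disc_z m n))).symm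
  rw [key, Disc_law m n a' a'', ← key, ← ejs m n (ha''.trans h) ha'']
  exact lintegral_mono fun p => ENNReal.ofReal_le_ofReal (Real.exp_le_exp.2
    (mul_le_mul_of_nonneg_left (Disc_F2 m n p.1 p.2) (sub_nonneg.2 h.le)))

theorem Disc_snd (m n : ℕ) {a : ℝ} (ha : 0 < a) (a' : ℝ)
    (F : (Fin m → Fin (n + 1) → Bool) → ℝ≥0∞) :
    ∫⁻ ω, F ω ∂(arrM m n a') = ∫⁻ p : (Fin n → ℕ) × (Fin m → Fin (n + 1) → Bool), F p.2
      ∂((Measure.pi fun _ => geoM a).prod (arrM m n a')) := by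
  have := geoM_prob ha
  exact (measurePreserving_snd.lintegral_comp (measurable_of_countable F)).symm

theorem disc_up (m n : ℕ) {a a' : ℝ} (ha' : 0 < a') (h : a' < a) :
    ∫⁻ ω, ENNReal.ofReal (Real.exp ((a - a') * Xd m n ω)) ∂(arrM m n a') ≤
      ENNReal.ofReal (Phi m n a' a) := by
  rw [Disc_snd m n (ha'.trans h), ← ejs m n (ha'.trans h) ha']
  exact lintegral_mono fun p => ENNReal.ofReal_le_ofReal (Real.exp_le_exp.2
    (mul_le_mul_of_nonneg_left (Disc_F1 m n p.1 p.2) (sub_nonneg.2 h.le)))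

theorem disc_low (m n : ℕ) {a a' a'' : ℝ} (ha'' : 0 < a'') (h1 : a'' < a) (h2 : a < a') (s : ℝ) :
    arrM m n a' {ω | Xd m n ω < s} ≤ ENNReal.ofReal
      (Real.exp ((a' - a) * s) * Phi m n a' a + Real.exp (-((a - a'') * s)) * Phi m n a'' a) := by
  have ha := ha''.trans h1
  have ha' := ha.trans h2
  rw [← lintegral_indicator_one (MeasurableSet.of_discrete), Disc_snd m n ha,
    ENNReal.ofReal_add (mul_pos (Real.exp_pos _) (Disc_pos m n ha ha')).le
      (mul_pos (Real.exp_pos _) (Disc_pos m n ha ha'')).le,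
    ENNReal.ofReal_mul (Real.exp_pos _).le, ENNReal.ofReal_mul (Real.exp_pos _).le,
    ← ejs m n ha ha']
  refine le_trans ?_ (add_le_add le_rfl (mul_le_mul' le_rfl (Disc_F4 m n a' ha'' h1)))
  rw [← lintegral_const_mul _ (measurable_of_countable _),
    ← lintegral_const_mul _ (measurable_of_countable _),
    ← lintegral_add_left (measurable_of_countable _)]
  refine lintegral_mono fun p => ?_
  by_cases hp : Xd m n p.2 < s
  · rw [indicator_of_mem (s := {ω | Xd m n ω < s}) hp, Pi.one_apply,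
      ← ENNReal.ofReal_mul (Real.exp_pos _).le, ← ENNReal.ofReal_mul (Real.exp_pos _).le,
      ← Real.exp_add, ← Real.exp_add]
    change _ ≤ ENNReal.ofReal (Real.exp (_ + (a - a') * Disc_X m n p.1 p.2)) + _
    rcases le_total (Disc_X m n p.1 p.2) s with h | h
    · refine le_add_right (ENNReal.one_le_ofReal.2 (Real.one_le_exp ?_))
      linarith only [h2, h, mul_nonneg_of_nonpos_of_nonpos (le_of_lt (Mathlib.Tactic.Linarith.sub_neg_of_lt h2)) (Mathlib.Tactic.Linarith.sub_nonpos_of_le h)]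
    · refine le_add_left (ENNReal.one_le_ofReal.2 (Real.one_le_exp ?_))
      have h3 : s ≤ Disc_X m n p.1 (Disc_z m n p.2) :=
        (Disc_F3 m n p.1 p.2).elim (fun h' => by linarith) h.trans
      linarith only [h1, h3, mul_nonneg_of_nonpos_of_nonpos (le_of_lt (Mathlib.Tactic.Linarith.sub_neg_of_lt h1)) (Mathlib.Tactic.Linarith.sub_nonpos_of_le h3)]
  · rw [indicator_of_notMem (s := {ω | Xd m n ω < s}) hp]
    exact zero_le

theorem disc_mom (m n : ℕ) {a a' : ℝ} (h1 : a < 2 * a') (h2 : a' < a) :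
    ENNReal.ofReal (Phi m n a' a) ≤
      ∫⁻ ω, ENNReal.ofReal (Real.exp ((a - a') * Xd m n ω)) ∂(arrM m n a') +
        ENNReal.ofReal (√(Phi m n (2 * a' - a) a)) := by
  have ha' : 0 < a' := by linarith
  have ha := ha'.trans h2
  have ha'' : 0 < 2 * a' - a := by linarith
  have hP := Disc_pos m n ha ha''
  have := geoM_prob ha
  obtain ⟨q, hq, hq2, e⟩ : ∃ q : ℝ, 0 < q ∧ q * q = Phi m n (2 * a' - a) a ∧
      √(Phi m n (2 * a' - a) a) = q := ⟨_, Real.sqrt_pos.2 hP, Real.mul_self_sqrt hP.le, rfl⟩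
  have h3 := Disc_F4 m n a' ha'' (by linarith : 2 * a' - a < a)
  have h4 : ENNReal.ofReal q = ENNReal.ofReal (q / 2) +
      ENNReal.ofReal (1 / (2 * q)) * ENNReal.ofReal (Phi m n (2 * a' - a) a) := by
    rw [← ENNReal.ofReal_mul (by positivity), ← ENNReal.ofReal_add (by positivity) (by positivity),
      ← hq2]
    congr 1
    field_simp
    norm_num
  rw [e, h4, Disc_snd m n ha, ← ejs m n ha ha']
  refine le_trans ?_ (add_le_add le_rfl (add_le_add le_rfl (mul_le_mul' le_rfl h3)))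
  have h5 : ENNReal.ofReal (q / 2) = ∫⁻ _ : (Fin n → ℕ) × (Fin m → Fin (n + 1) → Bool),
      ENNReal.ofReal (q / 2) ∂((Measure.pi fun _ => geoM a).prod (arrM m n a')) := by simp
  rw [h5, ← lintegral_const_mul _ (measurable_of_countable _),
    ← lintegral_add_left (measurable_of_countable _),
    ← lintegral_add_left (measurable_of_countable _)]
  refine lintegral_mono fun p => ?_
  change ENNReal.ofReal (Real.exp ((a - a') * Disc_X m n p.1 p.2)) ≤ _
  rcases Disc_F3 m n p.1 p.2 with h | h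
  · exact le_add_right (ENNReal.ofReal_le_ofReal (Real.exp_le_exp.2
      (mul_le_mul_of_nonneg_left h (sub_nonneg.2 h2.le))))
  · refine le_add_left ?_
    rw [← ENNReal.ofReal_mul (by positivity), ← ENNReal.ofReal_add (by positivity) (by positivity)]
    refine ENNReal.ofReal_le_ofReal ((Real.exp_le_exp.2
      (mul_le_mul_of_nonneg_left h (sub_nonneg.2 h2.le))).trans ?_)
    have h6 : Real.exp ((a - (2 * a' - a)) * Disc_X m n p.1 (Disc_z m n p.2)) =
        Real.exp ((a - a') * Disc_X m n p.1 (Disc_z m n p.2)) ^ 2 := by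
      rw [sq, ← Real.exp_add]
      congr 1
      ring
    rw [h6]
    generalize Real.exp ((a - a') * Disc_X m n p.1 (Disc_z m n p.2)) = x
    have h7 : q / 2 + 1 / (2 * q) * x ^ 2 - x = (q - x) ^ 2 / (2 * q) := by
      field_simp
      ring
    have h8 : 0 ≤ (q - x) ^ 2 / (2 * q) := by positivity
    linarith only [h7, h8]

end Pool.Agent.Work.MP_8495a2_pr
end
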