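import Pool.Agent.Work.MP_8495a2_pr.ScaledPos
import Pool.Agent.Work.MP_8495a2_pr.Disc

-- merged part: Pool.Agent.Work.MP_8495a2_pr.Geo2
section
open MeasureTheory ProbabilityTheory Set Filter Topology
open scoped ENNReal NNReal

namespace Pool.Agent.Work.MP_8495a2_pr

variable {l : Up → ℝ}

theorem pathLength_le_sum (γ : ℝ → ℝ) (k : ℕ) (τ : ℕ → ℝ) (h0 : τ 0 = 0) (h1 : τ (k + 1) = 1)
    (h : ∀ i ≤ k, τ i < τ (i + 1)) : pathLength l γ ≤
      ((∑ i ∈ Finset.range (k + 1), ev l (γ (τ i)) (τ i) (γ (τ (i + 1))) (τ (i + 1)) : ℝ) :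
        EReal) :=
  iInf_le_of_le k (iInf_le_of_le τ (iInf_le_of_le ⟨h0, h1, h⟩ le_rfl))

theorem pathLength_le {γ : ℝ → ℝ} (hγ : IsPath γ) : pathLength l γ ≤ (ev l 0 0 0 1 : ℝ) := by
  have := pathLength_le_sum (l := l) γ 0 (fun i => i) (by simp) (by simp) (by simp)
  simpa [hγ.2.1, hγ.2.2] using this

theorem exists_long (hl : Continuous l) (ht : Tri l) {K : ℝ} (hK : 0 ≤ K)
    (hu : ∀ x y, UBat l K x y) (hm : Mid l) :
    ∃ γ, IsPath γ ∧ ((ev l 0 0 0 1 : ℝ) : EReal) ≤ pathLength l γ := by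
  obtain ⟨γ, h1, h2⟩ := exists_additive hl ht hK hu hm
  refine ⟨γ, h1, le_iInf fun k => le_iInf fun τ => le_iInf fun h => ?_⟩
  exact EReal.coe_le_coe_iff.2 (h2 k τ h.1 h.2.1 h.2.2)

theorem exists_geodesic (hl : Continuous l) (ht : Tri l) {K : ℝ} (hK : 0 ≤ K)
    (hu : ∀ x y, UBat l K x y) (hm : Mid l) : ∃ π, IsGeodesic l π := by
  obtain ⟨γ, h1, h2⟩ := exists_long hl ht hK hu hm
  exact ⟨γ, h1, fun γ' h => (pathLength_le h).trans h2⟩

theorem IsGeodesic.weight_sub (hl : Continuous l) (ht : Tri l) {K : ℝ} (hK : 0 ≤ K)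
    (hu : ∀ x y, UBat l K x y) (hm : Mid l) {π : ℝ → ℝ} (hπ : IsGeodesic l π) {s t : ℝ}
    (h0 : 0 < s) (hst : s < t) (h1 : t < 1) :
    weight l π t - weight l π s = ev l (π s) s (π t) t := by
  obtain ⟨γ, h2, h3⟩ := exists_long hl ht hK hu hm
  have h4 := pathLength_le_sum (l := l) π 2
    (fun i => if i = 0 then 0 else if i = 1 then s else if i = 2 then t else 1) (by simp)
    (by simp) (by
      intro i hi
      interval_cases i <;> simp [h0, hst, h1])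
  have h5 := EReal.coe_le_coe_iff.1 (h3.trans ((hπ.2 γ h2).trans h4))
  simp only [Finset.sum_range_succ, Finset.sum_range_zero] at h5
  norm_num [hπ.1.2.1, hπ.1.2.2] at h5
  have h6 := ht 0 0 (π t) t 0 1 (h0.trans hst) h1
  have h7 := ht 0 0 (π s) s (π t) t h0 hst
  unfold weight
  linarith only [h7, h5, h6]

end Pool.Agent.Work.MP_8495a2_pr
end

-- merged part: Pool.Agent.Work.MP_8495a2_pr.Tails
section
open MeasureTheory ProbabilityTheory Set Filter Topology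
open scoped ENNReal NNReal

namespace Pool.Agent.Work.MP_8495a2_pr

variable {μ : Measure (Up → ℝ)}

theorem Ax.tl_ident (h : Ax μ) (x y : ℝ) {s t : ℝ} (hst : s < t) :
    IdentDistrib (fun l : Up → ℝ => ev l x s y t)
      (fun l : Up → ℝ => (t - s) ^ (1 / 3 : ℝ) * ev l 0 0 0 1 - (x - y) ^ 2 / (t - s)) μ μ :=
  ⟨(measurable_ev x s y t).aemeasurable,
    (((measurable_ev 0 0 0 1).const_mul _).sub_const _).aemeasurable, h.one x s y t hst⟩

theorem Ax.tl_meas_ge (h : Ax μ) (x y b : ℝ) {s t : ℝ} (hst : s < t) :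
    μ {l | b ≤ ev l x s y t} =
      μ {l | b ≤ (t - s) ^ (1 / 3 : ℝ) * ev l 0 0 0 1 - (x - y) ^ 2 / (t - s)} :=
  (h.tl_ident x y hst).measure_mem_eq (s := Ici b) measurableSet_Ici

theorem tl_cube_root_pow {a : ℝ} (ha : 0 ≤ a) : (a ^ (1 / 3 : ℝ)) ^ 3 = a := by
  rw [← Real.rpow_natCast, ← Real.rpow_mul ha]; norm_num

theorem tl_cube_root_le {a σ : ℝ} (ha : 0 ≤ a) (hσ : 0 < σ) (h : a ≤ σ ^ 3) :
    a ^ (1 / 3 : ℝ) ≤ σ := by
  have h1 := tl_cube_root_pow ha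
  exact le_of_pow_le_pow_left₀ (n := 3) (by norm_num) hσ.le (by rw [h1]; exact h)

theorem tl_cube_root_cube {σ : ℝ} (hσ : 0 < σ) : (σ ^ 3) ^ (1 / 3 : ℝ) = σ := by
  rw [← Real.rpow_natCast, ← Real.rpow_mul hσ.le]; norm_num

/-- One doubling step for the lower tail. -/
theorem Ax.tl_low_step (h : Ax μ) (k : ℕ) (hk : 1 ≤ k) :
    μ.real {l | ev l 0 0 0 1 < -(147292 * (k : ℝ) ^ 2)} ≤
      μ.real {l | ev l 0 0 0 1 < -(147292 * ((2 * k : ℕ) : ℝ) ^ 2)} + 20 * Real.exp (-k) := by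
  have := h.prob
  set τ : ℝ := 1 / 511 with hτ
  have hτ0 : 0 < τ := by norm_num [hτ]
  set c : ℝ := τ ^ (1 / 3 : ℝ) with hc
  have hc0 : 0 < c := Real.rpow_pos_of_pos hτ0 _
  have hc3 : c ^ 3 = τ := tl_cube_root_pow hτ0.le
  have hc8 : 1 / 8 ≤ c := by
    refine le_of_pow_le_pow_left₀ (n := 3) (by norm_num) hc0.le ?_
    rw [hc3, hτ]; norm_num
  have h8 : (1 - -τ) ^ (1 / 3 : ℝ) = 8 * c := by
    have : (1 - -τ) = (8 * c) ^ 3 := by rw [mul_pow, hc3, hτ]; norm_num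
    rw [this, tl_cube_root_cube (by positivity)]
  set a : ℝ := 147292 * ((2 * k : ℕ) : ℝ) ^ 2 with ha
  let S := {x : ℚ // 0 ≤ x ∧ (x : ℝ) ≤ 12 * k}
  let A : S → Set (Up → ℝ) := fun x => {l | -62 * (k : ℝ) ^ 2 ≤ ev l (x.1 : ℝ) 0 0 1}
  let B : S → Set (Up → ℝ) := fun x => {l | -(a * c) - (x.1 : ℝ) ^ 2 / τ ≤ ev l 0 (-τ) (x.1 : ℝ) 0}
  let p : ℝ≥0∞ := μ {l | -a ≤ ev l 0 0 0 1}
  let G : Set (Up → ℝ) := {l | -(147292 * (k : ℝ) ^ 2) ≤ ev l 0 0 0 1}
  have hB : ∀ x, p ≤ μ (B x) := by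
    intro x
    have e := h.tl_meas_ge 0 (x.1 : ℝ) (-(a * c) - (x.1 : ℝ) ^ 2 / τ) (s := -τ) (t := 0) (by linarith only [hτ0])
    refine le_of_le_of_eq (measure_mono ?_) e.symm
    intro l hl
    simp only [mem_ofPred_eq, zero_sub, neg_neg, neg_sq] at hl ⊢
    rw [← hc]
    linarith only [hc0, hl, mul_nonneg_of_nonpos_of_nonpos (le_of_lt (Mathlib.Tactic.Linarith.sub_neg_of_lt hc0)) (Mathlib.Tactic.Linarith.sub_nonpos_of_le hl)]
  have htri : ∀ᵐ l ∂μ, ∀ x : S,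
      ev l 0 (-τ) (x.1 : ℝ) 0 + ev l (x.1 : ℝ) 0 0 1 ≤ ev l 0 (-τ) 0 1 :=
    ae_all_iff.2 fun x => h.tri 0 (-τ) (x.1 : ℝ) 0 0 1 (by linarith only [hτ0]) one_pos
  have hk1 : (1 : ℝ) ≤ k := by exact_mod_cast hk
  have hG : μ {l | -(a * c) - 73646 * (k : ℝ) ^ 2 ≤ ev l 0 (-τ) 0 1} ≤ μ G := by
    rw [h.tl_meas_ge 0 0 _ (s := -τ) (t := 1) (by linarith only [hτ0]), h8]
    refine measure_mono fun l hl => ?_
    simp only [mem_ofPred_eq, sub_self, ne_eq, OfNat.ofNat_ne_zero, not_false_eq_true, zero_pow,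
      zero_div, sub_zero, G] at hl ⊢
    have ha' : a = 4 * 147292 * (k : ℝ) ^ 2 := by rw [ha]; push_cast; ring
    by_contra hcon
    push Not at hcon
    have hk2 : 0 < (k : ℝ) ^ 2 := by positivity
    have e1 : 8 * c * ev l 0 0 0 1 < 8 * c * -(147292 * (k : ℝ) ^ 2) :=
      mul_lt_mul_of_pos_left hcon (by positivity)
    have e2 : 1 / 8 * (k : ℝ) ^ 2 ≤ c * (k : ℝ) ^ 2 := mul_le_mul_of_nonneg_right hc8 hk2.le
    rw [ha'] at hl
    linarith only [hl, e1, e2]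
  have hfin : ∀ F : Finset S, p * μ (⋃ x ∈ F, A x) ≤ μ G := by
    intro F
    have e := freeze (μ := μ) (mF_le 0) (mP_le 0) (h.cut 0).symm (κ := F) (fun x => A x)
      (fun x => B x)
      (fun x => measurableSet_le measurable_const (measurable_ev_mF _ 0 1 le_rfl))
      (fun x => measurableSet_le measurable_const (measurable_ev_mP 0 (-τ) _ le_rfl))
      (fun x => hB x)
    have e0 : (⋃ x ∈ F, A x) = ⋃ x : F, A x := by
      ext l; simp
    rw [e0]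
    refine e.trans (le_trans (measure_mono_ae ?_) hG)
    filter_upwards [htri] with l hl hm
    obtain ⟨x, hx1, hx2⟩ := mem_iUnion.1 hm
    have h1 := hl x.1
    have h2 : -62 * (k : ℝ) ^ 2 ≤ ev l (x.1.1 : ℝ) 0 0 1 := hx1
    have h3 : -(a * c) - (x.1.1 : ℝ) ^ 2 / τ ≤ ev l 0 (-τ) (x.1.1 : ℝ) 0 := hx2
    have h4 : (0 : ℝ) ≤ (x.1.1 : ℝ) := by exact_mod_cast x.1.2.1
    have h5 : (x.1.1 : ℝ) ^ 2 ≤ (12 * k) ^ 2 := pow_le_pow_left₀ h4 x.1.2.2 2
    have h6 : (x.1.1 : ℝ) ^ 2 / τ ≤ 144 * 511 * (k : ℝ) ^ 2 := by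
      rw [div_le_iff₀ hτ0, hτ]; linarith only [h5]
    show -(a * c) - 73646 * (k : ℝ) ^ 2 ≤ ev l 0 (-τ) 0 1
    linarith only [h1, h2, h3, h6]
  have hall : p * μ (⋃ x, A x) ≤ μ G := by
    rw [iUnion_eq_iUnion_finset, Monotone.measure_iUnion, ENNReal.mul_iSup]
    · exact iSup_le hfin
    · intro F F' hF
      exact biUnion_subset_biUnion_left hF
  have mZ : ∀ b : ℝ, MeasurableSet {l : Up → ℝ | b ≤ ev l 0 0 0 1} := fun b =>
    measurableSet_le measurable_const (measurable_ev 0 0 0 1)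
  have mA : MeasurableSet (⋃ x, A x) :=
    MeasurableSet.iUnion fun x => measurableSet_le measurable_const (measurable_ev _ 0 0 1)
  have hlow : μ.real (⋃ x, A x)ᶜ ≤ 20 * Real.exp (-k) := by
    refine ENNReal.toReal_le_of_le_ofReal (by positivity) (le_trans (measure_mono ?_) (h.lowb k hk))
    intro l hl x h0 h1
    by_contra hcon
    exact hl (mem_iUnion.2 ⟨⟨x, h0, h1⟩, not_lt.1 hcon⟩)
  have hreal : μ.real {l | -a ≤ ev l 0 0 0 1} * μ.real (⋃ x, A x) ≤ μ.real G := by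
    have := ENNReal.toReal_mono (measure_ne_top μ G) hall
    rwa [ENNReal.toReal_mul] at this
  have c1 : {l : Up → ℝ | ev l 0 0 0 1 < -(147292 * (k : ℝ) ^ 2)} = Gᶜ := by
    ext l; simp [G]
  have c2 : {l : Up → ℝ | ev l 0 0 0 1 < -a} = {l : Up → ℝ | -a ≤ ev l 0 0 0 1}ᶜ := by
    ext l; simp
  rw [c1, c2, probReal_compl_eq_one_sub (mZ _), probReal_compl_eq_one_sub (mZ _)]
  rw [probReal_compl_eq_one_sub mA] at hlow
  have p1 : μ.real {l | -a ≤ ev l 0 0 0 1} ≤ 1 := measureReal_le_one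
  have p2 : μ.real (⋃ x, A x) ≤ 1 := measureReal_le_one
  linarith only [hlow, hreal, p1, p2, mul_nonneg (sub_nonneg.2 p1) (sub_nonneg.2 p2)]

theorem tl_exp_neg_le_six {k : ℝ} (hk : 0 < k) : Real.exp (-k) ≤ 720 / k ^ 6 := by
  have h := Real.pow_div_factorial_le_exp k hk.le 6
  have h6 : ((Nat.factorial 6 : ℕ) : ℝ) = 720 := by norm_num [Nat.factorial]
  rw [h6] at h
  rw [Real.exp_neg, le_div_iff₀ (by positivity), inv_mul_le_iff₀ (Real.exp_pos k)]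
  linarith only [h]

/-- Lower tail of the one-point law. -/
theorem Ax.low_tail (h : Ax μ) : ∃ D E : ℝ, 0 < D ∧ 0 ≤ E ∧ ∀ k : ℕ, 1 ≤ k →
    μ {l | ev l 0 0 0 1 < -(D * k ^ 2)} ≤ ENNReal.ofReal (E / (k : ℝ) ^ 6) := by
  have := h.prob
  refine ⟨147292, 28800, by norm_num, by norm_num, fun k hk => ?_⟩
  let T : ℕ → ℝ := fun m => μ.real {l | ev l 0 0 0 1 < -(147292 * (m : ℝ) ^ 2)}
  have hk0 : (0 : ℝ) < k := by exact_mod_cast hk
  have hind : ∀ n : ℕ, T k ≤ T (2 ^ n * k) + 28800 / (k : ℝ) ^ 6 -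
      28800 / ((2 ^ n * k : ℕ) : ℝ) ^ 6 := by
    intro n
    induction n with
    | zero => simp
    | succ n ih =>
      have hm : 1 ≤ 2 ^ n * k := Nat.mul_pos (by positivity) hk
      have hm0 : (0 : ℝ) < ((2 ^ n * k : ℕ) : ℝ) := by exact_mod_cast hm
      have h1 : T (2 ^ n * k) ≤ T (2 * (2 ^ n * k)) + 20 * Real.exp (-((2 ^ n * k : ℕ) : ℝ)) :=
        h.tl_low_step _ hm
      have h2 := tl_exp_neg_le_six hm0
      have e : 2 ^ (n + 1) * k = 2 * (2 ^ n * k) := by ring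
      rw [e]
      have e2 : ((2 * (2 ^ n * k) : ℕ) : ℝ) = 2 * ((2 ^ n * k : ℕ) : ℝ) := by push_cast; ring
      rw [e2]
      set m : ℝ := ((2 ^ n * k : ℕ) : ℝ)
      have e3 : 28800 / (2 * m) ^ 6 = 450 * (1 / m ^ 6) := by field_simp; norm_num
      have e4 : 28800 / m ^ 6 = 28800 * (1 / m ^ 6) := by ring
      have e5 : 720 / m ^ 6 = 720 * (1 / m ^ 6) := by ring
      have e6 : 0 ≤ 1 / m ^ 6 := by positivity
      rw [e3]; rw [e4] at ih; rw [e5] at h2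
      linarith only [ih, h1, h2, e6]
  have hlim : Tendsto (fun n : ℕ => μ {l : Up → ℝ | ev l 0 0 0 1 < -(n : ℝ)}) atTop (𝓝 0) := by
    have := tendsto_measure_iInter_atTop (μ := μ)
      (s := fun n : ℕ => {l : Up → ℝ | ev l 0 0 0 1 < -(n : ℝ)})
      (fun n => (measurableSet_lt (measurable_ev 0 0 0 1) measurable_const).nullMeasurableSet)
      (fun n n' hn l (hl : ev l 0 0 0 1 < -(n' : ℝ)) => show ev l 0 0 0 1 < -(n : ℝ) by
        have : (n : ℝ) ≤ n' := by exact_mod_cast hn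
        linarith only [hl, this])
      ⟨0, measure_ne_top _ _⟩
    have e : (⋂ n : ℕ, {l : Up → ℝ | ev l 0 0 0 1 < -(n : ℝ)}) = ∅ := by
      refine eq_empty_of_forall_notMem fun l hl => ?_
      obtain ⟨n, hn⟩ := exists_nat_ge (-ev l 0 0 0 1)
      have : ev l 0 0 0 1 < -(n : ℝ) := mem_iInter.1 hl n
      linarith
    rw [e, measure_empty] at this
    exact this
  have hlim' : Tendsto (fun n : ℕ => μ.real {l : Up → ℝ | ev l 0 0 0 1 < -(n : ℝ)} +
      28800 / (k : ℝ) ^ 6) atTop (𝓝 (0 + 28800 / (k : ℝ) ^ 6)) :=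
    ((ENNReal.tendsto_toReal ENNReal.zero_ne_top).comp hlim).add tendsto_const_nhds
  have hT : T k ≤ 0 + 28800 / (k : ℝ) ^ 6 := by
    refine ge_of_tendsto' hlim' fun n => ?_
    have h1 : T (2 ^ n * k) ≤ μ.real {l : Up → ℝ | ev l 0 0 0 1 < -(n : ℝ)} := by
      refine measureReal_mono fun l (hl : ev l 0 0 0 1 < _) => show ev l 0 0 0 1 < -(n : ℝ) from ?_
      have a1 : n ≤ 2 ^ n * k := le_trans Nat.lt_two_pow_self.le (Nat.le_mul_of_pos_right _ hk)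
      have a2 : (n : ℝ) ≤ ((2 ^ n * k : ℕ) : ℝ) := by exact_mod_cast a1
      have a3 : (1 : ℝ) ≤ ((2 ^ n * k : ℕ) : ℝ) := by
        exact_mod_cast (Nat.mul_pos (by positivity) hk : 1 ≤ 2 ^ n * k)
      linarith only [hl, a3, a2, sq_nonneg ↑((2 : ℕ) ^ n * k), mul_nonneg_of_nonpos_of_nonpos (Mathlib.Tactic.Linarith.sub_nonpos_of_le (Mathlib.Tactic.Linarith.natCast_nonneg ℝ n)) (Mathlib.Tactic.Linarith.sub_nonpos_of_le a3), mul_nonneg_of_nonpos_of_nonpos (Mathlib.Tactic.Linarith.sub_nonpos_of_le (Mathlib.Tactic.Linarith.natCast_nonneg ℝ ((2 : ℕ) ^ n * k))) (Mathlib.Tactic.Linarith.sub_nonpos_of_le a2)]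
    have h2 : 0 ≤ 28800 / ((2 ^ n * k : ℕ) : ℝ) ^ 6 := by positivity
    linarith only [h1, h2, hind, hind n]
  rw [zero_add] at hT
  exact (ENNReal.le_ofReal_iff_toReal_le (measure_ne_top _ _) (by positivity)).2 hT

theorem Ax.low_sq (h : Ax μ) : MemLp (fun l : Up → ℝ => max (-ev l 0 0 0 1) 0) 2 μ := by
  have := h.prob
  obtain ⟨D, E, hD, hE, hT⟩ := h.low_tail
  have mW : Measurable fun l : Up → ℝ => max (-ev l 0 0 0 1) 0 :=
    (measurable_ev 0 0 0 1).neg.max measurable_const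
  rw [memLp_two_iff_integrable_sq mW.aestronglyMeasurable,
    ← lintegral_ofReal_ne_top_iff_integrable (mW.pow_const 2).aestronglyMeasurable
      (Eventually.of_forall fun l => sq_nonneg _)]
  let A : ℕ → Set (Up → ℝ) := fun j => {l | ev l 0 0 0 1 < -(D * ((j + 1 : ℕ) : ℝ) ^ 2)}
  have mA : ∀ j, MeasurableSet (A j) := fun j =>
    measurableSet_lt (measurable_ev 0 0 0 1) measurable_const
  let w : ℕ → ℝ≥0∞ := fun j => ENNReal.ofReal (16 * D ^ 2 * ((j + 1 : ℕ) : ℝ) ^ 4)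
  have hpt : ∀ l : Up → ℝ, ENNReal.ofReal ((max (-ev l 0 0 0 1) 0) ^ 2) ≤
      ENNReal.ofReal (D ^ 2) + ∑' j, (A j).indicator (fun _ => w j) l := by
    intro l
    have hex : ∃ j : ℕ, -ev l 0 0 0 1 ≤ D * ((j + 1 : ℕ) : ℝ) ^ 2 := by
      obtain ⟨j, hj⟩ := exists_nat_ge (-ev l 0 0 0 1 / D)
      refine ⟨j, ?_⟩
      rw [div_le_iff₀ hD] at hj
      have : (j : ℝ) ≤ ((j + 1 : ℕ) : ℝ) ^ 2 := by
        push_cast; linarith only [(Nat.cast_nonneg j : (0 : ℝ) ≤ j), sq_nonneg (↑j + (1 : ℝ)), mul_nonneg_of_nonpos_of_nonpos (Mathlib.Tactic.Linarith.sub_nonpos_of_le (Mathlib.Tactic.Linarith.natCast_nonneg ℝ j)) (Mathlib.Tactic.Linarith.sub_nonpos_of_le (Mathlib.Tactic.Linarith.natCast_nonneg ℝ j))]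
      linarith only [hj, hD, this, mul_nonneg_of_nonpos_of_nonpos (le_of_lt (Mathlib.Tactic.Linarith.sub_neg_of_lt hD)) (Mathlib.Tactic.Linarith.sub_nonpos_of_le this)]
    classical
    have hspec := Nat.find_spec hex
    have hW : max (-ev l 0 0 0 1) 0 ≤ D * ((Nat.find hex + 1 : ℕ) : ℝ) ^ 2 :=
      max_le hspec (by positivity)
    have hW2 := pow_le_pow_left₀ (le_max_right _ _) hW 2
    rcases hf : Nat.find hex with _ | j
    · rw [hf] at hW2
      refine le_add_right (ENNReal.ofReal_le_ofReal ?_)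
      simpa using hW2
    · have hmin := Nat.find_min hex (m := j) (by omega)
      have hA : l ∈ A j := by
        show ev l 0 0 0 1 < _
        linarith only [hmin, not_le.1 hmin]
      refine le_add_left (le_trans ?_ (ENNReal.le_tsum j))
      rw [indicator_of_mem hA]
      refine ENNReal.ofReal_le_ofReal (hW2.trans ?_)
      rw [hf]
      have e1 : ((j + 1 + 1 : ℕ) : ℝ) ≤ 2 * ((j + 1 : ℕ) : ℝ) := by
        push_cast; linarith only [(Nat.cast_nonneg j : (0 : ℝ) ≤ j)]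
      have e2 := pow_le_pow_left₀ (Nat.cast_nonneg _) e1 4
      calc (D * ((j + 1 + 1 : ℕ) : ℝ) ^ 2) ^ 2 = D ^ 2 * ((j + 1 + 1 : ℕ) : ℝ) ^ 4 := by ring
        _ ≤ D ^ 2 * (2 * ((j + 1 : ℕ) : ℝ)) ^ 4 := by gcongr
        _ = _ := by ring
  refine ne_top_of_le_ne_top ?_ (lintegral_mono hpt)
  rw [lintegral_add_left measurable_const, lintegral_const,
    lintegral_tsum fun j => (measurable_const.indicator (mA j)).aemeasurable]
  refine ENNReal.add_ne_top.2 ⟨ENNReal.mul_ne_top ENNReal.ofReal_ne_top (measure_ne_top _ _), ?_⟩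
  have hs : Summable fun j : ℕ => 16 * D ^ 2 * E * (1 / ((j + 1 : ℕ) : ℝ) ^ 2) :=
    ((summable_nat_add_iff 1).2 (Real.summable_one_div_nat_pow.2 one_lt_two)).mul_left _
  refine ne_top_of_le_ne_top hs.tsum_ofReal_lt_top.ne (ENNReal.tsum_le_tsum fun j => ?_)
  rw [lintegral_indicator_const (mA j)]
  refine (mul_le_mul_right (hT (j + 1) (by omega)) _).trans ?_
  rw [← ENNReal.ofReal_mul (by positivity)]
  refine ENNReal.ofReal_le_ofReal (le_of_eq ?_)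
  have : (0 : ℝ) < ((j + 1 : ℕ) : ℝ) := by positivity
  field_simp

theorem Ax.tails (h : Ax μ) : ∃ C α, Tails μ C α := by
  have := h.prob
  set M : ℝ := (∫⁻ l, ENNReal.ofReal (Real.exp (ev l 0 0 0 1)) ∂μ).toReal with hM
  set V : ℝ := ∫ l, (max (-ev l 0 0 0 1) 0) ^ 2 ∂μ with hV
  have hV0 : 0 ≤ V := integral_nonneg fun l => sq_nonneg _
  obtain ⟨n, hn⟩ := ENNReal.exists_inv_two_pow_lt h.pos.ne'
  refine ⟨max 1 (max M V), n + 1, le_max_left _ _, by omega, ?_, ?_, ?_⟩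
  · intro x s y t σ z hst hσ hts hz
    have hr0 : 0 < (t - s) ^ (1 / 3 : ℝ) := Real.rpow_pos_of_pos (by linarith) _
    have hr := tl_cube_root_le (by linarith only [hst]) hσ hts
    have e : {l : Up → ℝ | σ * z ≤ ev l x s y t + (x - y) ^ 2 / (t - s)} =
        {l | σ * z - (x - y) ^ 2 / (t - s) ≤ ev l x s y t} := by
      ext l; simp only [mem_ofPred_eq]; exact sub_le_iff_le_add.symm
    rw [e, h.tl_meas_ge x y _ hst]
    have h1 : μ {l : Up → ℝ | σ * z - (x - y) ^ 2 / (t - s) ≤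
        (t - s) ^ (1 / 3 : ℝ) * ev l 0 0 0 1 - (x - y) ^ 2 / (t - s)} ≤
        μ {l | ENNReal.ofReal (Real.exp z) ≤ ENNReal.ofReal (Real.exp (ev l 0 0 0 1))} := by
      refine measure_mono fun l hl => ENNReal.ofReal_le_ofReal (Real.exp_le_exp.2 ?_)
      have h2 : σ * z ≤ (t - s) ^ (1 / 3 : ℝ) * ev l 0 0 0 1 := by
        have : σ * z - (x - y) ^ 2 / (t - s) ≤
          (t - s) ^ (1 / 3 : ℝ) * ev l 0 0 0 1 - (x - y) ^ 2 / (t - s) := hl
        linarith only [this]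
      have h3 : (t - s) ^ (1 / 3 : ℝ) * z ≤ σ * z := mul_le_mul_of_nonneg_right hr hz
      exact le_of_mul_le_mul_left (h3.trans h2) hr0
    have h2 := meas_ge_le_lintegral_div (μ := μ)
      (f := fun l : Up → ℝ => ENNReal.ofReal (Real.exp (ev l 0 0 0 1)))
      (Real.measurable_exp.comp (measurable_ev 0 0 0 1)).ennreal_ofReal.aemeasurable
      (ε := ENNReal.ofReal (Real.exp z)) (ENNReal.ofReal_pos.2 (Real.exp_pos z)).ne'
      ENNReal.ofReal_ne_top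
    refine (h1.trans h2).trans ?_
    rw [← ENNReal.ofReal_toReal h.expm.ne, ← hM, ← ENNReal.ofReal_div_of_pos (Real.exp_pos z)]
    refine ENNReal.ofReal_le_ofReal ?_
    rw [Real.exp_neg, div_eq_mul_inv]
    exact mul_le_mul_of_nonneg_right ((le_max_left _ _).trans (le_max_right _ _)) (by positivity)
  · intro x s y t σ hst hσ hts
    have hr0 : 0 < (t - s) ^ (1 / 3 : ℝ) := Real.rpow_pos_of_pos (by linarith) _
    have hr := tl_cube_root_le (by linarith) hσ hts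
    have mg : Measurable fun w : ℝ => max (-(w + (x - y) ^ 2 / (t - s))) 0 :=
      (measurable_id.add_const _).neg.max measurable_const
    have hid := (h.tl_ident x y hst).comp mg
    have e : ((fun w : ℝ => max (-(w + (x - y) ^ 2 / (t - s))) 0) ∘ fun l : Up → ℝ =>
        (t - s) ^ (1 / 3 : ℝ) * ev l 0 0 0 1 - (x - y) ^ 2 / (t - s)) =
        fun l => (t - s) ^ (1 / 3 : ℝ) * max (-ev l 0 0 0 1) 0 := by
      funext l
      simp only [Function.comp, sub_add_cancel]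
      rw [mul_max_of_nonneg _ _ hr0.le, mul_zero, mul_neg]
    rw [e] at hid
    refine ⟨hid.memLp_iff.2 (h.low_sq.const_mul _), ?_⟩
    have e2 := hid.sq.integral_eq
    simp only [Function.comp, mul_pow] at e2
    rw [e2, integral_const_mul, ← hV, mul_comm]
    have c1 : (1 : ℝ) ≤ max 1 (max M V) := le_max_left _ _
    have c2 : V ≤ max 1 (max M V) := (le_max_right _ _).trans (le_max_right _ _)
    refine mul_le_mul (by linarith only [c1, c2, mul_nonneg_of_nonpos_of_nonpos (Mathlib.Tactic.Linarith.sub_nonpos_of_le c1) (Mathlib.Tactic.Linarith.sub_nonpos_of_le c1)]) (pow_le_pow_left₀ hr0.le hr 2) (by positivity) (by positivity)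
  · intro x s σ hσ
    have hst : s < s + σ ^ 3 := by linarith [pow_pos hσ 3]
    rw [h.tl_meas_ge x x _ hst, add_sub_cancel_left, tl_cube_root_cube hσ]
    have e : {l : Up → ℝ | σ / 2 ≤ σ * ev l 0 0 0 1 - (x - x) ^ 2 / σ ^ 3} =
        {l | 1 / 2 ≤ ev l 0 0 0 1} := by
      ext l
      simp only [mem_ofPred_eq, sub_self, ne_eq, OfNat.ofNat_ne_zero, not_false_eq_true, zero_pow,
        zero_div, sub_zero]
      rw [show σ / 2 = σ * (1 / 2) by ring]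
      exact mul_le_mul_iff_right₀ hσ
    rw [e, one_div]
    exact (pow_le_pow_right_of_le_one' (by norm_num) (Nat.le_succ n)).trans hn.le

end Pool.Agent.Work.MP_8495a2_pr
end

-- merged part: Pool.Agent.Work.MP_8495a2_pr.LimOne
section
open MeasureTheory ProbabilityTheory Set Filter Topology
open scoped ENNReal NNReal

namespace Pool.Agent.Work.MP_8495a2_pr

variable {Ω : Type*} [MeasurableSpace Ω] {P : Measure Ω} {B : ℕ → ℤ → ℝ → Ω → ℝ}
  {L : Ω → Up → ℝ}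

theorem one_pow6 {v : ℝ} (hv : 0 ≤ v) : (v ^ (1 / 6 : ℝ)) ^ 6 = v := by
  rw [← Real.rpow_natCast, ← Real.rpow_mul hv]; norm_num

theorem one_pow2 {v : ℝ} (hv : 0 ≤ v) : v ^ (1 / 3 : ℝ) = (v ^ (1 / 6 : ℝ)) ^ 2 := by
  rw [← Real.rpow_natCast, ← Real.rpow_mul hv]; norm_num

theorem one_pow3 {v : ℝ} (hv : 0 ≤ v) : √v = (v ^ (1 / 6 : ℝ)) ^ 3 := by
  rw [← Real.rpow_natCast, ← Real.rpow_mul hv, Real.sqrt_eq_rpow]; norm_num

theorem one_alg {τ d c q a l : ℝ} (hτ : 0 < τ) (hc : 0 < c) (hq : 0 < q) (ha : 0 < a)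
    (h : a ^ 2 = τ + 2 * d / c ^ 2) :
    c * (a * l - 2 * τ * c ^ 3 - 2 * d * c) = a / q * (q * c * (l - 2 * (q * c) ^ 3)) +
      2 * ((q ^ 6 - τ) * c ^ 4 * (τ + 2 * d / c ^ 2) - d ^ 2) / (a * q ^ 3 + τ + d / c ^ 2) := by
  have h1 : d = (a ^ 2 - τ) * c ^ 2 / 2 := by rw [h]; field_simp; ring
  have h2 : a * q ^ 3 + τ + d / c ^ 2 = a * q ^ 3 + (τ + a ^ 2) / 2 := by
    rw [h1]; field_simp; ring
  rw [h2, ← h, h1]
  field_simp
  ring

theorem one_lim {τ : ℝ} (hτ : 0 < τ) (d : ℝ) {j : ℕ → ℕ} (hj : ∀ n, |(j n : ℝ) - τ * n| ≤ 1) :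
    ∃ α β : ℕ → ℝ, Tendsto j atTop atTop ∧ Tendsto α atTop (𝓝 (τ ^ (1 / 3 : ℝ))) ∧
      Tendsto β atTop (𝓝 (-(d ^ 2 / τ))) ∧
      ∀ᶠ n : ℕ in atTop, 0 < τ + 2 * d / (n : ℝ) ^ (1 / 3 : ℝ) ∧ ∀ l : ℝ,
        (n : ℝ) ^ (1 / 6 : ℝ) * (√(τ + 2 * d / (n : ℝ) ^ (1 / 3 : ℝ)) * l - 2 * τ * √n -
          2 * d * (n : ℝ) ^ (1 / 6 : ℝ)) =
        α n * ((j n : ℝ) ^ (1 / 6 : ℝ) * (l - 2 * √(j n))) + β n := by
  set c : ℕ → ℝ := fun n => (n : ℝ) ^ (1 / 6 : ℝ) with hc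
  set q : ℕ → ℝ := fun n => ((j n : ℝ) / n) ^ (1 / 6 : ℝ) with hq
  set ρ := τ ^ (1 / 6 : ℝ) with hρ
  have ρ0 : 0 < ρ := Real.rpow_pos_of_pos hτ _
  have c0 : Tendsto c atTop atTop :=
    (tendsto_rpow_atTop (by norm_num)).comp tendsto_natCast_atTop_atTop
  have e0 : Tendsto (fun n => 1 / c n ^ 2) atTop (𝓝 0) :=
    tendsto_const_nhds.div_atTop ((tendsto_pow_atTop two_ne_zero).comp c0)
  have b0 : ∀ n : ℕ, 0 < n → |(j n : ℝ) / n - τ| ≤ 1 / n := by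
    intro n hn
    have : (0 : ℝ) < n := by exact_mod_cast hn
    rw [show (j n : ℝ) / n - τ = (j n - τ * n) / n by field_simp, abs_div, abs_of_pos this]
    exact div_le_div_of_nonneg_right (hj n) this.le
  have r0 : Tendsto (fun n : ℕ => (j n : ℝ) / n) atTop (𝓝 τ) := by
    rw [tendsto_iff_norm_sub_tendsto_zero]
    exact squeeze_zero' (Eventually.of_forall fun _ => norm_nonneg _)
      ((eventually_gt_atTop 0).mono b0) tendsto_one_div_atTop_nhds_zero_nat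
  have q0 : Tendsto q atTop (𝓝 ρ) := r0.rpow_const (Or.inl hτ.ne')
  have A0 : Tendsto (fun n => τ + 2 * d / c n ^ 2) atTop (𝓝 τ) := by
    simpa [div_eq_mul_inv] using (e0.const_mul (2 * d)).const_add τ
  have a0 : Tendsto (fun n => √(τ + 2 * d / c n ^ 2)) atTop (𝓝 (ρ ^ 3)) := by
    rw [← one_pow3 hτ.le]; exact A0.sqrt
  have η0 : Tendsto (fun n => (q n ^ 6 - τ) * c n ^ 4) atTop (𝓝 0) := by
    refine squeeze_zero_norm' ((eventually_gt_atTop 0).mono fun n hn => ?_) e0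
    have h1 : (0 : ℝ) < n := by exact_mod_cast hn
    have h2 : 0 < c n := Real.rpow_pos_of_pos h1 _
    have h3 : c n ^ 6 = n := one_pow6 h1.le
    rw [Real.norm_eq_abs, abs_mul, abs_of_pos (pow_pos h2 4), one_pow6 (by positivity)]
    refine (mul_le_mul_of_nonneg_right (b0 n hn) (pow_pos h2 4).le).trans_eq ?_
    rw [← h3]; field_simp
  have j0 : Tendsto j atTop atTop := by
    rw [← tendsto_natCast_atTop_iff (R := ℝ)]
    refine tendsto_atTop_mono (fun n => ?_) (tendsto_atTop_add_const_right _ (-1)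
      (tendsto_natCast_atTop_atTop.const_mul_atTop hτ))
    linarith only [hj, (abs_le.1 (hj n)).1]
  refine ⟨fun n => √(τ + 2 * d / c n ^ 2) / q n,
    fun n => 2 * ((q n ^ 6 - τ) * c n ^ 4 * (τ + 2 * d / c n ^ 2) - d ^ 2) /
      (√(τ + 2 * d / c n ^ 2) * q n ^ 3 + τ + d / c n ^ 2), j0, ?_, ?_, ?_⟩
  · rw [one_pow2 hτ.le, ← hρ, show ρ ^ 2 = ρ ^ 3 / ρ by field_simp]
    exact a0.div q0 ρ0.ne'
  · have h1 : ρ ^ 3 * ρ ^ 3 + τ + d * 0 = 2 * τ := by
      rw [← pow_add, show 3 + 3 = 6 from rfl, one_pow6 hτ.le]; ring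
    have h2 := (((η0.mul A0).sub_const (d ^ 2)).const_mul 2).div
      (((a0.mul (q0.pow 3)).add_const τ).add (e0.const_mul d)) (by rw [h1]; positivity)
    rw [h1] at h2
    convert h2 using 2
    · simp [div_eq_mul_inv]
    · field_simp; ring
  · filter_upwards [eventually_gt_atTop 0, j0.eventually_gt_atTop 0,
      A0.eventually (lt_mem_nhds hτ)] with n hn hjn hA
    have h1 : (0 : ℝ) < n := by exact_mod_cast hn
    have h2 : (0 : ℝ) < j n := by exact_mod_cast hjn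
    have h3 : 0 < c n := Real.rpow_pos_of_pos h1 _
    have h4 : (j n : ℝ) ^ (1 / 6 : ℝ) = q n * c n := by
      simp only [hq, hc]
      rw [← Real.mul_rpow (by positivity) h1.le, div_mul_cancel₀ _ h1.ne']
    rw [one_pow2 h1.le, one_pow3 h1.le, one_pow3 h2.le, h4]
    exact ⟨hA, fun l => one_alg hτ h3 (Real.rpow_pos_of_pos (by positivity) _)
      (Real.sqrt_pos.2 hA) (Real.sq_sqrt hA.le)⟩

theorem IsCoupledLimit.one (h : IsCoupledLimit P B L) (x s y t : ℝ) (hst : s < t) :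
    (P.map L).map (fun l => ev l x s y t) = (P.map L).map
      (fun l => (t - s) ^ (1 / 3 : ℝ) * ev l 0 0 0 1 - (x - y) ^ 2 / (t - s)) := by
  have := h.prob
  have hτ : 0 < t - s := sub_pos.2 hst
  set j : ℕ → ℕ := fun n => (-⌊s * n⌋ - -⌊t * n⌋).toNat with hj
  have hj1 : ∀ n : ℕ, |(j n : ℝ) - (t - s) * n| ≤ 1 := by
    intro n
    have h1 : 0 ≤ -⌊s * n⌋ - -⌊t * n⌋ := by
      have := Int.floor_mono (mul_le_mul_of_nonneg_right hst.le (Nat.cast_nonneg n))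
      omega
    have h2 : (j n : ℝ) = ⌊t * n⌋ - ⌊s * n⌋ := by
      rw [← Int.cast_natCast, hj, Int.toNat_of_nonneg h1]; push_cast; ring
    rw [h2, abs_le]
    constructor <;> linarith only [Int.floor_le (s * n), Int.floor_le (t * n),
      Int.lt_floor_add_one (s * n), Int.lt_floor_add_one (t * n)]
  obtain ⟨α, β, j0, α0, β0, hab⟩ := one_lim hτ (y - x) hj1
  obtain ⟨φ, hφ, h1⟩ := h.subseq (g := id) tendsto_id
  obtain ⟨ψ, hψ, h2⟩ := h.subseq (g := fun k => j (φ k)) (j0.comp hφ.tendsto_atTop)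
  have hN : Tendsto (fun k => φ (ψ k)) atTop atTop := hφ.tendsto_atTop.comp hψ.tendsto_atTop
  have hF : ∀ (n : ℕ) (k : ℤ), IsBMFamily P fun i : ℕ => B n (k - i) := fun n k =>
    (h.bm n).reindex fun a b hab => by simpa using hab
  have hm : ∀ (n : ℕ) (k : ℤ) (m : ℕ) (a b : ℝ),
      Measurable fun ω => lp (path (fun i : ℕ => B n (k - i)) ω) m a b := fun n k m a b =>
    measurable_lp (fun i _ t => (hF n k).meas i t) (hF n k).cont a b
  have m1 := measurable_ev x s y t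
  have m2 : Measurable fun l : Up → ℝ =>
      (t - s) ^ (1 / 3 : ℝ) * ev l 0 0 0 1 - (x - y) ^ 2 / (t - s) :=
    ((measurable_ev 0 0 0 1).const_mul _).sub_const _
  rw [Measure.map_map m1 h.meas, Measure.map_map m2 h.meas]
  let G : ℕ → ℝ → ℝ := fun n v => (n : ℝ) ^ (1 / 6 : ℝ) *
    (v - 2 * (t - s) * √n - 2 * (y - x) * (n : ℝ) ^ (1 / 6 : ℝ))
  have hG : ∀ n, Measurable (G n) := fun n => by fun_prop
  let X : ℕ → Ω → ℝ := fun n ω => lp (path (fun i : ℕ => B n (-⌊s * n⌋ - i)) ω) (j n)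
    (s + 2 * x / (n : ℝ) ^ (1 / 3 : ℝ)) (t + 2 * y / (n : ℝ) ^ (1 / 3 : ℝ))
  let Y : ℕ → Ω → ℝ := fun n ω => √(t - s + 2 * (y - x) / (n : ℝ) ^ (1 / 3 : ℝ)) *
    lp (path (fun i : ℕ => B (j n) (0 - i)) ω) (j n) 0 1
  have hX : ∀ n, Measurable (X n) := fun n => hm _ _ _ _ _
  have hY : ∀ n, Measurable (Y n) := fun n => (hm _ _ _ _ _).const_mul _
  refine map_eq_of_ae_tendsto (X := fun k => G (φ (ψ k)) ∘ X (φ (ψ k)))
    (Y := fun k => G (φ (ψ k)) ∘ Y (φ (ψ k))) (fun k => (hG _).comp (hX _))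
    (fun k => (hG _).comp (hY _)) (m1.comp h.meas) (m2.comp h.meas) ?_ ?_ ?_
  · filter_upwards [hN.eventually hab] with k hk
    rw [← Measure.map_map (hG _) (hX _), ← Measure.map_map (hG _) (hY _)]
    congr 1
    have e : t - s + 2 * (y - x) / (φ (ψ k) : ℝ) ^ (1 / 3 : ℝ) =
        t + 2 * y / (φ (ψ k) : ℝ) ^ (1 / 3 : ℝ) - (s + 2 * x / (φ (ψ k) : ℝ) ^ (1 / 3 : ℝ)) := by
      ring
    simp only [X, Y, e]
    exact lp_law_scale (hF _ _) (hF _ _) _ (sub_pos.1 (e ▸ hk.1))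
  · filter_upwards [h1] with ω hω
    have := ((hω {⟨(x, s, y, t), hst⟩} isCompact_singleton).tendsto_at rfl).comp
      hψ.tendsto_atTop
    rw [Function.comp_apply, ev_of_lt _ hst]
    exact this
  · filter_upwards [h2] with ω hω
    have h3 := (hω {⟨(0, 0, 0, 1), zero_lt_one⟩} isCompact_singleton).tendsto_at rfl
    have h4 := ((α0.comp hN).mul h3).add (β0.comp hN)
    rw [Function.comp_apply, ev_of_lt _ zero_lt_one, sub_eq_add_neg _ (_ / _), ← neg_sub y x,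
      neg_sq]
    refine h4.congr' ((hN.eventually hab).mono fun k hk => ?_)
    refine Eq.trans ?_ (hk.2 _).symm
    simp [rescaled, lastPassage]
    exact Or.inl (Or.inl rfl)

end Pool.Agent.Work.MP_8495a2_pr
end

-- merged part: Pool.Agent.Work.MP_8495a2_pr.LimTail
section
open MeasureTheory ProbabilityTheory Set Filter Topology
open scoped ENNReal NNReal

namespace Pool.Agent.Work.MP_8495a2_pr

variable {Ω : Type*} [MeasurableSpace Ω] {P : Measure Ω} {B : ℕ → ℤ → ℝ → Ω → ℝ}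
  {L : Ω → Up → ℝ}

lemma ltl_pow (n : ℕ) (k : ℕ) : ((n : ℝ) ^ (1 / 6 : ℝ)) ^ k = (n : ℝ) ^ ((k : ℝ) / 6) := by
  rw [← Real.rpow_natCast, ← Real.rpow_mul (Nat.cast_nonneg n)]
  congr 1
  ring

lemma ltl_six (n : ℕ) : (n : ℝ) = ((n : ℝ) ^ (1 / 6 : ℝ)) ^ 6 := by
  rw [ltl_pow]
  norm_num

lemma ltl_two (n : ℕ) : (n : ℝ) ^ (1 / 3 : ℝ) = ((n : ℝ) ^ (1 / 6 : ℝ)) ^ 2 := by
  rw [ltl_pow]
  norm_num

lemma ltl_three (n : ℕ) : √(n : ℝ) = ((n : ℝ) ^ (1 / 6 : ℝ)) ^ 3 := by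
  rw [ltl_pow, Real.sqrt_eq_rpow]
  norm_num

lemma ltl_one {n : ℕ} (hn : 1 ≤ n) : 1 ≤ (n : ℝ) ^ (1 / 6 : ℝ) :=
  Real.one_le_rpow (by exact_mod_cast hn) (by norm_num)

lemma ltl_tendsto : Tendsto (fun n : ℕ => (n : ℝ) ^ (1 / 6 : ℝ)) atTop atTop :=
  (tendsto_rpow_atTop (by norm_num)).comp tendsto_natCast_atTop_atTop

lemma ltl_inj : Function.Injective fun i : ℕ => (1 : ℤ) - i := by
  intro i j h
  simp only at h
  omega

omit [MeasurableSpace Ω] in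
/-- The profile `x ↦ rescaled (x, 0; 0, 1)` in terms of `Hs`, line `1` being the boundary. -/
theorem rescaled_eq_Hs (D : ℤ → ℝ → Ω → ℝ) {n : ℕ} (hn : 1 ≤ n) (x : ℝ) (ω : Ω) :
    rescaled n (fun i t => D i t ω) ⟨(x, 0, 0, 1), zero_lt_one⟩ =
      Hs (fun i : ℕ => D (1 - i)) n ((n : ℝ) ^ (1 / 6 : ℝ)) x ω := by
  have _ := hn
  have e : sh 1 (path (fun i : ℕ => D (1 - i)) ω) = fun (i : ℕ) t => D (0 - i) t ω := by
    funext i t
    have : (1 : ℤ) - ((1 + i : ℕ) : ℤ) = 0 - i := by omega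
    exact congrArg (fun j => D j t ω) this
  unfold rescaled Hs lastPassage
  rw [e, ltl_two, ltl_three]
  simp only [zero_mul, Int.floor_zero, neg_zero, one_mul, Int.floor_natCast, zero_sub, neg_neg,
    Int.toNat_natCast, mul_zero, zero_div, add_zero, zero_add, sub_zero, mul_one]
  ring

omit [MeasurableSpace Ω] in
lemma ltl_ev (D : ℤ → ℝ → Ω → ℝ) {n : ℕ} (hn : 1 ≤ n) (x : ℝ) (ω : Ω) :
    ev (rescaled n fun i t => D i t ω) x 0 0 1 =
      Hs (fun i : ℕ => D (1 - i)) n ((n : ℝ) ^ (1 / 6 : ℝ)) x ω := by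
  rw [ev_of_lt _ zero_lt_one, rescaled_eq_Hs D hn]

theorem IsCoupledLimit.expm (h : IsCoupledLimit P B L) :
    ∫⁻ l, ENNReal.ofReal (Real.exp (ev l 0 0 0 1)) ∂(P.map L) < ∞ := by
  have := h.prob
  rw [lintegral_map (measurable_ev 0 0 0 1).exp.ennreal_ofReal h.meas]
  obtain ⟨φ, hφ, ha⟩ := h.subseq (g := id) tendsto_id
  let F : ℕ → Ω → ℝ≥0∞ := fun k ω => ENNReal.ofReal (Real.exp
    (Hs (fun i : ℕ => B (φ k) (1 - i)) (φ k) ((φ k : ℝ) ^ (1 / 6 : ℝ)) 0 ω))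
  have hF : ∀ k, Measurable (F k) := fun k =>
    (measurable_Hs ((h.bm (φ k)).reindex ltl_inj) _ _ _).exp.ennreal_ofReal
  have h1 : ∀ᶠ k in atTop, 1 ≤ φ k := hφ.tendsto_atTop.eventually (eventually_ge_atTop 1)
  have hlim : ∀ᵐ ω ∂P, ENNReal.ofReal (Real.exp (ev (L ω) 0 0 0 1)) =
      liminf (fun k => F k ω) atTop := by
    filter_upwards [ha] with ω hω
    have t1 := lt_point hω 0 0 zero_lt_one
    have t2 : Tendsto (fun k => F k ω) atTop
        (𝓝 (ENNReal.ofReal (Real.exp (ev (L ω) 0 0 0 1)))) := by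
      refine (ENNReal.tendsto_ofReal ((Real.continuous_exp.tendsto _).comp t1)).congr' ?_
      filter_upwards [h1] with k hk
      exact congrArg (fun z => ENNReal.ofReal (Real.exp z)) (ltl_ev (B (φ k)) hk 0 ω)
    exact t2.liminf_eq.symm
  rw [lintegral_congr_ae hlim]
  refine (lintegral_liminf_le hF).trans_lt ?_
  refine lt_of_le_of_lt (liminf_le_of_frequently_le' (Eventually.frequently ?_))
    (ENNReal.ofReal_lt_top (r := Real.exp 20))
  filter_upwards [h1] with k hk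
  exact scaled_exp ((h.bm (φ k)).reindex ltl_inj) (ltl_one hk) (ltl_six _)

lemma ltl_rat {g : ℝ → ℝ} (hg : Continuous g) {R b : ℝ} (hR : 0 < R)
    (h : ∀ x : ℚ, 0 ≤ x → (x : ℝ) ≤ R → g x < b) : ∀ x ∈ Icc (0 : ℝ) R, g x ≤ b := by
  intro x hx
  have hc : IsClosed {x | g x ≤ b} := isClosed_le hg continuous_const
  have h1 : Ioo (0 : ℝ) R ⊆ closure (Ioo (0 : ℝ) R ∩ range ((↑) : ℚ → ℝ)) :=
    Rat.denseRange_cast.open_subset_closure_inter isOpen_Ioo
  have h2 : Ioo (0 : ℝ) R ∩ range ((↑) : ℚ → ℝ) ⊆ {x | g x ≤ b} := by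
    rintro _ ⟨hq, q, rfl⟩
    exact (h q (by exact_mod_cast hq.1.le) hq.2.le).le
  have h3 : Ioo (0 : ℝ) R ⊆ {x | g x ≤ b} := h1.trans (closure_minimal h2 hc)
  have h4 := closure_minimal h3 hc
  rw [closure_Ioo hR.ne] at h4
  exact h4 hx

theorem IsCoupledLimit.lowb (h : IsCoupledLimit P B L) (k : ℕ) (hk : 1 ≤ k) :
    (P.map L) {l | ∀ x : ℚ, 0 ≤ x → (x : ℝ) ≤ 12 * k → ev l x 0 0 1 < -62 * k ^ 2} ≤
      ENNReal.ofReal (20 * Real.exp (-k)) := by
  have := h.prob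
  have hk' : (1 : ℝ) ≤ k := by exact_mod_cast hk
  have hM : MeasurableSet
      {l : Up → ℝ | ∀ x : ℚ, 0 ≤ x → (x : ℝ) ≤ 12 * k → ev l x 0 0 1 < -62 * k ^ 2} := by
    rw [ofPred_forall]
    refine MeasurableSet.iInter fun x => ?_
    by_cases hx : 0 ≤ x ∧ (x : ℝ) ≤ 12 * k
    · have : {l : Up → ℝ | 0 ≤ x → (x : ℝ) ≤ 12 * k → ev l x 0 0 1 < -62 * k ^ 2} =
          {l : Up → ℝ | ev l x 0 0 1 < -62 * k ^ 2} := by
        ext l
        simp only [mem_ofPred_eq]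
        exact ⟨fun H => H hx.1 hx.2, fun H _ _ => H⟩
      rw [this]
      exact measurableSet_lt (measurable_ev _ _ _ _) measurable_const
    · have : {l : Up → ℝ | 0 ≤ x → (x : ℝ) ≤ 12 * k → ev l x 0 0 1 < -62 * k ^ 2} = univ :=
        eq_univ_of_forall fun l h1 h2 => absurd ⟨h1, h2⟩ hx
      rw [this]
      exact MeasurableSet.univ
  rw [Measure.map_apply h.meas hM]
  obtain ⟨φ, hφ, ha⟩ := h.subseq (g := id) tendsto_id
  obtain ⟨c0, hc0⟩ := scaled_low (P := P) hk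
  have h1 : ∀ᶠ j in atTop, 1 ≤ φ j := hφ.tendsto_atTop.eventually (eventually_ge_atTop 1)
  have h2 : ∀ᶠ j in atTop, c0 ≤ (φ j : ℝ) ^ (1 / 6 : ℝ) :=
    hφ.tendsto_atTop.eventually (ltl_tendsto.eventually (eventually_ge_atTop c0))
  refine measure_eventually_le (A := fun j => {ω | ∀ x ∈ Icc (0 : ℝ) (12 * k),
    Hs (fun i : ℕ => B (φ j) (1 - i)) (φ j) ((φ j : ℝ) ^ (1 / 6 : ℝ)) x ω < -61 * k ^ 2}) ?_ ?_
  · filter_upwards [ha] with ω hω hE
    have hc : Continuous fun x : ℝ => ev (L ω) x 0 0 1 :=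
      (continuous_ev (h.cont ω) 0 1).comp (continuous_id.prodMk continuous_const)
    have hle := ltl_rat hc (by positivity) hE
    filter_upwards [h1, lt_unif hω (12 * k) zero_lt_one (show (0 : ℝ) < 1 / 2 by norm_num)]
      with j a1 a2 x hx
    have b1 := (a2 x 0 (abs_le.2 ⟨by linarith only [hk', hx, hx.1], hx.2⟩) (by rw [abs_zero]; positivity)).2
    have b2 := hle x hx
    have b3 := ltl_ev (B (φ j)) a1 x ω
    have b4 : (1 : ℝ) ≤ (k : ℝ) ^ 2 := by linarith only [hk', mul_nonneg_of_nonpos_of_nonpos (Mathlib.Tactic.Linarith.sub_nonpos_of_le (Mathlib.Tactic.Linarith.natCast_nonneg ℝ k)) (Mathlib.Tactic.Linarith.sub_nonpos_of_le hk')]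
    rw [← b3]
    exact lt_of_le_of_lt b1 (by linarith only [b2, b4])
  · refine Eventually.frequently ?_
    filter_upwards [h1, h2] with j a1 a2
    exact hc0 _ _ _ ((h.bm (φ j)).reindex ltl_inj) a2 (ltl_one a1) (ltl_six _)

theorem IsCoupledLimit.pos (h : IsCoupledLimit P B L) :
    0 < (P.map L) {l | 1 / 2 ≤ ev l 0 0 0 1} := by
  have := h.prob
  by_contra hne
  have h0 : (P.map L) {l | 1 / 2 ≤ ev l 0 0 0 1} = 0 := nonpos_iff_eq_zero.1 (not_lt.1 hne)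
  have hx : ∀ x : ℝ, ∀ᵐ ω ∂P, ev (L ω) x 0 0 1 + x ^ 2 < 1 / 2 := by
    intro x
    have e := h.one x 0 0 1 zero_lt_one
    have m1 := measurable_ev x 0 0 1
    have m2 : Measurable fun l : Up → ℝ =>
        ((1 : ℝ) - 0) ^ (1 / 3 : ℝ) * ev l 0 0 0 1 - (x - 0) ^ 2 / (1 - 0) :=
      ((measurable_ev 0 0 0 1).const_mul _).sub_const _
    have e' := congrArg (fun μ : Measure ℝ => μ (Ici (1 / 2 - x ^ 2))) e
    rw [Measure.map_apply m1 measurableSet_Ici, Measure.map_apply m2 measurableSet_Ici,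
      Measure.map_apply h.meas (m1 measurableSet_Ici)] at e'
    have e2 : (fun l : Up → ℝ => ((1 : ℝ) - 0) ^ (1 / 3 : ℝ) * ev l 0 0 0 1 -
        (x - 0) ^ 2 / (1 - 0)) ⁻¹' Ici (1 / 2 - x ^ 2) = {l | 1 / 2 ≤ ev l 0 0 0 1} := by
      ext l
      simp only [mem_preimage, mem_Ici, sub_zero, Real.one_rpow, one_mul, div_one, mem_ofPred_eq]
      constructor <;> intro H <;> linarith only [H]
    rw [e2, h0] at e'
    filter_upwards [measure_eq_zero_iff_ae_notMem.1 e'] with ω hω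
    simp only [mem_preimage, mem_Ici, not_le] at hω
    linarith only [hω]
  have hq : ∀ᵐ ω ∂P, ∀ x : ℚ, ev (L ω) x 0 0 1 + (x : ℝ) ^ 2 < 1 / 2 :=
    ae_all_iff.2 fun x => hx x
  obtain ⟨φ, hφ, ha⟩ := h.subseq (g := id) tendsto_id
  obtain ⟨δ, R, c0, hδ, hc0⟩ := scaled_pos (P := P)
  have h1 : ∀ᶠ j in atTop, 1 ≤ φ j := hφ.tendsto_atTop.eventually (eventually_ge_atTop 1)
  have h2 : ∀ᶠ j in atTop, c0 ≤ (φ j : ℝ) ^ (1 / 6 : ℝ) :=
    hφ.tendsto_atTop.eventually (ltl_tendsto.eventually (eventually_ge_atTop c0))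
  let A : ℕ → Set Ω := fun j => {ω | ∃ x : ℚ, 0 ≤ x ∧ (x : ℝ) ≤ R ∧
    1 < Hs (fun i : ℕ => B (φ j) (1 - i)) (φ j) ((φ j : ℝ) ^ (1 / 6 : ℝ)) x ω + (x : ℝ) ^ 2}
  have hA : ∀ j, MeasurableSet (A j) := by
    intro j
    have : A j = ⋃ x : ℚ, {_ω | 0 ≤ x ∧ (x : ℝ) ≤ R} ∩ {ω | 1 <
        Hs (fun i : ℕ => B (φ j) (1 - i)) (φ j) ((φ j : ℝ) ^ (1 / 6 : ℝ)) x ω + (x : ℝ) ^ 2} := by
      ext ω
      simp only [A, mem_ofPred_eq, mem_iUnion, mem_inter_iff, and_assoc]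
    rw [this]
    exact MeasurableSet.iUnion fun x => (MeasurableSet.const _).inter (measurableSet_lt
      measurable_const ((measurable_Hs ((h.bm (φ j)).reindex ltl_inj) _ _ _).add_const _))
  have key : P univ ≤ 1 - ENNReal.ofReal δ := by
    refine measure_eventually_le (A := fun j => (A j)ᶜ) ?_ ?_
    · filter_upwards [ha, hq] with ω hω hω' _
      filter_upwards [h1, lt_unif hω R zero_lt_one (show (0 : ℝ) < 1 / 2 by norm_num)]
        with j a1 a2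
      rintro ⟨x, x1, x2, x3⟩
      have x1' : (0 : ℝ) ≤ x := by exact_mod_cast x1
      have b1 := (a2 x 0 (abs_le.2 ⟨by linarith only [x1'], x2⟩) (by rw [abs_zero]; positivity)).2
      have b3 := ltl_ev (B (φ j)) a1 x ω
      have b2 := hω' x
      rw [← b3] at x3
      have b4 : ev (rescaled (φ j) fun i t => B (φ j) i t ω) x 0 0 1 ≤
          ev (L ω) x 0 0 1 + 1 / 2 := b1
      linarith only [x3, b2, b4]
    · refine Eventually.frequently ?_
      filter_upwards [h1, h2] with j a1 a2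
      rw [prob_compl_eq_one_sub (hA j)]
      exact tsub_le_tsub_left
        (hc0 _ _ _ ((h.bm (φ j)).reindex ltl_inj) a2 (ltl_one a1) (ltl_six _)) _
  rw [measure_univ] at key
  exact absurd key (not_le.2 (ENNReal.sub_lt_self ENNReal.one_ne_top one_ne_zero
    (ENNReal.ofReal_pos.2 hδ).ne'))

end Pool.Agent.Work.MP_8495a2_pr
end

-- merged part: Pool.Agent.Work.MP_8495a2_pr.Main
section
open MeasureTheory ProbabilityTheory Set Filter Topology
open scoped ENNReal NNReal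

namespace Pool.Agent.Work.MP_8495a2_pr

variable {Ω : Type*} [MeasurableSpace Ω] {P : Measure Ω} {L : Ω → Up → ℝ}

theorem IsCoupledLimit.ax {B : ℕ → ℤ → ℝ → Ω → ℝ} (h : IsCoupledLimit P B L) : Ax (P.map L) :=
  haveI := h.prob
  ⟨Measure.isProbabilityMeasure_map h.meas.aemeasurable, h.tri, h.quad, h.cut, h.stat, h.one,
    h.expm, h.lowb, h.pos⟩

theorem IsDirectedLandscape.ax (h : IsDirectedLandscape P L) : Ax (P.map L) := by
  obtain ⟨-, -, Ω', _, P', B, L', h1, h2⟩ := h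
  rw [h2]; exact h1.ax

theorem IsDirectedLandscape.exists_geodesic (h : IsDirectedLandscape P L) :
    ∀ᵐ ω ∂P, ∃ π, IsGeodesic (L ω) π := by
  obtain ⟨C, α, hT⟩ := h.ax.tails
  filter_upwards [ae_tri h.1 h.2.1 h.ax, ae_ub h.1 h.2.1 h.ax hT, ae_mid h.1 h.2.1 h.ax hT]
    with ω h1 ⟨K, h2⟩ h3
  exact Pool.Agent.Work.MP_8495a2_pr.exists_geodesic (h.2.1 ω) h1 (Nat.cast_nonneg K) h2 h3

/-- A bounded additive path whose weight increments are small on small scales. -/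
def BadEv (l : Up → ℝ) (c : ℝ) (K R m : ℕ) : Prop :=
  (∀ x y, UBat l K x y) ∧ ∃ π w : ℝ → ℝ, (∀ t ∈ Icc (0 : ℝ) 1, |π t| ≤ R) ∧
    (∀ s t, 0 < s → s < t → t < 1 → w t - w s = ev l (π s) s (π t) t) ∧
    (∀ t ∈ Icc (1 / 4 : ℝ) (3 / 4), |w t| ≤ K) ∧
    ∀ s ∈ Icc (0 : ℝ) 1, ∀ t ∈ Icc (0 : ℝ) 1, s < t → t - s < 1 / (m + 1) →
      |w t - w s| ≤ c * gauge (t - s)

theorem rho_cube_lt (α m : ℕ) (hα : 1 ≤ α) :
    ∀ᶠ j : ℕ in atTop, (rho α j : ℝ) ^ 3 < 1 / (m + 1) := by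
  filter_upwards [eventually_ge_atTop (m + 1)] with j hj
  have h1 : j ≤ vv α j := by
    unfold vv
    calc j ≤ α * j ^ 6 := by
          calc j = 1 * j ^ 1 := by ring
            _ ≤ α * j ^ 6 := Nat.mul_le_mul hα (Nat.pow_le_pow_right (by omega) (by norm_num))
      _ ≤ 2 ^ (α * j ^ 6) := Nat.lt_two_pow_self.le
  have h2 : (m + 1 : ℝ) ≤ vv α j := by exact_mod_cast hj.trans h1
  have h3 : (1 : ℝ) ≤ vv α j := by exact_mod_cast vv_pos α j
  have h4 : (vv α j : ℝ) ≤ (vv α j : ℝ) ^ 12 := le_self_pow₀ h3 (by norm_num)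
  rw [rho_eq, div_pow, one_pow]
  apply one_div_lt_one_div_of_lt (by positivity)
  have : (2 * (vv α j : ℝ) ^ 4) ^ 3 = 8 * (vv α j : ℝ) ^ 12 := by ring
  rw [this]; linarith only [h2, h4]

theorem bad_null (hm : Measurable L) (hc : ∀ ω, Continuous (L ω)) (h : Ax (P.map L)) {C : ℝ}
    {α : ℕ} (hT : Tails (P.map L) C α) (K m : ℕ) {R : ℕ} (hR : 1 ≤ R) :
    P {ω | BadEv (L ω) (1 / (64 * α)) K R m} = 0 := by
  have hα := hT.alpha
  have hα' : (0 : ℝ) < α := by exact_mod_cast hα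
  refine le_antisymm (ENNReal.le_of_forall_pos_le_add fun η hη _ => ?_) zero_le
  rw [zero_add, ← ENNReal.ofReal_coe_nnreal]
  set B := 6 * (1 + 16 * α * K * (1 + 2 * R)) with hB
  have hB1 : 1 ≤ B := by omega
  obtain ⟨j, h1, h2, hj⟩ := ((hT.deficit h hR hB1 K (η := η) (by exact_mod_cast hη)).and
    ((rho_cube_lt α m hα).and (eventually_ge_atTop 1))).exists
  have h3 : ∀ n : ℕ, ∃ i i' : ℕ, i + i' ≤ 4 * vv α j ^ 9 ∧
      ((∃ i i' : ℕ, i + i' ≤ 4 * vv α j ^ 9 ∧ (P.map L)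
        {l | -(2 * K + 1 : ℝ) ≤ blkSum α j B R n i i' l} ≤ ENNReal.ofReal η) →
      (P.map L) {l | -(2 * K + 1 : ℝ) ≤ blkSum α j B R n i i' l} ≤ ENNReal.ofReal η) := by
    intro n
    by_cases hn : ∃ i i' : ℕ, i + i' ≤ 4 * vv α j ^ 9 ∧ (P.map L)
        {l | -(2 * K + 1 : ℝ) ≤ blkSum α j B R n i i' l} ≤ ENNReal.ofReal η
    · obtain ⟨i, i', a, b⟩ := hn
      exact ⟨i, i', a, fun _ => b⟩
    · exact ⟨0, 0, by simp, fun h => absurd h hn⟩
  choose i i' hi hb using h3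
  refine measure_eventually_le
    (A := fun n => {ω | -(2 * K + 1 : ℝ) ≤ blkSum α j B R n (i n) (i' n) (L ω)})
    (Eventually.of_forall ?_) (h1.mono fun n hn => ?_).frequently
  · rintro ω ⟨hu, π, w, hπ, hw, hK, hg⟩
    have hρ := rho_pos α j
    have hr : (0 : ℝ) < (rho α j : ℝ) ^ 3 := by positivity
    refine (bad_chain (hc ω) hR hα hj le_rfl hu hπ hw hK fun s hs hs1 => ?_).mono
      fun n hn => hn _ _ (hi n)
    have := hg s hs (s + (rho α j : ℝ) ^ 3) ⟨by linarith only [hr, hs, hs.1], hs1⟩ (by linarith only [hr])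
      (by rw [add_sub_cancel_left]; exact h2)
    rw [add_sub_cancel_left] at this
    refine this.trans ?_
    calc 1 / (64 * (α : ℝ)) * gauge ((rho α j : ℝ) ^ 3)
        ≤ 1 / (64 * (α : ℝ)) * (16 * α * ((j : ℝ) ^ 4 * rho α j)) :=
          mul_le_mul_of_nonneg_left (gauge_le hα hj) (by positivity)
      _ = (j : ℝ) ^ 4 * rho α j / 4 := by field_simp; ring
  · exact (Measure.le_map_apply hm.aemeasurable _).trans (hb n hn)

theorem modulus_mono (l : Up → ℝ) (π : ℝ → ℝ) : Monotone (modulus l π) := by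
  intro a b hab
  unfold modulus
  refine iSup_mono fun s => iSup_mono fun t => iSup_le fun h => ?_
  exact le_iSup_of_le ⟨h.1, h.2.1, h.2.2.1, h.2.2.2.trans_le hab⟩ le_rfl

theorem UBat.mono {l : Up → ℝ} {K K' x y : ℝ} (h : UBat l K x y) (hK : K ≤ K') :
    UBat l K' x y := by
  intro j i hi
  refine (h j i hi).trans ?_
  have := sig_pos j
  gcongr

theorem IsDirectedLandscape.main (h : IsDirectedLandscape P L) :
    ∃ c : ℝ, 0 < c ∧ ∀ᵐ ω ∂P, ∀ π, IsGeodesic (L ω) π →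
      ∃ m : ℝ≥0∞, ENNReal.ofReal c ≤ m ∧ Tendsto (modulus (L ω) π) (𝓝[>] 0) (𝓝 m) := by
  obtain ⟨C, α, hT⟩ := h.ax.tails
  have hα' : (0 : ℝ) < α := by exact_mod_cast hT.alpha
  refine ⟨1 / (64 * α), by positivity, ?_⟩
  have hbad : ∀ᵐ ω ∂P, ∀ K m R : ℕ, ¬BadEv (L ω) (1 / (64 * α)) K (R + 1) m := by
    refine ae_all_iff.2 fun K => ae_all_iff.2 fun m => ae_all_iff.2 fun R => ?_
    rw [ae_iff]
    simpa using bad_null h.1 h.2.1 h.ax hT K m (Nat.le_add_left 1 R)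
  filter_upwards [ae_tri h.1 h.2.1 h.ax, ae_ub h.1 h.2.1 h.ax hT, ae_mid h.1 h.2.1 h.ax hT, hbad]
    with ω h1 ⟨K, h2⟩ h3 h4 π hπ
  refine ⟨_, ?_, (modulus_mono (L ω) π).tendsto_nhdsGT 0⟩
  refine le_sInf ?_
  rintro _ ⟨ε, hε, rfl⟩
  by_contra hlt
  rw [not_le] at hlt
  obtain ⟨m, hm⟩ := exists_nat_one_div_lt (show (0 : ℝ) < ε from hε)
  obtain ⟨R0, hR0⟩ := isCompact_Icc.exists_bound_of_continuousOn hπ.1.1
  have hWc : ContinuousOn (weight (L ω) π) (Icc (1 / 4 : ℝ) (3 / 4)) := by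
    intro t ht
    have hsub : Icc (1 / 4 : ℝ) (3 / 4) ⊆ Icc 0 1 := Icc_subset_Icc (by norm_num) (by norm_num)
    exact tendsto_ev (h.2.1 ω) (by linarith only [ht, ht.1]) tendsto_const_nhds tendsto_const_nhds
      ((hπ.1.1.mono hsub) t ht) (continuous_id.continuousWithinAt (x := t))
  obtain ⟨K0, hK0⟩ := isCompact_Icc.exists_bound_of_continuousOn hWc
  refine h4 (K + ⌈K0⌉₊) m ⌈R0⌉₊ ⟨fun x y => (h2 x y).mono (by push_cast; linarith [Nat.cast_nonneg (α := ℝ) ⌈K0⌉₊]),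
    π, weight (L ω) π, fun t ht => ?_, fun s t h0 hst ht1 =>
      hπ.weight_sub (h.2.1 ω) h1 (Nat.cast_nonneg K) h2 h3 h0 hst ht1, fun t ht => ?_,
    fun s hs t ht hst hd => ?_⟩
  · have := hR0 t ht
    rw [Real.norm_eq_abs] at this
    push_cast; linarith [Nat.le_ceil R0]
  · have := hK0 t ht
    rw [Real.norm_eq_abs] at this
    push_cast; linarith [Nat.le_ceil K0, Nat.cast_nonneg (α := ℝ) K]
  · have habs : |t - s| = t - s := abs_of_pos (by linarith)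
    have hle : ENNReal.ofReal (|weight (L ω) π t - weight (L ω) π s| / gauge |t - s|) ≤
        modulus (L ω) π ε :=
      le_iSup_of_le s (le_iSup_of_le t (le_iSup_of_le
        ⟨hs, ht, by rw [habs]; linarith, by rw [habs]; linarith⟩ le_rfl))
    have h5 := (ENNReal.ofReal_lt_ofReal_iff (by positivity)).1 (hle.trans_lt hlt)
    have hg : 0 < gauge (t - s) := gauge_pos (by linarith only [hst]) (by linarith only [hs, ht, hs.1, ht.2])
    rw [habs, div_lt_iff₀ hg] at h5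
    exact h5.le

end Pool.Agent.Work.MP_8495a2_pr
end
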