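import Pool.Agent.Work.MP_8495a2_pr.Disc

-- merged part: Pool.Agent.Work.MP_8495a2_pr.Deficit
section
open MeasureTheory ProbabilityTheory Set Filter Topology
open scoped ENNReal NNReal

namespace Pool.Agent.Work.MP_8495a2_pr

variable {μ : Measure (Up → ℝ)} {C : ℝ} {α : ℕ}

theorem deficit_pow_le_vv (hα : 1 ≤ α) (j : ℕ) : j ^ 6 ≤ vv α j := by
  unfold vv
  calc j ^ 6 ≤ α * j ^ 6 := Nat.le_mul_of_pos_left _ hα
    _ ≤ 2 ^ (α * j ^ 6) := (Nat.lt_two_pow_self).le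

theorem deficit_le_vv (hα : 1 ≤ α) (j : ℕ) : j ≤ vv α j :=
  (Nat.le_self_pow (by norm_num) j).trans (deficit_pow_le_vv hα j)

theorem deficit_ee_eq (h : Ax μ) {N : ℕ} (pos : Fin (N + 1) → ℝ) (W : ℕ) (c1 c2 : ℝ) (ρ : ℚ)
    (hρ : 0 < ρ) (i j : ℕ) :
    ee (μ.map fun l => strip pos ((ρ : ℝ) ^ 3) l 0) W c1 c2 i j =
      ∫ l, blk pos ((ρ : ℝ) ^ 3) W c1 c2 i j 0 l ∂μ := by
  have hr : (0 : ℝ) < (ρ : ℝ) ^ 3 := by positivity
  have h1 := h.map_blk pos W c1 c2 0 (ρ ^ 3) (by positivity) i j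
  simp only [Rat.cast_pow, Rat.cast_zero] at h1
  have hm : Measurable (blk pos ((ρ : ℝ) ^ 3) W c1 c2 i j 0) :=
    (measurable_blk_mF pos W c1 c2 hr i j (le_refl (0 : ℝ))).mono (mF_le 0) le_rfl
  unfold ee
  rw [← integral_map (f := fun x : ℝ => x) measurable_md.aemeasurable
    measurable_id.aestronglyMeasurable, ← h1,
    integral_map (f := fun x : ℝ => x) hm.aemeasurable measurable_id.aestronglyMeasurable]

theorem deficit_latt {R n : ℕ} (hR : 1 ≤ R) (hn : 1 ≤ n) {ρ : ℝ} (hρ : (R : ℝ) / n ≤ ρ ^ 2)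
    (x y : Fin (2 * n + 1)) (hd : Nat.dist x y ≤ gg R n ρ) :
    |latt R n x - latt R n y| ≤ 3 * ρ ^ 2 := by
  have hR' : (0 : ℝ) < R := by exact_mod_cast hR
  have hn' : (0 : ℝ) < n := by exact_mod_cast hn
  have h1 : |((x : ℕ) : ℝ) - ((y : ℕ) : ℝ)| ≤ (gg R n ρ : ℝ) := by
    clear * - n x y R ρ hd
    have a1 : (x : ℕ) ≤ y + gg R n ρ := by unfold Nat.dist at hd; omega
    have a2 : (y : ℕ) ≤ x + gg R n ρ := by unfold Nat.dist at hd; omega
    have b1 : ((x : ℕ) : ℝ) ≤ (y : ℕ) + gg R n ρ := by exact_mod_cast a1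
    have b2 : ((y : ℕ) : ℝ) ≤ (x : ℕ) + gg R n ρ := by exact_mod_cast a2
    rw [abs_le]; constructor <;> linarith only [b2, b1]
  have h2 : (gg R n ρ : ℝ) ≤ 2 * ρ ^ 2 * n / R + 1 :=
    (Nat.ceil_lt_add_one (by positivity)).le
  have h3 : latt R n x - latt R n y = (((x : ℕ) : ℝ) - ((y : ℕ) : ℝ)) * (R / n) := by
    unfold latt; ring
  rw [h3, abs_mul, abs_of_pos (div_pos hR' hn')]
  calc _ ≤ (2 * ρ ^ 2 * n / R + 1) * (R / n) := by gcongr; exact h1.trans h2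
    _ = 2 * ρ ^ 2 + R / n := by field_simp
    _ ≤ _ := by linarith only [hρ]

theorem deficit_strip (h : Ax μ) (hT : Tails μ C α) {a b ρ c : ℝ} (hρ : 0 < ρ) (hc : 0 ≤ c)
    (hab : |a - b| ≤ 3 * ρ ^ 2) :
    Integrable (fun l => min (ev l a 0 b (0 + ρ ^ 3)) c) μ ∧
      -((9 + C) * ρ) ≤ ∫ l, min (ev l a 0 b (0 + ρ ^ 3)) c ∂μ := by
  have := h.prob
  have hC : 0 < C := lt_of_lt_of_le one_pos hT.one_le
  have hr : (0 : ℝ) < ρ ^ 3 := by positivity
  obtain ⟨h1, h2⟩ := hT.low a 0 b (0 + ρ ^ 3) ρ (by linarith) hρ (by linarith)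
  set Y : (Up → ℝ) → ℝ := fun l =>
    max (-(ev l a 0 b (0 + ρ ^ 3) + (a - b) ^ 2 / (0 + ρ ^ 3 - 0))) 0 with hY
  have hq : (a - b) ^ 2 / (0 + ρ ^ 3 - 0) ≤ 9 * ρ := by
    clear * - a b ρ hab hr
    have : (a - b) ^ 2 ≤ (3 * ρ ^ 2) ^ 2 := by
      rw [← sq_abs]; gcongr
    rw [div_le_iff₀ (by linarith)]
    linarith only [this]
  have hY0 : ∀ l, 0 ≤ Y l := fun l => le_max_right _ _
  have hlow : ∀ l, -(9 * ρ) - Y l ≤ min (ev l a 0 b (0 + ρ ^ 3)) c := by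
    clear * - a b ρ Y hY0 c hq hρ hc
    intro l
    have e1 : -(ev l a 0 b (0 + ρ ^ 3) + (a - b) ^ 2 / (0 + ρ ^ 3 - 0)) ≤ Y l := le_max_left _ _
    have := hY0 l
    refine le_min (by linarith only [hq, e1]) (by linarith only [hρ, hc, this])
  have hYi : Integrable Y μ := h1.integrable (by norm_num)
  have hY2 : Integrable (fun l => Y l ^ 2) μ := h1.integrable_sq
  have hmeas : Measurable fun l : Up → ℝ => min (ev l a 0 b (0 + ρ ^ 3)) c :=
    (measurable_ev _ _ _ _).min measurable_const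
  have hint : Integrable (fun l => min (ev l a 0 b (0 + ρ ^ 3)) c) μ := by
    clear * - μ a b ρ c Y this hYi hmeas hlow hY0 hc hρ
    refine Integrable.mono' ((integrable_const (c + 9 * ρ)).add hYi)
      hmeas.aestronglyMeasurable (Eventually.of_forall fun l => ?_)
    have e1 := hlow l
    have e2 : min (ev l a 0 b (0 + ρ ^ 3)) c ≤ c := min_le_right _ _
    have := hY0 l
    simp only [Real.norm_eq_abs, Pi.add_apply]
    rw [abs_le]; constructor <;> linarith only [hc, e1, hρ, e2, this]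
  refine ⟨hint, ?_⟩
  have hCρ : 0 < C * ρ := by positivity
  have hEY : ∫ l, Y l ∂μ ≤ C * ρ := by
    clear * - Y C ρ hC hρ μ hYi hY2 this h2
    have e1 : ∀ l, Y l ≤ Y l ^ 2 / (2 * (C * ρ)) + C * ρ / 2 := by
      intro l
      rw [div_add_div _ _ (by positivity) (by positivity), le_div_iff₀ (by positivity)]
      linarith only [sq_nonneg (Y l - C * ρ), sq_nonneg (Y l - C * ρ)]
    calc ∫ l, Y l ∂μ ≤ ∫ l, (Y l ^ 2 / (2 * (C * ρ)) + C * ρ / 2) ∂μ :=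
          integral_mono hYi ((hY2.div_const _).add (integrable_const _)) e1
      _ = (∫ l, Y l ^ 2 ∂μ) / (2 * (C * ρ)) + C * ρ / 2 := by
          rw [integral_add (hY2.div_const _) (integrable_const _), integral_div]; simp
      _ ≤ C ^ 2 * ρ ^ 2 / (2 * (C * ρ)) + C * ρ / 2 := by gcongr
      _ = C * ρ := by field_simp; ring
  calc -((9 + C) * ρ) ≤ -(9 * ρ) - ∫ l, Y l ∂μ := by linarith only [hEY]
    _ = ∫ l, (-(9 * ρ) - Y l) ∂μ := by
        rw [integral_sub (integrable_const _) hYi]; simp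
    _ ≤ _ := integral_mono ((integrable_const _).sub hYi) hint hlow

/-- Some block shape has a very negative mean. -/
theorem Tails.ee_neg (h : Ax μ) (hT : Tails μ C α) {R B : ℕ} (hR : 1 ≤ R) (hB : 1 ≤ B) :
    ∀ᶠ j : ℕ in atTop, ∀ᶠ n : ℕ in atTop, ∃ i i' : ℕ, i + i' ≤ 4 * vv α j ^ 9 ∧
      ee (μ.map fun l => strip (latt R n) ((rho α j : ℝ) ^ 3) l 0)
        (B * j ^ 3 * gg R n (rho α j)) ((j : ℝ) ^ 4 * rho α j / 4) ((j : ℝ) ^ 4 * rho α j / 2)
        i i' ≤ -((vv α j : ℝ) ^ 4 * (j : ℝ) ^ 4 / 96) := by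
  have := h.prob
  have hC : 0 < C := lt_of_lt_of_le one_pos hT.one_le
  obtain ⟨C0, hC0, hmean⟩ := hT.mean_le h R
  have t1 : ∀ᶠ j : ℕ in atTop, 8 * B * (9 + C) ≤ (j : ℝ) :=
    tendsto_natCast_atTop_atTop.eventually_ge_atTop _
  have t2 : ∀ᶠ j : ℕ in atTop, 96 * C0 < (j : ℝ) :=
    tendsto_natCast_atTop_atTop.eventually_gt_atTop _
  filter_upwards [t1, t2, eventually_ge_atTop B] with j hj1 hj2 hjB
  have hj : 1 ≤ j := hB.trans hjB
  have hj' : (1 : ℝ) ≤ j := by exact_mod_cast hj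
  have hρ := rho_pos α j
  have hρq : 0 < rho α j := by exact_mod_cast hρ
  have hρe := rho_eq α j
  have hv : 1 ≤ vv α j := vv_pos α j
  have hV : (1 : ℝ) ≤ vv α j := by exact_mod_cast hv
  have hbv : B * j ^ 3 ≤ vv α j := by
    calc B * j ^ 3 ≤ j * j ^ 3 := Nat.mul_le_mul_right _ hjB
      _ = j ^ 4 := by ring
      _ ≤ j ^ 6 := Nat.pow_le_pow_right hj (by norm_num)
      _ ≤ _ := deficit_pow_le_vv hT.alpha j
  have hv9 : vv α j ≤ vv α j ^ 9 := Nat.le_self_pow (by norm_num) _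
  have t3 : ∀ᶠ n : ℕ in atTop, (R : ℝ) / (rho α j : ℝ) ^ 2 ≤ (n : ℝ) :=
    tendsto_natCast_atTop_atTop.eventually_ge_atTop _
  filter_upwards [t3, eventually_ge_atTop 1] with n hn1 hn
  have hn' : (0 : ℝ) < n := by exact_mod_cast hn
  have hRn : (R : ℝ) / n ≤ (rho α j : ℝ) ^ 2 := by
    rw [div_le_iff₀ (by positivity)] at hn1
    rw [div_le_iff₀ hn']; linarith only [hn1]
  have hms := measurable_strip (latt R n) ((rho α j : ℝ) ^ 3) 0
  have : IsProbabilityMeasure (μ.map fun l => strip (latt R n) ((rho α j : ℝ) ^ 3) l 0) :=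
    Measure.isProbabilityMeasure_map hms.aemeasurable
  have hc0 : (0 : ℝ) ≤ (j : ℝ) ^ 4 * rho α j / 4 := by positivity
  have hc12 : (j : ℝ) ^ 4 * rho α j / 4 ≤ (j : ℝ) ^ 4 * rho α j / 2 := by
    clear * - j α hj hρq hc0
    have : (0 : ℝ) ≤ (j : ℝ) ^ 4 * rho α j := by positivity
    linarith only [hc0]
  refine Exists.imp (fun i => Exists.imp fun i' H => ⟨by omega, H.2.2⟩) (chain_deficit
    (μ.map fun l => strip (latt R n) ((rho α j : ℝ) ^ 3) l 0) (gg R n (rho α j)) (B * j ^ 3)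
    (vv α j ^ 9) (Nat.mul_pos hB (by positivity)) (hv.trans hv9)
    (c1 := (j : ℝ) ^ 4 * rho α j / 4) (c2 := (j : ℝ) ^ 4 * rho α j / 2)
    (p0 := 1 / (vv α j : ℝ)) (κ := (9 + C) * rho α j) (C0 := C0)
    (D := (vv α j : ℝ) ^ 4 * (j : ℝ) ^ 4 / 96) hc12 (by positivity) ?_ ?_ ?_ ?_)
  · intro x
    have hset : MeasurableSet {S : Fin (2 * n + 1) → Fin (2 * n + 1) → ℝ |
        (j : ℝ) ^ 4 * rho α j / 2 ≤ S x x} :=
      measurableSet_le measurable_const (by fun_prop)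
    have h1 := hT.high h (latt R n x) 0 (rho α j) hρ hj
    rw [Measure.real, Measure.map_apply hms hset]
    have h2 : (((1 / 2 : ℝ≥0∞) ^ α) ^ (j ^ 6)).toReal = 1 / (vv α j : ℝ) := by
      unfold vv
      rw [← pow_mul]
      simp
    rw [← h2]
    exact ENNReal.toReal_mono (measure_ne_top _ _) h1
  · intro x y hd
    have hm : Measurable fun S : Fin (2 * n + 1) → Fin (2 * n + 1) → ℝ =>
        min (S x y) ((j : ℝ) ^ 4 * rho α j / 4) := by fun_prop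
    obtain ⟨h1, h2⟩ := deficit_strip h hT hρ hc0 (deficit_latt hR hn hRn x y hd)
    refine ⟨(integrable_map_measure hm.aestronglyMeasurable hms.aemeasurable).2 h1, ?_⟩
    rw [integral_map hms.aemeasurable hm.aestronglyMeasurable]
    exact h2
  · intro i i' hi hi'
    rw [deficit_ee_eq h _ _ _ _ _ hρq]
    rcases Nat.eq_zero_or_pos (i + i') with h0 | h0
    · obtain ⟨rfl, rfl⟩ : i = 0 ∧ i' = 0 := by omega
      simp [blk_zero, hC0]
    have hr : (0 : ℝ) < (rho α j : ℝ) ^ 3 := by positivity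
    have h0' : (0 : ℝ) < (i : ℝ) + i' := by exact_mod_cast h0
    have hle : (i : ℝ) + i' ≤ 4 * (vv α j : ℝ) ^ 9 := by
      have : i + i' ≤ 4 * vv α j ^ 9 := by omega
      exact_mod_cast this
    refine hmean (Fin (2 * n + 1) × Fin (2 * n + 1)) (fun k => latt R n k.1)
      (fun k => latt R n k.2) 0 (0 + (i + i') * (rho α j : ℝ) ^ 3) _ (by positivity) ?_
      (fun k => abs_latt_le R n _) (fun k => abs_latt_le R n _)
      ((hT.blk_sq _ _ h hρ hc0 hc12 i i' 0).1.integrable (by norm_num))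
      (h.blk_le_ev _ _ _ _ hr h0 0)
    have e1 : (vv α j : ℝ) ^ 9 ≤ (vv α j : ℝ) ^ 12 := pow_le_pow_right₀ hV (by norm_num)
    have e2 : (rho α j : ℝ) ^ 3 = 1 / (8 * (vv α j : ℝ) ^ 12) := by
      rw [hρe]; field_simp; norm_num
    rw [e2, zero_add, sub_zero, mul_one_div, div_le_one (by positivity)]
    have : (0 : ℝ) < (vv α j : ℝ) ^ 12 := by positivity
    clear * - i i' α j hle e1 this
    linarith only [hle, e1, this]
  · set V : ℝ := (vv α j : ℝ) with hVd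
    have hbV : (B : ℝ) * (j : ℝ) ^ 3 ≤ V := by rw [hVd]; exact_mod_cast hbv
    have e1 : 1 / V * ((B * j ^ 3 : ℕ) : ℝ) ≤ 1 := by
      push_cast
      rw [one_div_mul_eq_div, div_le_one (by positivity)]; exact hbV
    have e2 : (j : ℝ) ^ 4 * rho α j / 8 ≤ (j : ℝ) ^ 4 * rho α j / 2 - (j : ℝ) ^ 4 * rho α j / 4
        - ((B * j ^ 3 : ℕ) : ℝ) * ((9 + C) * rho α j) := by
      clear * - j α B C hj1 hj hρq
      push_cast
      have : 8 * B * (9 + C) * ((j : ℝ) ^ 3 * rho α j) ≤ j * ((j : ℝ) ^ 3 * rho α j) := by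
        gcongr
      linarith only [this]
    have e3 : ((vv α j ^ 9 : ℕ) : ℝ) * (1 / V) * ((j : ℝ) ^ 4 * rho α j / 8)
        = V ^ 4 * (j : ℝ) ^ 4 / 16 := by
      push_cast
      rw [hρe, ← hVd]; field_simp; norm_num
    have e4 : (j : ℝ) ≤ V ^ 4 * (j : ℝ) ^ 4 := by
      clear * - j hj' V hV α hρ hc0
      have a1 : (j : ℝ) ≤ (j : ℝ) ^ 4 := le_self_pow₀ hj' (by norm_num)
      have a2 : (1 : ℝ) ≤ V ^ 4 := one_le_pow₀ hV
      (refine le_of_not_gt fun h_nl => ?_; linarith only [h_nl, hρ, a1, hc0, a2, mul_nonneg_of_nonpos_of_nonpos (le_of_lt (Mathlib.Tactic.Linarith.sub_neg_of_lt hρ)) (Mathlib.Tactic.Linarith.sub_nonpos_of_le a1), mul_pos_of_neg_of_neg (Mathlib.Tactic.Linarith.sub_neg_of_lt hρ) (Mathlib.Tactic.Linarith.sub_neg_of_lt h_nl), mul_nonneg_of_nonpos_of_nonpos (Mathlib.Tactic.Linarith.sub_nonpos_of_le hc0) (Mathlib.Tactic.Linarith.sub_nonpos_of_le a2)])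
    calc (C0 + V ^ 4 * (j : ℝ) ^ 4 / 96) * (2 + 1 / V * ((B * j ^ 3 : ℕ) : ℝ))
        ≤ (C0 + V ^ 4 * (j : ℝ) ^ 4 / 96) * 3 := by clear * - C0 V j B e1 hC0 α hv hj; gcongr; linarith only [e1]
      _ < V ^ 4 * (j : ℝ) ^ 4 / 16 := by clear * - C0 V j hj2 e4; linarith only [hj2, e4]
      _ = _ := e3.symm
      _ ≤ _ := by gcongr

/-- Capped chains of bounded total loss are unlikely. -/
theorem Tails.deficit (h : Ax μ) (hT : Tails μ C α) {R B : ℕ} (hR : 1 ≤ R) (hB : 1 ≤ B) (K : ℕ)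
    {η : ℝ} (hη : 0 < η) :
    ∀ᶠ j : ℕ in atTop, ∀ᶠ n : ℕ in atTop, ∃ i i' : ℕ, i + i' ≤ 4 * vv α j ^ 9 ∧
      μ {l | -(2 * K + 1 : ℝ) ≤ blkSum α j B R n i i' l} ≤ ENNReal.ofReal η := by
  have t1 : ∀ᶠ j : ℕ in atTop, 192 * (2 * K + 1 : ℝ) ≤ (j : ℝ) :=
    tendsto_natCast_atTop_atTop.eventually_ge_atTop _
  have t2 : ∀ᶠ j : ℕ in atTop, 16 * 96 ^ 2 * (1 / 4 + C ^ 2) / η ≤ (j : ℝ) :=
    tendsto_natCast_atTop_atTop.eventually_ge_atTop _
  filter_upwards [hT.ee_neg h hR hB, t1, t2, eventually_ge_atTop 1] with j hj0 hj1 hj2 hj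
  filter_upwards [hj0] with n hn
  obtain ⟨i, i', hi, he⟩ := hn
  refine ⟨i, i', hi, ?_⟩
  have hj' : (1 : ℝ) ≤ j := by exact_mod_cast hj
  have hρ := rho_pos α j
  have hρq : 0 < rho α j := by exact_mod_cast hρ
  have hρe := rho_eq α j
  have hv : 1 ≤ vv α j := vv_pos α j
  have hV : (1 : ℝ) ≤ vv α j := by exact_mod_cast hv
  have hjV : (j : ℝ) ≤ vv α j := by exact_mod_cast deficit_le_vv hT.alpha j
  have hc0 : (0 : ℝ) ≤ (j : ℝ) ^ 4 * rho α j / 4 := by positivity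
  have hc12 : (j : ℝ) ^ 4 * rho α j / 4 ≤ (j : ℝ) ^ 4 * rho α j / 2 := by
    clear * - j α hj hρq hc0
    have : (0 : ℝ) ≤ (j : ℝ) ^ 4 * rho α j := by positivity
    linarith only [hc0]
  have h1 := hT.blk_cheb (latt R n) (B * j ^ 3 * gg R n (rho α j)) h (rho α j) (1 / 4) hρq hc0
    hc12 i i' (vv α j ^ 3) (D := (vv α j : ℝ) ^ 4 * (j : ℝ) ^ 4 / 96) (M := 2 * K + 1)
    (by positivity) (Nat.one_le_pow _ _ hv) ?_ he
  · have e0 : (((1 / 4 : ℚ) : ℝ)) = 1 / 4 := by norm_num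
    rw [e0] at h1
    refine le_trans h1 (ENNReal.ofReal_le_ofReal ?_)
    set V : ℝ := (vv α j : ℝ) with hVd
    have hle : ((i + i' : ℕ) : ℝ) ≤ 4 * V ^ 9 := by rw [hVd]; exact_mod_cast hi
    have a1 : (1 : ℝ) ≤ (j : ℝ) ^ 8 := one_le_pow₀ hj'
    have a2 : ((j : ℝ) ^ 4 * rho α j / 2) ^ 2 + C ^ 2 * (rho α j : ℝ) ^ 2
        ≤ (j : ℝ) ^ 8 * (1 / 4 + C ^ 2) * (rho α j : ℝ) ^ 2 := by
      clear * - C α j a1 hρq
      have : C ^ 2 * (rho α j : ℝ) ^ 2 * 1 ≤ C ^ 2 * (rho α j : ℝ) ^ 2 * (j : ℝ) ^ 8 := by gcongr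
      linarith only [this]
    calc _ ≤ 4 * ((4 * V ^ 9) ^ 2 * ((j : ℝ) ^ 8 * (1 / 4 + C ^ 2) * (rho α j : ℝ) ^ 2)) /
          (((vv α j ^ 3 : ℕ) : ℝ) * (V ^ 4 * (j : ℝ) ^ 4 / 96) ^ 2) := by clear * - i i' j α C V hle a2 hj hρq hv; gcongr
      _ = 16 * 96 ^ 2 * (1 / 4 + C ^ 2) / V := by
          push_cast
          rw [hρe, ← hVd]; field_simp; norm_num
      _ ≤ η := by
          clear * - C α j η hv hη hj2 hjV
          rw [div_le_iff₀ hη] at hj2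
          rw [div_le_iff₀ (by positivity)]
          linarith only [hj2, hη, hjV, mul_nonneg_of_nonpos_of_nonpos (le_of_lt (Mathlib.Tactic.Linarith.sub_neg_of_lt hη)) (Mathlib.Tactic.Linarith.sub_nonpos_of_le hjV)]
  · push_cast
    have a1 : (j : ℝ) ≤ (j : ℝ) ^ 4 := le_self_pow₀ hj' (by norm_num)
    have a2 : (1 : ℝ) ≤ (vv α j : ℝ) ^ 3 * (vv α j : ℝ) ^ 4 := by
      rw [← pow_add]; exact one_le_pow₀ hV
    have a3 : (0 : ℝ) ≤ (j : ℝ) ^ 4 := by positivity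
    clear * - K α j hj1 hρ a1 hc0 a2
    (refine le_of_not_gt fun h_nl => ?_; linarith only [h_nl, hj1, hρ, a1, hc0, a2, mul_nonneg_of_nonpos_of_nonpos (Mathlib.Tactic.Linarith.sub_nonpos_of_le hj1) (le_of_lt (Mathlib.Tactic.Linarith.sub_neg_of_lt hρ)), mul_nonneg_of_nonpos_of_nonpos (le_of_lt (Mathlib.Tactic.Linarith.sub_neg_of_lt hρ)) (Mathlib.Tactic.Linarith.sub_nonpos_of_le a1), mul_pos_of_neg_of_neg (Mathlib.Tactic.Linarith.sub_neg_of_lt hρ) (Mathlib.Tactic.Linarith.sub_neg_of_lt h_nl), mul_nonneg_of_nonpos_of_nonpos (Mathlib.Tactic.Linarith.sub_nonpos_of_le hc0) (Mathlib.Tactic.Linarith.sub_nonpos_of_le a2)])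

end Pool.Agent.Work.MP_8495a2_pr
end

-- merged part: Pool.Agent.Work.MP_8495a2_pr.Bad
section
open MeasureTheory ProbabilityTheory Set Filter Topology
open scoped ENNReal NNReal

namespace Pool.Agent.Work.MP_8495a2_pr

theorem rho_cube (α j : ℕ) :
    (rho α j : ℝ) ^ 3 = (1 / 2) ^ (3 * (4 * (α * j ^ 6) + 1)) := by
  rw [rho_cast, ← pow_mul, mul_comm]

theorem rho_cube_eq (α j : ℕ) : (rho α j : ℝ) ^ 3 = 1 / (8 * (vv α j : ℝ) ^ 12) := by
  rw [rho_eq, div_pow, one_pow]; congr 1; ring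

theorem two_pow_level (α j : ℕ) : 2 ^ (3 * (4 * (α * j ^ 6) + 1)) = 8 * vv α j ^ 12 := by
  unfold vv; rw [← pow_mul, show 8 = 2 ^ 3 by norm_num, ← pow_add]; congr 1; ring

theorem gauge_le {α j : ℕ} (hα : 1 ≤ α) (hj : 1 ≤ j) :
    gauge ((rho α j : ℝ) ^ 3) ≤ 16 * α * ((j : ℝ) ^ 4 * rho α j) := by
  have hρ := rho_pos α j
  have hα' : (1 : ℝ) ≤ α := by exact_mod_cast hα
  have hj' : (1 : ℝ) ≤ j := by exact_mod_cast hj
  have hj6 : (1 : ℝ) ≤ (j : ℝ) ^ 6 := one_le_pow₀ hj'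
  unfold gauge
  have e1 : ((rho α j : ℝ) ^ 3) ^ (1 / 3 : ℝ) = rho α j := by
    rw [← Real.rpow_natCast, ← Real.rpow_mul hρ.le]; norm_num
  have e2 : Real.log (2 / (rho α j : ℝ) ^ 3) =
      ((3 * (4 * (α * j ^ 6) + 1) + 1 : ℕ) : ℝ) * Real.log 2 := by
    rw [← Real.log_pow, rho_cube]; congr 1
    rw [one_div, inv_pow, div_inv_eq_mul, pow_succ (2 : ℝ) (3 * _), mul_comm]
  have hl2 : Real.log 2 ≤ 1 := by linarith only [Real.log_two_lt_d9]
  have hl0 : 0 < Real.log 2 := Real.log_pos (by norm_num)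
  have hαj : (1 : ℝ) ≤ α * (j : ℝ) ^ 6 := one_le_mul_of_one_le_of_one_le hα' hj6
  have e3 : Real.log (2 / (rho α j : ℝ) ^ 3) ≤ 16 * α * (j : ℝ) ^ 6 := by
    clear * - α j e2 hl2 hα hj hαj
    rw [e2]; push_cast
    calc (3 * (4 * ((α : ℝ) * (j : ℝ) ^ 6) + 1) + 1) * Real.log 2
        ≤ (3 * (4 * ((α : ℝ) * (j : ℝ) ^ 6) + 1) + 1) * 1 := by gcongr
      _ ≤ _ := by linarith only [hαj]
  have e0 : 0 ≤ Real.log (2 / (rho α j : ℝ) ^ 3) := by rw [e2]; positivity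
  have e4 : Real.log (2 / (rho α j : ℝ) ^ 3) ^ (2 / 3 : ℝ) ≤ 16 * α * (j : ℝ) ^ 4 := by
    clear * - α j e0 e3 hα hj hα'
    calc _ ≤ (16 * α * (j : ℝ) ^ 6) ^ (2 / 3 : ℝ) := Real.rpow_le_rpow e0 e3 (by norm_num)
      _ = (16 * α : ℝ) ^ (2 / 3 : ℝ) * (j : ℝ) ^ 4 := by
          rw [Real.mul_rpow (by positivity) (by positivity), ← Real.rpow_natCast (j : ℝ) 6,
            ← Real.rpow_mul (by positivity), ← Real.rpow_natCast (j : ℝ) 4]
          norm_num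
      _ ≤ _ := by
          gcongr
          exact Real.rpow_le_self_of_one_le (by linarith only [hα']) (by norm_num)
  rw [e1]
  calc (rho α j : ℝ) * _ ≤ (rho α j : ℝ) * (16 * α * (j : ℝ) ^ 4) := by gcongr
    _ = _ := by ring

theorem gauge_pos {r : ℝ} (h0 : 0 < r) (h1 : r ≤ 1) : 0 < gauge r := by
  unfold gauge
  have : 0 < Real.log (2 / r) := Real.log_pos (by rw [lt_div_iff₀ h0]; linarith)
  positivity

/-- Rounding to the lattice. -/
noncomputable def rnd (R n : ℕ) (x : ℝ) : Fin (2 * n + 1) :=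
  ⟨min ⌊(x + R) * n / R⌋₊ (2 * n), Nat.lt_succ_of_le (min_le_right _ _)⟩

theorem rnd_val {R n : ℕ} (hR : 1 ≤ R) {x : ℝ} (hx : |x| ≤ R) :
    (rnd R n x : ℕ) = ⌊(x + R) * n / R⌋₊ := by
  have hR' : (0 : ℝ) < R := by exact_mod_cast hR
  refine min_eq_left (Nat.floor_le_of_le ?_)
  rw [div_le_iff₀ hR']; push_cast
  have := (abs_le.1 hx).2
  have hn : (0 : ℝ) ≤ n := by positivity
  linarith only [this, mul_nonneg_of_nonpos_of_nonpos (Mathlib.Tactic.Linarith.sub_nonpos_of_le (Mathlib.Tactic.Linarith.natCast_nonneg ℝ n)) (Mathlib.Tactic.Linarith.sub_nonpos_of_le this)]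

theorem rnd_bounds {R n : ℕ} (hR : 1 ≤ R) {x : ℝ} (hx : |x| ≤ R) :
    ((rnd R n x : ℕ) : ℝ) ≤ (x + R) * n / R ∧ (x + R) * n / R < ((rnd R n x : ℕ) : ℝ) + 1 := by
  have h := (abs_le.1 hx).1
  rw [rnd_val hR hx]
  exact ⟨Nat.floor_le (by have : 0 ≤ x + R := by linarith only [h]
                          positivity), Nat.lt_floor_add_one _⟩

theorem tendsto_latt_rnd {R : ℕ} (hR : 1 ≤ R) {x : ℝ} (hx : |x| ≤ R) :
    Tendsto (fun n => latt R n (rnd R n x)) atTop (𝓝 x) := by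
  have hR' : (0 : ℝ) < R := by exact_mod_cast hR
  have h0 : Tendsto (fun n : ℕ => x - R / n) atTop (𝓝 x) := by
    simpa using (tendsto_const_div_atTop_nhds_zero_nat (R : ℝ)).const_sub x
  refine tendsto_of_tendsto_of_tendsto_of_le_of_le' h0 tendsto_const_nhds ?_ ?_
  · filter_upwards [eventually_ge_atTop 1] with n hn
    have hn' : (0 : ℝ) < n := by exact_mod_cast hn
    have h := (rnd_bounds (n := n) hR hx).2
    rw [div_lt_iff₀ hR'] at h
    unfold latt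
    rw [le_div_iff₀ hn', sub_mul, div_mul_cancel₀ _ hn'.ne']
    linarith only [h]
  · filter_upwards [eventually_ge_atTop 1] with n hn
    have hn' : (0 : ℝ) < n := by exact_mod_cast hn
    have h := (rnd_bounds (n := n) hR hx).1
    rw [le_div_iff₀ hR'] at h
    unfold latt
    rw [div_le_iff₀ hn']
    linarith only [h]

theorem dist_rnd_le {R n : ℕ} (hR : 1 ≤ R) {x y : ℝ} (hx : |x| ≤ R) (hy : |y| ≤ R) {W : ℕ}
    (h : |x - y| * n / R + 1 ≤ W) : Nat.dist (rnd R n x) (rnd R n y) ≤ W := by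
  have hR' : (0 : ℝ) < R := by exact_mod_cast hR
  have hn : (0 : ℝ) ≤ n := by positivity
  obtain ⟨a1, a2⟩ := rnd_bounds (n := n) hR hx
  obtain ⟨b1, b2⟩ := rnd_bounds (n := n) hR hy
  have e1 : (x - y) * n / R ≤ |x - y| * n / R := by gcongr; exact le_abs_self _
  have e2 : -(x - y) * n / R ≤ |x - y| * n / R := by gcongr; exact neg_le_abs _
  have e3 : (x + R) * n / R - (y + R) * n / R = (x - y) * n / R := by ring
  have e4 : (y + R) * n / R - (x + R) * n / R = -(x - y) * n / R := by ring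
  have c1 : ((rnd R n x : ℕ) : ℝ) ≤ (rnd R n y : ℕ) + W := by linarith only [h, a1, b2, e1, e3]
  have c2 : ((rnd R n y : ℕ) : ℝ) ≤ (rnd R n x : ℕ) + W := by linarith only [h, a2, b1, e2, e4]
  have d1 : (rnd R n x : ℕ) ≤ (rnd R n y : ℕ) + W := by exact_mod_cast c1
  have d2 : (rnd R n y : ℕ) ≤ (rnd R n x : ℕ) + W := by exact_mod_cast c2
  unfold Nat.dist; omega

theorem sum_range_mul' (f : ℕ → ℝ) (q m : ℕ) :
    ∑ β ∈ Finset.range q, ∑ k ∈ Finset.range m, f (β * m + k) = ∑ k ∈ Finset.range (q * m), f k := by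
  induction q with
  | zero => simp
  | succ q ih => rw [Finset.sum_range_succ, ih, add_mul, one_mul, Finset.sum_range_add]

/-- The displacement of the path over one strip. -/
theorem step_le {l : Up → ℝ} {K R α j B : ℕ} (hα : 1 ≤ α)
    (hj : 1 ≤ j) (hB : 6 * (1 + 16 * α * K * (1 + 2 * R)) ≤ B) {x y : ℝ} (hu : UBat l K x y)
    (hx : |x| ≤ R) (hy : |y| ≤ R) {k : ℕ} (hk : k < 4 * vv α j ^ 12)
    (hw : -((j : ℝ) ^ 4 * rho α j / 4) ≤ ev l x (1 / 4 + k * (rho α j : ℝ) ^ 3) y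
      (1 / 4 + k * (rho α j : ℝ) ^ 3 + (rho α j : ℝ) ^ 3)) :
    |x - y| ≤ B * (j : ℝ) ^ 3 * (rho α j : ℝ) ^ 2 := by
  have hρ := rho_pos α j
  have hv : (0 : ℝ) < vv α j := by exact_mod_cast vv_pos α j
  have hα' : (1 : ℝ) ≤ α := by exact_mod_cast hα
  have hj' : (1 : ℝ) ≤ j := by exact_mod_cast hj
  have h := hu (3 * (4 * (α * j ^ 6) + 1)) (2 * vv α j ^ 12 + k) (by rw [two_pow_level]; omega)
  have e2 : (2 : ℝ) ^ (3 * (4 * (α * j ^ 6) + 1)) = 8 * (vv α j : ℝ) ^ 12 := by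
    exact_mod_cast two_pow_level α j
  have e3 : ((2 * vv α j ^ 12 + k : ℕ) : ℝ) / (8 * (vv α j : ℝ) ^ 12) =
      1 / 4 + k * (rho α j : ℝ) ^ 3 := by
    rw [rho_cube_eq]; push_cast; field_simp; ring
  have e4 : (((2 * vv α j ^ 12 + k : ℕ) : ℝ) + 1) / (8 * (vv α j : ℝ) ^ 12) =
      1 / 4 + k * (rho α j : ℝ) ^ 3 + (rho α j : ℝ) ^ 3 := by
    rw [add_div, e3, rho_cube_eq]
  rw [sig_three_mul, ← rho_cast, e2, e3, e4] at h
  have e5 : 8 * (vv α j : ℝ) ^ 12 * (rho α j : ℝ) ^ 3 = 1 := by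
    rw [rho_cube_eq]; field_simp
  set ρ : ℝ := ((rho α j : ℚ) : ℝ)
  have hj6 : (1 : ℝ) ≤ (j : ℝ) ^ 6 := one_le_pow₀ hj'
  have hαj : (1 : ℝ) ≤ α * (j : ℝ) ^ 6 := one_le_mul_of_one_le_of_one_le hα' hj6
  have f1 : (1 + ((3 * (4 * (α * j ^ 6) + 1) : ℕ) : ℝ)) ≤ 16 * α * (j : ℝ) ^ 6 := by
    clear * - α j hαj
    push_cast; linarith
  have f2 : (K : ℝ) * (1 + ((3 * (4 * (α * j ^ 6) + 1) : ℕ) : ℝ)) * ρ * (1 + |x| + |y|) ≤
      K * (16 * α * (j : ℝ) ^ 6) * ρ * (1 + 2 * R) := by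
    clear * - x y R hx hy K α j ρ f1 hρ hα hj
    have : 1 + |x| + |y| ≤ 1 + 2 * R := by linarith only [hx, hy]
    gcongr
  have f3 : (j : ℝ) ^ 4 * ρ / 4 ≤ (j : ℝ) ^ 6 * ρ := by
    clear * - j hj' ρ hρ hj
    have : (j : ℝ) ^ 4 ≤ (j : ℝ) ^ 6 := pow_le_pow_right₀ hj' (by norm_num)
    have h4 : (j : ℝ) ^ 4 * ρ ≤ (j : ℝ) ^ 6 * ρ := by gcongr
    have : 0 ≤ (j : ℝ) ^ 4 * ρ := by positivity
    linarith only [h4, this]
  have hB' : (6 : ℝ) * (1 + 16 * α * K * (1 + 2 * R)) ≤ B := by exact_mod_cast hB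
  have hB1 : (1 : ℝ) ≤ B := by
    clear * - α K R hα B hB'
    have : (0 : ℝ) ≤ 16 * α * K * (1 + 2 * R) := by positivity
    linarith only [hB', this]
  have f4 : (x - y) ^ 2 * (8 * (vv α j : ℝ) ^ 12) ≤ B * ((j : ℝ) ^ 6 * ρ) := by
    clear * - x y α j K R ρ B l k hw h f2 f3 hB' hj hρ
    calc _ ≤ 6 * (1 + 16 * α * K * (1 + 2 * R)) * ((j : ℝ) ^ 6 * ρ) := by linarith only [hw, h, f2, f3]
      _ ≤ _ := by gcongr
  have f5 : (x - y) ^ 2 ≤ (B * (j : ℝ) ^ 3 * ρ ^ 2) ^ 2 := by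
    clear * - x y B j ρ α e5 f4 hρ hB1 hj
    calc (x - y) ^ 2 = (x - y) ^ 2 * (8 * (vv α j : ℝ) ^ 12) * ρ ^ 3 := by
          rw [mul_assoc, e5, mul_one]
      _ ≤ B * ((j : ℝ) ^ 6 * ρ) * ρ ^ 3 := by gcongr
      _ = B * 1 * ((j : ℝ) ^ 6 * ρ ^ 4) := by ring
      _ ≤ B * B * ((j : ℝ) ^ 6 * ρ ^ 4) := by gcongr
      _ = _ := by ring
  exact abs_le_of_sq_le_sq f5 (by positivity)

/-- A path with small weight increments produces a capped chain of bounded total loss. -/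
theorem bad_chain {l : Up → ℝ} (hl : Continuous l) {K R α j B : ℕ} (hR : 1 ≤ R) (hα : 1 ≤ α)
    (hj : 1 ≤ j) (hB : 6 * (1 + 16 * α * K * (1 + 2 * R)) ≤ B) (hu : ∀ x y, UBat l K x y)
    {π w : ℝ → ℝ} (hπ : ∀ t ∈ Icc (0 : ℝ) 1, |π t| ≤ R)
    (hw : ∀ s t, 0 < s → s < t → t < 1 → w t - w s = ev l (π s) s (π t) t)
    (hK : ∀ t ∈ Icc (1 / 4 : ℝ) (3 / 4), |w t| ≤ K)
    (hm : ∀ s ∈ Icc (0 : ℝ) 1, s + (rho α j : ℝ) ^ 3 ≤ 1 →
      |w (s + (rho α j : ℝ) ^ 3) - w s| ≤ (j : ℝ) ^ 4 * rho α j / 4) :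
    ∀ᶠ n : ℕ in atTop, ∀ i i' : ℕ, i + i' ≤ 4 * vv α j ^ 9 →
      -(2 * K + 1 : ℝ) ≤ blkSum α j B R n i i' l := by
  have hρ := rho_pos α j
  have hv : (0 : ℝ) < vv α j := by exact_mod_cast vv_pos α j
  have hR' : (0 : ℝ) < R := by exact_mod_cast hR
  have e5 : 8 * (vv α j : ℝ) ^ 12 * (rho α j : ℝ) ^ 3 = 1 := by
    rw [rho_cube_eq]; field_simp
  have hB1 : 1 ≤ B * j ^ 3 := Nat.mul_pos (by omega) (by positivity)
  have hB1' : (1 : ℝ) ≤ B * (j : ℝ) ^ 3 := by exact_mod_cast hB1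
  set T : ℕ := 4 * vv α j ^ 12 with hT
  have hT0 : (0 : ℝ) < T := by rw [hT]; push_cast; positivity
  have hstep := fun (x y : ℝ) hx hy (k : ℕ) hk hw =>
    step_le (l := l) (R := R) hα hj hB (hu x y) hx hy (k := k) hk hw
  unfold blkSum
  set ρ : ℝ := ((rho α j : ℚ) : ℝ)
  have hr : 0 < ρ ^ 3 := by positivity
  set t : ℕ → ℝ := fun k => 1 / 4 + k * ρ ^ 3 with ht
  have hts : ∀ k, t (k + 1) = t k + ρ ^ 3 := fun k => by simp only [ht]; push_cast; ring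
  have htm : ∀ k ≤ T, t k ∈ Icc (1 / 4 : ℝ) (3 / 4) := fun k hk => by
    clear * - k α j hk ρ hρ t ht e5
    have h1 : (k : ℝ) ≤ 4 * (vv α j : ℝ) ^ 12 := by exact_mod_cast hk
    have h2 : (k : ℝ) * ρ ^ 3 ≤ 4 * (vv α j : ℝ) ^ 12 * ρ ^ 3 := by gcongr
    have h3 : 0 ≤ (k : ℝ) * ρ ^ 3 := by positivity
    constructor <;> simp only [ht] <;> linarith only [h3, e5, h2]
  have htm' : ∀ k ≤ T, t k ∈ Icc (0 : ℝ) 1 := fun k hk =>
    ⟨by linarith only [htm, hk, (htm k hk).1], by linarith only [htm, hk, (htm k hk).2]⟩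
  have hwk : ∀ k < T, w (t (k + 1)) - w (t k) = ev l (π (t k)) (t k) (π (t (k + 1))) (t (k + 1)) :=
    fun k hk => hw _ _ (by linarith only [htm, hk, (htm k hk.le).1]) (by rw [hts]; linarith only [hr])
      (by linarith only [htm, hk, (htm (k + 1) hk).2])
  have hmk : ∀ k < T, |w (t (k + 1)) - w (t k)| ≤ (j : ℝ) ^ 4 * ρ / 4 := fun k hk => by
    rw [hts]; exact hm _ (htm' k hk.le) (by rw [← hts]; exact (htm' (k + 1) hk).2)
  have hd : ∀ k < T, |π (t k) - π (t (k + 1))| ≤ B * (j : ℝ) ^ 3 * ρ ^ 2 := fun k hk => by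
    refine hstep _ _ (hπ _ (htm' k hk.le)) (hπ _ (htm' (k + 1) hk)) k hk ?_
    have h1 := (abs_le.1 (hmk k hk)).1
    rw [hwk k hk] at h1
    have : t (k + 1) = 1 / 4 + k * ρ ^ 3 + ρ ^ 3 := hts k
    rw [← this]; exact h1
  have hev : ∀ᶠ n : ℕ in atTop, ∀ k ∈ Finset.range T, w (t (k + 1)) - w (t k) - 1 / T ≤
      ev l (latt R n (rnd R n (π (t k)))) (t k) (latt R n (rnd R n (π (t (k + 1))))) (t (k + 1)) := by
    clear * - T w t l R π hl ρ hts hr hR hπ htm' hwk hT0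
    refine (eventually_all_finset _).2 fun k hk => ?_
    have hk := Finset.mem_range.1 hk
    have := tendsto_ev hl (show t k < t (k + 1) by rw [hts]; linarith only [hr])
      (tendsto_latt_rnd hR (hπ _ (htm' k hk.le))) tendsto_const_nhds
      (tendsto_latt_rnd hR (hπ _ (htm' (k + 1) hk))) tendsto_const_nhds
    refine this.eventually (eventually_ge_nhds ?_)
    rw [← hwk k hk]
    have : (0 : ℝ) < 1 / T := by positivity
    linarith only [this]
  have hn1 : ∀ᶠ n : ℕ in atTop, 1 ≤ ρ ^ 2 * n / R :=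
    ((tendsto_natCast_atTop_atTop.const_mul_atTop (by positivity : 0 < ρ ^ 2)).atTop_div_const
      hR').eventually_ge_atTop 1
  filter_upwards [hev, hn1] with n h1 h2 i i' hi
  have hq : vv α j ^ 3 * (i + i') ≤ T := by
    calc _ ≤ vv α j ^ 3 * (4 * vv α j ^ 9) := Nat.mul_le_mul_left _ hi
      _ = T := by rw [hT]; ring
  set a : ℕ → Fin (2 * n + 1) := fun k => rnd R n (π (t k)) with ha
  have hdist : ∀ k < T, Nat.dist (a k) (a (k + 1)) ≤ B * j ^ 3 * gg R n ρ := fun k hk => by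
    clear * - R n hR π t k hπ htm' T hk B j ρ hd hB1' h2
    refine dist_rnd_le hR (hπ _ (htm' k hk.le)) (hπ _ (htm' (k + 1) hk)) ?_
    have g1 : 2 * ρ ^ 2 * n / R ≤ gg R n ρ := Nat.le_ceil _
    have g2 : |π (t k) - π (t (k + 1))| * n / R ≤ B * (j : ℝ) ^ 3 * ρ ^ 2 * n / R := by
      have := hd k hk
      gcongr
    have g3 : (1 : ℝ) * 1 ≤ B * (j : ℝ) ^ 3 * (ρ ^ 2 * n / R) := by gcongr
    push_cast
    calc _ ≤ B * (j : ℝ) ^ 3 * ρ ^ 2 * n / R + B * (j : ℝ) ^ 3 * (ρ ^ 2 * n / R) := by linarith only [g2, g3]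
      _ = B * (j : ℝ) ^ 3 * (2 * ρ ^ 2 * n / R) := by ring
      _ ≤ _ := by gcongr
  have hblk : ∀ β ∈ Finset.range (vv α j ^ 3),
      ∑ k ∈ Finset.range (i + i'), (w (t (β * (i + i') + k + 1)) - w (t (β * (i + i') + k)) - 1 / T)
      ≤ blk (latt R n) (ρ ^ 3) (B * j ^ 3 * gg R n ρ) ((j : ℝ) ^ 4 * ρ / 4) ((j : ℝ) ^ 4 * ρ / 2)
        i i' (1 / 4 + β * ((i + i') * ρ ^ 3)) l := fun β hβ => by
    clear * - β α j hβ i i' T K R B hq w t l n a ρ ht hts h1 hmk hT0 hj hρ hdist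
    have hβ := Finset.mem_range.1 hβ
    have hlt : ∀ k < i + i', β * (i + i') + k < T := fun k hk =>
      calc β * (i + i') + k < (β + 1) * (i + i') := by rw [add_mul, one_mul]; omega
        _ ≤ vv α j ^ 3 * (i + i') := Nat.mul_le_mul_right _ hβ
        _ ≤ T := hq
    refine le_trans (Finset.sum_le_sum fun k hk => ?_) (chain_le_blk (latt R n) _ _ _ (ρ ^ 3)
      (by have : 0 ≤ (j : ℝ) ^ 4 * ρ := by positivity
          linarith only [this]) i i' _ l (fun k => a (β * (i + i') + k)) fun k hk => hdist _ (hlt k hk))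
    have hk := hlt k (Finset.mem_range.1 hk)
    have e1 : 1 / 4 + β * ((i + i') * ρ ^ 3) + k * ρ ^ 3 = t (β * (i + i') + k) := by
      simp only [ht]; push_cast; ring
    rw [e1, ← hts]
    refine le_min (h1 _ (Finset.mem_range.2 hk)) ?_
    have := (abs_le.1 (hmk _ hk)).2
    have : (0 : ℝ) < 1 / T := by positivity
    linarith
  refine le_trans ?_ (Finset.sum_le_sum hblk)
  rw [sum_range_mul' (fun k => w (t (k + 1)) - w (t k) - 1 / T), Finset.sum_sub_distrib,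
    Finset.sum_range_sub (fun k => w (t k)), Finset.sum_const, Finset.card_range, nsmul_eq_mul]
  have g1 := (abs_le.1 (hK _ (htm _ hq))).1
  have g2 := (abs_le.1 (hK _ (htm 0 (Nat.zero_le _)))).2
  have g3 : ((vv α j ^ 3 * (i + i') : ℕ) : ℝ) * (1 / T) ≤ 1 := by
    rw [mul_one_div, div_le_one hT0]; exact_mod_cast hq
  linarith only [g1, g2, g3]

end Pool.Agent.Work.MP_8495a2_pr
end

-- merged part: Pool.Agent.Work.MP_8495a2_pr.Geo
section
open MeasureTheory ProbabilityTheory Set Filter Topology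
open scoped ENNReal NNReal

namespace Pool.Agent.Work.MP_8495a2_pr

variable {l : Up → ℝ}

/-- The value of the strip `i` of level `j` along the dyadic points `P`. -/
noncomputable def stripW (l : Up → ℝ) (P : ℕ → ℕ → ℝ) (j i : ℕ) : ℝ :=
  ev l (P j i) (i / 2 ^ j) (P j (i + 1)) ((i + 1) / 2 ^ j)

theorem geo_pts (hm : Mid l) : ∃ P : ℕ → ℕ → ℝ, (∀ i, P 0 i = 0) ∧
    (∀ j i, P (j + 1) (2 * i) = P j i) ∧
    ∀ j i, i < 2 ^ j → stripW l P j i ≤ stripW l P (j + 1) (2 * i) + stripW l P (j + 1) (2 * i + 1) := by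
  choose! m hm using hm
  let P : ℕ → ℕ → ℝ := fun j => Nat.rec (fun _ => 0) (fun j Q i =>
    if i % 2 = 0 then Q (i / 2) else m j (i / 2) (Q (i / 2)) (Q (i / 2 + 1))) j
  have h1 : ∀ j i, P (j + 1) (2 * i) = P j i := fun j i => by
    change (if 2 * i % 2 = 0 then P j (2 * i / 2) else _) = _
    rw [if_pos (by omega), show 2 * i / 2 = i by omega]
  have h2 : ∀ j i, P (j + 1) (2 * i + 1) = m j i (P j i) (P j (i + 1)) := fun j i => by
    change (if (2 * i + 1) % 2 = 0 then _ else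
      m j ((2 * i + 1) / 2) (P j ((2 * i + 1) / 2)) (P j ((2 * i + 1) / 2 + 1))) = _
    rw [if_neg (by omega), show (2 * i + 1) / 2 = i by omega]
  refine ⟨P, fun _ => rfl, h1, fun j i hi => ?_⟩
  have e1 : (((2 * i : ℕ) : ℝ)) / 2 ^ (j + 1) = i / 2 ^ j := by
    push_cast
    rw [pow_succ]
    field_simp
  have e2 : (((2 * i + 1 : ℕ) : ℝ) + 1) / 2 ^ (j + 1) = (i + 1) / 2 ^ j := by
    push_cast
    rw [pow_succ]
    field_simp
    ring
  unfold stripW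
  rw [e1, e2, show 2 * i + 1 + 1 = 2 * (i + 1) by ring, h1, h1, h2]
  push_cast
  exact hm j i hi _ _

theorem geo_step {a b z Y κ N δ K w w1 w2 : ℝ} (hY : 1 ≤ Y) (ha : |a| ≤ Y) (hb : |b| ≤ Y)
    (hw : -w ≤ Y) (hK : 0 ≤ K) (hδ : 0 < δ) (hδ1 : δ ≤ 1) (hN : 1 ≤ N * δ ^ 2) (hκ0 : 0 ≤ κ)
    (hκ : κ ≤ K * δ) (h : w ≤ w1 + w2) (h1 : w1 ≤ -((a - z) ^ 2 * N / 6) + κ * (1 + |a| + |z|))
    (h2 : w2 ≤ -((z - b) ^ 2 * N / 6) + κ * (1 + |z| + |b|)) :
    |a - z| ≤ (6 + 48 * K) * δ * Y ∧ -w1 ≤ Y * (1 + K * (9 + 48 * K) * δ) := by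
  have hN0 : 0 ≤ N := by
    clear * - N δ hN
    by_contra hn
    linarith only [hN, hn, sq_nonneg δ, mul_nonneg_of_nonpos_of_nonpos (Mathlib.Tactic.Linarith.sub_nonpos_of_le (sq_nonneg δ)) (le_of_lt (Mathlib.Tactic.Linarith.sub_neg_of_lt (lt_of_not_ge hn)))]
  have hz : |z| ≤ Y + |a - z| := by
    have := abs_sub a (a - z)
    rw [sub_sub_cancel] at this
    linarith only [ha, this]
  have h3 : 0 ≤ (z - b) ^ 2 * N / 6 := by positivity
  rw [← sq_abs (a - z)] at h1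
  have hd := abs_nonneg (a - z)
  generalize |a - z| = d at *
  have hκ1 : κ ≤ K := hκ.trans (mul_le_of_le_one_right hK hδ1)
  have k1 : κ * (1 + |a| + |z|) ≤ K * (3 * Y + d) :=
    mul_le_mul hκ1 (by linarith only [hY, ha, hz]) (by positivity) hK
  have k2 : κ * (1 + |z| + |b|) ≤ K * δ * (3 * Y + d) :=
    mul_le_mul hκ (by linarith only [hY, hb, hz]) (by positivity) (by positivity)
  have k3 : K * δ * (3 * Y + d) ≤ K * (3 * Y + d) :=
    mul_le_mul_of_nonneg_right (mul_le_of_le_one_right hK hδ1) (by linarith only [hY, hd])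
  have k4 : d ^ 2 * N ≤ 6 * (Y + 2 * (K * (3 * Y + d))) := by linarith only [hw, h, h2, h3, h1, k1, k2, k3]
  have k5 : d ^ 2 ≤ δ ^ 2 * (6 * (Y + 2 * (K * (3 * Y + d)))) :=
    calc d ^ 2 ≤ d ^ 2 * (N * δ ^ 2) := le_mul_of_one_le_right (sq_nonneg d) hN
      _ = δ ^ 2 * (d ^ 2 * N) := by ring
      _ ≤ _ := mul_le_mul_of_nonneg_left k4 (sq_nonneg δ)
  have hd1 : d ≤ (6 + 48 * K) * δ * Y := by
    clear * - d K δ Y hδ hY κ hκ0 hκ hd hδ1 hK k5
    by_contra hc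
    rw [not_le] at hc
    have p0 : 0 < δ * Y := by positivity
    have p1 : δ * Y ≤ d := by linarith only [hκ0, hκ, hc, p0, hY, mul_nonneg_of_nonpos_of_nonpos (Mathlib.Tactic.Linarith.sub_nonpos_of_le hY) (Mathlib.Tactic.Linarith.sub_nonpos_of_le hκ0), mul_nonneg_of_nonpos_of_nonpos (Mathlib.Tactic.Linarith.sub_nonpos_of_le hY) (Mathlib.Tactic.Linarith.sub_nonpos_of_le hκ)]
    have p2 : δ * d ≤ d := mul_le_of_le_one_left hd hδ1
    have p3 : δ * (6 * (Y + 2 * (K * (3 * Y + d)))) ≤ (6 + 48 * K) * d := by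
      have q1 := mul_le_mul_of_nonneg_left p1 hK
      have q2 := mul_le_mul_of_nonneg_left p2 hK
      linarith only [p1, q1, q2]
    have p4 : d * d ≤ (6 + 48 * K) * δ * d := by
      have := mul_le_mul_of_nonneg_left p3 hδ.le
      linarith only [k5, this]
    have p5 : d ≤ (6 + 48 * K) * δ := le_of_mul_le_mul_right p4 (p0.trans_le p1)
    have p6 : (6 + 48 * K) * δ ≤ (6 + 48 * K) * δ * Y := le_mul_of_one_le_right (by positivity) hY
    linarith
  refine ⟨hd1, ?_⟩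
  have k6 : (6 + 48 * K) * δ * Y ≤ (6 + 48 * K) * Y :=
    mul_le_mul_of_nonneg_right (mul_le_of_le_one_right (by positivity) hδ1) (by linarith only [hY])
  have k7 : K * δ * (3 * Y + d) ≤ K * δ * (3 * Y + (6 + 48 * K) * Y) :=
    mul_le_mul_of_nonneg_left (by linarith only [hd1, k6]) (by positivity)
  clear * - w1 Y K δ w w2 z b N κ d hw h h2 h3 k2 k7
  linarith only [hw, h, h2, h3, k2, k7]

theorem geo_kappa {K : ℝ} (hK : 0 ≤ K) (j : ℕ) :
    K * (1 + j) * sig j ≤ 8 * K * (9 / 10 : ℝ) ^ j := by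
  have h1 : 1 + (j : ℝ) * (1 / 8) ≤ (1 + 1 / 8) ^ j := one_add_mul_le_pow (by norm_num) j
  have h2 : (1 + (j : ℝ)) ≤ 8 * (1 + 1 / 8) ^ j := by linarith only [h1]
  calc K * (1 + j) * sig j ≤ K * (8 * (1 + 1 / 8) ^ j) * (4 / 5 : ℝ) ^ j :=
        mul_le_mul (mul_le_mul_of_nonneg_left h2 hK) (sig_le j) (sig_pos j).le (by positivity)
    _ = 8 * K * ((1 + 1 / 8) * (4 / 5) : ℝ) ^ j := by rw [mul_pow]; ring
    _ = _ := by norm_num

theorem geo_jump {K : ℝ} (hK : 0 ≤ K) (hu : ∀ x y, UBat l K x y) {P : ℕ → ℕ → ℝ}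
    (h0 : ∀ i, P 0 i = 0) (h1 : ∀ j i, P (j + 1) (2 * i) = P j i)
    (h2 : ∀ j i, i < 2 ^ j →
      stripW l P j i ≤ stripW l P (j + 1) (2 * i) + stripW l P (j + 1) (2 * i + 1)) :
    ∃ D : ℝ, 0 ≤ D ∧ ∀ j i, i < 2 ^ j → |P j i - P j (i + 1)| ≤ D * (9 / 10 : ℝ) ^ j := by
  obtain ⟨K', hK'⟩ : ∃ K', K' = 8 * K := ⟨_, rfl⟩
  have hK0 : 0 ≤ K' := by rw [hK']; positivity
  obtain ⟨M, hM⟩ : ∃ M, M = (6 + 48 * K') + K' * (9 + 48 * K') := ⟨_, rfl⟩
  have hM0 : 0 ≤ M := by rw [hM]; positivity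
  obtain ⟨Y, hY⟩ : ∃ Y : ℕ → ℝ,
      Y = fun j => (1 + |stripW l P 0 0|) * Real.exp (9 * M * (1 - (9 / 10 : ℝ) ^ j)) := ⟨_, rfl⟩
  have q1 : ∀ j : ℕ, (9 / 10 : ℝ) ^ j ≤ 1 := fun j => pow_le_one₀ (by norm_num) (by norm_num)
  have q0 : ∀ j : ℕ, 0 < (9 / 10 : ℝ) ^ j := fun j => by positivity
  have y1 : ∀ j, 1 ≤ Y j := fun j => by
    rw [hY]
    exact one_le_mul_of_one_le_of_one_le (le_add_of_nonneg_right (abs_nonneg _))
      (Real.one_le_exp (mul_nonneg (by positivity) (sub_nonneg.2 (q1 j))))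
  have y2 : ∀ j, Y j ≤ (1 + |stripW l P 0 0|) * Real.exp (9 * M) := fun j => by
    rw [hY]
    exact mul_le_mul_of_nonneg_left (Real.exp_le_exp.2
      (mul_le_of_le_one_right (by positivity) (by linarith only [q0, q0 j]))) (by positivity)
  have y3 : ∀ j, Y j * (1 + M * (9 / 10 : ℝ) ^ (j + 1)) ≤ Y (j + 1) := fun j => by
    have e : Y (j + 1) = Y j * Real.exp (M * (9 / 10 : ℝ) ^ (j + 1)) := by
      rw [hY]
      beta_reduce
      rw [mul_assoc (1 + |stripW l P 0 0|), ← Real.exp_add]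
      congr 2
      ring
    rw [e]
    exact mul_le_mul_of_nonneg_left (by linarith only [Real.add_one_le_exp (M * (9 / 10 : ℝ) ^ (j + 1))])
      (by linarith only [y1, y1 j])
  have y4 : ∀ j, Y j ≤ Y (j + 1) := fun j =>
    (le_mul_of_one_le_right (by linarith [y1 j]) (le_add_of_nonneg_right (by positivity))).trans
      (y3 j)
  have step : ∀ j i, i < 2 ^ j → |P j i| ≤ Y j → |P j (i + 1)| ≤ Y j → -stripW l P j i ≤ Y j →
      (|P j i - P (j + 1) (2 * i + 1)| ≤ (6 + 48 * K') * (9 / 10 : ℝ) ^ (j + 1) * Y j ∧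
        -stripW l P (j + 1) (2 * i) ≤ Y j * (1 + K' * (9 + 48 * K') * (9 / 10 : ℝ) ^ (j + 1))) ∧
      |P j (i + 1) - P (j + 1) (2 * i + 1)| ≤ (6 + 48 * K') * (9 / 10 : ℝ) ^ (j + 1) * Y j ∧
        -stripW l P (j + 1) (2 * i + 1) ≤
          Y j * (1 + K' * (9 + 48 * K') * (9 / 10 : ℝ) ^ (j + 1)) := by
    clear * - P Y l K hu hK K' y1 hK0 q0 q1 hK' h2 h1
    intro j i hi ha hb hw
    have u1 : stripW l P (j + 1) (2 * i) ≤ _ := hu _ _ (j + 1) (2 * i) (by omega)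
    have u2 : stripW l P (j + 1) (2 * i + 1) ≤ _ := hu _ _ (j + 1) (2 * i + 1) (by omega)
    rw [h1] at u1
    rw [show 2 * i + 1 + 1 = 2 * (i + 1) by ring, h1] at u2
    have hN : (1 : ℝ) ≤ 2 ^ (j + 1) * ((9 / 10 : ℝ) ^ (j + 1)) ^ 2 := by
      rw [← pow_mul, mul_comm (j + 1) 2, pow_mul, ← mul_pow]
      exact one_le_pow₀ (by norm_num)
    have hκ := geo_kappa hK (j + 1)
    rw [← hK'] at hκ
    have hκ0 : 0 ≤ K * (1 + ((j + 1 : ℕ) : ℝ)) * sig (j + 1) :=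
      mul_nonneg (by positivity) (sig_pos _).le
    refine ⟨geo_step (y1 j) ha hb hw hK0 (q0 _) (q1 _) hN hκ0 hκ (h2 j i hi) u1 u2,
      geo_step (y1 j) hb ha hw hK0 (q0 _) (q1 _) hN hκ0 hκ ((h2 j i hi).trans_eq (add_comm _ _))
        (u2.trans_eq (by ring)) (u1.trans_eq (by ring))⟩
  have inv : ∀ j, (∀ i ≤ 2 ^ j, |P j i| ≤ Y j) ∧ ∀ i < 2 ^ j, -stripW l P j i ≤ Y j := by
    clear * - P Y l h0 y1 M hY K' hM hK0 q0 y3 h1 y4 step
    intro j
    induction j with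
    | zero =>
      refine ⟨fun i _ => by rw [h0, abs_zero]; linarith only [y1, y1 0], fun i hi => ?_⟩
      obtain rfl : i = 0 := by omega
      rw [hY]
      simp only [pow_zero, sub_self, mul_zero, Real.exp_zero, mul_one]
      linarith only [neg_abs_le (stripW l P 0 0)]
    | succ j ih =>
      have p0 : 0 ≤ Y j := by linarith [y1 j]
      have m1 : Y j * (1 + K' * (9 + 48 * K') * (9 / 10 : ℝ) ^ (j + 1)) ≤ Y (j + 1) := by
        refine le_trans (mul_le_mul_of_nonneg_left (add_le_add_right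
          (mul_le_mul_of_nonneg_right ?_ (q0 _).le) _) p0) (y3 j)
        rw [hM]
        exact le_add_of_nonneg_left (by positivity)
      have m2 : Y j + (6 + 48 * K') * (9 / 10 : ℝ) ^ (j + 1) * Y j ≤ Y (j + 1) := by
        refine le_trans ?_ (y3 j)
        have : 0 ≤ K' * (9 + 48 * K') * (9 / 10 : ℝ) ^ (j + 1) * Y j := by positivity
        rw [hM]
        linarith only [this]
      refine ⟨fun i hi => ?_, fun i hi => ?_⟩
      · obtain ⟨i, rfl | rfl⟩ := Nat.even_or_odd' i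
        · rw [h1]
          exact (ih.1 i (by omega)).trans (y4 j)
        · have hi' : i < 2 ^ j := by omega
          have s := (step j i hi' (ih.1 i hi'.le) (ih.1 _ hi') (ih.2 i hi')).1.1
          have := abs_sub (P j i) (P j i - P (j + 1) (2 * i + 1))
          rw [sub_sub_cancel] at this
          linarith only [m2, s, this, ih, hi', ih.1 i hi'.le]
      · obtain ⟨i, rfl | rfl⟩ := Nat.even_or_odd' i
        · have hi' : i < 2 ^ j := by omega
          exact (step j i hi' (ih.1 i hi'.le) (ih.1 _ hi') (ih.2 i hi')).1.2.trans m1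
        · have hi' : i < 2 ^ j := by omega
          exact (step j i hi' (ih.1 i hi'.le) (ih.1 _ hi') (ih.2 i hi')).2.2.trans m1
  refine ⟨(6 + 48 * K') * ((1 + |stripW l P 0 0|) * Real.exp (9 * M)), by positivity, fun j i hi => ?_⟩
  cases j with
  | zero =>
    rw [h0, h0, sub_self, abs_zero]
    positivity
  | succ j =>
    have m : (6 + 48 * K') * (9 / 10 : ℝ) ^ (j + 1) * Y j ≤
        (6 + 48 * K') * ((1 + |stripW l P 0 0|) * Real.exp (9 * M)) * (9 / 10 : ℝ) ^ (j + 1) := by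
      rw [mul_right_comm]
      exact mul_le_mul_of_nonneg_right (mul_le_mul_of_nonneg_left (y2 j) (by positivity)) (q0 _).le
    obtain ⟨i, rfl | rfl⟩ := Nat.even_or_odd' i
    · have hi' : i < 2 ^ j := by omega
      rw [h1]
      exact (step j i hi' ((inv j).1 i hi'.le) ((inv j).1 _ hi') ((inv j).2 i hi')).1.1.trans m
    · have hi' : i < 2 ^ j := by omega
      rw [show 2 * i + 1 + 1 = 2 * (i + 1) by ring, h1, abs_sub_comm]
      exact (step j i hi' ((inv j).1 i hi'.le) ((inv j).1 _ hi') ((inv j).2 i hi')).2.1.trans m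

theorem geo_limit {P : ℕ → ℕ → ℝ} {D : ℝ} (hD : 0 ≤ D) (h1 : ∀ j i, P (j + 1) (2 * i) = P j i)
    (h : ∀ j i, i < 2 ^ j → |P j i - P j (i + 1)| ≤ D * (9 / 10 : ℝ) ^ j) :
    ∃ γ : ℝ → ℝ, ContinuousOn γ (Icc 0 1) ∧
      ∀ t ∈ Icc (0 : ℝ) 1, Tendsto (fun j => P j ⌊t * 2 ^ j⌋₊) atTop (𝓝 (γ t)) := by
  have fl : ∀ t ∈ Icc (0 : ℝ) 1, ∀ j : ℕ, ⌊t * 2 ^ j⌋₊ ≤ 2 ^ j := fun t ht j =>
    Nat.floor_le_of_le (by
      push_cast
      exact mul_le_of_le_one_left (by positivity) ht.2)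
  have near : ∀ j a b : ℕ, a ≤ 2 ^ j → b ≤ 2 ^ j → a ≤ b + 1 → b ≤ a + 1 →
      |P j a - P j b| ≤ D * (9 / 10 : ℝ) ^ j := by
    intro j a b ha hb h2 h3
    rcases lt_trichotomy a b with k | rfl | k
    · obtain rfl : b = a + 1 := by omega
      exact h j a (by omega)
    · rw [sub_self, abs_zero]
      positivity
    · obtain rfl : a = b + 1 := by omega
      rw [abs_sub_comm]
      exact h j b (by omega)
  have cau : ∀ t ∈ Icc (0 : ℝ) 1, ∀ j : ℕ,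
      dist (P j ⌊t * 2 ^ j⌋₊) (P (j + 1) ⌊t * 2 ^ (j + 1)⌋₊) ≤ D * (9 / 10 : ℝ) ^ j := by
    intro t ht j
    have e : ⌊t * 2 ^ (j + 1)⌋₊ / 2 = ⌊t * 2 ^ j⌋₊ := by
      rw [← Nat.floor_div_natCast]
      congr 1
      push_cast
      ring
    have k := fl t ht j
    rw [Real.dist_eq, ← h1]
    refine (near _ _ _ (by omega) (fl t ht _) (by omega) (by omega)).trans ?_
    exact mul_le_mul_of_nonneg_left
      (pow_le_pow_of_le_one (by norm_num) (by norm_num) (Nat.le_succ j)) hD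
  have ex : ∀ t ∈ Icc (0 : ℝ) 1, ∃ a, Tendsto (fun j => P j ⌊t * 2 ^ j⌋₊) atTop (𝓝 a) :=
    fun t ht => cauchySeq_tendsto_of_complete
      (cauchySeq_of_le_geometric (9 / 10) D (by norm_num) (cau t ht))
  choose! γ hγ using ex
  refine ⟨γ, ?_, hγ⟩
  have tail : ∀ t ∈ Icc (0 : ℝ) 1, ∀ j : ℕ,
      |P j ⌊t * 2 ^ j⌋₊ - γ t| ≤ 10 * (D * (9 / 10 : ℝ) ^ j) := fun t ht j => by
    have := dist_le_of_le_geometric_of_tendsto (9 / 10) D (by norm_num) (cau t ht) (hγ t ht) j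
    rw [Real.dist_eq] at this
    exact this.trans_eq (by ring)
  have step : ∀ (s t : ℝ) (j : ℕ), 0 ≤ t → s - t < 1 / 2 ^ j →
      ⌊s * 2 ^ j⌋₊ ≤ ⌊t * 2 ^ j⌋₊ + 1 := fun s t j ht hst => by
    rw [← Nat.floor_add_one (by positivity)]
    refine Nat.floor_mono ?_
    rw [lt_div_iff₀ (by positivity)] at hst
    linarith
  refine Metric.continuousOn_iff.2 fun s hs ε hε => ?_
  have lim : Tendsto (fun j : ℕ => 21 * (D * (9 / 10 : ℝ) ^ j)) atTop (𝓝 (21 * (D * 0))) :=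
    ((tendsto_pow_atTop_nhds_zero_of_lt_one (by norm_num) (by norm_num)).const_mul D).const_mul 21
  obtain ⟨j, hj⟩ := (lim.eventually (gt_mem_nhds (by simpa using hε))).exists
  refine ⟨1 / 2 ^ j, by positivity, fun t ht hd => ?_⟩
  rw [Real.dist_eq] at hd ⊢
  have k1 := abs_lt.1 hd
  have k2 := abs_le.1 (near j _ _ (fl s hs j) (fl t ht j) (step s t j ht.1 (by linarith only [k1]))
    (step t s j hs.1 k1.2))
  have k3 := abs_le.1 (tail s hs j)
  have k4 := abs_le.1 (tail t ht j)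
  exact abs_lt.2 ⟨by linarith only [hj, k2, k3, k4], by linarith only [hj, k2, k3, k4]⟩

theorem geo_chain (ht : Tri l) (P : ℕ → ℕ → ℝ) (j : ℕ) {p q : ℕ} (h : p < q) :
    ∑ m ∈ Finset.Ico p q, stripW l P j m ≤ ev l (P j p) (p / 2 ^ j) (P j q) (q / 2 ^ j) := by
  induction q, h using Nat.le_induction with
  | base =>
    rw [Nat.succ_eq_add_one, Nat.Ico_succ_singleton, Finset.sum_singleton, stripW, Nat.cast_succ]
  | succ q hq ih =>
    have hq' : (p : ℝ) < q := by exact_mod_cast hq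
    rw [Finset.sum_Ico_succ_top (by omega), Nat.cast_succ]
    refine (add_le_add_left ih _).trans (ht _ _ _ _ _ _ ?_ ?_)
    · exact div_lt_div_of_pos_right hq' (by positivity)
    · exact div_lt_div_of_pos_right (lt_add_one _) (by positivity)

theorem geo_pair (f : ℕ → ℝ) (n : ℕ) :
    ∑ i ∈ Finset.range (2 * n), f i = ∑ i ∈ Finset.range n, (f (2 * i) + f (2 * i + 1)) := by
  induction n with
  | zero => rfl
  | succ n ih =>
    rw [show 2 * (n + 1) = 2 * n + 1 + 1 by ring, Finset.sum_range_succ, Finset.sum_range_succ,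
      Finset.sum_range_succ, ih, add_assoc]

theorem geo_sum {P : ℕ → ℕ → ℝ} (h0 : ∀ i, P 0 i = 0)
    (h2 : ∀ j i, i < 2 ^ j →
      stripW l P j i ≤ stripW l P (j + 1) (2 * i) + stripW l P (j + 1) (2 * i + 1)) (j : ℕ) :
    ev l 0 0 0 1 ≤ ∑ i ∈ Finset.range (2 ^ j), stripW l P j i := by
  induction j with
  | zero => simp [stripW, h0]
  | succ j ih =>
    rw [pow_succ', geo_pair]
    exact ih.trans (Finset.sum_le_sum fun i hi => h2 j i (Finset.mem_range.1 hi))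

theorem geo_split (ht : Tri l) (P : ℕ → ℕ → ℝ) (j : ℕ) {n : ℕ → ℕ} (h0 : n 0 = 0) (k : ℕ)
    (h : ∀ i < k, n i < n (i + 1)) : ∑ m ∈ Finset.range (n k), stripW l P j m ≤
      ∑ i ∈ Finset.range k,
        ev l (P j (n i)) (n i / 2 ^ j) (P j (n (i + 1))) (n (i + 1) / 2 ^ j) := by
  induction k with
  | zero => simp [h0]
  | succ k ih =>
    have h1 := h k (Nat.lt_succ_self k)
    rw [Finset.sum_range_succ, ← Finset.sum_range_add_sum_Ico _ h1.le]
    exact add_le_add (ih fun i hi => h i (by omega)) (geo_chain ht P j h1)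

/-- A path all of whose partition sums dominate the point-to-point value. -/
theorem exists_additive (hl : Continuous l) (ht : Tri l) {K : ℝ} (hK : 0 ≤ K)
    (hu : ∀ x y, UBat l K x y) (hm : Mid l) :
    ∃ γ, IsPath γ ∧ ∀ (k : ℕ) (τ : ℕ → ℝ), τ 0 = 0 → τ (k + 1) = 1 → (∀ i ≤ k, τ i < τ (i + 1)) →
      ev l 0 0 0 1 ≤
        ∑ i ∈ Finset.range (k + 1), ev l (γ (τ i)) (τ i) (γ (τ (i + 1))) (τ (i + 1)) := by
  obtain ⟨P, h0, h1, h2⟩ := geo_pts hm
  obtain ⟨D, hD, hj⟩ := geo_jump hK hu h0 h1 h2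
  obtain ⟨γ, hc, hγ⟩ := geo_limit hD h1 hj
  have fl : ∀ j : ℕ, ⌊(1 : ℝ) * 2 ^ j⌋₊ = 2 ^ j := fun j => by
    rw [one_mul, ← Nat.floor_natCast (R := ℝ) (2 ^ j)]
    push_cast
    rfl
  have z0 : ∀ j, P j 0 = 0 := fun j => by
    induction j with
    | zero => exact h0 0
    | succ j ih => exact (h1 j 0).trans ih
  have z1 : ∀ j, P j (2 ^ j) = 0 := fun j => by
    induction j with
    | zero => exact h0 _
    | succ j ih => rw [pow_succ', h1, ih]
  refine ⟨γ, ⟨hc, ?_, ?_⟩, fun k τ t0 t1 hτ => ?_⟩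
  · refine tendsto_nhds_unique (hγ 0 ⟨le_rfl, zero_le_one⟩) ?_
    simp only [zero_mul, Nat.floor_zero, z0]
    exact tendsto_const_nhds
  · refine tendsto_nhds_unique (hγ 1 ⟨zero_le_one, le_rfl⟩) ?_
    simp only [fl, z1]
    exact tendsto_const_nhds
  have mono : ∀ a b, a ≤ b → b ≤ k + 1 → τ a ≤ τ b := fun a b hab => by
    induction b, hab using Nat.le_induction with
    | base => exact fun _ => le_rfl
    | succ b _ ih => exact fun hb => (ih (by omega)).trans (hτ b (by omega)).le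
  have mem : ∀ i ≤ k + 1, τ i ∈ Icc (0 : ℝ) 1 := fun i hi =>
    ⟨t0 ▸ mono 0 i (Nat.zero_le i) hi, t1 ▸ mono i _ hi le_rfl⟩
  have tl : ∀ i ≤ k + 1, Tendsto (fun j : ℕ => (⌊τ i * 2 ^ j⌋₊ : ℝ) / 2 ^ j) atTop (𝓝 (τ i)) :=
    fun i hi => (tendsto_nat_floor_mul_div_atTop (mem i hi).1).comp
      (tendsto_pow_atTop_atTop_of_one_lt one_lt_two)
  refine ge_of_tendsto (tendsto_finsetSum _ fun i hi => ?_ : Tendsto (fun j : ℕ =>
    ∑ i ∈ Finset.range (k + 1), ev l (P j ⌊τ i * 2 ^ j⌋₊) ((⌊τ i * 2 ^ j⌋₊ : ℝ) / 2 ^ j)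
      (P j ⌊τ (i + 1) * 2 ^ j⌋₊) ((⌊τ (i + 1) * 2 ^ j⌋₊ : ℝ) / 2 ^ j)) atTop _) ?_
  · have hi' := Finset.mem_range.1 hi
    exact tendsto_ev hl (hτ i (by omega)) (hγ _ (mem i hi'.le)) (tl i hi'.le) (hγ _ (mem _ hi'))
      (tl _ hi')
  have ev1 : ∀ᶠ j : ℕ in atTop, ∀ i ∈ Finset.range (k + 1),
      ⌊τ i * 2 ^ j⌋₊ < ⌊τ (i + 1) * 2 ^ j⌋₊ := by
    refine (Finset.eventually_all _).2 fun i hi => ?_
    have hi' := Finset.mem_range.1 hi
    refine ((tl i hi'.le).eventually_lt (tl _ hi') (hτ i (by omega))).mono fun j h => ?_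
    exact_mod_cast (div_lt_div_iff_of_pos_right (by positivity)).1 h
  refine ev1.mono fun j h => (geo_sum h0 h2 j).trans ?_
  have := geo_split ht P j (n := fun i => ⌊τ i * 2 ^ j⌋₊) (by simp [t0]) (k + 1)
    fun i hi => h i (Finset.mem_range.2 hi)
  rwa [t1, fl] at this

end Pool.Agent.Work.MP_8495a2_pr
end

-- merged part: Pool.Agent.Work.MP_8495a2_pr.BMom
section
open MeasureTheory ProbabilityTheory Set Filter Topology
open scoped ENNReal NNReal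

namespace Pool.Agent.Work.MP_8495a2_pr

variable {Ω : Type*} [MeasurableSpace Ω] {P : Measure Ω} [IsProbabilityMeasure P]
  {B : ℕ → ℝ → Ω → ℝ}

theorem BMom_lim (hB : IsBMFamily P B) (n : ℕ) (θ : ℝ) {T : ℝ} (hT : 0 < T) {φ : ℝ → ℝ}
    {K : ℝ≥0} (hφ : LipschitzWith K φ) {C : ℝ} (hC : ∀ z, |φ z| ≤ C) {u : ℕ → ℝ} {c : ℝ}
    (hu : Tendsto u atTop (𝓝 c)) :
    ((∀ m : ℕ, 0 < √(T / m) →
        ∫ ω, φ (√(T / m) * Xd m n ω) ∂(arrM m n (θ * √(T / m))) ≤ u m) →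
      ∫ ω, φ (lp (drift θ (path B ω)) n 0 T) ∂P ≤ c) ∧
    ((∀ m : ℕ, 0 < √(T / m) →
        u m ≤ ∫ ω, φ (√(T / m) * Xd m n ω) ∂(arrM m n (θ * √(T / m)))) →
      c ≤ ∫ ω, φ (lp (drift θ (path B ω)) n 0 T) ∂P) := by
  have key : ∀ η : ℝ, 0 < η → ∃ m : ℕ, 0 < √(T / m) ∧ |u m - c| ≤ η / 2 ∧
      |∫ ω, φ (√(T / m) * Xd m n ω) ∂(arrM m n (θ * √(T / m))) -
        ∫ ω, φ (lp (drift θ (path B ω)) n 0 T) ∂P| ≤ η / 2 := fun η hη => by
    obtain ⟨m, h1, h2, h3⟩ := ((transfer hB n θ hT φ hφ hC (half_pos hη)).and_eventually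
      ((Metric.tendsto_nhds.1 hu _ (half_pos hη)).and (eventually_gt_atTop 0))).exists
    exact ⟨m, Real.sqrt_pos.2 (div_pos hT (Nat.cast_pos.2 h3)), h2.le, h1⟩
  refine ⟨fun h => le_of_forall_pos_le_add fun η hη => ?_,
    fun h => le_of_forall_pos_le_add fun η hη => ?_⟩ <;>
  obtain ⟨m, h1, h2, h3⟩ := key η hη <;>
  linarith only [h, h1, h2, h3, h m h1, abs_le.1 h2, abs_le.1 h3]

omit [IsProbabilityMeasure P] in
theorem BMom_int [IsFiniteMeasure P] {L : Ω → ℝ} (hL : Measurable L) {φ : ℝ → ℝ} {K : ℝ≥0}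
    (hφ : LipschitzWith K φ) {C : ℝ} (hC : ∀ z, |φ z| ≤ C) (h0 : ∀ z, 0 ≤ φ z) :
    ∫⁻ ω, ENNReal.ofReal (φ (L ω)) ∂P = ENNReal.ofReal (∫ ω, φ (L ω) ∂P) :=
  (ofReal_integral_eq_lintegral_ofReal (Integrable.of_bound
    (hφ.continuous.measurable.comp hL).aestronglyMeasurable C (.of_forall fun _ => hC _))
    (.of_forall fun _ => h0 _)).symm

theorem BMom_sup {L : Ω → ℝ} (hL : Measurable L) {φ : ℕ → ℝ → ℝ} {K : ℕ → ℝ≥0}
    (hφ : ∀ k, LipschitzWith (K k) (φ k)) {C : ℕ → ℝ} (hC : ∀ k z, |φ k z| ≤ C k)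
    (h0 : ∀ k z, 0 ≤ φ k z) (hm : ∀ z, Monotone fun k => φ k z) {g : Ω → ℝ≥0∞}
    (hg : ∀ ω, ∃ k, g ω ≤ ENNReal.ofReal (φ k (L ω))) {c : ℝ}
    (hc : ∀ k, ∫ ω, φ k (L ω) ∂P ≤ c) : ∫⁻ ω, g ω ∂P ≤ ENNReal.ofReal c := by
  refine (lintegral_mono (g := fun ω => ⨆ k, ENNReal.ofReal (φ k (L ω))) fun ω =>
    (hg ω).elim fun k hk => le_iSup_of_le k hk).trans ?_
  rw [lintegral_iSup (f := fun k ω => ENNReal.ofReal (φ k (L ω)))
    (fun k => ((hφ k).continuous.measurable.comp hL).ennreal_ofReal)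
    fun k k' h ω => ENNReal.ofReal_le_ofReal (hm _ h)]
  exact iSup_le fun k => (BMom_int hL (hφ k) (hC k) (h0 k)).trans_le
    (ENNReal.ofReal_le_ofReal (hc k))

theorem BMom_lip {l : ℝ} (hl : 0 ≤ l) (k : ℝ) :
    LipschitzWith (Real.exp k * l).toNNReal fun z => Real.exp (min (l * z) k) := by
  refine LipschitzWith.of_le_add_mul' _ fun x y => ?_
  have h0 := mul_nonneg hl (abs_nonneg (x - y))
  have h1 : min (l * x) k ≤ min (l * y) k + l * |x - y| := by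
    rw [← min_add_add_right]
    exact min_le_min (by linarith only [hl, le_abs_self (x - y), mul_nonneg_of_nonpos_of_nonpos (Mathlib.Tactic.Linarith.sub_nonpos_of_le hl) (Mathlib.Tactic.Linarith.sub_nonpos_of_le (le_abs_self (x - y)))]) (by linarith)
  have h2 := Real.add_one_le_exp (min (l * y) k - min (l * x) k)
  have h3 := Real.exp_pos (min (l * x) k)
  have h4 := Real.exp_le_exp.2 (min_le_right (l * x) k)
  rw [Real.exp_sub, le_div_iff₀ h3] at h2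
  rw [Real.dist_eq]
  linarith only [h2, h0, h4, h1, h3, mul_nonneg_of_nonpos_of_nonpos (Mathlib.Tactic.Linarith.sub_nonpos_of_le h0) (Mathlib.Tactic.Linarith.sub_nonpos_of_le h4), mul_nonneg_of_nonpos_of_nonpos (Mathlib.Tactic.Linarith.sub_nonpos_of_le h1) (le_of_lt (Mathlib.Tactic.Linarith.sub_neg_of_lt h3))]

theorem BMom_bd (l k z : ℝ) : |Real.exp (min (l * z) k)| ≤ Real.exp k := by
  rw [Real.abs_exp]
  exact Real.exp_le_exp.2 (min_le_right _ _)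

theorem BMom_phi (m n : ℕ) {a' a : ℝ} (h' : 0 < a') (h : 0 < a) : 0 ≤ Phi m n a' a := by
  have key : ∀ b : ℝ, 0 < b → 0 ≤ 1 - Real.exp (-2 * b) := fun b hb =>
    sub_nonneg.2 (Real.exp_le_one_iff.2 (by linarith))
  exact mul_nonneg (pow_nonneg (div_nonneg (Real.cosh_pos a).le (Real.cosh_pos a').le) _)
    (pow_nonneg (div_nonneg (key a h) (key a' h')) _)

theorem BMom_exp (m n : ℕ) (a b : ℝ) :
    ∫⁻ ω, ENNReal.ofReal (Real.exp (b * Xd m n ω)) ∂(arrM m n a) =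
      ENNReal.ofReal (∫ ω, Real.exp (b * Xd m n ω) ∂(arrM m n a)) :=
  (ofReal_integral_eq_lintegral_ofReal Integrable.of_finite
    (.of_forall fun _ => (Real.exp_pos _).le)).symm

theorem BMom_up (m n : ℕ) {σ θ' θ : ℝ} (hσ : 0 < σ) (hθ' : 0 < θ') (h : θ' < θ) :
    ∫ ω, Real.exp ((θ - θ') * (σ * Xd m n ω)) ∂(arrM m n (θ' * σ)) ≤
      Phi m n (θ' * σ) (θ * σ) := by
  have h1 := disc_up m n (mul_pos hθ' hσ) (mul_lt_mul_of_pos_right h hσ)
  rw [BMom_exp, ENNReal.ofReal_le_ofReal_iff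
    (BMom_phi m n (mul_pos hθ' hσ) (mul_pos (hθ'.trans h) hσ))] at h1
  simpa only [← sub_mul, mul_assoc] using h1

theorem bm_up (hB : IsBMFamily P B) (n : ℕ) {T θ' θ : ℝ} (hT : 0 < T) (hθ' : 0 < θ')
    (h : θ' < θ) :
    ∫⁻ ω, ENNReal.ofReal (Real.exp ((θ - θ') * lp (drift θ' (path B ω)) n 0 T)) ∂P ≤
      ENNReal.ofReal (Real.exp (In n T θ' θ)) := by
  refine BMom_sup (measurable_lp_drift hB θ' n 0 T)
    (fun k : ℕ => BMom_lip (sub_pos.2 h).le k) (fun k => BMom_bd _ _)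
    (fun _ _ => (Real.exp_pos _).le)
    (fun z k k' hk => Real.exp_le_exp.2 (min_le_min le_rfl (Nat.cast_le.2 hk)))
    (fun ω => ⟨⌈_⌉₊, by rw [min_eq_left (Nat.le_ceil _)]⟩) fun k => ?_
  refine (BMom_lim hB n θ' hT (BMom_lip (sub_pos.2 h).le k) (BMom_bd _ _)
    (Phi_tendsto n hT hθ' (hθ'.trans h))).1 fun m hm => le_trans ?_ (BMom_up m n hm hθ' h)
  exact integral_mono .of_finite .of_finite fun ω => Real.exp_le_exp.2 (min_le_left _ _)

theorem bm_low (hB : IsBMFamily P B) (n : ℕ) {T θ'' θ θ' : ℝ} (hT : 0 < T) (h0 : 0 < θ'')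
    (h1 : θ'' < θ) (h2 : θ < θ') (s : ℝ) :
    P {ω | lp (drift θ' (path B ω)) n 0 T < s} ≤ ENNReal.ofReal
      (Real.exp ((θ' - θ) * s - In n T θ θ') + Real.exp (-((θ - θ'') * s) + In n T θ'' θ)) := by
  have hl : ∀ k : ℕ, LipschitzWith (k : ℝ).toNNReal fun z => min (k * max (s - z) 0) 1 :=
    fun k => LipschitzWith.of_le_add_mul' _ fun x y => by
      have a1 : max (s - x) 0 ≤ max (s - y) 0 + |x - y| :=
        max_le (by linarith [le_max_left (s - y) 0, neg_abs_le (x - y)]) (by positivity)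
      rw [← min_add_add_right, Real.dist_eq, ← mul_add]
      exact min_le_min (mul_le_mul_of_nonneg_left a1 k.cast_nonneg)
        (le_add_of_nonneg_right (by positivity))
  have hn : ∀ (k : ℕ) (z : ℝ), 0 ≤ min (k * max (s - z) 0) 1 := fun k z => by positivity
  have hb : ∀ (k : ℕ) (z : ℝ), |min (k * max (s - z) 0) 1| ≤ 1 := fun k z =>
    (abs_of_nonneg (hn k z)).trans_le (min_le_right _ _)
  have hL := measurable_lp_drift hB θ' n 0 T
  have hθ := h0.trans h1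
  rw [← lintegral_indicator_one (measurableSet_lt hL measurable_const)]
  refine BMom_sup hL hl hb hn (fun z k k' hk => min_le_min
    (mul_le_mul_of_nonneg_right (Nat.cast_le.2 hk) (le_max_right _ _)) le_rfl) (fun ω => ?_)
    fun k => ?_
  · by_cases hω : lp (drift θ' (path B ω)) n 0 T < s
    · obtain ⟨k, hk⟩ := exists_nat_ge (1 / (s - lp (drift θ' (path B ω)) n 0 T))
      rw [div_le_iff₀ (sub_pos.2 hω)] at hk
      refine ⟨k, ?_⟩
      rw [max_eq_left (sub_pos.2 hω).le, min_eq_right hk, ENNReal.ofReal_one]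
      exact indicator_le_self' (fun _ _ => zero_le_one) ω
    · exact ⟨0, by rw [indicator_of_notMem (by exact hω)]; exact zero_le⟩
  have e : In n T θ θ' = -In n T θ' θ := by
    rw [In, In, ← inv_div θ θ', Real.log_inv]
    ring
  rw [e, sub_neg_eq_add, Real.exp_add, Real.exp_add]
  refine (BMom_lim hB n θ' hT (hl k) (hb k)
    (((Phi_tendsto n hT (hθ.trans h2) hθ).const_mul _).add
      ((Phi_tendsto n hT h0 hθ).const_mul _))).1 fun m hm => ?_
  generalize √(T / m) = σ at hm ⊢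
  have d := disc_low m n (mul_pos h0 hm) (mul_lt_mul_of_pos_right h1 hm)
    (mul_lt_mul_of_pos_right h2 hm) (s / σ)
  simp only [← sub_mul, mul_assoc, mul_div_cancel₀ _ hm.ne'] at d
  have p1 := BMom_phi m n (mul_pos (hθ.trans h2) hm) (mul_pos hθ hm)
  have p2 := BMom_phi m n (mul_pos h0 hm) (mul_pos hθ hm)
  refine le_trans ?_ (ENNReal.toReal_le_of_le_ofReal (by positivity) d)
  rw [← measureReal_def, ← integral_indicator_one MeasurableSet.of_discrete]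
  refine integral_mono .of_finite .of_finite fun ω => ?_
  by_cases hω : Xd m n ω < s / σ
  · rw [indicator_of_mem (by exact hω)]
    exact min_le_right _ _
  · rw [indicator_of_notMem (by exact hω)]
    rw [not_lt, div_le_iff₀' hm] at hω
    simp [max_eq_right (sub_nonpos.2 hω)]

theorem bm_mom (hB : IsBMFamily P B) (n : ℕ) {T θ' θ : ℝ} (hT : 0 < T) (h1 : θ < 2 * θ')
    (h2 : θ' < θ) :
    ENNReal.ofReal (Real.exp (In n T θ' θ)) ≤
      ∫⁻ ω, ENNReal.ofReal (Real.exp ((θ - θ') * lp (drift θ' (path B ω)) n 0 T)) ∂P +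
        ENNReal.ofReal (Real.exp (In n T (2 * θ' - θ) θ / 2)) := by
  have h0 : 0 < θ' := by linarith
  have hθ := h0.trans h2
  have h3 : 0 < 2 * θ' - θ := by linarith
  have h4 : θ' < 2 * θ - θ' := by linarith
  rw [← tsub_le_iff_right, ← ENNReal.ofReal_sub _ (Real.exp_pos _).le, Real.exp_half]
  have t1 : Tendsto (fun k : ℕ => Real.exp (In n T θ' θ) - √(Real.exp (In n T (2 * θ' - θ) θ)) -
      Real.exp (-k) * Real.exp (In n T θ' (2 * θ - θ'))) atTop (𝓝 (_ - 0 * _)) :=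
    ((Real.tendsto_exp_neg_atTop_nhds_zero.comp tendsto_natCast_atTop_atTop).mul_const _).const_sub _
  rw [zero_mul, sub_zero] at t1
  refine le_of_tendsto' (ENNReal.tendsto_ofReal t1) fun k => le_trans ?_ (lintegral_mono fun ω =>
    ENNReal.ofReal_le_ofReal (Real.exp_le_exp.2 (min_le_left _ (k : ℝ))))
  rw [BMom_int (measurable_lp_drift hB θ' n 0 T) (BMom_lip (sub_pos.2 h2).le k) (BMom_bd _ _)
    fun _ => (Real.exp_pos _).le]
  refine ENNReal.ofReal_le_ofReal ((BMom_lim hB n θ' hT (BMom_lip (sub_pos.2 h2).le k) (BMom_bd _ _)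
    (((Phi_tendsto n hT h0 hθ).sub (Phi_tendsto n hT h3 hθ).sqrt).sub
      ((Phi_tendsto n hT h0 (h0.trans h4)).const_mul _))).2 fun m hm => ?_)
  generalize √(T / m) = σ at hm ⊢
  have d := disc_mom m n (a := θ * σ) (a' := θ' * σ) (by linarith only [h1, hm, mul_pos_of_neg_of_neg (Mathlib.Tactic.Linarith.sub_neg_of_lt h1) (Mathlib.Tactic.Linarith.sub_neg_of_lt hm)]) (mul_lt_mul_of_pos_right h2 hm)
  have i0 : 0 ≤ ∫ ω, Real.exp ((θ * σ - θ' * σ) * Xd m n ω) ∂(arrM m n (θ' * σ)) :=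
    integral_nonneg fun _ => (Real.exp_pos _).le
  rw [BMom_exp, ← ENNReal.ofReal_add i0 (Real.sqrt_nonneg _),
    ENNReal.ofReal_le_ofReal_iff (by positivity), ← mul_assoc, ← sub_mul (2 * θ')] at d
  have d2 := mul_le_mul_of_nonneg_left (BMom_up m n hm h0 h4) (Real.exp_pos (-k)).le
  have d3 : ∫ ω, Real.exp ((θ * σ - θ' * σ) * Xd m n ω) ∂(arrM m n (θ' * σ)) ≤
      ∫ ω, (Real.exp (min ((θ - θ') * (σ * Xd m n ω)) k) +
        Real.exp (-k) * Real.exp ((2 * θ - θ' - θ') * (σ * Xd m n ω))) ∂(arrM m n (θ' * σ)) := by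
    refine integral_mono .of_finite .of_finite fun ω => ?_
    simp only [← sub_mul, mul_assoc, ← Real.exp_add]
    rcases le_total ((θ - θ') * (σ * Xd m n ω)) k with e | e
    · rw [min_eq_left e]
      exact le_add_of_nonneg_right (Real.exp_pos _).le
    · exact le_add_of_nonneg_of_le (Real.exp_pos _).le (Real.exp_le_exp.2 (by linarith only [e]))
  rw [integral_add .of_finite .of_finite, integral_const_mul] at d3
  linarith

/-- The upper bound started at time `t0`. -/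
theorem bm_up_from (hB : IsBMFamily P B) (n : ℕ) {t0 T θ' θ : ℝ} (hT : t0 < T) (hθ' : 0 < θ')
    (h : θ' < θ) :
    ∫⁻ ω, ENNReal.ofReal (Real.exp ((θ - θ') * lp (drift θ' (path B ω)) n t0 T)) ∂P ≤
      ENNReal.ofReal (Real.exp (In n (T - t0) θ' θ)) := by
  refine le_trans (le_of_eq (lintegral_congr fun ω => ?_))
    (bm_up (hB.affine t0 one_pos) n (sub_pos.2 hT) hθ' h)
  have e := lp_affine (f := drift θ' (path B ω)) (n := n) (x := 0) (y := T - t0) t0 one_pos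
  rw [mul_zero, add_zero, one_mul, add_sub_cancel] at e
  rw [← e]
  congr 3
  refine lp_congr fun i _ s _ t _ => ?_
  simp only [drift, path, Real.sqrt_one, inv_one, one_mul]
  split_ifs <;> ring

end Pool.Agent.Work.MP_8495a2_pr
end

-- merged part: Pool.Agent.Work.MP_8495a2_pr.Scaled
section
open MeasureTheory ProbabilityTheory Set Filter Topology
open scoped ENNReal NNReal

namespace Pool.Agent.Work.MP_8495a2_pr

variable {Ω : Type*} [MeasurableSpace Ω] {P : Measure Ω} [IsProbabilityMeasure P]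

theorem scaled_log {u : ℝ} (hu : 0 ≤ u) :
    |Real.log (1 + u) - (u - u ^ 2 / 2 + u ^ 3 / 3)| ≤ 9 * u ^ 4 := by
  have h4 : 0 ≤ u ^ 4 := by positivity
  rcases le_total u (1 / 2) with h | h
  · have h1 := Real.abs_log_sub_add_sum_range_le (x := -u)
      (by rw [abs_neg, abs_of_nonneg hu]; linarith only [h]) 3
    rw [abs_neg, abs_of_nonneg hu, sub_neg_eq_add] at h1
    have h2 : u ^ (3 + 1) / (1 - u) ≤ 9 * u ^ 4 := by
      rw [div_le_iff₀ (by linarith only [h]), show 3 + 1 = 4 from rfl]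
      linarith only [h4, h, mul_nonneg h4 (sub_nonneg.2 h)]
    refine le_trans (le_of_eq ?_) (h1.trans h2)
    congr 1
    simp only [Finset.sum_range_succ, Finset.sum_range_zero]
    push_cast
    ring
  · have h1 : Real.log (1 + u) ≤ u := by
      have := Real.log_le_sub_one_of_pos (x := 1 + u) (by linarith only [h])
      linarith only [this]
    have h2 : 0 ≤ Real.log (1 + u) := Real.log_nonneg (by linarith only [h])
    have h3 : u ≤ 2 * u ^ 2 := by linarith only [hu, h, mul_nonneg_of_nonpos_of_nonpos (Mathlib.Tactic.Linarith.sub_nonpos_of_le hu) (Mathlib.Tactic.Linarith.sub_nonpos_of_le h)]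
    have h5 : u ^ 2 ≤ 2 * u ^ 3 := by linarith only [h, mul_nonneg_of_nonpos_of_nonpos (Mathlib.Tactic.Linarith.sub_nonpos_of_le (sq_nonneg u)) (Mathlib.Tactic.Linarith.sub_nonpos_of_le h)]
    have h6 : u ^ 3 ≤ 2 * u ^ 4 := by linarith only [h3, mul_nonneg_of_nonpos_of_nonpos (Mathlib.Tactic.Linarith.sub_nonpos_of_le (sq_nonneg u)) (Mathlib.Tactic.Linarith.sub_nonpos_of_le h3)]
    rw [abs_le]
    constructor <;> linarith only [h, h2, h3, h5, h6, h1]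

theorem scaled_log2 {c a : ℝ} (hc : 1 ≤ c) (ha : 0 ≤ a) :
    |(c ^ 6 + 1) * Real.log (1 + a / (2 * c ^ 2)) -
      (a * c ^ 4 / 2 - a ^ 2 * c ^ 2 / 8 + a ^ 3 / 24)| ≤ (a ^ 4 + a) / c ^ 2 := by
  have h0 : 0 < c := one_pos.trans_le hc
  have hu : 0 ≤ a / (2 * c ^ 2) := by positivity
  have h1 := scaled_log hu
  have h2 : Real.log (1 + a / (2 * c ^ 2)) ≤ a / (2 * c ^ 2) := by
    have := Real.log_le_sub_one_of_pos (x := 1 + a / (2 * c ^ 2)) (by linarith only [hu])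
    linarith only [this]
  have h3 : 0 ≤ Real.log (1 + a / (2 * c ^ 2)) := Real.log_nonneg (by linarith only [hu])
  have h4 := mul_le_mul_of_nonneg_left h1 (by positivity : 0 ≤ c ^ 6)
  have e1 : c ^ 6 * (9 * (a / (2 * c ^ 2)) ^ 4) = 9 / 16 * (a ^ 4 / c ^ 2) := by
    field_simp
    ring
  have e2 : c ^ 6 * (a / (2 * c ^ 2) - (a / (2 * c ^ 2)) ^ 2 / 2 + (a / (2 * c ^ 2)) ^ 3 / 3) =
      a * c ^ 4 / 2 - a ^ 2 * c ^ 2 / 8 + a ^ 3 / 24 := by
    field_simp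
    ring
  have e3 : a / (2 * c ^ 2) = 1 / 2 * (a / c ^ 2) := by ring
  have h5 : 0 ≤ a ^ 4 / c ^ 2 := by positivity
  have h6 : 0 ≤ a / c ^ 2 := by positivity
  rw [e1, ← abs_of_nonneg (by positivity : 0 ≤ c ^ 6), ← abs_mul, mul_sub, e2, abs_le] at h4
  rw [add_div, abs_le]
  constructor <;> linarith only [hu, h3, h4, e3, h2, h4.1, h4.2]

/-- Expansion of the exponent around the characteristic direction. -/
theorem In_scaled {n : ℕ} {c : ℝ} (hc : 1 ≤ c) (hn : (n : ℝ) = c ^ 6) {a a' : ℝ} (ha : 0 ≤ a)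
    (ha' : 0 ≤ a') (x : ℝ) :
    |In (n + 1) (1 - 2 * x / c ^ 2) (c ^ 3 + a * c / 2) (c ^ 3 + a' * c / 2) -
        (a' - a) / 2 * c * (2 * c ^ 3 - 2 * x * c) -
        ((a' ^ 3 - a ^ 3) / 24 - x * (a' ^ 2 - a ^ 2) / 4)| ≤
      (a ^ 4 + a + a' ^ 4 + a') / c ^ 2 := by
  have h0 : 0 < c := one_pos.trans_le hc
  have h3 : 0 < c ^ 3 := by positivity
  have e : ∀ b : ℝ, c ^ 3 + b * c / 2 = c ^ 3 * (1 + b / (2 * c ^ 2)) := fun b => by field_simp
  have p : ∀ b : ℝ, 0 ≤ b → 0 < 1 + b / (2 * c ^ 2) := fun b hb => by positivity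
  have e1 : Real.log ((c ^ 3 + a' * c / 2) / (c ^ 3 + a * c / 2)) =
      Real.log (1 + a' / (2 * c ^ 2)) - Real.log (1 + a / (2 * c ^ 2)) := by
    rw [e, e, mul_div_mul_left _ _ h3.ne', Real.log_div (p _ ha').ne' (p _ ha).ne']
  have k1 := abs_le.1 (scaled_log2 hc ha)
  have k2 := abs_le.1 (scaled_log2 hc ha')
  have e2 : (1 - 2 * x / c ^ 2) * ((c ^ 3 + a' * c / 2) ^ 2 - (c ^ 3 + a * c / 2) ^ 2) / 2 =
      (a' - a) * c ^ 4 / 2 + (a' ^ 2 - a ^ 2) * c ^ 2 / 8 - x * (a' - a) * c ^ 2 -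
        x * (a' ^ 2 - a ^ 2) / 4 := by
    field_simp
    ring
  have e3 : (a ^ 4 + a + a' ^ 4 + a') / c ^ 2 = (a ^ 4 + a) / c ^ 2 + (a' ^ 4 + a') / c ^ 2 := by
    ring
  rw [In, e1, e2, e3, Nat.cast_add, Nat.cast_one, hn, abs_le]
  constructor <;> linarith only [k1, k2, k1.1, k1.2, k2.1, k2.2]

theorem measurable_Hs {B : ℕ → ℝ → Ω → ℝ} (hB : IsBMFamily P B) (n : ℕ) (c x : ℝ) :
    Measurable (Hs B n c x) := by
  have h : Measurable fun ω => lp (sh 1 (path B ω)) n (2 * x / c ^ 2) 1 :=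
    measurable_lp (X := fun i => B (1 + i)) (fun i _ t => hB.meas _ t) (fun i ω => hB.cont _ ω) _ _
  exact ((h.sub_const _).add_const _).const_mul _

omit [IsProbabilityMeasure P] in
theorem scaled_shift {Y : Ω → ℝ} {M : ℝ}
    (h : ∫⁻ ω, ENNReal.ofReal (Real.exp (Y ω)) ∂P ≤ ENNReal.ofReal (Real.exp M)) (d : ℝ) :
    ∫⁻ ω, ENNReal.ofReal (Real.exp (Y ω - d)) ∂P ≤ ENNReal.ofReal (Real.exp (M - d)) := by
  have e : ∀ u : ℝ, ENNReal.ofReal (Real.exp (u - d)) =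
      ENNReal.ofReal (Real.exp (-d)) * ENNReal.ofReal (Real.exp u) := fun u => by
    rw [← ENNReal.ofReal_mul (Real.exp_pos _).le, ← Real.exp_add, neg_add_eq_sub]
  simp only [e]
  rw [lintegral_const_mul' _ _ ENNReal.ofReal_ne_top]
  exact mul_le_mul_right h _

omit [IsProbabilityMeasure P] in
theorem scaled_markov {Y : Ω → ℝ} (hY : Measurable Y) {M : ℝ}
    (h : ∫⁻ ω, ENNReal.ofReal (Real.exp (Y ω)) ∂P ≤ ENNReal.ofReal (Real.exp M)) (s : ℝ) :
    P {ω | s < Y ω} ≤ ENNReal.ofReal (Real.exp (M - s)) := by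
  refine le_trans (meas_le_lintegral₀ ?_ fun ω hω => ?_) (scaled_shift h s)
  · exact (hY.sub_const s).exp.ennreal_ofReal.aemeasurable
  · exact ENNReal.one_le_ofReal.2 (Real.one_le_exp (sub_nonneg.2 (le_of_lt hω)))

theorem scaled_mom {B : ℕ → ℝ → Ω → ℝ} (hB : IsBMFamily P B) {n : ℕ} {c : ℝ} (hc : 1 ≤ c)
    (hn : (n : ℝ) = c ^ 6) {a x : ℝ} (ha : 0 ≤ a) (hx : 2 * x / c ^ 2 < 1) :
    ∫⁻ ω, ENNReal.ofReal (Real.exp (c * (lp (drift (c ^ 3 + a * c / 2) (path B ω)) (n + 1)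
      (2 * x / c ^ 2) 1 - (2 * c ^ 3 - 2 * x * c)))) ∂P ≤ ENNReal.ofReal (Real.exp
        (((a + 2) ^ 3 - a ^ 3) / 24 - x * ((a + 2) ^ 2 - a ^ 2) / 4 +
          (a ^ 4 + a + (a + 2) ^ 4 + (a + 2)) / c ^ 2)) := by
  have h0 : 0 < c := one_pos.trans_le hc
  have h1 := scaled_shift (bm_up_from hB (n + 1) (θ' := c ^ 3 + a * c / 2)
    (θ := c ^ 3 + (a + 2) * c / 2) hx (by positivity) (by linarith only [hc])) (c * (2 * c ^ 3 - 2 * x * c))
  have h2 := (abs_le.1 (In_scaled hc hn ha (a' := a + 2) (by linarith) x)).2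
  have e : c ^ 3 + (a + 2) * c / 2 - (c ^ 3 + a * c / 2) = c := by ring
  simp only [e, ← mul_sub] at h1
  exact h1.trans (ENNReal.ofReal_le_ofReal (Real.exp_le_exp.2 (by linarith only [h2])))

omit [IsProbabilityMeasure P] in
theorem scaled_cmp {B : ℕ → ℝ → Ω → ℝ} (hB : IsBMFamily P B) (n : ℕ) {c : ℝ} (h0 : 0 < c) (a : ℝ)
    {R x : ℝ} (h1 : R ≤ x) (h2 : x ≤ c ^ 2 / 2) (ω : Ω) :
    c * B 0 (2 * x / c ^ 2) ω - c * B 0 (2 * R / c ^ 2) ω + a * (x - R) + Hs B n c x ω ≤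
      c * (lp (drift (c ^ 3 + a * c / 2) (path B ω)) (n + 1) (2 * R / c ^ 2) 1 -
        (2 * c ^ 3 - 2 * R * c)) := by
  have h3 := lp_first_le (n := n) (x := 2 * R / c ^ 2) (z := 2 * x / c ^ 2) (y := 1)
    ((LB.of_continuous (f := path B ω) fun i => hB.cont i ω).drift (c ^ 3 + a * c / 2))
    (div_le_div_of_nonneg_right (by linarith only [h1]) (by positivity))
    ((div_le_one (by positivity)).2 (by linarith))
  rw [sh_one_drift] at h3
  have h4 := mul_le_mul_of_nonneg_left h3 h0.le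
  have e : ∀ u : ℝ, c * drift (c ^ 3 + a * c / 2) (path B ω) 0 (2 * u / c ^ 2) =
      c * B 0 (2 * u / c ^ 2) ω + 2 * u * c ^ 2 + a * u := fun u => by
    simp only [drift, path, if_true]
    field_simp
    ring
  rw [mul_add, mul_sub, e, e] at h4
  unfold Hs
  linarith only [h4]

theorem scaled_ville {B : ℕ → ℝ → Ω → ℝ} (hB : IsBMFamily P B) {c : ℝ} (h0 : 0 < c) (y : ℝ) :
    P {ω | ∃ x ∈ Icc (0 : ℝ) (c ^ 2 / 2), x + y < c * B 0 (2 * x / c ^ 2) ω} ≤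
      ENNReal.ofReal (Real.exp (-y)) := by
  have h1 := ville_BM hB 0 (γ := c / 2) (by positivity) 1 (y / c)
  have e : 2 * (c / 2) * (y / c) = y := by field_simp
  rw [e] at h1
  refine le_trans (measure_mono ?_) h1
  rintro ω ⟨x, hx, h⟩
  refine ⟨2 * x / c ^ 2, ⟨div_nonneg (by linarith only [hx, hx.1]) (by positivity),
    (div_le_one (by positivity)).2 (by linarith only [hx, hx.2])⟩, ?_⟩
  have e2 : c / 2 * (2 * x / c ^ 2) = x / c := by field_simp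
  rw [e2, lt_sub_iff_add_lt, ← add_div, div_lt_iff₀ h0]
  linarith only [h]

theorem scaled_exp {B : ℕ → ℝ → Ω → ℝ} (hB : IsBMFamily P B) {n : ℕ} {c : ℝ} (hc : 1 ≤ c)
    (hn : (n : ℝ) = c ^ 6) :
    ∫⁻ ω, ENNReal.ofReal (Real.exp (Hs B n c 0 ω)) ∂P ≤ ENNReal.ofReal (Real.exp 20) := by
  have h0 : 0 < c := one_pos.trans_le hc
  have h2 : 1 ≤ c ^ 2 := one_le_pow₀ hc
  refine le_trans (lintegral_mono fun ω => ENNReal.ofReal_le_ofReal (Real.exp_le_exp.2 ?_))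
    ((scaled_mom hB hc hn (le_refl 0) (x := 0) (by simp)).trans
      (ENNReal.ofReal_le_ofReal (Real.exp_le_exp.2 ?_)))
  · have := scaled_cmp hB n h0 0 (le_refl (0 : ℝ)) (by positivity) ω
    linarith only [this]
  · have : ((0 : ℝ) ^ 4 + 0 + (0 + 2) ^ 4 + (0 + 2)) / c ^ 2 ≤ 18 := by
      rw [div_le_iff₀ (by positivity)]
      linarith only [h2]
    linarith only [this]

/-- The maximiser is not far away. -/
theorem scaled_far {R a y : ℝ} (hR : 1 ≤ R) (ha : a ≤ R) (hy : R + y + a * R ≤ R ^ 2 / 2) :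
    ∃ c0 : ℝ, ∀ (B : ℕ → ℝ → Ω → ℝ) (n : ℕ) (c : ℝ), IsBMFamily P B → c0 ≤ c → 1 ≤ c →
      (n : ℝ) = c ^ 6 →
      P {ω | ∃ x ∈ Icc R (c ^ 2 / 2), 0 < c * B 0 (2 * x / c ^ 2) ω + a * x + Hs B n c x ω} ≤
        ENNReal.ofReal (Real.exp (-y) + Real.exp (-(R ^ 2 / 4))) := by
  refine ⟨6 * (R ^ 4 + R + (R + 2) ^ 4 + (R + 2)), fun B n c hB hc0 hc hn => ?_⟩
  have h0 : 0 < c := one_pos.trans_le hc
  have hR0 : 0 ≤ R := zero_le_one.trans hR
  have h2 : c ≤ c ^ 2 := by clear * - c R hR hc0 hc; linarith only [hc, mul_nonneg_of_nonpos_of_nonpos (Mathlib.Tactic.Linarith.sub_nonpos_of_le hc) (Mathlib.Tactic.Linarith.sub_nonpos_of_le hc)]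
  have h4 : 0 ≤ R ^ 4 := by positivity
  have h5 : 0 ≤ (R + 2) ^ 4 := by positivity
  have h6 : 2 * R / c ^ 2 < 1 := by
    rw [div_lt_one (by positivity)]
    linarith only [hR, hc0, h2, h4, h5]
  have h7 : (R ^ 4 + R + (R + 2) ^ 4 + (R + 2)) / c ^ 2 ≤ 1 / 6 := by
    rw [div_le_iff₀ (by positivity)]
    linarith only [hc0, h2]
  have k1 := scaled_ville hB h0 y
  have k2 := scaled_markov (P := P) ((((measurable_lp_drift hB (c ^ 3 + R * c / 2) (n + 1)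
    (2 * R / c ^ 2) 1).sub_const (2 * c ^ 3 - 2 * R * c)).const_mul c)) (scaled_mom hB hc hn hR0 h6)
    (-(R ^ 2 / 2))
  rw [ENNReal.ofReal_add (Real.exp_pos _).le (Real.exp_pos _).le]
  refine le_trans (measure_mono ?_) ((measure_union_le _ _).trans (add_le_add k1
    (k2.trans (ENNReal.ofReal_le_ofReal (Real.exp_le_exp.2 (by clear * - R c hR h7 k2; linarith only [hR, h7]))))))
  rintro ω ⟨x, hx, h⟩
  by_contra hcon
  simp only [mem_union, mem_ofPred_eq, not_or, not_exists, not_and, not_lt] at hcon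
  have h8 := hcon.1 R ⟨hR0, by linarith only [hR, hc0, h2, h4, h5]⟩
  have h9 := scaled_cmp hB n h0 R hx.1 hx.2 ω
  have h10 : a * (x - R) ≤ R * (x - R) := mul_le_mul_of_nonneg_right ha (sub_nonneg.2 hx.1)
  linarith only [hy, h, hcon, h8, h9, h10, hcon.2]

theorem scaled_low {k : ℕ} (hk : 1 ≤ k) :
    ∃ c0 : ℝ, ∀ (B : ℕ → ℝ → Ω → ℝ) (n : ℕ) (c : ℝ), IsBMFamily P B → c0 ≤ c → 1 ≤ c →
      (n : ℝ) = c ^ 6 →
      P {ω | ∀ x ∈ Icc (0 : ℝ) (12 * k), Hs B n c x ω < -61 * k ^ 2} ≤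
        ENNReal.ofReal (20 * Real.exp (-k)) := by
  have hk' : (1 : ℝ) ≤ k := by exact_mod_cast hk
  obtain ⟨c1, hc1⟩ := scaled_far (P := P) (R := 12 * k) (a := 4 * k) (y := k) (by linarith only [hk'])
    (by linarith only [hk']) (by linarith only [hk', mul_nonneg_of_nonpos_of_nonpos (Mathlib.Tactic.Linarith.sub_nonpos_of_le (Mathlib.Tactic.Linarith.natCast_nonneg ℝ k)) (Mathlib.Tactic.Linarith.sub_nonpos_of_le hk')])
  refine ⟨max c1 ((2 * k) ^ 4 + 2 * k + (4 * k) ^ 4 + 4 * k), fun B n c hB hc0 hc hn => ?_⟩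
  have h0 : 0 < c := one_pos.trans_le hc
  have h2 : c ≤ c ^ 2 := by linarith only [hc, mul_nonneg_of_nonpos_of_nonpos (Mathlib.Tactic.Linarith.sub_nonpos_of_le hc) (Mathlib.Tactic.Linarith.sub_nonpos_of_le hc)]
  have h3 := (le_max_right _ _).trans hc0
  have h4 : (0 : ℝ) ≤ (4 * k) ^ 4 := by positivity
  have h5 : ((2 * k : ℝ) ^ 4 + 2 * k + (4 * k) ^ 4 + 4 * k) / c ^ 2 ≤ 1 := by
    rw [div_le_one (by positivity)]
    linarith only [h2, h3]
  have h6 : ((0 : ℝ) ^ 4 + 0 + (2 * k) ^ 4 + 2 * k) / c ^ 2 ≤ 1 := by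
    rw [div_le_one (by positivity)]
    linarith only [hk', h2, h3, h4]
  have k1 := hc1 B n c hB ((le_max_left _ _).trans hc0) hc hn
  have k2 := scaled_ville hB h0 k
  have k3 := bm_low hB (n + 1) (T := 1) (θ'' := c ^ 3 + 0 * c / 2) (θ := c ^ 3 + 2 * k * c / 2)
    (θ' := c ^ 3 + 4 * k * c / 2) one_pos (by positivity) (by clear * - c k hk' hc; linarith only [hk', hc, mul_nonneg_of_nonpos_of_nonpos (Mathlib.Tactic.Linarith.sub_nonpos_of_le (Mathlib.Tactic.Linarith.natCast_nonneg ℝ k)) (Mathlib.Tactic.Linarith.sub_nonpos_of_le hc)]) (by clear * - c k hk' hc; linarith only [hk', hc, mul_nonneg_of_nonpos_of_nonpos (Mathlib.Tactic.Linarith.sub_nonpos_of_le (Mathlib.Tactic.Linarith.natCast_nonneg ℝ k)) (Mathlib.Tactic.Linarith.sub_nonpos_of_le hc)])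
    (2 * c ^ 3 + k ^ 2 / c)
  have i1 := (abs_le.1 ((In_scaled hc hn (a := 2 * k) (a' := 4 * k) (by positivity)
    (by positivity) 0).trans h5)).1
  have i2 := (abs_le.1 ((In_scaled hc hn (a := 0) (a' := 2 * k) le_rfl
    (by positivity) 0).trans h6)).2
  simp only [mul_zero, zero_div, sub_zero, zero_mul] at i1 i2
  have e1 : (c ^ 3 + 4 * k * c / 2 - (c ^ 3 + 2 * k * c / 2)) * (2 * c ^ 3 + k ^ 2 / c) =
      2 * k * c ^ 4 + k ^ 3 := by
    field_simp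
    ring
  have e2 : (c ^ 3 + 2 * k * c / 2 - (c ^ 3 + 0 * c / 2)) * (2 * c ^ 3 + k ^ 2 / c) =
      2 * k * c ^ 4 + k ^ 3 := by
    field_simp
    ring
  rw [e1, e2] at k3
  simp only [zero_mul, zero_div] at k3
  have h7 : (k : ℝ) ≤ k ^ 3 := by clear * - k hk'; linarith only [hk', mul_le_mul hk' hk' zero_le_one (by clear * - k hk'; linarith), mul_nonneg_of_nonpos_of_nonpos (Mathlib.Tactic.Linarith.sub_nonpos_of_le (mul_self_nonneg ↑k)) (Mathlib.Tactic.Linarith.sub_nonpos_of_le hk'), mul_nonneg_of_nonpos_of_nonpos (Mathlib.Tactic.Linarith.sub_nonpos_of_le (Mathlib.Tactic.Linarith.natCast_nonneg ℝ k)) (Mathlib.Tactic.Linarith.sub_nonpos_of_le hk')]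
  have h7' : (3 : ℝ) * k ≤ 2 * k ^ 3 + 1 := by clear * - k h7; linarith only [h7, sq_nonneg ((k : ℝ) - 1), sq_nonneg (↑k - (1 : ℝ)), mul_nonneg_of_nonpos_of_nonpos (Mathlib.Tactic.Linarith.sub_nonpos_of_le (sq_nonneg (↑k - (1 : ℝ)))) (Mathlib.Tactic.Linarith.sub_nonpos_of_le (Mathlib.Tactic.Linarith.natCast_nonneg ℝ k))]
  have h8 : Real.exp (2 - k) ≤ 8 * Real.exp (-k) := by
    clear * - k
    rw [sub_eq_add_neg, Real.exp_add]
    refine mul_le_mul_of_nonneg_right ?_ (Real.exp_pos _).le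
    have := Real.exp_one_lt_d9
    rw [show (2 : ℝ) = 1 + 1 by norm_num, Real.exp_add]
    linarith only [this, Real.exp_pos 1, mul_pos_of_neg_of_neg (Mathlib.Tactic.Linarith.sub_neg_of_lt this) (Mathlib.Tactic.Linarith.sub_neg_of_lt (Real.exp_pos (1 : ℝ)))]
  have h9 : Real.exp (-((12 * k : ℝ) ^ 2 / 4)) ≤ Real.exp (-k) :=
    Real.exp_le_exp.2 (by clear * - k hk'; linarith only [hk', mul_nonneg_of_nonpos_of_nonpos (Mathlib.Tactic.Linarith.sub_nonpos_of_le (Mathlib.Tactic.Linarith.natCast_nonneg ℝ k)) (Mathlib.Tactic.Linarith.sub_nonpos_of_le hk')])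
  have j1 : Real.exp (2 * k * c ^ 4 + k ^ 3 -
      In (n + 1) 1 (c ^ 3 + 2 * k * c / 2) (c ^ 3 + 4 * k * c / 2)) ≤ Real.exp (2 - k) :=
    Real.exp_le_exp.2 (by clear * - k c n hk' i1 h7; linarith only [hk', i1, h7])
  have j2 : Real.exp (-(2 * k * c ^ 4 + k ^ 3) +
      In (n + 1) 1 (c ^ 3 + 0) (c ^ 3 + 2 * k * c / 2)) ≤ Real.exp (2 - k) :=
    Real.exp_le_exp.2 (by clear * - k c n i2 h7'; linarith only [i2, h7'])
  refine le_trans (measure_mono ?_) ((measure_union_le _ _).trans (le_trans (add_le_add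
    ((measure_union_le _ _).trans (add_le_add k1 k2)) k3) ?_))
  · intro ω hω
    by_contra hcon
    simp only [mem_union, mem_ofPred_eq, not_or, not_exists, not_and, not_lt] at hcon
    obtain ⟨⟨g1, g2⟩, g3⟩ := hcon
    have g4 : 0 < (k : ℝ) ^ 2 / c := by positivity
    obtain ⟨z, hz, g5⟩ := lp_first_split (c := 2 * c ^ 3)
      ((LB.of_continuous (f := path B ω) fun i => hB.cont i ω).drift (c ^ 3 + 4 * k * c / 2))
      zero_le_one (lt_of_lt_of_le (by clear * - c k g4 g3; linarith only [g4]) g3)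
    obtain ⟨x, rfl⟩ : ∃ x, z = 2 * x / c ^ 2 := ⟨z * c ^ 2 / 2, by field_simp⟩
    have x0 : 0 ≤ x := by
      clear * - x c hz hc
      have := hz.1
      rw [le_div_iff₀ (by positivity)] at this
      linarith
    have x1 : x ≤ c ^ 2 / 2 := by
      clear * - x c hz hc
      have := hz.2
      rw [div_le_one (by positivity)] at this
      linarith
    have g6 : 0 < c * B 0 (2 * x / c ^ 2) ω + 4 * k * x + Hs B n c x ω := by
      clear * - c B x ω k Ω n P hB g5 h0 hc hk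
      rw [sh_one_drift] at g5
      simp only [drift, path, if_true, hB.zero, mul_zero, add_zero, sub_zero] at g5
      have g7 := mul_lt_mul_of_pos_left g5 h0
      have e : c * ((c ^ 3 + 4 * k * c / 2) * (2 * x / c ^ 2)) = 2 * x * c ^ 2 + 4 * k * x := by
        field_simp
      rw [mul_add, mul_add, e] at g7
      unfold Hs
      linarith only [g7]
    rcases le_total x (12 * k) with h | h
    · have g7 := hω x ⟨x0, h⟩
      have g8 := g2 x ⟨x0, x1⟩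
      clear * - c B x ω k Ω n g6 h g7 g8 hk'
      linarith only [g6, h, g7, g8, hk', mul_nonneg_of_nonpos_of_nonpos (Mathlib.Tactic.Linarith.sub_nonpos_of_le (Mathlib.Tactic.Linarith.natCast_nonneg ℝ k)) (Mathlib.Tactic.Linarith.sub_nonpos_of_le hk'), mul_nonneg_of_nonpos_of_nonpos (Mathlib.Tactic.Linarith.sub_nonpos_of_le (Mathlib.Tactic.Linarith.natCast_nonneg ℝ k)) (Mathlib.Tactic.Linarith.sub_nonpos_of_le h)]
    · exact absurd g6 (not_lt.2 (g1 x ⟨h, x1⟩))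
  · rw [← ENNReal.ofReal_add (by positivity) (by positivity),
      ← ENNReal.ofReal_add (by positivity) (by positivity)]
    refine ENNReal.ofReal_le_ofReal ?_
    clear * - k c n h8 h9 j1 j2
    linarith only [h8, h9, j1, j2, Real.exp_pos (-(k : ℝ))]

end Pool.Agent.Work.MP_8495a2_pr
end

-- merged part: Pool.Agent.Work.MP_8495a2_pr.ScaledPos
section
open MeasureTheory ProbabilityTheory Set Filter Topology
open scoped ENNReal NNReal

namespace Pool.Agent.Work.MP_8495a2_pr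

variable {Ω : Type*} [MeasurableSpace Ω] {P : Measure Ω} [IsProbabilityMeasure P]

omit [IsProbabilityMeasure P] in
lemma ScaledPos_shift (X : Ω → ℝ) (s : ℝ) :
    ∫⁻ ω, ENNReal.ofReal (Real.exp (X ω - s)) ∂P =
      ENNReal.ofReal (Real.exp (-s)) * ∫⁻ ω, ENNReal.ofReal (Real.exp (X ω)) ∂P := by
  rw [← lintegral_const_mul' _ _ ENNReal.ofReal_ne_top]
  refine lintegral_congr fun ω => ?_
  rw [← ENNReal.ofReal_mul (Real.exp_pos _).le, ← Real.exp_add, neg_add_eq_sub]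

omit [IsProbabilityMeasure P] in
lemma ScaledPos_sum {V : ℕ → Set Ω} {a : ℝ}
    (hV : ∀ j : ℕ, P (V j) ≤ ENNReal.ofReal (Real.exp (25 - 25 * j))) :
    ∫⁻ ω, ∑' j : ℕ, (toMeasurable P (V j)).indicator
        (fun _ => ENNReal.ofReal (Real.exp (a + 24 * j))) ω ∂P ≤
      ENNReal.ofReal (2 * Real.exp (a + 25)) := by
  rw [lintegral_tsum fun j =>
    (measurable_const.indicator (measurableSet_toMeasurable P (V j))).aemeasurable]
  have h : ∀ j : ℕ, ∫⁻ ω, (toMeasurable P (V j)).indicator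
      (fun _ => ENNReal.ofReal (Real.exp (a + 24 * j))) ω ∂P ≤
        ENNReal.ofReal (Real.exp (a + 25)) * 2⁻¹ ^ j := fun j => by
    rw [lintegral_indicator_const (measurableSet_toMeasurable P (V j)), measure_toMeasurable]
    refine (mul_le_mul_right (hV j) _).trans ?_
    have e : (2⁻¹ : ℝ≥0∞) ^ j = ENNReal.ofReal (2⁻¹ ^ j) := by
      rw [ENNReal.ofReal_pow (by norm_num), ENNReal.ofReal_inv_of_pos two_pos, ENNReal.ofReal_ofNat]
    rw [e, ← ENNReal.ofReal_mul (Real.exp_pos _).le, ← ENNReal.ofReal_mul (Real.exp_pos _).le]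
    refine ENNReal.ofReal_le_ofReal ?_
    have h1 : Real.exp (-1) ≤ 2⁻¹ := by
      rw [Real.exp_neg]
      exact inv_anti₀ two_pos (by linarith [Real.add_one_le_exp 1])
    have h2 : Real.exp (-1) ^ j ≤ 2⁻¹ ^ j := pow_le_pow_left₀ (Real.exp_pos _).le h1 j
    rw [← Real.exp_nat_mul] at h2
    rw [← Real.exp_add, show a + 24 * j + (25 - 25 * j) = a + 25 + j * -1 by ring, Real.exp_add]
    exact mul_le_mul_of_nonneg_left h2 (Real.exp_pos _).le
  refine (ENNReal.tsum_le_tsum h).trans (le_of_eq ?_)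
  rw [ENNReal.tsum_mul_left, ENNReal.tsum_geometric_two, ENNReal.ofReal_mul zero_le_two,
    ENNReal.ofReal_ofNat, mul_comm]

/-- The second moment argument. -/
lemma ScaledPos_core {G : Ω → ℝ} {E : Set Ω} (hE : MeasurableSet E) {V : ℕ → Set Ω} {a b m : ℝ}
    (hV : ∀ j : ℕ, P (V j) ≤ ENNReal.ofReal (Real.exp (25 - 25 * j)))
    (hpt : ∀ ω ∉ E, ∃ j : ℕ, ω ∈ V j ∧ 24 * G ω ≤ a + 24 * j) (ha : 0 ≤ a) (hb : b ≤ a)
    (hlow : ENNReal.ofReal (Real.exp (a + 29)) ≤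
      ∫⁻ ω, ENNReal.ofReal (Real.exp (24 * G ω)) ∂P + ENNReal.ofReal (Real.exp b))
    (hup : ∫⁻ ω, ENNReal.ofReal (Real.exp (48 * G ω)) ∂P ≤ ENNReal.ofReal (Real.exp m)) :
    ENNReal.ofReal (Real.exp (-m)) ≤ P E := by
  have pt : ∀ ω, ENNReal.ofReal (Real.exp (24 * G ω)) ≤
      (∑' j : ℕ, (toMeasurable P (V j)).indicator
        (fun _ => ENNReal.ofReal (Real.exp (a + 24 * j))) ω +
        E.indicator (fun _ => ENNReal.ofReal (Real.exp m)) ω) +
        ENNReal.ofReal (Real.exp (48 * G ω - m)) := fun ω => by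
    by_cases h : ω ∈ E
    · rw [indicator_of_mem h]
      rcases le_total (24 * G ω) m with h1 | h1
      · exact le_add_right (le_add_left (ENNReal.ofReal_le_ofReal (Real.exp_le_exp.2 h1)))
      · exact le_add_left (ENNReal.ofReal_le_ofReal (Real.exp_le_exp.2 (by linarith)))
    · obtain ⟨j, h1, h2⟩ := hpt ω h
      refine le_add_right (le_add_right (le_trans ?_ (ENNReal.le_tsum j)))
      rw [indicator_of_mem (subset_toMeasurable P (V j) h1)]
      exact ENNReal.ofReal_le_ofReal (Real.exp_le_exp.2 h2)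
  have m1 : Measurable fun ω => ∑' j : ℕ, (toMeasurable P (V j)).indicator
      (fun _ => ENNReal.ofReal (Real.exp (a + 24 * j))) ω :=
    Measurable.tsum fun j => measurable_const.indicator (measurableSet_toMeasurable P (V j))
  have m2 : Measurable fun ω => E.indicator (fun _ => ENNReal.ofReal (Real.exp m)) ω :=
    measurable_const.indicator hE
  have h1 := lintegral_mono (μ := P) pt
  rw [lintegral_add_left (m1.fun_add m2), lintegral_add_left m1, lintegral_indicator_const hE,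
    ScaledPos_shift] at h1
  have h2 : ENNReal.ofReal (Real.exp (-m)) * ∫⁻ ω, ENNReal.ofReal (Real.exp (48 * G ω)) ∂P ≤
      ENNReal.ofReal 1 := by
    refine (mul_le_mul_right hup _).trans (le_of_eq ?_)
    rw [← ENNReal.ofReal_mul (Real.exp_pos _).le, ← Real.exp_add, neg_add_cancel, Real.exp_zero]
  have h3 := hlow.trans (add_le_add_left (h1.trans
    (add_le_add (add_le_add_left (ScaledPos_sum hV) _) h2)) _)
  have hp : 0 ≤ (P E).toReal := ENNReal.toReal_nonneg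
  rw [← ENNReal.ofReal_toReal (measure_ne_top P E)] at h3 ⊢
  generalize (P E).toReal = p at hp h3 ⊢
  rw [← ENNReal.ofReal_mul (Real.exp_pos _).le, ← ENNReal.ofReal_add (by positivity) (by positivity),
    ← ENNReal.ofReal_add (by positivity) (by positivity),
    ← ENNReal.ofReal_add (by positivity) (by positivity),
    ENNReal.ofReal_le_ofReal_iff (by positivity)] at h3
  refine ENNReal.ofReal_le_ofReal ?_
  have e1 : Real.exp (a + 29) = Real.exp (a + 25) * Real.exp 4 := by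
    rw [← Real.exp_add]
    congr 1
    ring
  have e2 : 5 ≤ Real.exp 4 := by linarith [Real.add_one_le_exp 4]
  have e3 : Real.exp b ≤ Real.exp (a + 25) := Real.exp_le_exp.2 (by linarith)
  have e4 : 1 ≤ Real.exp (a + 25) := Real.one_le_exp (by linarith)
  have e5 : 1 ≤ Real.exp m * p := by linarith only [h3, e1, e2, e3, e4, mul_nonneg_of_nonpos_of_nonpos (Mathlib.Tactic.Linarith.sub_nonpos_of_le e2) (Mathlib.Tactic.Linarith.sub_nonpos_of_le e4)]
  rw [Real.exp_neg, inv_le_iff_one_le_mul₀' (Real.exp_pos m)]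
  exact e5

omit [IsProbabilityMeasure P] in
/-- From rational to real points. -/
lemma ScaledPos_real {B : ℕ → ℝ → Ω → ℝ} (hB : IsBMFamily P B) {n : ℕ} {c R x : ℝ} {ω : Ω}
    (hc : 0 < c) (hR : R ≤ c ^ 2 / 2) (h0 : 0 ≤ x) (hx : x < R)
    (h : ∀ q : ℚ, 0 ≤ q → (q : ℝ) ≤ R → Hs B n c q ω + (q : ℝ) ^ 2 ≤ 1) :
    Hs B n c x ω + x ^ 2 ≤ 1 := by
  by_contra hh
  have h1 : ContinuousOn (fun y : ℝ => lp (sh 1 (path B ω)) n (2 * y / c ^ 2) 1) (Icc 0 R) := by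
    refine (lp_continuousOn (f := sh 1 (path B ω)) (fun i => hB.cont _ ω) n).comp
      (f := fun y : ℝ => (2 * y / c ^ 2, (1 : ℝ))) (by fun_prop) fun y hy => ?_
    show 2 * y / c ^ 2 ≤ 1
    rw [div_le_one (by positivity)]
    linarith only [hR, hy, hy.2]
  have h2 : ContinuousOn (fun y : ℝ => Hs B n c y ω + y ^ 2) (Icc 0 R) := by
    unfold Hs
    fun_prop
  have h3 := (h2 x ⟨h0, hx.le⟩).eventually (lt_mem_nhds (not_le.1 hh))
  obtain ⟨η, hη, h4⟩ := Metric.mem_nhdsWithin_iff.1 h3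
  obtain ⟨q, q1, q2⟩ := exists_rat_btwn (lt_min hx (lt_add_of_pos_right x hη))
  have q3 : (0 : ℝ) ≤ q := h0.trans q1.le
  have q4 := (lt_min_iff.1 q2).1.le
  have q5 := (lt_min_iff.1 q2).2
  have h5 : 1 < Hs B n c q ω + (q : ℝ) ^ 2 := h4 ⟨by
    rw [Metric.mem_ball, Real.dist_eq, abs_lt]
    constructor <;> linarith only [q1, q5], q3, q4⟩
  exact h5.not_ge (h q (by exact_mod_cast q3) q4)

omit [IsProbabilityMeasure P] in
/-- The pointwise bound. -/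
lemma ScaledPos_pt {B : ℕ → ℝ → Ω → ℝ} (hB : IsBMFamily P B) {n : ℕ} {c R : ℝ} {ω : Ω}
    (hc : 0 < c) (hR : R ≤ c ^ 2 / 2)
    (h : ∀ q : ℚ, 0 ≤ q → (q : ℝ) ≤ R → Hs B n c q ω + (q : ℝ) ^ 2 ≤ 1)
    (hF : ∀ x ∈ Icc R (c ^ 2 / 2), c * B 0 (2 * x / c ^ 2) ω + 48 * x + Hs B n c x ω ≤ 0) :
    ∃ j : ℕ, (∃ t ∈ Icc (0 : ℝ) 1, (j - 1) / c < B 0 t ω - 25 * c / 2 * t) ∧
      24 * (c * (lp (drift (c ^ 3 + 48 * c / 2) (path B ω)) (n + 1) 0 1 - 2 * c ^ 3)) ≤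
        32046 + 24 * j := by
  have hz : ∃ t ∈ Icc (0 : ℝ) 1, (((0 : ℕ) : ℝ) - 1) / c < B 0 t ω - 25 * c / 2 * t :=
    ⟨0, ⟨le_rfl, zero_le_one⟩, by
      rw [hB.zero, Nat.cast_zero, div_lt_iff₀ hc]
      norm_num⟩
  obtain ⟨G, hG⟩ : ∃ G, G = lp (drift (c ^ 3 + 48 * c / 2) (path B ω)) (n + 1) 0 1 := ⟨_, rfl⟩
  rw [← hG]
  rcases le_total (c * (G - 2 * c ^ 3)) 1 with h1 | h1
  · exact ⟨0, hz, by rw [Nat.cast_zero]; linarith only [h1]⟩
  have hL : LB (drift (c ^ 3 + 48 * c / 2) (path B ω)) :=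
    (LB.of_continuous fun i => hB.cont i ω).drift _
  have h2 : G - 1 / c < lp (drift (c ^ 3 + 48 * c / 2) (path B ω)) (n + 1) 0 1 := by
    rw [← hG]
    linarith only [hc, one_div_pos.2 hc]
  obtain ⟨z, ⟨z0, z1⟩, h3⟩ := lp_first_split hL zero_le_one h2
  rw [sh_one_drift] at h3
  simp only [drift, path, if_true, hB.zero, mul_zero, add_zero, sub_zero] at h3
  have ez : 2 * (c ^ 2 * z / 2) / c ^ 2 = z := by field_simp
  have x0 : 0 ≤ c ^ 2 * z / 2 := by positivity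
  have x1 : c ^ 2 * z / 2 ≤ c ^ 2 / 2 := by clear * - c z z1; linarith only [z1, sq_nonneg c, mul_nonneg_of_nonpos_of_nonpos (Mathlib.Tactic.Linarith.sub_nonpos_of_le (sq_nonneg c)) (Mathlib.Tactic.Linarith.sub_nonpos_of_le z1)]
  have h4 : c * (G - 2 * c ^ 3) - 1 <
      c * B 0 z ω + 48 * (c ^ 2 * z / 2) + Hs B n c (c ^ 2 * z / 2) ω := by
    clear * - c G B z ω Ω n h3 hc ez
    have h5 := mul_lt_mul_of_pos_left h3 hc
    have h6 : c * (G - 1 / c) = c * G - 1 := by field_simp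
    rw [Hs, ez]
    rw [h6] at h5
    change _ < c * (_ + lp (sh 1 (path B ω)) n z 1) at h5
    linarith only [h5]
  have x2 : c ^ 2 * z / 2 < R := by
    clear * - c z R B ω Ω n hF x1 G h1 h4 ez
    by_contra hh
    have := hF _ ⟨not_lt.1 hh, x1⟩
    rw [ez] at this
    linarith only [h1, h4, this]
  have h7 := ScaledPos_real hB hc hR x0 x2 h
  have h8 := Nat.lt_floor_add_one (c * (B 0 z ω - 25 * c / 2 * z))
  refine ⟨⌊c * (B 0 z ω - 25 * c / 2 * z)⌋₊, ?_, by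
    clear * - c G B z ω Ω n h4 h7 h8
    linarith only [h4, h7, h8, sq_nonneg (c ^ 2 * z / 2 - 73 / 2), sq_nonneg ((1 : ℝ) * ((1 : ℝ) * c) ^ (2 : ℕ) * ((1 : ℝ) * z) - (1 : ℝ) * (73 : ℝ))]⟩
  rcases le_total 0 (c * (B 0 z ω - 25 * c / 2 * z)) with h9 | h9
  · refine ⟨z, ⟨z0, z1⟩, ?_⟩
    rw [div_lt_iff₀ hc]
    clear * - c B z ω h9
    linarith only [h9, Nat.floor_le h9]
  · rw [Nat.floor_of_nonpos h9]
    exact hz

theorem scaled_pos :
    ∃ (δ : ℝ) (R : ℕ) (c0 : ℝ), 0 < δ ∧ ∀ (B : ℕ → ℝ → Ω → ℝ) (n : ℕ) (c : ℝ), IsBMFamily P B →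
      c0 ≤ c → 1 ≤ c → (n : ℝ) = c ^ 6 →
      ENNReal.ofReal δ ≤ P {ω | ∃ x : ℚ, 0 ≤ x ∧ (x : ℝ) ≤ R ∧ 1 < Hs B n c x ω + (x : ℝ) ^ 2} := by
  obtain ⟨R, hR⟩ : ∃ R : ℕ, (R : ℝ) = 119811 := ⟨119811, by norm_num⟩
  obtain ⟨c1, hc1⟩ := scaled_far (P := P) (R := R) (a := 48) (y := R) (by rw [hR]; norm_num)
    (by rw [hR]; norm_num) (by rw [hR]; norm_num)
  refine ⟨Real.exp (-119809) / 2, R, max c1 30000, by positivity, fun B n c hB h0 hc hn => ?_⟩
  have hc0 : 0 < c := by linarith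
  have hc2 : 30000 ≤ c := (le_max_right _ _).trans h0
  have hc3 : 900000000 ≤ c ^ 2 := by linarith only [hc2, hc, mul_nonneg_of_nonpos_of_nonpos (Mathlib.Tactic.Linarith.sub_nonpos_of_le hc) (Mathlib.Tactic.Linarith.sub_nonpos_of_le hc2)]
  have hc4 : 0 < c ^ 3 := by positivity
  have hFar := hc1 B n c hB ((le_max_left _ _).trans h0) hc hn
  have hA : MeasurableSet
      {ω | ∃ x : ℚ, 0 ≤ x ∧ (x : ℝ) ≤ R ∧ 1 < Hs B n c x ω + (x : ℝ) ^ 2} := by
    rw [ofPred_exists]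
    refine MeasurableSet.iUnion fun x => ?_
    exact (MeasurableSet.const _).inter ((MeasurableSet.const _).inter
      (measurableSet_lt measurable_const ((measurable_Hs hB n c x).add_const _)))
  have er : ∀ a a' : ℝ, 0 ≤ a → a ≤ 48 → 0 ≤ a' → a' ≤ 144 →
      |In (n + 1) 1 (c ^ 3 + a * c / 2) (c ^ 3 + a' * c / 2) - (a' - a) * c ^ 4 -
        (a' ^ 3 - a ^ 3) / 24| ≤ 1 := fun a a' a0 a1 a2 a3 => by
    have h1 := In_scaled hc hn a0 a2 0
    have h2 : (a ^ 4 + a + a' ^ 4 + a') / c ^ 2 ≤ 1 := by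
      rw [div_le_one (by positivity)]
      have := pow_le_pow_left₀ a0 a1 4
      have := pow_le_pow_left₀ a2 a3 4
      linarith
    refine le_trans (le_of_eq ?_) (h1.trans h2)
    rw [mul_zero, zero_div, sub_zero]
    congr 1
    ring
  have key := ScaledPos_core (P := P)
    (G := fun ω => c * (lp (drift (c ^ 3 + 48 * c / 2) (path B ω)) (n + 1) 0 1 - 2 * c ^ 3))
    (hA.union (measurableSet_toMeasurable P {ω | ∃ x ∈ Icc (R : ℝ) (c ^ 2 / 2),
      0 < c * B 0 (2 * x / c ^ 2) ω + 48 * x + Hs B n c x ω}))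
    (V := fun j => {ω | ∃ t ∈ Icc (0 : ℝ) 1, (j - 1) / c < B 0 t ω - 25 * c / 2 * t})
    (a := 32046) (b := 18433) (m := 119809) (fun j => ?_) (fun ω hω => ?_) (by norm_num)
    (by norm_num) ?_ ?_
  · have h1 := key.trans ((measure_union_le _ _).trans
      (add_le_add_right ((measure_toMeasurable _).trans_le hFar) _))
    have h2 : Real.exp (-(R : ℝ)) + Real.exp (-((R : ℝ) ^ 2 / 4)) ≤ Real.exp (-119809) / 2 := by
      clear * - R hR
      have h3 : Real.exp (-((R : ℝ) ^ 2 / 4)) ≤ Real.exp (-(R : ℝ)) :=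
        Real.exp_le_exp.2 (by rw [hR]; norm_num)
      have h4 : Real.exp (-119809) = Real.exp (-(R : ℝ)) * (Real.exp 1 * Real.exp 1) := by
        rw [← Real.exp_add, ← Real.exp_add, hR]
        congr 1
        norm_num
      have h5 : 2 ≤ Real.exp 1 := by linarith [Real.add_one_le_exp 1]
      have h6 : 4 ≤ Real.exp 1 * Real.exp 1 := by linarith only [h5, mul_nonneg_of_nonpos_of_nonpos (Mathlib.Tactic.Linarith.sub_nonpos_of_le h5) (Mathlib.Tactic.Linarith.sub_nonpos_of_le h5)]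
      have h7 := Real.exp_pos (-(R : ℝ))
      rw [h4]
      linarith only [h3, h6, h7, mul_nonneg_of_nonpos_of_nonpos (Mathlib.Tactic.Linarith.sub_nonpos_of_le h6) (le_of_lt (Mathlib.Tactic.Linarith.sub_neg_of_lt h7))]
    have h3 := h1.trans (add_le_add_right (ENNReal.ofReal_le_ofReal h2) _)
    have h4 : ENNReal.ofReal (Real.exp (-119809)) =
        ENNReal.ofReal (Real.exp (-119809) / 2) + ENNReal.ofReal (Real.exp (-119809) / 2) := by
      rw [← ENNReal.ofReal_add (by positivity) (by positivity), add_halves]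
    rw [h4] at h3
    exact (ENNReal.add_le_add_iff_right ENNReal.ofReal_ne_top).1 h3
  · refine (ville_BM hB 0 (by positivity) 1 _).trans (le_of_eq ?_)
    congr 2
    field_simp
    ring
  · rw [mem_union, not_or] at hω
    refine ScaledPos_pt hB hc0 (R := R) (by rw [hR]; linarith only [hc3]) (fun q q0 q1 => ?_) fun x hx => ?_
    · exact not_lt.1 fun h => hω.1 ⟨q, q0, q1, h⟩
    · exact not_lt.1 fun h => hω.2 (subset_toMeasurable _ _ ⟨x, hx, h⟩)
  · have h1 := bm_mom hB (n + 1) (T := 1) (θ' := c ^ 3 + 48 * c / 2) (θ := c ^ 3 + 96 * c / 2)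
      one_pos (by linarith only [hc4]) (by linarith only [hc2])
    have e0 : 2 * (c ^ 3 + 48 * c / 2) - (c ^ 3 + 96 * c / 2) = c ^ 3 + 0 * c / 2 := by ring
    rw [e0] at h1
    have h2 := abs_le.1 (er 48 96 (by norm_num) (by norm_num) (by norm_num) (by norm_num))
    have h3 := abs_le.1 (er 0 96 (by norm_num) (by norm_num) (by norm_num) (by norm_num))
    have h4 := mul_le_mul_right h1 (ENNReal.ofReal (Real.exp (-(48 * c ^ 4))))
    rw [mul_add, ← ScaledPos_shift, ← ENNReal.ofReal_mul (Real.exp_pos _).le,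
      ← ENNReal.ofReal_mul (Real.exp_pos _).le, ← Real.exp_add, ← Real.exp_add] at h4
    refine (ENNReal.ofReal_le_ofReal (Real.exp_le_exp.2 (by linarith only [h2, h2.1]))).trans
      (h4.trans (add_le_add (le_of_eq (lintegral_congr fun ω => ?_))
        (ENNReal.ofReal_le_ofReal (Real.exp_le_exp.2 (by linarith only [h3, h3.2])))))
    congr 2
    ring
  · have h1 := bm_up hB (n + 1) (T := 1) (θ' := c ^ 3 + 48 * c / 2) (θ := c ^ 3 + 144 * c / 2)
      one_pos (by linarith only [hc2, hc4]) (by linarith only [hc2])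
    have h2 := abs_le.1 (er 48 144 (by norm_num) (by norm_num) (by norm_num) (by norm_num))
    have h4 := mul_le_mul_right h1 (ENNReal.ofReal (Real.exp (-(96 * c ^ 4))))
    rw [← ScaledPos_shift, ← ENNReal.ofReal_mul (Real.exp_pos _).le, ← Real.exp_add] at h4
    refine le_trans (le_of_eq (lintegral_congr fun ω => ?_))
      (h4.trans (ENNReal.ofReal_le_ofReal (Real.exp_le_exp.2 (by linarith only [h2, h2.2]))))
    congr 2
    ring

end Pool.Agent.Work.MP_8495a2_pr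
end
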